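import Pool.Agent.Work.MP_7cb3ca_co.C3.Spec

/-! The number of letters before a given letter or a fourth colour; the marking of new letters. -/

namespace Pool.Agent.Work.MP_7cb3ca_co.C3

open P3

/-- The loop of `zt`. -/
noncomputable def ztA (x V o e r n : ℕ) : ℕ → ℕ → ℕ → ℕ :=
  Nat.rec (motive := fun _ => ℕ → ℕ → ℕ → ℕ) (fun _ _ _ => r)
    (fun _ ih i s c => cnd (Nat.ble e i) r (cnd (Nat.beq (gz V (o + i)) x) i
      (cnd (Nat.beq (bt s (gz V (o + i))) 1) (ih (i + 1) s c) (cnd (Nat.beq c 3) i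
        (ih (i + 1) (s ||| Nat.shiftLeft 1 (gz V (o + i))) (c + 1)))))) n

lemma ztA_succ (x V o e r n i s c : ℕ) : ztA x V o e r (n + 1) i s c =
    if e ≤ i then r else if gz V (o + i) = x then i else
      if s.testBit (gz V (o + i)) = true then ztA x V o e r n (i + 1) s c else if c = 3 then i else
        ztA x V o e r n (i + 1) (s ||| 2 ^ gz V (o + i)) (c + 1) := by
  have : ztA x V o e r (n + 1) i s c = cnd (Nat.ble e i) r (cnd (Nat.beq (gz V (o + i)) x) i
      (cnd (Nat.beq (bt s (gz V (o + i))) 1) (ztA x V o e r n (i + 1) s c) (cnd (Nat.beq c 3) i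
        (ztA x V o e r n (i + 1) (s ||| Nat.shiftLeft 1 (gz V (o + i))) (c + 1))))) := rfl
  rw [this]
  simp only [cnd_eq, Nat.ble_eq, Nat.beq_eq, bt_eq, shl, one_mul,
    Nat.testBit_eq_decide_div_mod_eq, decide_eq_true_eq]

theorem zt_spec {ψ : ℕ → ℕ} (hψ : Function.Injective ψ) {X x V o e : ℕ} {w : List ℕ}
    (hV : ∀ i < e, gz V (o + i) = ψ (gd w i)) (hx : ∀ i < e, ψ (gd w i) = X ↔ gd w i = x) (r : ℕ) :
    zt X V o e r = zeta x w r ∨ (zt X V o e r = r ∧ ∀ i < e, gd w i ≠ x) := by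
  have key : ∀ n i s c, i + n = r → Zok x w i →
      (∀ a, s.testBit (ψ a) = true ↔ a ∈ (Finset.range i).image (gd w)) →
      c = ((Finset.range i).image (gd w)).card →
      ztA X V o e r n i s c = zeta x w r ∨ (ztA X V o e r n i s c = r ∧ ∀ i < e, gd w i ≠ x) := by
    intro n
    induction n with
    | zero =>
      intro i s c h1 h2 _ _
      obtain rfl : i = r := h1
      exact Or.inl (Nat.findGreatest_eq h2).symm
    | succ n ih =>
      intro i s c h1 h2 h3 h4
      have h5 : (∀ z, i < z → ¬ Zok x w z) → i = zeta x w r := fun h =>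
        (Nat.findGreatest_eq_iff.2 ⟨by omega, fun _ => h2, fun z k _ => h z k⟩).symm
      rw [ztA_succ]
      by_cases k1 : e ≤ i
      · rw [if_pos k1]
        exact Or.inr ⟨rfl, fun j hj => h2.1 j (by omega)⟩
      rw [if_neg k1, hV i (by omega)]
      by_cases k2 : gd w i = x
      · rw [if_pos ((hx i (by omega)).2 k2)]
        exact Or.inl (h5 fun z k h => h.1 i k k2)
      rw [if_neg fun h => k2 ((hx i (by omega)).1 h)]
      have h6 : ∀ j < i + 1, gd w j ≠ x := fun j hj => by
        rcases (Nat.lt_succ_iff.1 hj).eq_or_lt with rfl | k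
        exacts [k2, h2.1 j k]
      have h7 := Finset.image_insert (gd w) i (Finset.range i)
      rw [← Finset.range_add_one] at h7
      by_cases k3 : gd w i ∈ (Finset.range i).image (gd w)
      · rw [if_pos ((h3 _).2 k3)]
        rw [Finset.insert_eq_of_mem k3] at h7
        exact ih _ _ _ (by omega) ⟨h6, h7 ▸ h2.2⟩ (h7 ▸ h3) (h7 ▸ h4)
      rw [if_neg fun h => k3 ((h3 _).1 h)]
      have h8 := Finset.card_insert_of_notMem k3
      rw [← h7] at h8
      by_cases k4 : c = 3
      · rw [if_pos k4]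
        refine Or.inl (h5 fun z k h => ?_)
        have := Finset.card_le_card (Finset.image_subset_image (f := gd w)
          (Finset.range_subset_range.2 (Nat.succ_le_of_lt k)))
        have := h.2
        simp only [Nat.succ_eq_add_one] at *
        omega
      rw [if_neg k4]
      refine ih _ _ _ (by omega) ⟨h6, by have := h2.2; omega⟩ (fun a => ?_) (by omega)
      rw [h7, Finset.mem_insert, Nat.testBit_or, Bool.or_eq_true, h3, Nat.testBit_two_pow,
        decide_eq_true_eq, hψ.eq_iff, or_comm, eq_comm]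
  exact key r 0 0 0 (zero_add r) ⟨fun _ h => by omega, by simp⟩ (by simp) (by simp)

lemma gd_le_sum (w : List ℕ) (i : ℕ) : gd w i ≤ w.sum := by
  by_cases h : i < w.length
  · exact List.le_sum_of_mem (gd_mem h)
  · unfold gd
    rw [List.getD_eq_default _ _ (by omega)]
    omega

lemma zeta0_eq (w : List ℕ) (r : ℕ) : zeta0 w r = zeta (w.sum + 1) w r := by
  unfold zeta0 zeta
  congr 1
  funext z
  exact propext ⟨fun h => ⟨fun i _ e => by have := gd_le_sum w i; omega, h⟩, fun h => h.2⟩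

theorem zt0_spec {ψ : ℕ → ℕ} (hψ : Function.Injective ψ) {V e : ℕ} {w : List ℕ}
    (hV : ∀ i < e, gz V (0 + i) = ψ (gd w i)) (hx : ∀ i < e, ψ (gd w i) ≠ 63) (r : ℕ) :
    zt 63 V 0 e r = zeta0 w r ∨ zt 63 V 0 e r = r := by
  rw [zeta0_eq]
  exact (zt_spec hψ hV (fun i hi => ⟨fun h => absurd h (hx i hi),
    fun h => by have := gd_le_sum w i; omega⟩) r).imp id And.left

lemma zeta_le (x : ℕ) (w : List ℕ) (r : ℕ) : zeta x w r ≤ r := Nat.findGreatest_le r

lemma zeta0_le (w : List ℕ) (r : ℕ) : zeta0 w r ≤ r := Nat.findGreatest_le r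

/-- The marked letters of a list that have no slot, in the order of `born4`. -/
def newl (Q : ℕ → Bool) (y : ℕ) : List ℕ → List ℕ → List ℕ
  | [], o => o
  | a :: l, o => newl Q y l (if Q a = true ∧ 5 < a ∧ a ≠ y then a :: o else o)

lemma mem_newl {Q : ℕ → Bool} {y : ℕ} (l o : List ℕ) (a : ℕ) :
    a ∈ newl Q y l o ↔ a ∈ o ∨ (a ∈ l ∧ Q a = true ∧ 5 < a ∧ a ≠ y) := by
  induction l generalizing o with
  | nil => simp [newl]
  | cons b l ih =>
    rw [newl, ih]
    split_ifs with h
    · simp only [List.mem_cons]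
      constructor
      · rintro ((rfl | k) | k)
        exacts [Or.inr ⟨Or.inl rfl, h⟩, Or.inl k, Or.inr ⟨Or.inr k.1, k.2⟩]
      · rintro (k | ⟨rfl | k, k'⟩)
        exacts [Or.inl (Or.inr k), Or.inl (Or.inl rfl), Or.inr ⟨k, k'⟩]
    · simp only [List.mem_cons]
      constructor
      · rintro (k | k)
        exacts [Or.inl k, Or.inr ⟨Or.inr k.1, k.2⟩]
      · rintro (k | ⟨rfl | k, k'⟩)
        exacts [Or.inl k, absurd k' h, Or.inr ⟨k, k'⟩]

lemma born4_zero (f : ℕ → ℕ → List ℕ → ℕ → Bool) (y : ℕ) (l : List ℕ) (acc : ℕ) (o : List ℕ)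
    (n : ℕ) : born4 f y l 0 acc o n = f 0 acc o n := by
  cases l <;> rfl

lemma born4_succ {f : ℕ → ℕ → List ℕ → ℕ → Bool} {y a : ℕ} {l : List ℕ} {k acc : ℕ} {o : List ℕ}
    {n : ℕ} (h : born4 f y (a :: l) (k + 1) acc o n = true) :
    born4 f y l (k + 1) acc o n = true ∧ (if a ≤ 5 ∨ a = y then born4 f y l k (acc ||| up a) o n
      else born4 f y l k (acc ||| up a) (a :: o) (n + 1)) = true := by
  have : born4 f y (a :: l) (k + 1) acc o n = bnd (born4 f y l (k + 1) acc o n)
      (cnd (bor (Nat.ble a 5) (Nat.beq a y)) (born4 f y l k (acc ||| up a) o n)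
        (born4 f y l k (acc ||| up a) (a :: o) (n + 1))) := rfl
  rw [this, bnd_eq] at h
  split_ifs at h with h1
  refine ⟨h1, ?_⟩
  rw [cnd_eq, bor_eq] at h
  simp only [Nat.ble_eq] at h
  by_cases k1 : a ≤ 5
  · simpa [k1] using h
  · simpa [k1] using h

theorem born4_sound {Q : ℕ → Bool} {f : ℕ → ℕ → List ℕ → ℕ → Bool} {y : ℕ} (l : List ℕ) :
    ∀ k acc o n, born4 f y l k acc o n = true → (l.filter Q).length ≤ k →
      f (k - (l.filter Q).length) (upm Q l acc) (newl Q y l o)
        (n + (newl Q y l o).length - o.length) = true := by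
  induction l with
  | nil =>
    intro k acc o n h _
    rw [newl, Nat.add_sub_cancel]
    exact h
  | cons a l ih =>
    intro k acc o n h hk
    rw [upm, newl]
    cases hP : Q a with
    | true =>
      simp only [List.filter_cons, hP, if_true, List.length_cons, true_and] at hk ⊢
      obtain ⟨k, rfl⟩ : ∃ j, k = j + 1 := ⟨k - 1, by omega⟩
      have h2 := (born4_succ h).2
      rw [Nat.add_sub_add_right]
      by_cases k1 : a ≤ 5 ∨ a = y
      · rw [if_pos k1] at h2
        rw [if_neg (by omega)]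
        exact ih _ _ _ _ h2 (by omega)
      · rw [if_neg k1] at h2
        rw [if_pos (by omega)]
        have := ih _ _ _ _ h2 (by omega)
        rwa [List.length_cons, add_right_comm n 1, Nat.add_sub_add_right] at this
    | false =>
      simp only [List.filter_cons, hP, Bool.false_eq_true, if_false, false_and] at hk ⊢
      refine ih k _ _ _ ?_ hk
      cases k with
      | zero => rwa [born4_zero] at h ⊢
      | succ k => exact (born4_succ h).1

/-- The option that the lists realise passes the check. -/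
theorem opt4_sound {Q : ℕ → Bool} {f : ℕ → ℕ → List ℕ → ℕ → Bool} {k y n0 : ℕ} (hk : k ≤ 3)
    {C : List ℕ} {k' : ℕ}
    (h : keep (fun m => born4 f y C k' m [] n0) (lM k) k' (mM k + 2 ^ 127) = true)
    (h1 : ((lM k).filter fun a => !Q a).length = k') (h2 : (C.filter Q).length ≤ k')
    (hC : ∀ a ∈ C, a < 62) :
    ∃ m, f (k' - (C.filter Q).length) m (newl Q y C []) (n0 + (newl Q y C []).length) = true ∧
      mark2 m 62 = 0 ∧ mark2 m 63 = 2 ∧ ∀ a < 62, mark2 m a =
        (if a ∈ lM k then 1 else 0) + 2 * if (a ∈ lM k ∨ a ∈ C) ∧ Q a = true then 1 else 0 := by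
  have h0 := keep_sound (P := Q) _ _ _ h h1
  have h3 := born4_sound C _ _ _ _ h0 h2
  have h4 : ∀ k ≤ 3, mM k < 2 ^ 12 ∧ ∀ a ∈ lM k, a < 6 := by decide +kernel
  have h5 : ∀ i < 127, (mM k + 2 ^ 127).testBit i = (mM k).testBit i := fun i hi => by
    rw [add_comm, Nat.testBit_two_pow_add_gt hi]
  have h6 : (mM k + 2 ^ 127).testBit 127 = true := by
    rw [add_comm, Nat.testBit_two_pow_add_eq, Nat.testBit_lt_two_pow
      ((h4 k hk).1.trans_le (Nat.pow_le_pow_right (by omega) (by omega)))]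
    rfl
  have h7 : ∀ a < 64, (upm Q C (upm Q (lM k) (mM k + 2 ^ 127))).testBit (a + a) = true ↔
      a ∈ lM k := fun a ha => by
    simp only [upm_bit, h5 _ (show a + a < 127 by omega), (mM_bit hk a).1]
    refine ⟨?_, fun h => Or.inl (Or.inl h)⟩
    rintro ((h | ⟨b, -, -, h⟩) | ⟨b, -, -, h⟩)
    exacts [h, by omega, by omega]
  have h8 : ∀ a < 63, (upm Q C (upm Q (lM k) (mM k + 2 ^ 127))).testBit (a + a + 1) = true ↔
      (a ∈ lM k ∨ a ∈ C) ∧ Q a = true := fun a ha => by
    simp only [upm_bit, h5 _ (show a + a + 1 < 127 by omega), (mM_bit hk a).2]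
    constructor
    · rintro ((h | ⟨b, h2, h3, h⟩) | ⟨b, h2, h3, h⟩)
      · simp at h
      · rw [show a = b by omega]; exact ⟨Or.inl h2, h3⟩
      · rw [show a = b by omega]; exact ⟨Or.inr h2, h3⟩
    · rintro ⟨ha | ha, h⟩
      exacts [Or.inl (Or.inr ⟨a, ha, h, rfl⟩), Or.inr ⟨a, ha, h, rfl⟩]
  refine ⟨_, h3, ?_, ?_, fun a ha => ?_⟩
  · rw [mark2_test, if_neg fun k => ?_, if_neg fun k => ?_]
    · rcases ((h8 62 (by omega)).1 k).1 with k | k
      exacts [absurd ((h4 _ hk).2 _ k) (by omega), absurd (hC _ k) (by omega)]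
    · exact absurd ((h4 _ hk).2 _ ((h7 62 (by omega)).1 k)) (by omega)
  · rw [mark2_test, if_neg fun k => ?_, if_pos ((upm_bit _ _ _).2 (Or.inl ((upm_bit _ _ _).2
      (Or.inl h6))))]
    exact absurd ((h4 _ hk).2 _ ((h7 63 (by omega)).1 k)) (by omega)
  · rw [mark2_test]
    simp only [h7 a (by omega), h8 a (by omega)]

end Pool.Agent.Work.MP_7cb3ca_co.C3
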