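import Pool.Agent.Work.MP_7cb3ca_co.C3.Vec
import Pool.Agent.Work.MP_7cb3ca_co.C3.Zt

/-! The charges for the matches that end at the first letter. -/

namespace Pool.Agent.Work.MP_7cb3ca_co.C3

open Finset P3

/-- The list of entries that `anch` builds. -/
noncomputable def ancL (R LM MU : ℕ → ℕ) (m hu r1 ts Z e x : ℕ) : ℕ → EV
  | 0 => .nil
  | p + 1 =>
    if gz Z (p + 1) = x ∧ LM (p + 1 + lcp Z (p + 1) (e - (p + 1)) 0) &&& m ≠ 0 then
      if lcp Z (p + 1) (e - (p + 1)) 0 ≤ anM MU r1 Z e (p + 1) (lcp Z (p + 1) (e - (p + 1)) 0) then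
        .cons (if ts ≤ p + 1 + lcp Z (p + 1) (e - (p + 1)) 0 then 99
            else p + 1 + lcp Z (p + 1) (e - (p + 1)) 0)
          (LM (p + 1 + lcp Z (p + 1) (e - (p + 1)) 0) &&& m) 0
          (R (6601 + anM MU r1 Z e (p + 1) (lcp Z (p + 1) (e - (p + 1)) 0) -
            lcp Z (p + 1) (e - (p + 1)) 0)) (ancL R LM MU m hu r1 ts Z e x p)
      else .cons 99 (LM (p + 1 + lcp Z (p + 1) (e - (p + 1)) 0) &&& m) 0 hu
        (ancL R LM MU m hu r1 ts Z e x p)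
    else ancL R LM MU m hu r1 ts Z e x p

lemma anc_B (R : ℕ → ℕ) (hu ts b nd l mu : ℕ) (ih : (EV → Bool) → Bool) (F : EV → Bool) :
    anB R hu ts b nd l mu ih F = if b ≤ mu then
      ih fun a => F (.cons (if ts ≤ nd then 99 else nd) l 0 (R (6601 + mu - b)) a)
      else ih fun a => F (.cons 99 l 0 hu a) := by
  have : anB R hu ts b nd l mu ih F = cnd (Nat.ble b mu)
      (ih fun a => F (.cons (cnd (Nat.ble ts nd) 99 nd) l 0 (R (6601 + mu - b)) a))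
      (ih fun a => F (.cons 99 l 0 hu a)) := rfl
  rw [this]
  simp only [cnd_eq, Nat.ble_eq]

lemma anc_A (R LM MU : ℕ → ℕ) (m hu r1 ts Z e p : ℕ) (ih : (EV → Bool) → Bool) (F : EV → Bool) :
    anA R LM MU m hu r1 ts Z e p ih F = if LM (p + lcp Z p (e - p) 0) &&& m = 0 then ih F else
      anB R hu ts (lcp Z p (e - p) 0) (p + lcp Z p (e - p) 0) (LM (p + lcp Z p (e - p) 0) &&& m)
        (anM MU r1 Z e p (lcp Z p (e - p) 0)) ih F := by
  have : anA R LM MU m hu r1 ts Z e p ih F =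
      cnd (Nat.beq (LM (p + lcp Z p (e - p) 0) &&& m) 0) (ih F)
      (anB R hu ts (lcp Z p (e - p) 0) (p + lcp Z p (e - p) 0) (LM (p + lcp Z p (e - p) 0) &&& m)
        (anM MU r1 Z e p (lcp Z p (e - p) 0)) ih F) := rfl
  rw [this]
  simp only [cnd_eq, Nat.beq_eq]

lemma anc_H (A : ℕ → ((EV → Bool) → Bool) → (EV → Bool) → Bool) (Z x n : ℕ) (F : EV → Bool) :
    anch A Z x (n + 1) F =
      if gz Z (n + 1) = x then A (n + 1) (anch A Z x n) F else anch A Z x n F := by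
  have : anch A Z x (n + 1) F = cnd (Nat.beq (Nat.land (Nat.shiftRight Z (6 * n + 30)) 63) x)
      (A (n + 1) (anch A Z x n) F) (anch A Z x n F) := rfl
  rw [this, show 6 * n + 30 = 6 * (n + 1) + 24 by ring]
  simp only [cnd_eq, Nat.beq_eq]
  rfl

lemma anc_cons (n l g row : ℕ) (t : EV) (dt sh : ℕ) : chA (.cons n l g row t) dt sh =
    (if n ≤ dt then 0 else blk row sh l) + chA t dt sh := by
  have : chA (.cons n l g row t) dt sh =
      cnd (Nat.ble n dt) (chA t dt sh) (blk row sh l + chA t dt sh) := rfl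
  rw [this]
  simp only [cnd_eq, Nat.ble_eq, ite_add, zero_add]

/-- The charge for the period `p` with match of length `b` and bound `mu`. -/
noncomputable def ancT (R LM : ℕ → ℕ) (m hu ts Z x dt sh p b mu : ℕ) : ℕ :=
  if gz Z p = x ∧ LM (p + b) &&& m ≠ 0 then
    if b ≤ mu then
      if (if ts ≤ p + b then 99 else p + b) ≤ dt then 0
      else blk (R (6601 + mu - b)) sh (LM (p + b) &&& m)
    else if 99 ≤ dt then 0 else blk hu sh (LM (p + b) &&& m)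
  else 0

lemma anc_succ (R LM MU : ℕ → ℕ) (m hu r1 ts Z e x dt sh n : ℕ) :
    chA (ancL R LM MU m hu r1 ts Z e x (n + 1)) dt sh =
      ancT R LM m hu ts Z x dt sh (n + 1) (lcp Z (n + 1) (e - (n + 1)) 0)
        (anM MU r1 Z e (n + 1) (lcp Z (n + 1) (e - (n + 1)) 0)) +
      chA (ancL R LM MU m hu r1 ts Z e x n) dt sh := by
  rw [ancL, ancT]
  by_cases h1 : gz Z (n + 1) = x ∧ LM (n + 1 + lcp Z (n + 1) (e - (n + 1)) 0) &&& m ≠ 0
  · rw [if_pos h1, if_pos h1]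
    by_cases h2 : lcp Z (n + 1) (e - (n + 1)) 0 ≤
        anM MU r1 Z e (n + 1) (lcp Z (n + 1) (e - (n + 1)) 0)
    · rw [if_pos h2, if_pos h2, anc_cons]
    · rw [if_neg h2, if_neg h2, anc_cons]
  · rw [if_neg h1, if_neg h1, zero_add]

lemma anc_dg0 (i : ℕ) : dg 32 0 i = 0 := by simp [dg]

lemma ancT_le (R LM : ℕ → ℕ) (m hu ts Z x dt sh p b mu i : ℕ) :
    dg 32 (ancT R LM m hu ts Z x dt sh p b mu) i ≤ dg 32 m i := by
  have h : ∀ row, dg 32 (blk row sh (LM (p + b) &&& m)) i ≤ dg 32 m i := fun row => by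
    rw [blk_eq, dg_and, dg_and]
    exact Nat.and_le_right.trans Nat.and_le_right
  have h0 : dg 32 0 i ≤ dg 32 m i := (anc_dg0 i).trans_le (Nat.zero_le _)
  unfold ancT
  generalize (if ts ≤ p + b then 99 else p + b) = q
  split_ifs
  exacts [h0, h _, h0, h _, h0]

lemma anc_bd {K : ℕ} {T : ℕ → ℕ} (hT : ∀ p i, dg 32 (T p) i ≤ dg 32 (rp 32 K * 16777215) i)
    (n i : ℕ) : ∑ p ∈ Icc 1 n, dg 32 (T p) i ≤ if i < K then n * (2 ^ 24 - 1) else 0 := by
  refine (sum_le_card_nsmul _ _ _ fun p _ => hT p i).trans_eq ?_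
  rw [rep24 i, Nat.card_Icc, smul_eq_mul, mul_ite]
  rfl

lemma anc_ar {a b n : ℕ} (c : Prop) [Decidable c] (hn : n + 1 ≤ 56)
    (h1 : a ≤ if c then 16777215 else 0) (h2 : b ≤ if c then n * (2 ^ 24 - 1) else 0) :
    a + b < 2 ^ 32 := by
  split_ifs at h1 h2 <;> omega

lemma anc_sum (R LM MU : ℕ → ℕ) (K hu r1 ts Z e x dt sh : ℕ) {n : ℕ} (hn : n ≤ 56) (i : ℕ) :
    dg 32 (chA (ancL R LM MU (rp 32 K * 16777215) hu r1 ts Z e x n) dt sh) i =
      ∑ p ∈ Icc 1 n, dg 32 (ancT R LM (rp 32 K * 16777215) hu ts Z x dt sh p (lcp Z p (e - p) 0)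
        (anM MU r1 Z e p (lcp Z p (e - p) 0))) i := by
  induction n generalizing i with
  | zero => exact anc_dg0 i
  | succ n ih =>
    rw [anc_succ, sum_Icc_succ_top (Nat.le_add_left 1 n), dg_add, ih (by omega), add_comm]
    intro k
    refine anc_ar (k < K) hn ((ancT_le ..).trans_eq (rep24 k)) ?_
    rw [ih (by omega)]
    exact anc_bd (fun _ _ => ancT_le ..) n k

lemma anc_lcp (Z p n i l : ℕ) (h1 : i ≤ l) (h2 : l ≤ i + n)
    (h3 : ∀ k < l, gz Z k = gz Z (p + k)) (h4 : l < i + n → gz Z l ≠ gz Z (p + l)) :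
    lcp Z p n i = l := by
  induction n generalizing i with
  | zero => exact le_antisymm h1 h2
  | succ n ih =>
    have : lcp Z p (n + 1) i = cnd (Nat.beq (gz Z i) (gz Z (p + i))) (lcp Z p n (i + 1)) i := rfl
    rw [this]
    simp only [cnd_eq, Nat.beq_eq]
    rcases h1.eq_or_lt with rfl | h
    · rw [if_neg (h4 (by omega))]
    · rw [if_pos (h3 i h)]
      exact ih _ h (by omega) fun k => h4 (by omega)

lemma anc_M (MU : ℕ → ℕ) (r1 Z e p b : ℕ) :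
    anM MU r1 Z e p b = dg 8 (MU p) (zt (gz Z (b - 1)) Z b (e - b) r1) := by
  have : anM MU r1 Z e p b = blk (MU p) (8 * zt (gz Z (b - 1)) Z b (e - b) r1) (2 ^ 8 - 1) := rfl
  rw [this, blk_eq, Nat.and_two_pow_sub_one_eq_mod, dg]

lemma anc_drop (u : List ℕ) (b i : ℕ) : gd (u.drop b) i = gd u (b + i) := by
  simp [gd]

lemma anc_lane {K M j : ℕ} (hj : j < K) (hF : Full M j) :
    dg 32 (M &&& rp 32 K * 16777215) j = 2 ^ 24 - 1 := by
  rw [dg_and, rep24 j, if_pos hj, ← hF, dig_dg]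
  exact Nat.and_two_pow_sub_one_eq_mod _ 24

lemma anc_blk {K M j : ℕ} (hj : j < K) (hF : Full M j) (row r : ℕ) :
    dg 32 (blk row (32 * K * r) (M &&& rp 32 K * 16777215)) j = dig row (32 * K * r + 32 * j) := by
  rw [blk_eq, dg_and, anc_lane hj hF, Nat.and_two_pow_sub_one_eq_mod, mul_assoc, dg_div, ← mul_add,
    dig_dg]

lemma anc_val {P : Par} {ψ : ℕ → ℕ} (hψ : Function.Injective ψ) {u : List ℕ} {Z d p : ℕ}
    (hu : d + 1 ≤ u.length) (hZ : ∀ i ≤ d, gz Z i = ψ (gd u i)) (ht : tm u ≤ d + 1)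
    (hp : p ∈ anc u) : p ∈ Icc 1 d ∧ gz Z p = ψ (gd u 0) ∧ lcp Z p (d + 1 - p) 0 = lm u p ∧
      anM P.MU P.r1 Z (d + 1) p (lm u p) = P.mu u p := by
  simp only [anc, mem_filter, mem_Icc] at hp
  obtain ⟨⟨h1, -⟩, h2, h3⟩ := hp
  refine ⟨mem_Icc.2 ⟨h1, by omega⟩, ?_, anc_lcp _ _ _ _ _ (Nat.zero_le _) (by omega)
    (fun k hk => ?_) fun h => ?_, ?_⟩
  · rw [hZ p (by omega), lm_match u p 0 h2, add_zero]
  · rw [hZ _ (by omega), hZ _ (by omega), lm_match u p k hk]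
  · rw [hZ _ (by omega), hZ _ (by omega)]
    exact hψ.ne (lm_stop u h1 (by omega))
  · rw [anc_M, hZ _ (by omega), Par.mu]
    rcases zt_spec hψ (X := ψ (gd u (lm u p - 1))) (x := gd u (lm u p - 1)) (V := Z) (o := lm u p)
      (e := d + 1 - lm u p) (w := u.drop (lm u p))
      (fun i hi => by rw [anc_drop, hZ _ (by omega)]) (fun i _ => hψ.eq_iff) P.r1 with h | h
    · rw [h]
    · refine absurd ?_ (h.2 (p - 1) (by omega))
      rw [anc_drop, lm_match u p (lm u p - 1) (by omega)]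
      congr 1
      omega

theorem anch_eq (R LM MU : ℕ → ℕ) (m hu r1 ts Z e x n : ℕ) (F : EV → Bool) :
    anch (anA R LM MU m hu r1 ts Z e) Z x n F = F (ancL R LM MU m hu r1 ts Z e x n) := by
  induction n generalizing F with
  | zero => rfl
  | succ n ih =>
    rw [anc_H, anc_A, anc_B, ancL]
    simp only [ih]
    by_cases h1 : gz Z (n + 1) = x
    · by_cases h2 : LM (n + 1 + lcp Z (n + 1) (e - (n + 1)) 0) &&& m = 0
      · rw [if_pos h1, if_pos h2, if_neg fun h => h.2 h2]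
      · rw [if_pos h1, if_neg h2, if_pos (And.intro h1 h2), apply_ite F]
    · rw [if_neg h1, if_neg fun h => h1 h.1]

theorem chA_le (R LM MU : ℕ → ℕ) (K hu r1 ts Z e x dt sh : ℕ) {n : ℕ} (hn : n ≤ 56) (i : ℕ) :
    dg 32 (chA (ancL R LM MU (rp 32 K * 16777215) hu r1 ts Z e x n) dt sh) i ≤
      if i < K then n * (2 ^ 24 - 1) else 0 := by
  rw [anc_sum _ _ _ _ _ _ _ _ _ _ _ _ hn]
  exact anc_bd (fun _ _ => ancT_le ..) n i

theorem chA_lt (R LM MU : ℕ → ℕ) (K hu r1 ts Z e x dt sh : ℕ) {n : ℕ} (hn : n ≤ 56) :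
    chA (ancL R LM MU (rp 32 K * 16777215) hu r1 ts Z e x n) dt sh < 2 ^ (32 * K) :=
  lt_of_dg (by omega) fun i hi => Nat.le_zero.1
    ((chA_le R LM MU K hu r1 ts Z e x dt sh hn i).trans_eq (if_neg (by omega)))

theorem chA_ge {P : Par} {ψ : ℕ → ℕ} (hψ : Function.Injective ψ) (R : ℕ → ℕ) {u : List ℕ}
    {Z d dt r j : ℕ} (hu : d + 1 ≤ u.length) (h55 : d ≤ 55) (hZ : ∀ i ≤ d, gz Z i = ψ (gd u i))
    (ht : tm u ≤ d + 1) (hj : j < P.K) (hF : Full (P.LM (tm u)) j) (hr : r < 10) (hdt : dt < 99)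
    {X : ℕ} (hX : X = dg 32 (chA (ancL R P.LM P.MU (rp 32 P.K * 16777215)
      (rpP (rp 32 P.K * 16777215) (32 * P.K) 10) P.r1 P.ts Z (d + 1) (ψ (gd u 0)) d) dt
      (32 * P.K * r)) j) :
    ((∃ p ∈ anc u, P.mu u p < lm u p) → 2 ^ 24 - 1 ≤ X) ∧
      ((∀ p ∈ anc u, lm u p ≤ P.mu u p) → dt < tm u ∨ P.ts ≤ tm u →
        ∑ p ∈ anc u, dig (R (6601 + P.mu u p - lm u p)) (32 * P.K * r + 32 * j) ≤ X) := by
  rw [anc_sum _ _ _ _ _ _ _ _ _ _ _ _ (h55.trans (by omega))] at hX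
  have h0 : P.LM (tm u) &&& rp 32 P.K * 16777215 ≠ 0 := fun h => by
    have := anc_lane hj hF
    rw [h, anc_dg0] at this
    omega
  have he : ∀ p ∈ anc u, p + lm u p = tm u := fun p hp => (mem_filter.1 hp).2.2
  rw [hX]
  refine ⟨fun ⟨p, hp, h⟩ => ?_, fun h k => ?_⟩
  · obtain ⟨h1, h2, h3, h4⟩ := anc_val (P := P) hψ hu hZ ht hp
    refine le_trans (le_of_eq ?_) (single_le_sum (fun _ _ => Nat.zero_le _) h1)
    rw [h3, h4, ancT, he p hp, if_pos ⟨h2, h0⟩, if_neg h.not_ge, if_neg hdt.not_ge, anc_blk hj hF,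
      mul_assoc, ← mul_add, dig_dg, dg_rpP rep24.lt _ _ hj, if_pos hr, rep24 j, if_pos hj]
    norm_num
  · refine le_trans (sum_le_sum fun p hp => le_of_eq ?_)
      (sum_le_sum_of_subset fun p hp => (anc_val (P := P) hψ hu hZ ht hp).1)
    obtain ⟨-, h2, h3, h4⟩ := anc_val (P := P) hψ hu hZ ht hp
    rw [h3, h4, ancT, he p hp, if_pos ⟨h2, h0⟩, if_pos (h p hp), if_neg, anc_blk hj hF]
    split_ifs <;> omega

end Pool.Agent.Work.MP_7cb3ca_co.C3
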