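import Pool.Agent.Work.MP_7cb3ca_co.C3.Vec

/-! The charges for the visible events, lane by lane. -/

namespace Pool.Agent.Work.MP_7cb3ca_co.C3

open P3

/-- The length of a list of events. -/
def evl : EV → ℕ
  | .nil => 0
  | .cons _ _ _ _ t => evl t + 1

lemma chg_grow_len (R : ℕ → ℕ) (mk Z a d : ℕ) (t : EV) : ∀ (o c o' c' : EV),
    grow R mk Z a d t o c = .mk o' c' → evl o' + evl c' = evl t + evl o + evl c := by
  induction t with
  | nil =>
    intro o c o' c' h
    rw [grow_nil] at h
    cases h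
    simp only [evl, Nat.zero_add]
  | cons p g0 g row t ih =>
    intro o c o' c' h
    rw [grow_cons] at h
    split_ifs at h
    · have := ih _ _ _ _ h
      simp only [evl] at this ⊢
      omega
    · have := ih _ _ _ _ h
      simp only [evl] at this ⊢
      omega

lemma evsM_len {ψ : ℕ → ℕ} {u : List ℕ} {G : ℕ → ℕ → Prop} {v : QL} {d : ℕ} (h : RepQ ψ u G v d)
    (R : ℕ → ℕ) (mk x : ℕ) {o c : EV} (he : evsM v R mk x = .mk o c) : evl o + evl c ≤ d + 1 := by
  induction h generalizing o c with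
  | nil =>
    rw [evsM_nil] at he
    cases he
    simp only [evl]
    omega
  | @cons v e W g _ _ _ ih =>
    cases hv : evsM v R mk x with
    | dead =>
      rw [evsM_cons_dead _ _ _ _ _ _ _ _ hv] at he
      cases he
    | mk o1 c1 =>
      rw [evsM_cons_mk _ _ _ _ _ _ _ _ _ _ hv] at he
      have h1 := chg_grow_len _ _ _ _ _ _ _ _ _ _ he
      have h2 := ih hv
      simp only [evl] at h1
      omega

lemma chg_dig_le (row sh : ℕ) : dig row sh ≤ 2 ^ 24 - 1 := by
  rw [dig_eq]
  exact Nat.le_sub_one_of_lt (Nat.mod_lt _ (by positivity))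

lemma chgO_le (e : EV) (f sh : ℕ) : chgO e f sh ≤ evl e * (2 ^ 24 - 1) := by
  induction e with
  | nil => rw [chgO_nil]; exact Nat.zero_le _
  | cons n g0 g row t ih =>
    rw [chgO_cons, evl, Nat.succ_mul, add_comm]
    refine Nat.add_le_add ih ?_
    split_ifs
    exacts [Nat.zero_le _, chg_dig_le _ _]

lemma chgC_le (e : EV) (dt f sh : ℕ) : chgC e dt f sh ≤ evl e * (2 ^ 24 - 1) := by
  induction e with
  | nil => rw [chgC_nil]; exact Nat.zero_le _
  | cons n g0 g row t ih =>
    rw [chgC_cons, evl, Nat.succ_mul]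
    by_cases h : n ≤ dt
    · rw [if_pos h]; exact Nat.zero_le _
    · rw [if_neg h, add_comm]
      refine Nat.add_le_add ih ?_
      split_ifs
      exacts [Nat.zero_le _, chg_dig_le _ _]

lemma chg_le (o c : EV) (d dt f sh : ℕ) : chg o c d dt f sh ≤ (evl o + evl c) * (2 ^ 24 - 1) := by
  rw [chg_eq, add_mul]
  split_ifs
  exacts [Nat.add_le_add (chgO_le _ _ _) (chgC_le _ _ _ _), Nat.zero_le _]

lemma chg_dg_nil (w i : ℕ) : dg w 0 i = 0 := by
  unfold dg
  rw [Nat.zero_div, Nat.zero_mod]

lemma chg_ite_le (p : Prop) [Decidable p] (a : ℕ) : (if p then a else 0) ≤ a := by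
  split_ifs
  exacts [le_rfl, Nat.zero_le _]

lemma chg_chO_cons (n g0 g row : ℕ) (t : EV) (f sh m : ℕ) : chO (.cons n g0 g row t) f sh m =
    if g ≤ f then chO t f sh m else blk row sh m + chO t f sh m := by
  have : chO (.cons n g0 g row t) f sh m =
      cnd (Nat.ble g f) (chO t f sh m) (blk row sh m + chO t f sh m) := rfl
  rw [this, cnd_eq]
  simp only [Nat.ble_eq]

/-- The charge for the closed events, in every lane. -/
noncomputable def chgW (c : EV) (dt f sh m : ℕ) : ℕ :=
  EV.rec (motive := fun _ => Nat → Nat → Nat → Nat → Nat) chN chC c dt f sh m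

lemma chgW_cons (n g0 g row : ℕ) (t : EV) (dt f sh m : ℕ) : chgW (.cons n g0 g row t) dt f sh m =
    if n ≤ dt then 0 else if g ≤ f then chgW t dt f sh m else blk row sh m + chgW t dt f sh m := by
  have : chgW (.cons n g0 g row t) dt f sh m = cnd (Nat.ble n dt) 0
      (cnd (Nat.ble g f) (chgW t dt f sh m) (blk row sh m + chgW t dt f sh m)) := rfl
  rw [this, cnd_eq, cnd_eq]
  simp only [Nat.ble_eq]

lemma chg_chV_eq (o c : EV) (d dt f sh m : ℕ) :
    chV o c d dt f sh m = if dt ≤ d then chO o f sh m + chgW c dt f sh m else 0 := by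
  have : chV o c d dt f sh m = cnd (Nat.ble dt d) (chO o f sh m + chgW c dt f sh m) 0 := rfl
  rw [this, cnd_eq]
  simp only [Nat.ble_eq]

lemma chg_lane_lt {a b x y : ℕ} (h : x + y ≤ 57) (ha : a ≤ x * (2 ^ 24 - 1))
    (hb : b ≤ y * (2 ^ 24 - 1)) : a + b < 2 ^ 32 := by
  have h1 : (x + y) * (2 ^ 24 - 1) ≤ 57 * (2 ^ 24 - 1) := Nat.mul_le_mul_right _ h
  rw [add_mul] at h1
  exact ((Nat.add_le_add ha hb).trans h1).trans_lt (by norm_num)

lemma chg_chO_spec (K f s : ℕ) (e : EV) (h : evl e ≤ 57) (i : ℕ) :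
    dg 32 (chO e f (32 * s) (rp 32 K * 16777215)) i =
      if i < K then chgO e f (32 * s + 32 * i) else 0 := by
  induction e generalizing i with
  | nil =>
    rw [chgO_nil, ite_self]
    exact chg_dg_nil _ _
  | cons n g0 g row t ih =>
    rw [evl] at h
    have ih' := ih (by omega)
    rw [chg_chO_cons, chgO_cons]
    by_cases k : g ≤ f
    · rw [if_pos k, if_pos k, ih', Nat.zero_add]
    · rw [if_neg k, if_neg k, dg_add fun j => ?_, dg_blk24, ih']
      · by_cases hi : i < K
        · rw [if_pos hi, if_pos hi, if_pos hi]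
        · rw [if_neg hi, if_neg hi, if_neg hi]
      · rw [dg_blk24, ih']
        exact chg_lane_lt (x := 1) (y := evl t) (by omega)
          ((chg_ite_le _ _).trans ((chg_dig_le _ _).trans (Nat.one_mul _).ge))
          ((chg_ite_le _ _).trans (chgO_le _ _ _))

lemma chgW_spec (K dt f s : ℕ) (e : EV) (h : evl e ≤ 57) (i : ℕ) :
    dg 32 (chgW e dt f (32 * s) (rp 32 K * 16777215)) i =
      if i < K then chgC e dt f (32 * s + 32 * i) else 0 := by
  induction e generalizing i with
  | nil =>
    rw [chgC_nil, ite_self]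
    exact chg_dg_nil _ _
  | cons n g0 g row t ih =>
    rw [evl] at h
    have ih' := ih (by omega)
    rw [chgW_cons, chgC_cons]
    by_cases l : n ≤ dt
    · rw [if_pos l, if_pos l, ite_self]
      exact chg_dg_nil _ _
    rw [if_neg l, if_neg l]
    by_cases k : g ≤ f
    · rw [if_pos k, if_pos k, ih', Nat.zero_add]
    · rw [if_neg k, if_neg k, dg_add fun j => ?_, dg_blk24, ih']
      · by_cases hi : i < K
        · rw [if_pos hi, if_pos hi, if_pos hi]
        · rw [if_neg hi, if_neg hi, if_neg hi]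
      · rw [dg_blk24, ih']
        exact chg_lane_lt (x := 1) (y := evl t) (by omega)
          ((chg_ite_le _ _).trans ((chg_dig_le _ _).trans (Nat.one_mul _).ge))
          ((chg_ite_le _ _).trans (chgC_le _ _ _ _))

theorem chV_spec {o c : EV} (h : evl o + evl c ≤ 57) (K d dt f s i : ℕ) :
    dg 32 (chV o c d dt f (32 * s) (rp 32 K * 16777215)) i =
      if i < K then chg o c d dt f (32 * s + 32 * i) else 0 := by
  have ho := chg_chO_spec K f s o (by omega)
  have hc := chgW_spec K dt f s c (by omega)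
  rw [chg_chV_eq, chg_eq]
  by_cases k : dt ≤ d
  · rw [if_pos k, if_pos k, dg_add fun j => ?_, ho, hc]
    · by_cases hi : i < K
      · rw [if_pos hi, if_pos hi, if_pos hi]
      · rw [if_neg hi, if_neg hi, if_neg hi]
    · rw [ho, hc]
      exact chg_lane_lt h ((chg_ite_le _ _).trans (chgO_le _ _ _)) ((chg_ite_le _ _).trans (chgC_le _ _ _ _))
  · rw [if_neg k, if_neg k, ite_self]
    exact chg_dg_nil _ _

end Pool.Agent.Work.MP_7cb3ca_co.C3
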