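import Pool.Agent.Work.MP_7cb3ca_co.C3.Defs

/-! Copies of functions of the checker in which some operations are parameters. -/

namespace Pool.Agent.Work.MP_7cb3ca_co.C3

open P3

/-- The function `letter` with some operations as parameters. -/
noncomputable def letterG (tx : Nat → Nat → Nat) (two : Bool) (D R LM MU : Nat → Nat) (m mv hu ts kw bm r1 r2 r3 mk : Nat) (w : PL)
    (v : QL) (W d T iy x : Nat)
    (K : (Tr → Nat → Nat → Nat → Nat →
      ((OL → Nat → Nat → Nat → Nat → Nat → Nat) → Bool) → Bool) → Bool) : Bool :=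
  Evs.rec (motive := fun _ => Bool) (K fun _ _ _ _ _ k => k fun _ _ _ _ _ _ => (nat_lit 0))
    (fun o c => (Nat.rec (motive := fun _ => Bool) false (fun Y _ => (Nat.rec (motive := fun _ => Bool) false (fun Z _ =>
      (Nat.rec (motive := fun _ => Bool) false (fun e _ => (Nat.rec (motive := fun _ => Bool) false (fun iz _ => (Nat.rec (motive := fun _ => Bool) false (fun rz _ =>
      (Nat.rec (motive := fun _ => Bool) false (fun i0 _ => (Nat.rec (motive := fun _ => Bool) false (fun rb _ => (Nat.rec (motive := fun _ => Bool) false (fun tb _ =>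
        letterA two D R LM MU m mv hu ts kw bm r1 r2 r3 mk w d iy x K o c Y Z e rz rb tb) (Nat.succ (tx T x)))) (Nat.succ (R i0)))) (Nat.succ (Nat.add (nat_lit 6484) (zt (nat_lit 63) Y (nat_lit 0) e r1))))) (Nat.succ (R iz)))) (Nat.succ (Nat.add (nat_lit 6464) (zt x W (nat_lit 1) d r1))))) (Nat.succ (Nat.add d (nat_lit 1))))) (Nat.succ (win Y (nat_lit 0))))) (Nat.succ (Nat.add W (Nat.shiftLeft x (nat_lit 24))))))
    (QL.rec (motive := fun _ => (Nat → Nat) → Nat → Nat → Evs) eNil eCons v R mk x)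

theorem letter_G : letter = letterG tbx := rfl

/-- The function `stateB` with some operations as parameters. -/
noncomputable def stateBG (sr : Bool → Nat → Nat → Nat → List Nat → Nat → Nat → Nat → Nat → Nat → Nat) (F : Nat → Nat → Nat → Nat → Nat → Nat → Nat → Bool) (two : Bool) (VM : Nat → Nat) (CV : OL)
    (la lq l2 m kw bm o1 ma ms mj m0 mS : Nat) (M : List Nat) (N : EH) (d g : Nat) (C : List Nat)
    (Lt : Nat → Nat → ((Tr → Nat → Nat → Nat → Nat →
      ((OL → Nat → Nat → Nat → Nat → Nat → Nat) → Bool) → Bool) → Bool) → Bool)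
    (y tb H d' : Nat) (SN : List Nat) (iy n0 : Nat) : Bool :=
  (Bool.rec (motive := fun _ => Bool) false ((Nat.rec (motive := fun _ => Bool) false (fun p2 _ =>
      Lt iy (nat_lit 0) fun g1 => Lt iy (nat_lit 1) fun g2 => Lt iy (nat_lit 2) fun g3 =>
        edgesE F two VM (needB two H tb mS SN n0 d' kw bm ma ms mj) kw o1 p2 SN n0 y m0 d g M C N
          g1 g2 g3) (Nat.succ (Nat.add (Nat.mul kw iy) l2)))) ((Nat.rec (motive := fun _ => Bool) false (fun m_ _ => (sideE two CV la lq m kw o1 n0) m_) (Nat.succ (sr two H tb mS SN n0 d' kw bm n0)))))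

theorem stateB_G : stateB = stateBG src := rfl

/-- The function `state` with some operations as parameters. -/
noncomputable def stateG (fs : PL → Nat → Nat → Nat) (tx : Nat → Nat → Nat) (F : Nat → Nat → Nat → Nat → Nat → Nat → Nat → Bool) (two : Bool)
    (D R LM VM MU : Nat → Nat) (CV : OL)
    (la lq l2 m hu ts kw bm o1 r1 r2 ma ms mj mk m0 mS k1 : Nat)
    (S0 S1 : Nat → List Nat) (M : List Nat) (N : EH) (d h : Nat) (w : PL) (v : QL) (W g : Nat)
    (C : List Nat) : Bool :=
  (Nat.rec (motive := fun _ => Bool) false (fun T _ => (Nat.rec (motive := fun _ => Bool) false (fun y _ => (Nat.rec (motive := fun _ => Bool) false (fun tb _ =>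
  (Nat.rec (motive := fun _ => Bool) false (fun H _ => (Nat.rec (motive := fun _ => Bool) false (fun d' _ => (Nat.rec (motive := fun _ => Bool) false (fun mv _ =>
  (Nat.rec (motive := fun _ => Bool) false (fun r3 _ =>
    stateA k1 S0 S1 y (stateB F two VM CV la lq l2 m kw bm o1 ma ms mj m0 mS M N d g C
      (letter two D R LM MU m mv hu ts kw bm r1 r2 r3 mk w v W d T) y tb H d')) (Nat.succ (rowC two R r1 y W d)))) (Nat.succ (Nat.land (VM d) m)))) (Nat.succ (Nat.add (Nat.mul (nat_lit 4) d) (nat_lit 76))))) (Nat.succ (D h)))) (Nat.succ (tx T y)))) (Nat.succ ((Nat.land (Nat.shiftRight W (Nat.add (Nat.mul (nat_lit 6) (nat_lit 1)) (nat_lit 24))) (nat_lit 63)))))) (Nat.succ (fs w W d)))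

theorem state_G : state = stateG fpS tbs := rfl

/-- The function `chkF` with some operations as parameters. -/
noncomputable def chkFG (ad mu su sl an rq : Nat → Nat → Nat) (rr : Nat → Nat → Nat → Nat) (F : Nat → Nat → Nat → Nat → Nat → Nat → Nat → Bool) (G : Nat → Nat → Nat → Nat) (P : Par) (t : Tr)
    (c lo hi sel l2 : Nat) : Bool :=
  Par.rec (motive := fun _ => Bool)
    (fun two K r1 tau lf ma ms mj la lq ts cv D RT RB LM VM MU TR =>
    (Nat.rec (motive := fun _ => Bool) false (fun k _ => (Nat.rec (motive := fun _ => Bool) false (fun mk _ => (Nat.rec (motive := fun _ => Bool) false (fun i1 _ => (Nat.rec (motive := fun _ => Bool) false (fun k1 _ =>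
    (Nat.rec (motive := fun _ => Bool) false (fun mS _ => (Nat.rec (motive := fun _ => Bool) false (fun m0 _ => (Nat.rec (motive := fun _ => Bool) false (fun kw _ =>
    (Nat.rec (motive := fun _ => Bool) false (fun o1 _ => (Nat.rec (motive := fun _ => Bool) false (fun m _ => (Nat.rec (motive := fun _ => Bool) false (fun hu _ =>
    (Nat.rec (motive := fun _ => Bool) false (fun bm _ =>
    (Nat.rec (motive := fun _ => Bool) false (fun gr _ => (Nat.rec (motive := fun _ => Bool) false (fun e _ =>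
    (Nat.rec (motive := fun _ => Bool) false (fun r2 _ => (Nat.rec (motive := fun _ => Bool) false (fun re _ =>
    (Nat.rec (motive := fun _ => Bool) false (fun br _ => (Nat.rec (motive := fun _ => Bool) false (fun ma _ => (Nat.rec (motive := fun _ => Bool) false (fun ms _ =>
    (Nat.rec (motive := fun _ => Bool) false (fun mj _ => (Nat.rec (motive := fun _ => Bool) false (fun la _ => (Nat.rec (motive := fun _ => Bool) false (fun lq _ =>
    (Nat.rec (motive := fun _ => Bool) false (fun l2 _ => (Nat.rec (motive := fun _ => Bool) false (fun re _ =>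
      chkT salt (state F two D (RT e) LM VM MU cv la lq l2 m hu ts kw bm o1 r1 r2 ma ms mj mk m0 mS
        k1 (l0 k) (l1 k) (lM k) (edges3 TR br re gr m kw (nxt c))) mk lo hi t
        (nat_lit 0) (nat_lit 0) PL.nil QL.nil (nat_lit 0) (nat_lit 9) (lC k) i1 (nat_lit 3) (nat_lit 0)) (Nat.succ (G re l2 kw)))) (Nat.succ (mu (nat_lit 32) l2)))) (Nat.succ (mu (nat_lit 32) lq)))) (Nat.succ (mu (nat_lit 32) la)))) (Nat.succ (an mj m)))) (Nat.succ (an ms m)))) (Nat.succ (an ma m)))) (Nat.succ (an (RB c) sel)))) (Nat.succ (RT e (ad (nat_lit 6496) c))))) (Nat.succ (RT e (nat_lit 6473))))) (Nat.succ (dec c)))) (Nat.succ (ad (sl o1 (nat_lit 31)) (sl (an tau (nat_lit 65535)) (mu (nat_lit 32) lf)))))) (Nat.succ (su (mu o1 (nat_lit 65535)) (sl (nat_lit 65535) (mu (nat_lit 32) lf)))))) (Nat.succ (rr m kw (nat_lit 10))))) (Nat.succ (mu o1 (nat_lit 16777215))))) (Nat.succ (rq (nat_lit 32) K)))) (Nat.succ (mu (nat_lit 32) K)))) (Nat.succ (ad mk (nat_lit 0x80000000000000000000000000000000))))) (Nat.succ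 (mS k)))) (Nat.succ (ad (nat_lit 3) k)))) (Nat.succ (su (nat_lit 3) k)))) (Nat.succ (mM k)))) (Nat.succ (ck c)))) P

theorem chkF_G : chkF = chkFG Nat.add Nat.mul Nat.sub Nat.shiftLeft Nat.land rp rpP := rfl

/-- The function `fpS` with the constants as parameters. -/
noncomputable def fpSG (c0 : Nat) (w : PL) (W d : Nat) : Nat :=
  (Nat.rec (motive := fun _ => Nat) (nat_lit 0) (fun i _ => (Nat.rec (motive := fun _ => Nat) (nat_lit 0) (fun z _ => fpt w z i) (Nat.succ (Nat.add (Nat.land W (nat_lit 16777215)) c0)))) (Nat.succ (Nat.mul (nat_lit 4) d)))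

theorem fpS_G : fpS = fpSG (nat_lit 0x3e8fa3e8fa3e8fa3e8fa3e8fa3e8fa3e8fa3e8fa3e8fa3e8fa3e8fa3e8fa3e8fa3e8fa3e8fa3e8fa3e8fa3e8fa3e8fa3e8fa3e8fa3e8fa3e8fa3e8fa3e8fa3e8fa3e8fa3e8fa3e8fa3e8fa3e8fa3e8fa00000000) := rfl

/-- The function `tbs` with the constants as parameters. -/
noncomputable def tbsG (c0 c1 : Nat) (T y : Nat) : Nat :=
  Nat.sub (Nat.add T c0) (Nat.shiftLeft c1 (Nat.add (Nat.mul (nat_lit 10) y) (nat_lit 30)))

theorem tbs_G : tbs = tbsG (nat_lit 0x3e8fa3e8fa3e8fa3e8fa3e8fa3e8fa3e8fa3e8fa3e8fa3e8fa3e8fa3e8fa3e8fa3e8fa3e8fa3e8fa3e8fa3e8fa3e8fa3e8fa3e8fa3e8fa3e8fa3e8fa3e8fa3e8fa3e8fa3e8fa3e8fa3e8fa3e8fa3e8fa000000000000000000000000000000000000000000000000000000000000000000000000000000000000000000000000000000000000000000000000000000000000000000000000000000000000000000000000) (nat_lit 0x3980000000000000000000000000000000000000000000000000000000000000000000000000000000000000000000000000000000000000000000000000000000000000000000000000000000000000000) := rfl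

/-- The function `tbx` with the constants as parameters. -/
noncomputable def tbxG (c0 c1 : Nat) (T x : Nat) : Nat :=
  (Nat.rec (motive := fun _ => Nat) (nat_lit 0) (fun s _ => Nat.sub (Nat.add T c0)
    (Nat.shiftLeft (Nat.add (Nat.sub ((Nat.land (Nat.shiftRight T s) (nat_lit 1023))) (nat_lit 76)) c1) s)) (Nat.succ (Nat.add (Nat.mul (nat_lit 10) x) (nat_lit 30))))

theorem tbx_G : tbx = tbxG (nat_lit 0x3e8fa3e8fa3e8fa3e8fa3e8fa3e8fa3e8fa3e8fa3e8fa3e8fa3e8fa3e8fa3e8fa3e8fa3e8fa3e8fa3e8fa3e8fa3e8fa3e8fa3e8fa3e8fa3e8fa3e8fa3e8fa3e8fa3e8fa3e8fa3e8fa3e8fa3e8fa3e8fa004010040100401004010040100401004010040100401004010040100401004010040100401004010040100401004010040100401004010040100401004010040100401004010040100401004010040100000000) (nat_lit 0x3980000000000000000000000000000000000000000000000000000000000000000000000000000000000000000000000000000000000000000000000000000000000000000000000000000000000000000) := rfl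

end Pool.Agent.Work.MP_7cb3ca_co.C3
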