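import Pool.Agent.Work.MP_7cb3ca_co.C3.Gat
import Pool.Agent.Work.MP_7cb3ca_co.C3.Gen

/-! The tables of first places give the positions in the header. -/

namespace Pool.Agent.Work.MP_7cb3ca_co.C3

open P3

/-- The first place of the name `a` among the first `d` letters of `w`, or `230`. -/
def fp (ψ : ℕ → ℕ) (w : List ℕ) (d a : ℕ) : ℕ :=
  if ((w.take d).map ψ).idxOf a < d then ((w.take d).map ψ).idxOf a else 230

lemma Cod_fp (ψ : ℕ → ℕ) (w : List ℕ) (d a : ℕ) : fp ψ w d a =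
    if w.findIdx (fun x => ψ x == a) < d then w.findIdx (fun x => ψ x == a) else 230 := by
  have e : ((w.take d).map ψ).idxOf a = min d (w.findIdx fun x => ψ x == a) := by
    rw [List.idxOf, List.findIdx_map, List.findIdx_take]
    rfl
  rw [fp, e]
  split_ifs <;> omega

lemma Cod_idx {ψ : ℕ → ℕ} (hψ : Function.Injective ψ) (w : List ℕ) (g : ℕ) :
    w.findIdx (fun x => ψ x == ψ g) = w.idxOf g := by
  rw [List.idxOf]
  exact congrArg (fun p => w.findIdx p) (funext fun x => by simp [hψ.eq_iff])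

lemma Cod_at {ψ : ℕ → ℕ} {w : List ℕ} {a i : ℕ} (h : w.findIdx (fun x => ψ x == a) = i)
    (hi : i < w.length) : ψ (gd w i) = a := by
  subst h
  have := List.findIdx_getElem (w := hi)
  rw [gd, List.getD_eq_getElem _ _ hi]
  simpa using this

lemma fp_map {ψ : ℕ → ℕ} (hψ : Function.Injective ψ) {w : List ℕ} {d : ℕ} (hd : d ≤ w.length)
    (g : ℕ) : fp ψ w d (ψ g) = if w.idxOf g < d then w.idxOf g else 230 := by
  exact (fun _ => by rw [Cod_fp, Cod_idx hψ]) hd

lemma fp_big {ψ : ℕ → ℕ} {w : List ℕ} {d a : ℕ} (hd : d ≤ w.length)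
    (h : ∀ i < d, ψ (gd w i) ≠ a) : fp ψ w d a = 230 := by
  rw [Cod_fp, if_neg fun k => h _ k (Cod_at rfl (k.trans_le hd))]

lemma fp_cases (ψ : ℕ → ℕ) (w : List ℕ) (d a : ℕ) : fp ψ w d a < d ∨ fp ψ w d a = 230 := by
  rw [fp]
  split_ifs with h
  exacts [Or.inl h, Or.inr rfl]

/-- The number `T` is the table of the function `f`. -/
def FT (T : ℕ) (f : ℕ → ℕ) : Prop :=
  T < 2 ^ (10 * 67) ∧ ∀ a < 64, T / 2 ^ (10 * a + 30) % 1024 = 80 + 4 * f a

lemma Cod_all : nat_lit 0x3e8fa3e8fa3e8fa3e8fa3e8fa3e8fa3e8fa3e8fa3e8fa3e8fa3e8fa3e8fa3e8fa3e8fa3e8fa3e8fa3e8fa3e8fa3e8fa3e8fa3e8fa3e8fa3e8fa3e8fa3e8fa3e8fa3e8fa3e8fa3e8fa3e8fa3e8fa3e8fa00000000 =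
    vec 10 (fun i => if 3 ≤ i then 1000 else 0) 67 := by decide +kernel

lemma Cod_hi : nat_lit 0x3e8fa3e8fa3e8fa3e8fa3e8fa3e8fa3e8fa3e8fa3e8fa3e8fa3e8fa3e8fa3e8fa3e8fa3e8fa3e8fa3e8fa3e8fa3e8fa3e8fa3e8fa3e8fa3e8fa3e8fa3e8fa3e8fa3e8fa3e8fa3e8fa3e8fa3e8fa3e8fa000000000000000000000000000000000000000000000000000000000000000000000000000000000000000000000000000000000000000000000000000000000000000000000000000000000000000000000000 =
    vec 10 (fun i => if 67 ≤ i then 1000 else 0) 131 := by decide +kernel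

lemma Cod_con : nat_lit 0x3e8fa3e8fa3e8fa3e8fa3e8fa3e8fa3e8fa3e8fa3e8fa3e8fa3e8fa3e8fa3e8fa3e8fa3e8fa3e8fa3e8fa3e8fa3e8fa3e8fa3e8fa3e8fa3e8fa3e8fa3e8fa3e8fa3e8fa3e8fa3e8fa3e8fa3e8fa3e8fa004010040100401004010040100401004010040100401004010040100401004010040100401004010040100401004010040100401004010040100401004010040100401004010040100401004010040100000000 =
    vec 10 (fun i => if 67 ≤ i then 1000 else if 3 ≤ i then 4 else 0) 131 := by decide +kernel

lemma Cod_920 : nat_lit 0x3980000000000000000000000000000000000000000000000000000000000000000000000000000000000000000000000000000000000000000000000000000000000000000000000000000000000000000 =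
    920 * 2 ^ 640 := by decide +kernel

lemma fpSG_eq (c0 : ℕ) (w : PL) (W d : ℕ) :
    fpSG c0 w W d = fpt w (Nat.land W (2 ^ 24 - 1) + c0) (4 * d) := rfl

lemma tbsG_eq (c0 c1 T y : ℕ) : tbsG c0 c1 T y = T + c0 - Nat.shiftLeft c1 (10 * y + 30) := rfl

lemma tbxG_eq (c0 c1 T x : ℕ) : tbxG c0 c1 T x = T + c0 - Nat.shiftLeft
    (Nat.land (Nat.shiftRight T (10 * x + 30)) 1023 - 76 + c1) (10 * x + 30) := rfl

lemma Cod_dg (T a : ℕ) : T / 2 ^ (10 * a + 30) % 1024 = dg 10 T (a + 3) := rfl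

lemma FT.big {T i : ℕ} {f : ℕ → ℕ} (h : FT T f) (hi : 67 ≤ i) : dg 10 T i = 0 := dg_big h.1 hi

lemma FT.dig {T a : ℕ} {f : ℕ → ℕ} (h : FT T f) (ha : a < 64) : dg 10 T (a + 3) = 80 + 4 * f a :=
  h.2 a ha

lemma FT.le {T d : ℕ} {f : ℕ → ℕ} (h : FT T f) (hf : ∀ a, f a < d ∨ f a = 230) (hd : d ≤ 55) {i : ℕ}
    (hi : 3 ≤ i) : dg 10 T i ≤ 1000 := by
  obtain ⟨a, rfl⟩ := Nat.exists_eq_add_of_le' hi
  rcases lt_or_ge a 64 with k | k
  · have := hf a
    rw [h.dig k]
    omega
  · rw [h.big (by omega)]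
    omega

lemma Cod_fpt {ψ : ℕ → ℕ} (hψ : Function.Injective ψ) {w : List ℕ} {pw : PL} {d z : ℕ}
    (h : RepP ψ w pw d) (hz : FT z fun _ => 230) : d ≤ w.length → d ≤ 55 →
      (∀ i < d, ψ (gd w i) < 64) → FT (fpt pw z (4 * d)) (fp ψ w d) := by
  induction h with
  | nil => exact fun _ _ _ => hz
  | @old v e _ k ih =>
    intro h1 h2 h3
    have h4 := ih (by omega) (by omega) fun i hi => h3 i (by omega)
    refine ⟨h4.1, fun a ha => (h4.2 a ha).trans ?_⟩
    have h5 : w.findIdx (fun x => ψ x == a) ≠ e := fun e1 => by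
      rw [← Cod_at e1 h1, Cod_idx hψ] at e1
      omega
    rw [Cod_fp, Cod_fp]
    split_ifs <;> omega
  | @new v e _ k ih =>
    intro h1 h2 h3
    have h4 := ih (by omega) (by omega) fun i hi => h3 i (by omega)
    have e0 : fpt (.new (ψ (gd w e)) (ψ (gd w e) + ψ (gd w e)) v) z (4 * (e + 1)) =
        fpt v z (4 * e) - (924 - 4 * (e + 1)) * 2 ^ (10 * (ψ (gd w e) + 3)) := by
      rw [← shl]
      rfl
    have h5 : w.idxOf (gd w e) = e := le_antisymm (idxOf_gd_le h1) (not_lt.1 k)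
    have h6 := dg_single (w := 10) (v := 924 - 4 * (e + 1)) (by omega) (ψ (gd w e) + 3)
    have h7 := h4.dig (h3 e e.lt_succ_self)
    rw [fp_map hψ (by omega), if_neg k] at h7
    rw [e0]
    refine ⟨(Nat.sub_le _ _).trans_lt h4.1, fun a ha => ?_⟩
    rw [Cod_dg, dg_sub (by omega) fun i => ?_, h6, h4.dig ha]
    · by_cases e1 : a = ψ (gd w e)
      · rw [e1, if_pos rfl, fp_map hψ (by omega), fp_map hψ h1, if_neg k, h5, if_pos e.lt_succ_self]
        omega
      · have h8 : w.findIdx (fun x => ψ x == a) ≠ e := fun e2 => e1 (Cod_at e2 h1).symm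
        rw [if_neg (by omega), Cod_fp, Cod_fp]
        split_ifs <;> omega
    · rw [h6]
      split_ifs with e1
      · rw [e1, h7]
        omega
      · exact Nat.zero_le _

theorem fpS_spec {ψ : ℕ → ℕ} (hψ : Function.Injective ψ) {w : List ℕ} {pw : PL} {d : ℕ}
    (h : RepP ψ w pw d) (hd : d ≤ w.length) (h55 : d ≤ 55) (hlt : ∀ i < d, ψ (gd w i) < 64)
    (W : ℕ) : FT (fpS pw W d) (fp ψ w d) := by
  have e : fpS pw W d =
      fpt pw (W % 2 ^ 24 + vec 10 (fun i => if 3 ≤ i then 1000 else 0) 67) (4 * d) := by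
    rw [fpS_G, fpSG_eq, Cod_all, land_mask]
  have h1 := dg_vec (w := 10) (n := 67) (f := fun i => if 3 ≤ i then 1000 else 0)
    fun i _ => by split_ifs <;> omega
  have h2 : ∀ i, 3 ≤ i → dg 10 (W % 2 ^ 24) i = 0 := fun i hi =>
    dg_big ((Nat.mod_lt _ (by omega)).trans (by omega)) hi
  have h3 := dg_add (w := 10) (X := W % 2 ^ 24)
    (Y := vec 10 (fun i => if 3 ≤ i then 1000 else 0) 67) fun i => by
      have := dg_lt (w := 10) (W % 2 ^ 24) i
      have := h2 i
      rw [h1]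
      split_ifs <;> omega
  rw [e]
  refine Cod_fpt hψ h ⟨lt_of_dg (w := 10) (n := 67) (by omega) fun i hi => ?_, fun a ha => ?_⟩ hd h55 hlt
  · rw [h3, h1, h2 i (by omega), if_neg (by omega)]
  · rw [Cod_dg, h3, h1, h2 _ (by omega), if_pos (by omega), if_pos (by omega)]
    rfl

lemma opts_append (m : ℕ) (l l' : List ℕ) (o : OL) :
    opts m l (opts m l' o) = opts m (l ++ l') o := by
  induction l with
  | nil => rfl
  | cons a l ih => exact congrArg (OL.cons _ _) ih

lemma opts_len (m : ℕ) (l : List ℕ) : (opts m l .nil).len = l.length := by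
  induction l with
  | nil => rfl
  | cons a l ih => exact congrArg (· + 1) ih

lemma pad_eq (n : ℕ) : pad n = List.replicate n 62 := by
  induction n with
  | zero => rfl
  | succ n ih => exact congrArg (62 :: ·) ih

lemma Cod_pos (m tb dt : ℕ) {l : List ℕ} {i : ℕ} (hi : i < l.length) :
    (opts m l .nil).pos tb dt i =
      if dg 10 tb (l[i] + if mark2 m l[i] = 0 then 67 else 3) ≤ dt then
        dg 10 tb (l[i] + if mark2 m l[i] = 0 then 67 else 3) else 4 * mark2 m l[i] + 64 := by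
  induction l generalizing i with
  | nil => exact absurd hi (Nat.not_lt_zero _)
  | cons a l ih =>
    rcases i with _ | i
    · have e1 : optP m a = 10 * (a + if mark2 m a = 0 then 67 else 3) := by
        have : optP m a = 10 * a + if Nat.beq (mark2 m a) 0 = true then 670 else 30 := by
          rw [mark2, ← mark2_eq, ← brec]
          rfl
        rw [this]
        simp only [Nat.beq_eq]
        split_ifs <;> omega
      have e2 : optS m a = 4 * mark2 m a + 64 := by
        rw [mark2, ← mark2_eq]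
        rfl
      change (if tb / 2 ^ optP m a % 1024 ≤ dt then tb / 2 ^ optP m a % 1024 else optS m a) = _
      rw [e1, e2]
      rfl
    · exact ih (Nat.lt_of_succ_lt_succ hi)

lemma Cod_tbs {T y : ℕ} {f : ℕ → ℕ} (hT : FT T f) (hy : y < 64) (i : ℕ) : dg 10 (tbs T y) i =
    dg 10 T i + (if i < 131 then if 67 ≤ i then 1000 else 0 else 0) -
      if i = y + 67 then 920 else 0 := by
  have e : tbs T y = T + vec 10 (fun i => if 67 ≤ i then 1000 else 0) 131 -
      920 * 2 ^ (10 * (y + 67)) := by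
    rw [show 10 * (y + 67) = 640 + (10 * y + 30) by omega, pow_add, ← mul_assoc, tbs_G, tbsG_eq,
      Cod_920, Cod_hi, shl]
  have h1 := dg_vec (w := 10) (n := 131) (f := fun i => if 67 ≤ i then 1000 else 0)
    fun i _ => by split_ifs <;> omega
  have h2 := dg_single (w := 10) (v := 920) (by omega) (y + 67)
  have h3 := dg_add (w := 10) (X := T) (Y := vec 10 (fun i => if 67 ≤ i then 1000 else 0) 131)
    fun i => by
      have := dg_lt (w := 10) T i
      have := hT.big (i := i)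
      rw [h1]
      split_ifs <;> omega
  rw [e, dg_sub (by omega) fun i => ?_, h3, h1, h2]
  rw [h3, h1, h2]
  split_ifs <;> omega

lemma Cod_tbx {T d x : ℕ} {f : ℕ → ℕ} (hT : FT T f) (hf : ∀ a, f a < d ∨ f a = 230) (hd : d ≤ 55)
    (hx : x < 64) (i : ℕ) : dg 10 (tbx T x) i =
    dg 10 T i + (if i < 131 then if 67 ≤ i then 1000 else if 3 ≤ i then 4 else 0 else 0) -
      ((if i = x + 3 then 4 + 4 * f x else 0) + if i = x + 67 then 920 else 0) := by
  have e0 : Nat.land (Nat.shiftRight T (10 * x + 30)) 1023 - 76 = 4 + 4 * f x := by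
    rw [shr, show Nat.land _ 1023 = _ from land_mask _ 10]
    have := hT.2 x hx
    omega
  have e : tbx T x = T + vec 10 (fun i => if 67 ≤ i then 1000 else if 3 ≤ i then 4 else 0) 131 -
      ((4 + 4 * f x) * 2 ^ (10 * (x + 3)) + 920 * 2 ^ (10 * (x + 67))) := by
    rw [show 10 * (x + 67) = 640 + 10 * (x + 3) by omega, pow_add, ← mul_assoc, ← add_mul,
      tbx_G, tbxG_eq, Cod_920, Cod_con, e0, shl, show 10 * (x + 3) = 10 * x + 30 by omega]
  have h0 := hf x
  have h1 := dg_vec (w := 10) (n := 131)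
    (f := fun i => if 67 ≤ i then 1000 else if 3 ≤ i then 4 else 0) fun i _ => by split_ifs <;> omega
  have h2 := dg_single (w := 10) (v := 920) (by omega) (x + 67)
  have h4 := dg_single (w := 10) (v := 4 + 4 * f x) (by omega) (x + 3)
  have h5 := dg_add (w := 10) (X := (4 + 4 * f x) * 2 ^ (10 * (x + 3)))
    (Y := 920 * 2 ^ (10 * (x + 67))) fun i => by
      rw [h2, h4]
      split_ifs <;> omega
  have h3 := dg_add (w := 10) (X := T)
    (Y := vec 10 (fun i => if 67 ≤ i then 1000 else if 3 ≤ i then 4 else 0) 131) fun i => by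
      have := dg_lt (w := 10) T i
      have := hT.big (i := i)
      have := hT.le hf hd (i := i)
      rw [h1]
      split_ifs <;> omega
  rw [e, dg_sub (by omega) fun i => ?_, h3, h1, h5, h2, h4]
  rw [h3, h1, h5, h2, h4]
  by_cases k : i = x + 3
  · rw [k, hT.dig hx]
    split_ifs <;> omega
  · split_ifs <;> omega

/-- The position for a name in the weight of the source, whose last letter has the name `y`. -/
theorem pos_src {T d y : ℕ} {f : ℕ → ℕ} (hT : FT T f) (hf : ∀ a, f a < d ∨ f a = 230)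
    (h1 : 1 ≤ d) (h55 : d ≤ 55) (hy : y < 64) (hy0 : f y = 0) (m : ℕ) {l : List ℕ} {i : ℕ}
    (hi : i < l.length) (ha : l[i] < 64) :
    (opts m l .nil).pos (tbs T y) (4 * d + 76) i = 4 * (if l[i] = y then 4 else
      if mark2 m l[i] = 0 then 0 else if f l[i] < d then 4 + f l[i] else mark2 m l[i]) + 64 := by
  rw [Cod_pos m _ _ hi]
  generalize l[i] = a at ha
  have h2 := hf a
  have h3 : a = y → f a = 0 := fun e => e ▸ hy0
  by_cases k : mark2 m a = 0
  · rw [if_pos k, Cod_tbs hT hy, hT.big (by omega)]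
    split_ifs <;> omega
  · rw [if_neg k, Cod_tbs hT hy, hT.dig ha]
    split_ifs <;> omega

/-- The position for a name in the weight of the target, after the letter with the name `x`. -/
theorem pos_tgt {T d x dt : ℕ} {f : ℕ → ℕ} (hT : FT T f) (hf : ∀ a, f a < d ∨ f a = 230)
    (h55 : d ≤ 55) (h1 : 1 ≤ dt) (h56 : dt ≤ 56) (hx : x < 64) (m : ℕ) {l : List ℕ} {i : ℕ}
    (hi : i < l.length) (ha : l[i] < 64) :
    (opts m l .nil).pos (tbx T x) (4 * dt + 76) i = 4 * (if l[i] = x then 4 else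
      if mark2 m l[i] = 0 then 0 else if f l[i] + 1 < dt then 5 + f l[i] else mark2 m l[i]) + 64 := by
  rw [Cod_pos m _ _ hi]
  generalize l[i] = a at ha
  have h2 := hf a
  have h3 : a = x → f a = f x := congrArg f
  by_cases k : mark2 m a = 0
  · rw [if_pos k, Cod_tbx hT hf h55 hx, hT.big (by omega)]
    split_ifs <;> omega
  · rw [if_neg k, Cod_tbx hT hf h55 hx, hT.dig ha]
    split_ifs <;> omega

end Pool.Agent.Work.MP_7cb3ca_co.C3
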