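import Pool.Agent.Work.MP_7cb3ca_co.C3.Spec

/-! The checked parts of the tries are put together. -/

namespace Pool.Agent.Work.MP_7cb3ca_co.C3

variable {P : Par} {c lo hi : ℕ}

/-- The checked parts cover all keys from `lo` on, for all edges. -/
def CovA (P : Par) (c lo : ℕ) : Prop := ∀ r < 10, CovE P c r lo

theorem CovA.nil : CovA P c 4722366482869645213696 :=
  fun _ _ _ h1 h2 => absurd h1 h2.not_ge

/-- The keys from `lo` to `hi` are checked for the edges with last digit below `r`. -/
def Part (P : Par) (c lo hi r : ℕ) : Prop :=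
  ∀ s < r, ∃ sel, dg 16 sel s = 65535 ∧ chkE P c lo hi sel = true

theorem Part.nil : Part P c lo hi 0 := fun _ h => absurd h (Nat.not_lt_zero _)

theorem Part.step {r r' sel : ℕ} (h : chkE P c lo hi sel = true)
    (k : ∀ s < r', r ≤ s → dg 16 sel s = 65535) (H : Part P c lo hi r) : Part P c lo hi r' :=
  fun s hs => (Nat.lt_or_ge s r).elim (H s) fun m => ⟨sel, k s hs m, h⟩

theorem CovA.part (h : Part P c lo hi 10) (H : CovA P c (hi + 1)) : CovA P c lo := by
  intro r hr q h1 h2
  rcases Nat.lt_or_ge hi q with k | k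
  · exact H r hr q k h2
  · obtain ⟨sel, a, b⟩ := h r hr
    exact ⟨lo, hi, sel, h1, k, a, b⟩

theorem CovA.step (h : chkE P c lo hi 0xffffffffffffffffffffffffffffffffffffffff = true)
    (H : CovA P c (hi + 1)) : CovA P c lo :=
  CovA.part (Part.step h (by decide +kernel) Part.nil) H

end Pool.Agent.Work.MP_7cb3ca_co.C3
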