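import Pool.Agent.Work.MP_7cb3ca_co.C3.Vec

/-! A path in a trie is a path in the part of the trie that holds its key. -/

namespace Pool.Agent.Work.MP_7cb3ca_co.C3

open P3

/-- The weight of symbol `i` in the key. -/
def ku (i : ℕ) : ℕ := 64 ^ 11 / 64 ^ i

/-- The key of the first symbols. -/
def key (σ : ℕ → ℕ) : ℕ → ℕ
  | 0 => 0
  | i + 1 => key σ i + σ i % 64 * ku i

lemma ku_succ (i : ℕ) : ku (i + 1) = ku i / 64 := by
  rw [ku, ku, Nat.div_div_eq_div_mul, ← pow_succ]

lemma ku_cases {i : ℕ} (h : 1 ≤ ku i) : ku i = 1 ∨ 1 ≤ ku (i + 1) := by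
  by_cases k : i ≤ 11
  · have : ∀ i ≤ 11, ku i = 1 ∨ 1 ≤ ku (i + 1) := by decide +kernel
    exact this i k
  · rw [ku, Nat.div_eq_of_lt (Nat.pow_lt_pow_right (by omega) (by omega))] at h
    omega

lemma key_zero (σ : ℕ → ℕ) {j : ℕ} (h : ku j = 0) (m : ℕ) :
    key σ (j + m) = key σ j ∧ ku (j + m) = 0 := by
  induction m with
  | zero => exact ⟨rfl, h⟩
  | succ m ih => rw [← add_assoc, key, ku_succ, ih.1, ih.2]; exact ⟨rfl, rfl⟩

lemma key_mono (σ : ℕ → ℕ) (j m : ℕ) : key σ j ≤ key σ (j + m) := by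
  induction m with
  | zero => exact le_rfl
  | succ m ih => exact ih.trans (Nat.le_add_right _ _)

lemma key_lt (σ : ℕ → ℕ) (m : ℕ) : ∀ i, 1 ≤ ku i → key σ (i + 1 + m) < key σ (i + 1) + ku i := by
  induction m with
  | zero => exact fun i h => Nat.lt_add_of_pos_right h
  | succ m ih =>
    intro i h
    rcases Nat.eq_zero_or_pos (ku (i + 1)) with k | k
    · rw [(key_zero σ k _).1]
      omega
    · have h1 := ih _ k
      have h2 : σ (i + 1) % 64 * ku (i + 1) ≤ 63 * ku (i + 1) := Nat.mul_le_mul_right _ (by omega)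
      have h3 := ku_succ i
      rw [key] at h1
      rw [show i + 1 + (m + 1) = i + 1 + 1 + m by omega]
      omega

lemma key_bd (σ : ℕ → ℕ) (n : ℕ) : key σ n < 4722366482869645213696 := by
  cases n with
  | zero => exact Nat.succ_pos _
  | succ n =>
    have h1 := key_lt σ n 0 (by decide +kernel)
    have h2 : ku 0 = 73786976294838206464 := by decide +kernel
    rw [key, key, h2, show 0 + 1 + n = n + 1 by omega] at h1
    omega

variable {lo hi : ℕ}

lemma cutT_node (s h d : ℕ) (kid sib : Tr) (u q : ℕ) : cutT lo hi (.node s h d kid sib) u q =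
    if q + s % 64 * u ≤ hi ∧ lo < q + s % 64 * u + u then
      .node s (if lo ≤ q + s % 64 * u then h else 0) d
        (if lo ≤ q + s % 64 * u ∧ q + s % 64 * u + u ≤ hi + 1 then kid
          else cutT lo hi kid (u / 64) (q + s % 64 * u)) (cutT lo hi sib u q)
    else cutT lo hi sib u q := by
  have : ∀ f : ℕ → ℕ → ℕ, f = Nat.land → cutT lo hi (.node s h d kid sib) u q =
      cnd (bnd (Nat.ble (q + f s 63 * u) hi) (Nat.blt lo (q + f s 63 * u + u)))
        (cnd (Nat.ble lo (q + f s 63 * u)) (cnd (Nat.ble (q + f s 63 * u + u) (hi + 1))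
          (.node s h d kid (cutT lo hi sib u q))
          (.node s h d (cutT lo hi kid (u / 64) (q + f s 63 * u)) (cutT lo hi sib u q)))
          (.node s 0 d (cutT lo hi kid (u / 64) (q + f s 63 * u)) (cutT lo hi sib u q)))
        (cutT lo hi sib u q) := by
    rintro f rfl
    rfl
  rw [this _ rfl, show Nat.land s 63 = s % 64 from land_mask s 6]
  simp only [cnd_eq, bnd_iff, Nat.ble_eq, Nat.blt_eq]
  by_cases h1 : lo ≤ q + s % 64 * u <;> by_cases h2 : q + s % 64 * u + u ≤ hi + 1 <;>
    simp only [h1, h2, if_true, if_false, true_and, false_and]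

lemma find_cut {t : Tr} {s u q : ℕ} (hs : t.has s)
    (h : q + s % 64 * u ≤ hi ∧ lo < q + s % 64 * u + u) (a d a' d' : ℕ) :
    (cutT lo hi t u q).has s ∧ find (cutT lo hi t u q) a' d' s =
      .mk (if lo ≤ q + s % 64 * u then (find t a d s).h else 0) (find t a d s).d
        (if lo ≤ q + s % 64 * u ∧ q + s % 64 * u + u ≤ hi + 1 then (find t a d s).kid
          else cutT lo hi (find t a d s).kid (u / 64) (q + s % 64 * u)) := by
  induction t with
  | nil => exact hs.elim
  | node s' h' e kid sib _ ih =>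
    rw [cutT_node, find]
    by_cases k : s = s'
    · subst k
      rw [if_pos h, if_pos rfl, find, if_pos rfl]
      exact ⟨Or.inl rfl, rfl⟩
    · have := ih (hs.resolve_left k)
      rw [if_neg k]
      by_cases k' : q + s' % 64 * u ≤ hi ∧ lo < q + s' % 64 * u + u
      · rw [if_pos k', find, if_neg k]
        exact ⟨Or.inr this.1, this.2⟩
      · rw [if_neg k']
        exact this

lemma find_has {t : Tr} {s : ℕ} (hs : t.has s) (a d a' d' : ℕ) : find t a' d' s = find t a d s := by
  induction t with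
  | nil => exact hs.elim
  | node s' h' e kid sib _ ih =>
    rw [find, find]
    split_ifs with k
    exacts [rfl, ih (hs.resolve_left k)]

theorem walk_cut {t : Tr} {σ : ℕ → ℕ} {n : ℕ} (hf : Found t σ n) (h1 : lo ≤ key σ n)
    (h2 : key σ n ≤ hi) : Found (cutT lo hi t 73786976294838206464 0) σ n ∧
      (walk (cutT lo hi t 73786976294838206464 0) σ n).h = (walk t σ n).h ∧
      (walk (cutT lo hi t 73786976294838206464 0) σ n).d = (walk t σ n).d := by
  generalize hc : cutT lo hi t 73786976294838206464 0 = c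
  have k : ∀ i ≤ n, Found c σ i ∧ (lo ≤ key σ i → (walk c σ i).h = (walk t σ i).h) ∧
      (walk c σ i).d = (walk t σ i).d ∧ ((walk c σ i).kid = (walk t σ i).kid ∨
        1 ≤ ku i ∧ (walk c σ i).kid = cutT lo hi (walk t σ i).kid (ku i) (key σ i)) := by
    intro i
    induction i with
    | zero => exact fun _ => ⟨fun i hi => by omega, fun _ => rfl, rfl,
        Or.inr ⟨by decide +kernel, hc.symm⟩⟩
    | succ i ih =>
      intro hi'
      obtain ⟨a1, -, -, a2⟩ := ih (by omega)
      have a3 := hf i (by omega)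
      have a4 : (walk c σ i).kid.has (σ i) → Found c σ (i + 1) := fun h j hj => by
        rcases Nat.lt_succ_iff_lt_or_eq.1 hj with k | rfl
        exacts [a1 j k, h]
      simp only [walk, Pos.step]
      rcases a2 with a2 | ⟨a5, a2⟩
      · rw [a2, find_has a3]
        exact ⟨a4 (a2 ▸ a3), fun _ => rfl, rfl, Or.inl rfl⟩
      · have b1 := key_mono σ (i + 1) (n - (i + 1))
        have b2 := key_lt σ (n - (i + 1)) i a5
        rw [Nat.add_sub_cancel' hi', key] at b1 b2
        obtain ⟨b3, b4⟩ := find_cut (lo := lo) (hi := hi) (u := ku i) (q := key σ i) a3 (by omega)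
          (walk t σ i).h (walk t σ i).d (walk c σ i).h (walk c σ i).d
        rw [a2, b4, key]
        refine ⟨a4 (a2 ▸ b3), fun h => if_pos h, rfl, ?_⟩
        by_cases b5 : lo ≤ key σ i + σ i % 64 * ku i ∧ key σ i + σ i % 64 * ku i + ku i ≤ hi + 1
        · exact Or.inl (if_pos b5)
        · exact Or.inr ⟨(ku_cases a5).resolve_left (by omega), (if_neg b5).trans (ku_succ i ▸ rfl)⟩
  exact ⟨(k n le_rfl).1, (k n le_rfl).2.1 h1, (k n le_rfl).2.2.1⟩

end Pool.Agent.Work.MP_7cb3ca_co.C3
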