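import Pool.Agent.Work.MP_7cb3ca_co.C3.TDefs

/-!
Decoding of the packed data of a certificate for cycles.
-/

namespace Pool.Agent.Work.MP_7cb3ca_co.C3

open P3

noncomputable section

/-- The low parts of the lanes of `X`, and above them the parts from bit `s` on. -/
def xpl (X s m sh : Nat) : Nat := Nat.add (Nat.land X m) (Nat.shiftLeft ((Nat.land (Nat.shiftRight X s) m)) sh)

/-- The `n` rows of `r` bits of `X`, at distance `s`. -/
def spread (X r s n : Nat) : Nat :=
  Nat.rec (motive := fun _ => Nat) (nat_lit 0)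
    (fun i ih => Nat.add ih (Nat.shiftLeft ((Nat.land (Nat.shiftRight X (Nat.mul r i)) (low r))) (Nat.mul s i))) n

/-- The lanes `U` of `Z` and the other lanes times their scales, and the remainders. -/
def scl (Z U h rl kw nb : Nat) : Nat :=
  Nat.add (Nat.add (Nat.mul U ((Nat.land (Nat.shiftRight h (nat_lit 4)) (nat_lit 255)))) (Nat.mul (Nat.sub Z U) ((Nat.land (Nat.shiftRight h (nat_lit 12)) (nat_lit 255)))))
    ((Nat.land (Nat.shiftRight Z (Nat.mul (nat_lit 32) rl)) (rpP (nat_lit 255) kw nb)))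

/-- The scaled lanes. -/
def scm (Z h k1 rl kw nb : Nat) : Nat :=
  scl Z (Nat.land Z (rpP k1 kw nb)) h rl kw nb

/-- The weight of a node from its packed form; lane `rl` holds the remainders for lane `0`, the
lanes of the mask `k1` and the other lanes have their own scales. -/
def decW (two : Bool) (K k1 rl h : Nat) : Nat :=
  (Nat.rec (motive := fun _ => Nat) (nat_lit 0) (fun ns _ => (Nat.rec (motive := fun _ => Nat) (nat_lit 0) (fun nb _ =>
  (Nat.rec (motive := fun _ => Nat) (nat_lit 0) (fun n8 _ => (Nat.rec (motive := fun _ => Nat) (nat_lit 0) (fun kw _ =>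
    Nat.add (Nat.add (Nat.land h (nat_lit 0xffffffffffffffff))
        (Nat.shiftLeft (Nat.shiftRight h (Nat.add n8 (nat_lit 64))) (nat_lit 64)))
      (Nat.shiftLeft ((fun X : Nat => (Bool.rec (motive := fun _ => _) X (spread X (Nat.mul kw ns) (Nat.mul (nat_lit 8) kw) ns) two))
        (scm (xpl (xpl ((Nat.land (Nat.shiftRight h (nat_lit 64)) (low n8))) (nat_lit 16) (cst (nat_lit 65535) K nb) (Nat.add n8 n8)) (nat_lit 8) (cst (nat_lit 255) K nb) n8)
          h k1 rl kw nb)) kw)) (Nat.succ (Nat.mul (nat_lit 32) K)))) (Nat.succ (Nat.mul (nat_lit 8) (Nat.mul nb K))))) (Nat.succ ((Bool.rec (motive := fun _ => _) ns (Nat.mul ns ns) two))))) (Nat.succ (Nat.land h (nat_lit 15))))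

/-- Row `i` of a table from its packed form. -/
def decR (K nb : Nat) (T : BT) (i : Nat) : Nat :=
  (Nat.rec (motive := fun _ => Nat) (nat_lit 0) (fun X _ =>
    (Bool.rec (motive := fun _ => _) (Nat.add (xpl X (nat_lit 16) (cst (nat_lit 65535) K nb) (Nat.mul (nat_lit 16) (Nat.mul K nb)))
        (Nat.add (Nat.shiftLeft (Nat.land i (nat_lit 255)) (nat_lit 24)) (Nat.shiftLeft (Nat.shiftRight i (nat_lit 8)) (nat_lit 56)))) X ((Bool.rec (motive := fun _ => Bool) (Nat.beq X (nat_lit 0)) true (Nat.ble (nat_lit 6464) i))))) (Nat.succ (T.get i)))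

end

end Pool.Agent.Work.MP_7cb3ca_co.C3
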