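import Pool.Agent.Work.MP_7cb3ca_co.P3.Defs

/-!
The checker for the certificate for cycles: weights are vectors of lanes of 32 bits, one block of
lanes for each way to place the labels.
-/

namespace Pool.Agent.Work.MP_7cb3ca_co.C3

open P3

/-- Lists of edges: remaining run, change, position of the block, growth factor, mask of lanes,
ground value and trie of the next context. -/
inductive EH : Type
  | nil : EH
  | cons (f k sh b em bg : Nat) (tr : Tr) (t : EH) : EH

/-- Lists of pairs of numbers. -/
inductive OL : Type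
  | nil : OL
  | cons (p s : Nat) (t : OL) : OL

noncomputable section

/-- The number with digits `f 0, ..., f (n - 1)` in base `2 ^ w`. -/
def vec (w : Nat) (f : Nat → Nat) (n : Nat) : Nat :=
  Nat.rec (motive := fun _ => Nat) (nat_lit 0)
    (fun i ih => Nat.add ih (Nat.shiftLeft (f i) (Nat.mul w i))) n

/-- `n` digits one. -/
def rp (w n : Nat) : Nat := vec w (fun _ => (nat_lit 1)) n

/-- Digits one in column `x`. -/
def colV (w x n nb : Nat) : Nat := vec w (fun b => (Bool.rec (motive := fun _ => _) (nat_lit 0) (nat_lit 1) (Nat.beq (Nat.mod b n) x))) nb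

/-- Digits one in row `x`. -/
def linV (w x n nb : Nat) : Nat := vec w (fun b => (Bool.rec (motive := fun _ => _) (nat_lit 0) (nat_lit 1) (Nat.beq (Nat.div b n) x))) nb

/-- Digits one outside the diagonal, and at the places `i` and `j` of the diagonal. -/
def keepV (w i j n nb : Nat) : Nat :=
  vec w (fun b => (Bool.rec (motive := fun _ => _) (nat_lit 1) ((Bool.rec (motive := fun _ => _) (nat_lit 0) (nat_lit 1) ((Bool.rec (motive := fun _ => Bool) (Nat.beq (Nat.mod b n) j) true (Nat.beq (Nat.mod b n) i))))) (Nat.beq (Nat.div b n) (Nat.mod b n)))) nb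

/-- The part of `row` from bit `sh` on, masked. -/
def blk (row sh m : Nat) : Nat := Nat.land (Nat.shiftRight row sh) m

/-- The excess over `2 ^ 31` in each lane. -/
def sat (t on : Nat) : Nat :=
  Nat.land t (Nat.mul (Nat.land (Nat.shiftRight t (nat_lit 31)) on) (nat_lit 16777215))

/-- The cap minus the excess of `u`. -/
def clp (cap on u : Nat) : Nat := Nat.sub cap ((Nat.land u (Nat.mul (Nat.land (Nat.shiftRight u (nat_lit 31)) on) (nat_lit 16777215))))

/-- The minimum of `cap` and the excess of `t`, in each lane. -/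
def clip (cap cg on t : Nat) : Nat := clp cap on (Nat.sub cg ((Nat.land t (Nat.mul (Nat.land (Nat.shiftRight t (nat_lit 31)) on) (nat_lit 16777215)))))

/-- `e ≤ s` in each lane. -/
def cmp (s e g : Nat) : Bool := Nat.beq (Nat.land (Nat.sub (Nat.add s g) e) g) g

/-- The table of first places for the empty word. -/
def fN (z _ : Nat) : Nat := z
/-- The table of first places after a repeated letter. -/
def fO (_ _ : Nat) (_ : PL) (ih : Nat → Nat → Nat) (z i : Nat) : Nat := ih z (Nat.sub i (nat_lit 4))
/-- The table of first places after a new letter. -/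
def fW (a _ : Nat) (_ : PL) (ih : Nat → Nat → Nat) (z i : Nat) : Nat :=
  Nat.sub (ih z (Nat.sub i (nat_lit 4))) (Nat.shiftLeft (Nat.sub (nat_lit 924) i) (Nat.add (Nat.mul (nat_lit 10) a) (nat_lit 30)))
/-- The table of first places: digit `a + 3` in base `1024` is `80 + 4 * place`, or `1000`; `i` is
four times the length. -/
def fpt (w : PL) (z i : Nat) : Nat := PL.rec (motive := fun _ => Nat → Nat → Nat) fN fO fW w z i

/-- The table of codes after the letter `x`. -/
def tbx (T x : Nat) : Nat :=
  (Nat.rec (motive := fun _ => Nat) (nat_lit 0) (fun s _ => Nat.sub (Nat.add T (nat_lit 0x3e8fa3e8fa3e8fa3e8fa3e8fa3e8fa3e8fa3e8fa3e8fa3e8fa3e8fa3e8fa3e8fa3e8fa3e8fa3e8fa3e8fa3e8fa3e8fa3e8fa3e8fa3e8fa3e8fa3e8fa3e8fa3e8fa3e8fa3e8fa3e8fa3e8fa3e8fa3e8fa004010040100401004010040100401004010040100401004010040100401004010040100401004010040100401004010040100401004010040100401004010040100401004010040100401004010040100000000))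
    (Nat.shiftLeft (Nat.add (Nat.sub ((Nat.land (Nat.shiftRight T s) (nat_lit 1023))) (nat_lit 76)) (nat_lit 0x3980000000000000000000000000000000000000000000000000000000000000000000000000000000000000000000000000000000000000000000000000000000000000000000000000000000000000000)) s)) (Nat.succ (Nat.add (Nat.mul (nat_lit 10) x) (nat_lit 30))))

/-- The table of codes for a word with last letter `y`. -/
def tbs (T y : Nat) : Nat :=
  Nat.sub (Nat.add T (nat_lit 0x3e8fa3e8fa3e8fa3e8fa3e8fa3e8fa3e8fa3e8fa3e8fa3e8fa3e8fa3e8fa3e8fa3e8fa3e8fa3e8fa3e8fa3e8fa3e8fa3e8fa3e8fa3e8fa3e8fa3e8fa3e8fa3e8fa3e8fa3e8fa3e8fa3e8fa3e8fa3e8fa000000000000000000000000000000000000000000000000000000000000000000000000000000000000000000000000000000000000000000000000000000000000000000000000000000000000000000000000)) (Nat.shiftLeft (nat_lit 0x3980000000000000000000000000000000000000000000000000000000000000000000000000000000000000000000000000000000000000000000000000000000000000000000000000000000000000000) (Nat.add (Nat.mul (nat_lit 10) y)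 (nat_lit 30)))

/-- The position in the header for the mark of the name `a`. -/
def optS (m a : Nat) : Nat := Nat.add (Nat.mul (nat_lit 4) ((Nat.land (Nat.shiftRight m (Nat.add a a)) (nat_lit 3)))) (nat_lit 64)

/-- The position in the table of codes for the name `a`. -/
def optP (m a : Nat) : Nat :=
  Nat.add (Nat.mul (nat_lit 10) a) ((Bool.rec (motive := fun _ => _) (nat_lit 30) (nat_lit 670) (Nat.beq ((Nat.land (Nat.shiftRight m (Nat.add a a)) (nat_lit 3))) (nat_lit 0))))

/-- The place in the table of codes and the mark, for the names in a list. -/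
def opts (m : Nat) (l : List Nat) (o : OL) : OL :=
  List.rec (motive := fun _ => OL) o (fun a _ ih => OL.cons (optP m a) (optS m a) ih) l

/-- The positions of the blocks. -/
def slots (o : OL) (tb dt hd kw : Nat) : List Nat :=
  OL.rec (motive := fun _ => List Nat) [] (fun p s _ ih =>
    (Nat.rec (motive := fun _ => List Nat) [] (fun v _ =>
      v :: ih) (Nat.succ (Nat.mul kw ((Nat.land (Nat.shiftRight hd ((Bool.rec (motive := fun _ => _) s ((Nat.land (Nat.shiftRight tb p) (nat_lit 1023))) (Nat.ble ((Nat.land (Nat.shiftRight tb p) (nat_lit 1023))) dt)))) (nat_lit 7))))))) o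

/-- The blocks for all options, for one label. -/
def row1 (o : OL) (tb dt hd H kw bm : Nat) : Nat :=
  OL.rec (motive := fun _ => Nat) (nat_lit 0) (fun p s _ ih => Nat.add (Nat.shiftLeft ih kw)
    ((Nat.land (Nat.shiftRight H (Nat.mul kw ((Nat.land (Nat.shiftRight hd ((Bool.rec (motive := fun _ => _) s ((Nat.land (Nat.shiftRight tb p) (nat_lit 1023))) (Nat.ble ((Nat.land (Nat.shiftRight tb p) (nat_lit 1023))) dt)))) (nat_lit 15))))) bm))) o

/-- `n` bits one. -/
def low (n : Nat) : Nat := Nat.sub (Nat.shiftLeft (nat_lit 1) n) (nat_lit 1)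

/-- The masked parts of `H` at the positions `a * p + b` for `p` in a list. -/
def rowA (l : List Nat) (H rs rm a b : Nat) : Nat :=
  List.rec (motive := fun _ => Nat) (nat_lit 0)
    (fun p _ ih => Nat.add (Nat.shiftLeft ih rs) ((Nat.land (Nat.shiftRight H (Nat.add (Nat.mul a p) b)) rm))) l

/-- The blocks for all pairs of options. -/
def row2 (l : List Nat) (H kw bm n rs : Nat) : Nat :=
  (Bool.rec (motive := fun _ => _) (rowA l (rowA l H rs (low (Nat.mul (nat_lit 8) kw)) (nat_lit 8) kw) kw (Nat.mul bm (rp rs n)) (nat_lit 1) (nat_lit 0)) (rowA l (rowA l H kw (Nat.mul bm (rp (Nat.mul (nat_lit 8) kw) (nat_lit 8))) (nat_lit 1) kw) rs (low rs) (nat_lit 8) (nat_lit 0)) (Nat.ble n (nat_lit 8)))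

/-- The blocks of a weight for all options. -/
def gat (two : Bool) (o : OL) (tb dt H kw bm n rs : Nat) : Nat :=
  (Nat.rec (motive := fun _ => Nat) (nat_lit 0) (fun hd _ =>
    (Bool.rec (motive := fun _ => _) (row1 o tb dt hd H kw bm) (row2 (slots o tb dt hd kw) H kw bm n rs) two)) (Nat.succ (Nat.land H (nat_lit 0xffffffffffffffffffffffffffffffffffffffffffffffffffffffffffffffffffffffffffffffffff))))

/-- The charge for the open events. -/
def chO (e : EV) (f sh m : Nat) : Nat :=
  EV.rec (motive := fun _ => Nat) (nat_lit 0) (fun _ _ g row _ ih =>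
    (Bool.rec (motive := fun _ => _) (Nat.add ((Nat.land (Nat.shiftRight row sh) m)) ih) ih (Nat.ble g f))) e

/-- Step of the charge for the closed events. -/
def chC (n _g0 g row : Nat) (_ : EV) (ih : Nat → Nat → Nat → Nat → Nat) (dt f sh m : Nat) : Nat :=
  (Bool.rec (motive := fun _ => _) ((Bool.rec (motive := fun _ => _) (Nat.add ((Nat.land (Nat.shiftRight row sh) m)) (ih dt f sh m)) (ih dt f sh m) (Nat.ble g f))) (nat_lit 0) (Nat.ble n dt))

/-- The charge for no event. -/
def chN (_ _ _ _ : Nat) : Nat := (nat_lit 0)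

/-- The charge for the visible events. -/
def chV (o c : EV) (d dt f sh m : Nat) : Nat :=
  (Bool.rec (motive := fun _ => _) (nat_lit 0) (Nat.add (chO o f sh m)
    (EV.rec (motive := fun _ => Nat → Nat → Nat → Nat → Nat) chN chC c dt f sh m)) (Nat.ble dt d))

/-- The charge for the matches that reach the first letter. -/
def chA (e : EV) (dt sh : Nat) : Nat :=
  EV.rec (motive := fun _ => Nat) (nat_lit 0) (fun n l _ row _ ih =>
    (Bool.rec (motive := fun _ => _) (Nat.add ((Nat.land (Nat.shiftRight row sh) l)) ih) ih (Nat.ble n dt))) e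

/-- The charge for the visible events, in every block. -/
def chP (o c an : EV) (d dt f sh m kw nb : Nat) : Nat :=
  Nat.mul (Nat.add (chV o c d dt f sh m) (chA an dt sh)) (rp kw nb)

/-- A block repeated. -/
def rpP (v kw nb : Nat) : Nat := Nat.mul v (rp kw nb)

/-- The caps above `2 ^ 31`. -/
def cgP (cap kw nb on : Nat) : Nat := Nat.add (rpP cap kw nb) (Nat.shiftLeft on (nat_lit 31))

/-- The ground values after the charges that depend on the labels. -/
def bgP (two : Bool) (bg s1 r2 r3 sh m kw x iy n nb : Nat) : Nat :=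
  Nat.sub (rpP bg kw nb) (Nat.add (Nat.mul s1 (colV kw x n nb))
    ((Bool.rec (motive := fun _ => _) (nat_lit 0) (Nat.add (Nat.mul ((Nat.land (Nat.shiftRight r2 sh) m)) (linV kw x n nb))
      (Nat.shiftLeft ((Nat.land (Nat.shiftRight r3 sh) m)) (Nat.mul kw (Nat.add (Nat.mul x n) iy)))) two)))

/-- The value of an arrival without a weight. -/
def val1 (two : Bool) (cap bg s1 r2 r3 sh m kw x iy n nb on : Nat) : Nat :=
  clip (rpP cap kw nb) (cgP cap kw nb on) on (bgP two bg s1 r2 r3 sh m kw x iy n nb)

/-- The value of an arrival at a node with weight `h` and depth `dt`. -/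
def val0 (two : Bool) (D : Nat → Nat) (o c an : EV)
    (d m mv kw bm r2 r3 x iy tb f sh cap bg s1 : Nat) (oc : OL)
    (n nb rs on h dt : Nat) : Nat :=
  (Bool.rec (motive := fun _ => _) ((Nat.rec (motive := fun _ => Nat) (nat_lit 0) (fun dt' _ =>
      clip (rpP cap kw nb) (cgP cap kw nb on) on
        (Nat.sub (Nat.add (gat two oc tb dt' (D h) kw bm n rs)
          (bgP two bg s1 r2 r3 sh mv kw x iy n nb)) (chP o c an d dt f sh m kw nb))) (Nat.succ (Nat.add (Nat.mul (nat_lit 4) dt) (nat_lit 76))))) (Nat.add (val1 two cap bg s1 r2 r3 sh mv kw x iy n nb on) (nat_lit 0)) (Nat.beq h (nat_lit 0)))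

/-- The value of an arrival at a place. -/
def valA (V : Nat → Nat → Nat) (P : Pos) : Nat :=
  Pos.rec (motive := fun _ => Nat) (fun h dt _ => V h dt) P

/-- The value of an arrival that needs depth five. -/
def valB (V : Nat → Nat → Nat) (P : Pos) : Nat :=
  Pos.rec (motive := fun _ => Nat) (fun h dt _ => (Bool.rec (motive := fun _ => _) (V (nat_lit 0) (nat_lit 0)) (V h dt) (Nat.ble (nat_lit 5) dt))) P

/-- The number of letters of the packed word `V`, from place `o` on and at most `e` of them,
before the letter `x` or a fourth colour appears; `r` if this is not seen within `r` letters. -/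
def zt (x V o e r : Nat) : Nat :=
  Nat.rec (motive := fun _ => Nat → Nat → Nat → Nat) (fun _ _ _ => r)
    (fun _ ih i s c => (Bool.rec (motive := fun _ => _) ((Nat.rec (motive := fun _ => Nat) (nat_lit 0) (fun y _ => (Bool.rec (motive := fun _ => _) ((Nat.rec (motive := fun _ => Nat) (nat_lit 0) (fun i' _ => (Bool.rec (motive := fun _ => _) ((Bool.rec (motive := fun _ => _) ((Nat.rec (motive := fun _ => Nat) (nat_lit 0) (fun s' _ => (Nat.rec (motive := fun _ => Nat) (nat_lit 0) (fun c' _ => ih i' s' c') (Nat.succ (Nat.add c (nat_lit 1))))) (Nat.succ (Nat.lor s (Nat.shiftLeft (nat_lit 1) y))))) i (Nat.beq c (nat_lit 3)))) (ih i' s c) (Nat.beq ((Nat.land (Nat.shiftRight s y) (nat_lit 1))) (nat_lit 1)))) (Nat.succ (Nat.add i (nat_lit 1))))) i (Nat.beq y x))) (Nat.succ ((Nat.land (Nat.shiftRight V (Nat.add (Nat.mul (nat_lit 6) (Nat.add o i)) (nat_lit 24))) (nat_lit 63)))))) r (Nat.ble e i)))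
    r (nat_lit 0) (nat_lit 0) (nat_lit 0)

/-- The length of the match of the packed word `Z` with its shift by `p`, within `n` letters. -/
def lcp (Z p n : Nat) : Nat → Nat :=
  Nat.rec (motive := fun _ => Nat → Nat) (fun i => i)
    (fun _ ih i => (Bool.rec (motive := fun _ => _) i ((Nat.rec (motive := fun _ => Nat) (nat_lit 0) (fun m_ _ => ih m_) (Nat.succ (Nat.add i (nat_lit 1))))) (Nat.beq ((Nat.land (Nat.shiftRight Z (Nat.add (Nat.mul (nat_lit 6) i) (nat_lit 24))) (nat_lit 63))) ((Nat.land (Nat.shiftRight Z (Nat.add (Nat.mul (nat_lit 6) (Nat.add p i)) (nat_lit 24))) (nat_lit 63)))))) n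

/-- The entry for a match of period `p` and length `b` that acts on the lanes `l`. -/
def anB (R : Nat → Nat) (hu ts b nd l mu : Nat) (ih : (EV → Bool) → Bool) (K : EV → Bool) : Bool :=
  (Bool.rec (motive := fun _ => _) (ih fun a => K (EV.cons (nat_lit 99) l (nat_lit 0) hu a)) ((Nat.rec (motive := fun _ => Bool) false (fun i _ => (Nat.rec (motive := fun _ => Bool) false (fun row _ =>
      (Nat.rec (motive := fun _ => Bool) false (fun nn _ => ih fun a => K (EV.cons nn l (nat_lit 0) row a)) (Nat.succ ((Bool.rec (motive := fun _ => _) nd (nat_lit 99) (Nat.ble ts nd)))))) (Nat.succ (R i)))) (Nat.succ (Nat.sub (Nat.add (nat_lit 6601) mu) b)))) (Nat.ble b mu))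

/-- The bound for the length of a match of period `p` and length `b`. -/
def anM (MU : Nat → Nat) (r1 Z e p b : Nat) : Nat :=
  (Nat.rec (motive := fun _ => Nat) (nat_lit 0) (fun y _ => (Nat.rec (motive := fun _ => Nat) (nat_lit 0) (fun e' _ =>
    (Nat.land (Nat.shiftRight (MU p) (Nat.mul (nat_lit 8) (zt y Z b e' r1))) (nat_lit 255))) (Nat.succ (Nat.sub e b)))) (Nat.succ ((Nat.land (Nat.shiftRight Z (Nat.add (Nat.mul (nat_lit 6) (Nat.sub b (nat_lit 1))) (nat_lit 24))) (nat_lit 63)))))

/-- The entry for a match of period `p`. -/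
def anA (R LM MU : Nat → Nat) (m hu r1 ts Z e p : Nat) (ih : (EV → Bool) → Bool) (K : EV → Bool) :
    Bool :=
  (Nat.rec (motive := fun _ => Bool) false (fun r _ => (Nat.rec (motive := fun _ => Bool) false (fun b _ => (Nat.rec (motive := fun _ => Bool) false (fun nd _ =>
    (Nat.rec (motive := fun _ => Bool) false (fun l _ => (Bool.rec (motive := fun _ => _) ((Nat.rec (motive := fun _ => Bool) false (fun mu _ => anB R hu ts b nd l mu ih K) (Nat.succ (anM MU r1 Z e p b)))) (ih K) (Nat.beq l (nat_lit 0)))) (Nat.succ (Nat.land (LM nd) m)))) (Nat.succ (Nat.add p b)))) (Nat.succ (lcp Z p r (nat_lit 0))))) (Nat.succ (Nat.sub e p)))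

/-- The visible matches of periods `1, ..., n`, with the lanes on which they act. -/
def anch (A : Nat → ((EV → Bool) → Bool) → (EV → Bool) → Bool) (Z x n : Nat) :
    (EV → Bool) → Bool :=
  Nat.rec (motive := fun _ => (EV → Bool) → Bool) (fun K => K EV.nil)
    (fun p ih K => (Bool.rec (motive := fun _ => _) (ih K) ((Nat.rec (motive := fun _ => Bool) false (fun q _ => A q ih K) (Nat.succ (Nat.add p (nat_lit 1))))) (Nat.beq (Nat.land (Nat.shiftRight Z (Nat.add (Nat.mul (nat_lit 6) p) (nat_lit 30))) (nat_lit 63)) x))) n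

/-- The values of the letter `x` on one edge. -/
def edgeV (V : (Nat → Nat → Nat) → Pos → Nat)
    (U : Nat → Nat → Nat → Nat → Nat → OL → Nat → Nat → Nat → Nat → Nat → Nat → Nat)
    (R : Nat → Nat) (m mv rc rz rb ir : Nat) (w : PL) (x : Nat) (tr : Tr) (f sh bg0 t : Nat)
    (k : (OL → Nat → Nat → Nat → Nat → Nat → Nat) → Bool) : Bool :=
  (Nat.rec (motive := fun _ => Bool) false (fun cap _ => (Nat.rec (motive := fun _ => Bool) false (fun iw _ => (Nat.rec (motive := fun _ => Bool) false (fun s1 _ =>
    (Nat.rec (motive := fun _ => Bool) false (fun bg _ =>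
      k fun oc n nb rs on mm => V (U f sh cap bg s1 oc n nb rs on)
        (PL.rec (motive := fun _ => Nat → Nat → Tr → Pos) pNil pOld pNew w mm x tr)) (Nat.succ (Nat.sub bg0 (Nat.add ((Nat.land (Nat.shiftRight (R iw) sh) mv)) ((Nat.land (Nat.shiftRight rb sh) m))))))) (Nat.succ ((Nat.land (Nat.shiftRight rz sh) mv))))) (Nat.succ (Nat.add ir t)))) (Nat.succ ((Nat.land (Nat.shiftRight rc sh) m))))

/-- The data of a letter without a visible square. -/
def letterA (two : Bool) (D R LM MU : Nat → Nat) (m mv hu ts kw bm r1 r2 r3 mk : Nat) (w : PL)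
    (d iy x : Nat)
    (K : (Tr → Nat → Nat → Nat → Nat →
      ((OL → Nat → Nat → Nat → Nat → Nat → Nat) → Bool) → Bool) → Bool)
    (o c : EV) (Y Z e rz rb tb : Nat) : Bool :=
  (Nat.rec (motive := fun _ => Bool) false (fun ir _ =>
  (Nat.rec (motive := fun _ => Bool) false (fun S _ => (Nat.rec (motive := fun _ => Bool) false (fun ic _ => (Nat.rec (motive := fun _ => Bool) false (fun rc _ =>
    anch (anA R LM MU m hu r1 ts Y e) Y x d fun an =>
      (fun B : ((Nat → Nat → Nat) → Pos → Nat) → Bool =>
        (Bool.rec (motive := fun _ => _) (B valA) (B valB) ((Bool.rec (motive := fun _ => Bool) false (Nat.beq ((Nat.land (Nat.shiftRight Z (Nat.mul (nat_lit 6) (nat_lit 1))) (nat_lit 63))) ((Nat.land (Nat.shiftRight Z (Nat.mul (nat_lit 6) (nat_lit 4))) (nat_lit 63)))) (Nat.beq x ((Nat.land (Nat.shiftRight Z (Nat.mul (nat_lit 6) (nat_lit 3))) (nat_lit 63))))))))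
      fun V => K (edgeV V (val0 two D o c an d m mv kw bm r2 r3 x iy tb) R m mv rc rz rb ir w x)) (Nat.succ (R ic)))) (Nat.succ (iH mk S)))) (Nat.succ (Nat.land Z (nat_lit 16777215))))) (Nat.succ (Nat.add (nat_lit 5824) (Nat.mul (nat_lit 64) (cls Z e)))))

/-- The data of the letter `x` after a word of length `d`. -/
def letter (two : Bool) (D R LM MU : Nat → Nat) (m mv hu ts kw bm r1 r2 r3 mk : Nat) (w : PL)
    (v : QL) (W d T iy x : Nat)
    (K : (Tr → Nat → Nat → Nat → Nat →
      ((OL → Nat → Nat → Nat → Nat → Nat → Nat) → Bool) → Bool) → Bool) : Bool :=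
  Evs.rec (motive := fun _ => Bool) (K fun _ _ _ _ _ k => k fun _ _ _ _ _ _ => (nat_lit 0))
    (fun o c => (Nat.rec (motive := fun _ => Bool) false (fun Y _ => (Nat.rec (motive := fun _ => Bool) false (fun Z _ =>
      (Nat.rec (motive := fun _ => Bool) false (fun e _ => (Nat.rec (motive := fun _ => Bool) false (fun iz _ => (Nat.rec (motive := fun _ => Bool) false (fun rz _ =>
      (Nat.rec (motive := fun _ => Bool) false (fun i0 _ => (Nat.rec (motive := fun _ => Bool) false (fun rb _ => (Nat.rec (motive := fun _ => Bool) false (fun tb _ =>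
        letterA two D R LM MU m mv hu ts kw bm r1 r2 r3 mk w d iy x K o c Y Z e rz rb tb) (Nat.succ (tbx T x)))) (Nat.succ (R i0)))) (Nat.succ (Nat.add (nat_lit 6484) (zt (nat_lit 63) Y (nat_lit 0) e r1))))) (Nat.succ (R iz)))) (Nat.succ (Nat.add (nat_lit 6464) (zt x W (nat_lit 1) d r1))))) (Nat.succ (Nat.add d (nat_lit 1))))) (Nat.succ (win Y (nat_lit 0))))) (Nat.succ (Nat.add W (Nat.shiftLeft x (nat_lit 24))))))
    (QL.rec (motive := fun _ => (Nat → Nat) → Nat → Nat → Evs) eNil eCons v R mk x)

/-- All ways to mark at most `k` letters of a list, with the list of the marked letters that have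
no slot. -/
def born4 (f : Nat → Nat → List Nat → Nat → Bool) (y : Nat) (l : List Nat) :
    Nat → Nat → List Nat → Nat → Bool :=
  List.rec (motive := fun _ => Nat → Nat → List Nat → Nat → Bool) f
    (fun a _ ih k acc o n => Nat.rec (motive := fun _ => Bool) (f (nat_lit 0) acc o n)
      (fun k' _ => (Bool.rec (motive := fun _ => Bool) false ((Nat.rec (motive := fun _ => Bool) false (fun acc' _ =>
        (Bool.rec (motive := fun _ => _) ((Nat.rec (motive := fun _ => Bool) false (fun n' _ => ih k' acc' (a :: o) n') (Nat.succ (Nat.add n (nat_lit 1))))) (ih k' acc' o n) ((Bool.rec (motive := fun _ => Bool) (Nat.beq a y) true (Nat.ble a (nat_lit 5)))))) (Nat.succ (Nat.lor acc ((Nat.shiftLeft (nat_lit 2) (Nat.add a a))))))) (ih k acc o n))) k) l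

/-- `n` times the name `62`. -/
def pad (n : Nat) : List Nat := Nat.rec (motive := fun _ => List Nat) [] (fun _ ih => (nat_lit 62) :: ih) n

/-- The lanes moved to the places of their successors. -/
def aln (Y ma ms mj kw nb : Nat) : Nat :=
  Nat.lor (Nat.land (Nat.shiftRight Y (nat_lit 32)) (rpP ma kw nb)) (Nat.lor (Nat.land Y (rpP ms kw nb))
    (Nat.land (Nat.shiftLeft Y (nat_lit 32)) (rpP mj kw nb)))

/-- The weights of the source for `n` options. -/
def src (two : Bool) (H tb mS : Nat) (SN : List Nat) (n0 d kw bm n : Nat) : Nat :=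
  gat two (opts mS SN (opts mS (pad (Nat.sub (Nat.add n (nat_lit 1)) n0)) OL.nil)) tb d H kw bm n
    (Nat.mul kw n)

/-- The weights of the source, aligned. -/
def need (two : Bool) (H tb mS : Nat) (SN : List Nat) (n0 d kw bm ma ms mj n nb : Nat) : Nat :=
  aln (src two H tb mS SN n0 d kw bm n) ma ms mj kw nb

/-- The left sides of the inequalities. -/
def needB (two : Bool) (H tb mS : Nat) (SN : List Nat) (n0 d kw bm ma ms mj b em n nb fi : Nat) :
    Nat :=
  Nat.mul b (Nat.land (need two H tb mS SN n0 d kw bm ma ms mj n nb)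
    (Nat.mul em ((Bool.rec (motive := fun _ => _) (rp kw nb) (keepV kw (Nat.sub n0 (nat_lit 1)) fi n nb) two))))

/-- The conditions between the lanes of one weight. -/
def side (CV : OL) (la lq m kw nb g X : Nat) : Bool :=
  (Bool.rec (motive := fun _ => Bool) false ((Nat.rec (motive := fun _ => Bool) false (fun u _ =>
      (Bool.rec (motive := fun _ => Bool) false (cmp (Nat.shiftLeft u la) (Nat.land X (Nat.shiftLeft (rpP (nat_lit 65535) kw nb) la)) g) (cmp X (Nat.shiftLeft u lq) g))) (Nat.succ (Nat.mul ((Nat.land (Nat.shiftRight X la) (nat_lit 65535))) (rp kw nb))))) (OL.rec (motive := fun _ => Bool) true (fun s M _ ih =>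
      (Bool.rec (motive := fun _ => Bool) false ih (cmp (Nat.shiftRight X (Nat.shiftRight s (nat_lit 16)))
        ((Nat.land (Nat.shiftRight X (Nat.land s (nat_lit 65535))) (rpP (Nat.land M m) kw nb))) g))) CV))

/-- The test of one option: the inequalities in all lanes and blocks. -/
def tst1 (nd on _ _ v1 v2 v3 : Nat) : Bool :=
  cmp (Nat.shiftLeft (Nat.add (Nat.add v1 v2) v3) (nat_lit 12)) nd (Nat.shiftLeft on (nat_lit 31))

/-- The test of one option at the start: one letter has a positive value. -/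
def tst0 (_ _ p s v1 v2 v3 : Nat) : Bool :=
  (Bool.rec (motive := fun _ => Bool) ((Bool.rec (motive := fun _ => Bool) (Nat.ble (nat_lit 1) ((Nat.land (Nat.shiftRight v3 (Nat.add p (Nat.add s s))) (nat_lit 16777215)))) true (Nat.ble (nat_lit 1) ((Nat.land (Nat.shiftRight v2 (Nat.add p s)) (nat_lit 16777215)))))) true (Nat.ble (nat_lit 1) ((Nat.land (Nat.shiftRight v1 p) (nat_lit 16777215)))))

/-- The test for one list of options. -/
def leafB (F : Nat → Nat → Nat → Nat → Nat → Nat → Nat → Bool) (two : Bool)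
    (Q : Nat → Nat → Nat → Nat) (kw o1 p2 : Nat)
    (v1 v2 v3 : OL → Nat → Nat → Nat → Nat → Nat → Nat) (mm fi n : Nat) (oc : OL) : Bool :=
  (Nat.rec (motive := fun _ => Bool) false (fun nb _ => (Nat.rec (motive := fun _ => Bool) false (fun rs _ =>
    F (Q n nb fi) (rpP o1 kw nb) p2 ((Bool.rec (motive := fun _ => _) (nat_lit 0) rs two)) (v1 oc n nb rs (rpP o1 kw nb) mm)
      (v2 oc n nb rs (rpP o1 kw nb) mm) (v3 oc n nb rs (rpP o1 kw nb) mm)) (Nat.succ (Nat.mul kw n)))) (Nat.succ ((Bool.rec (motive := fun _ => _) n (Nat.mul n n) two))))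

/-- The list of options for one way to mark the letters. -/
def leafA (B : Nat → Nat → Nat → OL → Bool) (SN : List Nat) (n0 r mm : Nat) (o : List Nat)
    (n : Nat) : Bool :=
  (Bool.rec (motive := fun _ => _) ((Nat.rec (motive := fun _ => Bool) false (fun n' _ => B mm n0 n' (opts mm SN (opts mm ((nat_lit 62) :: (nat_lit 63) :: o) OL.nil))) (Nat.succ (Nat.add n (nat_lit 1))))) (B mm (nat_lit 99) n (opts mm SN (opts mm ((nat_lit 62) :: o) OL.nil))) (Nat.beq r (nat_lit 0)))

/-- The lanes of `em` in which the letters with names in a list may be marked. -/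
def vmk (VM : Nat → Nat) (em : Nat) (o : List Nat) : Nat :=
  List.rec (motive := fun _ => Nat) em (fun a _ ih => Nat.land (VM (Nat.sub a (nat_lit 6))) ih) o

/-- The test for one way to mark the letters, in the lanes in which it may occur. -/
def leafC (B : Nat → Nat → Nat → Nat → OL → Bool) (VM : Nat → Nat) (em : Nat) (SN : List Nat)
    (n0 r mm : Nat) (o : List Nat) (n : Nat) : Bool :=
  (Nat.rec (motive := fun _ => Bool) false (fun e _ => (Bool.rec (motive := fun _ => _) (leafA (B e) SN n0 r mm o n) true (Nat.beq e (nat_lit 0)))) (Nat.succ (vmk VM em o)))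

/-- The check of all edges from one state. -/
def edgesE (F : Nat → Nat → Nat → Nat → Nat → Nat → Nat → Bool) (two : Bool) (VM : Nat → Nat)
    (Q : Nat → Nat → Nat → Nat → Nat → Nat) (kw o1 p2 : Nat) (SN : List Nat) (n0 y m0 d g : Nat)
    (M C : List Nat) (N : EH)
    (g1 g2 g3 : Tr → Nat → Nat → Nat → Nat →
      ((OL → Nat → Nat → Nat → Nat → Nat → Nat) → Bool) → Bool) : Bool :=
  EH.rec (motive := fun _ => Bool) true (fun f k sh b em bg tr _ ih => (Bool.rec (motive := fun _ => Bool) false ih ((Nat.rec (motive := fun _ => Bool) false (fun T0 _ => (Nat.rec (motive := fun _ => Bool) false (fun t _ =>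
      g1 tr f sh bg t fun v1 => g2 tr f sh bg t fun v2 => g3 tr f sh bg t fun v3 =>
        keep (fun m1 => born4 (leafC (fun e => leafB F two (Q b e) kw o1 p2 v1 v2 v3) VM em SN n0)
          y C k m1 [] n0) M k m0) (Nat.succ ((Bool.rec (motive := fun _ => _) (nat_lit 44) T0 (Nat.ble T0 (nat_lit 44))))))) (Nat.succ (Nat.add (Nat.sub d (nat_lit 2)) (Nat.sub f g))))))) N

/-- The conditions between the lanes of the weight of a state. -/
def sideE (two : Bool) (CV : OL) (la lq m kw o1 n0 X : Nat) : Bool :=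
  (Nat.rec (motive := fun _ => Bool) false (fun nb _ => (Nat.rec (motive := fun _ => Bool) false (fun G _ =>
    side CV la lq m kw nb G X) (Nat.succ (Nat.shiftLeft (rpP o1 kw nb) (nat_lit 31))))) (Nat.succ ((Bool.rec (motive := fun _ => _) n0 (Nat.mul n0 n0) two))))

/-- The check of one state, after the choice of the named letters. -/
def stateB (F : Nat → Nat → Nat → Nat → Nat → Nat → Nat → Bool) (two : Bool) (VM : Nat → Nat)
    (CV : OL)
    (la lq l2 m kw bm o1 ma ms mj m0 mS : Nat) (M : List Nat) (N : EH) (d g : Nat) (C : List Nat)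
    (Lt : Nat → Nat → ((Tr → Nat → Nat → Nat → Nat →
      ((OL → Nat → Nat → Nat → Nat → Nat → Nat) → Bool) → Bool) → Bool) → Bool)
    (y tb H d' : Nat) (SN : List Nat) (iy n0 : Nat) : Bool :=
  (Bool.rec (motive := fun _ => Bool) false ((Nat.rec (motive := fun _ => Bool) false (fun p2 _ =>
      Lt iy (nat_lit 0) fun g1 => Lt iy (nat_lit 1) fun g2 => Lt iy (nat_lit 2) fun g3 =>
        edgesE F two VM (needB two H tb mS SN n0 d' kw bm ma ms mj) kw o1 p2 SN n0 y m0 d g M C N
          g1 g2 g3) (Nat.succ (Nat.add (Nat.mul kw iy) l2)))) ((Nat.rec (motive := fun _ => Bool) false (fun m_ _ => (sideE two CV la lq m kw o1 n0) m_) (Nat.succ (src two H tb mS SN n0 d' kw bm n0)))))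

/-- The choice of the named letters. -/
def stateA (k1 : Nat) (S0 S1 : Nat → List Nat) (y : Nat) (B : List Nat → Nat → Nat → Bool) : Bool :=
  (Bool.rec (motive := fun _ => _) ((Nat.rec (motive := fun _ => Bool) false (fun m_ _ => (B (S1 y) k1) m_) (Nat.succ (Nat.add k1 (nat_lit 2))))) ((Nat.rec (motive := fun _ => Bool) false (fun m_ _ => (B (S0 y) y) m_) (Nat.succ (Nat.add k1 (nat_lit 1))))) (Nat.ble y (nat_lit 5)))

/-- The row of charges for the second label after the first one. -/
def rowC (two : Bool) (R : Nat → Nat) (r1 y W d : Nat) : Nat :=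
  (Bool.rec (motive := fun _ => _) (nat_lit 0) ((Nat.rec (motive := fun _ => Nat) (nat_lit 0) (fun m_ _ => R m_) (Nat.succ (Nat.add (nat_lit 6474) (zt y W (nat_lit 2) (Nat.sub d (nat_lit 1)) r1))))) two)

/-- The table of first places of a state. -/
def fpS (w : PL) (W d : Nat) : Nat :=
  (Nat.rec (motive := fun _ => Nat) (nat_lit 0) (fun i _ => (Nat.rec (motive := fun _ => Nat) (nat_lit 0) (fun z _ => fpt w z i) (Nat.succ (Nat.add (Nat.land W (nat_lit 16777215)) (nat_lit 0x3e8fa3e8fa3e8fa3e8fa3e8fa3e8fa3e8fa3e8fa3e8fa3e8fa3e8fa3e8fa3e8fa3e8fa3e8fa3e8fa3e8fa3e8fa3e8fa3e8fa3e8fa3e8fa3e8fa3e8fa3e8fa3e8fa3e8fa3e8fa3e8fa3e8fa3e8fa3e8fa00000000))))) (Nat.succ (Nat.mul (nat_lit 4) d)))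

/-- The check of one state. -/
def state (F : Nat → Nat → Nat → Nat → Nat → Nat → Nat → Bool) (two : Bool)
    (D R LM VM MU : Nat → Nat) (CV : OL)
    (la lq l2 m hu ts kw bm o1 r1 r2 ma ms mj mk m0 mS k1 : Nat)
    (S0 S1 : Nat → List Nat) (M : List Nat) (N : EH) (d h : Nat) (w : PL) (v : QL) (W g : Nat)
    (C : List Nat) : Bool :=
  (Nat.rec (motive := fun _ => Bool) false (fun T _ => (Nat.rec (motive := fun _ => Bool) false (fun y _ => (Nat.rec (motive := fun _ => Bool) false (fun tb _ =>
  (Nat.rec (motive := fun _ => Bool) false (fun H _ => (Nat.rec (motive := fun _ => Bool) false (fun d' _ => (Nat.rec (motive := fun _ => Bool) false (fun mv _ =>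
  (Nat.rec (motive := fun _ => Bool) false (fun r3 _ =>
    stateA k1 S0 S1 y (stateB F two VM CV la lq l2 m kw bm o1 ma ms mj m0 mS M N d g C
      (letter two D R LM MU m mv hu ts kw bm r1 r2 r3 mk w v W d T) y tb H d')) (Nat.succ (rowC two R r1 y W d)))) (Nat.succ (Nat.land (VM d) m)))) (Nat.succ (Nat.add (Nat.mul (nat_lit 4) d) (nat_lit 76))))) (Nat.succ (D h)))) (Nat.succ (tbs T y)))) (Nat.succ ((Nat.land (Nat.shiftRight W (Nat.add (Nat.mul (nat_lit 6) (nat_lit 1)) (nat_lit 24))) (nat_lit 63)))))) (Nat.succ (fpS w W d)))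

/-- The growth factor of the edge to the context with last digit `r`. -/
def beta (br r : Nat) : Nat := (Nat.land (Nat.shiftRight br (Nat.mul (nat_lit 16) r)) (nat_lit 16383))

/-- The allowed edges to the contexts of a list. -/
def edges3 (TR : Nat → Tr) (br re gr m kw : Nat) (l : List Nat) : EH :=
  List.rec (motive := fun _ => EH) EH.nil (fun c _ ih =>
    (Nat.rec (motive := fun _ => EH) EH.nil (fun r _ => (Nat.rec (motive := fun _ => EH) EH.nil (fun b _ => (Bool.rec (motive := fun _ => _) ((Nat.rec (motive := fun _ => EH) EH.nil (fun f _ => (Nat.rec (motive := fun _ => EH) EH.nil (fun k _ => (Nat.rec (motive := fun _ => EH) EH.nil (fun sh _ =>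
        (Nat.rec (motive := fun _ => EH) EH.nil (fun em _ => EH.cons f k sh b em gr (TR c) ih) (Nat.succ ((Nat.land (Nat.shiftRight re sh) m))))) (Nat.succ (Nat.mul kw r)))) (Nat.succ (ck c)))) (Nat.succ (cf c)))) ih (Nat.beq b (nat_lit 0)))) (Nat.succ (beta br r)))) (Nat.succ (Nat.mod c (nat_lit 10))))) l

/-- The marks of the named letters for the current and the next list. -/
def mS (k : Nat) : Nat :=
  (Bool.rec (motive := fun _ => _) ((Bool.rec (motive := fun _ => _) ((Bool.rec (motive := fun _ => _) (nat_lit 2709) (nat_lit 663) (Nat.beq k (nat_lit 2)))) (nat_lit 159) (Nat.beq k (nat_lit 1)))) (nat_lit 63) (Nat.beq k (nat_lit 0)))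

/-- The named letters. -/
def l0 (k _ : Nat) : List Nat :=
  (Bool.rec (motive := fun _ => _) ((Bool.rec (motive := fun _ => _) ((Bool.rec (motive := fun _ => _) [(nat_lit 0), (nat_lit 1), (nat_lit 2), (nat_lit 3), (nat_lit 4), (nat_lit 5)] [(nat_lit 0), (nat_lit 1), (nat_lit 2), (nat_lit 3), (nat_lit 4)] (Nat.beq k (nat_lit 2)))) [(nat_lit 0), (nat_lit 1), (nat_lit 2), (nat_lit 3)] (Nat.beq k (nat_lit 1)))) [(nat_lit 0), (nat_lit 1), (nat_lit 2)] (Nat.beq k (nat_lit 0)))

/-- The named letters and one more letter. -/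
def l1 (k y : Nat) : List Nat :=
  (Bool.rec (motive := fun _ => _) ((Bool.rec (motive := fun _ => _) ((Bool.rec (motive := fun _ => _) [(nat_lit 0), (nat_lit 1), (nat_lit 2), (nat_lit 3), (nat_lit 4), (nat_lit 5), y] [(nat_lit 0), (nat_lit 1), (nat_lit 2), (nat_lit 3), (nat_lit 4), y] (Nat.beq k (nat_lit 2)))) [(nat_lit 0), (nat_lit 1), (nat_lit 2), (nat_lit 3), y] (Nat.beq k (nat_lit 1)))) [(nat_lit 0), (nat_lit 1), (nat_lit 2), y] (Nat.beq k (nat_lit 0)))

/-- The first digit of the contexts that may follow context `c`. -/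
def dec (c : Nat) : Nat :=
  (Bool.rec (motive := fun _ => _) ((Bool.rec (motive := fun _ => _) (Nat.add (Nat.div c (nat_lit 10)) (nat_lit 1)) (nat_lit 8) (Nat.ble (nat_lit 80) c))) (nat_lit 0) (Nat.ble (Nat.mod c (nat_lit 10)) (nat_lit 2)))

/-- The parameters of a certificate. -/
structure Par : Type where
  /-- two labels -/
  two : Bool
  /-- the number of lanes -/
  K : Nat
  /-- the bound for `zt` -/
  r1 : Nat
  /-- the final value -/
  tau : Nat
  /-- the final lane -/
  lf : Nat
  /-- lanes whose predecessor is the next lane -/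
  ma : Nat
  /-- lanes whose predecessor is the same lane -/
  ms : Nat
  /-- lanes whose predecessor is the previous lane -/
  mj : Nat
  /-- the lane before the change of labels -/
  la : Nat
  /-- the lane after the change of labels -/
  lq : Nat
  /-- the time from which visible matches are always charged -/
  ts : Nat
  /-- conversions of lanes -/
  cv : OL
  /-- decoding of weights -/
  D : Nat → Nat
  /-- tables -/
  RT : Nat → Nat → Nat
  /-- growth factors -/
  RB : Nat → Nat
  /-- the lanes on which the matches that end at a given place act -/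
  LM : Nat → Nat
  /-- the lanes in which a word of a given depth may not be fully visible -/
  VM : Nat → Nat
  /-- bounds for the lengths of matches -/
  MU : Nat → Nat
  /-- tries -/
  TR : Nat → Tr

/-- The check of a part of the trie `t` in context `c`, for the edges selected by `sel`. -/
def chkF (F : Nat → Nat → Nat → Nat → Nat → Nat → Nat → Bool) (G : Nat → Nat → Nat → Nat) (P : Par)
    (t : Tr)
    (c lo hi sel l2 : Nat) : Bool :=
  Par.rec (motive := fun _ => Bool)
    (fun two K r1 tau lf ma ms mj la lq ts cv D RT RB LM VM MU TR =>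
    (Nat.rec (motive := fun _ => Bool) false (fun k _ => (Nat.rec (motive := fun _ => Bool) false (fun mk _ => (Nat.rec (motive := fun _ => Bool) false (fun i1 _ => (Nat.rec (motive := fun _ => Bool) false (fun k1 _ =>
    (Nat.rec (motive := fun _ => Bool) false (fun mS _ => (Nat.rec (motive := fun _ => Bool) false (fun m0 _ => (Nat.rec (motive := fun _ => Bool) false (fun kw _ =>
    (Nat.rec (motive := fun _ => Bool) false (fun o1 _ => (Nat.rec (motive := fun _ => Bool) false (fun m _ => (Nat.rec (motive := fun _ => Bool) false (fun hu _ =>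
    (Nat.rec (motive := fun _ => Bool) false (fun bm _ =>
    (Nat.rec (motive := fun _ => Bool) false (fun gr _ => (Nat.rec (motive := fun _ => Bool) false (fun e _ =>
    (Nat.rec (motive := fun _ => Bool) false (fun r2 _ => (Nat.rec (motive := fun _ => Bool) false (fun re _ =>
    (Nat.rec (motive := fun _ => Bool) false (fun br _ => (Nat.rec (motive := fun _ => Bool) false (fun ma _ => (Nat.rec (motive := fun _ => Bool) false (fun ms _ =>
    (Nat.rec (motive := fun _ => Bool) false (fun mj _ => (Nat.rec (motive := fun _ => Bool) false (fun la _ => (Nat.rec (motive := fun _ => Bool) false (fun lq _ =>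
    (Nat.rec (motive := fun _ => Bool) false (fun l2 _ => (Nat.rec (motive := fun _ => Bool) false (fun re _ =>
      chkT salt (state F two D (RT e) LM VM MU cv la lq l2 m hu ts kw bm o1 r1 r2 ma ms mj mk m0 mS
        k1 (l0 k) (l1 k) (lM k) (edges3 TR br re gr m kw (nxt c))) mk lo hi t
        (nat_lit 0) (nat_lit 0) PL.nil QL.nil (nat_lit 0) (nat_lit 9) (lC k) i1 (nat_lit 3) (nat_lit 0)) (Nat.succ (G re l2 kw)))) (Nat.succ (Nat.mul (nat_lit 32) l2)))) (Nat.succ (Nat.mul (nat_lit 32) lq)))) (Nat.succ (Nat.mul (nat_lit 32) la)))) (Nat.succ (Nat.land mj m)))) (Nat.succ (Nat.land ms m)))) (Nat.succ (Nat.land ma m)))) (Nat.succ (Nat.land (RB c) sel)))) (Nat.succ (RT e (Nat.add (nat_lit 6496) c))))) (Nat.succ (RT e (nat_lit 6473))))) (Nat.succ (dec c)))) (Nat.succ (Nat.add (Nat.shiftLeft o1 (nat_lit 31)) (Nat.shiftLeft (Nat.land tau (nat_lit 65535)) (Nat.mul (nat_lit 32) lf)))))) (Nat.succ (Nat.sub (Nat.mul o1 (nat_lit 65535)) (Nat.shiftLeft (nat_lit 65535) (Nat.mul (nat_lit 32) lf)))))) (Nat.succ (rpP m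 kw (nat_lit 10))))) (Nat.succ (Nat.mul o1 (nat_lit 16777215))))) (Nat.succ (rp (nat_lit 32) K)))) (Nat.succ (Nat.mul (nat_lit 32) K)))) (Nat.succ (Nat.add mk (nat_lit 0x80000000000000000000000000000000))))) (Nat.succ (mS k)))) (Nat.succ (Nat.add (nat_lit 3) k)))) (Nat.succ (Nat.sub (nat_lit 3) k)))) (Nat.succ (mM k)))) (Nat.succ (ck c)))) P

/-- The masks of lanes for the edges. -/
def reE (re _ _ : Nat) : Nat := re

/-- The mask of one lane, for all edges. -/
def reS (_ l kw : Nat) : Nat := rpP (Nat.shiftLeft (nat_lit 16777215) l) kw (nat_lit 10)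

/-- The part of a trie with keys in `[lo, hi]`; `u` is the weight of the next symbol and `q` the
key so far. -/
def cutT (lo hi : Nat) (t : Tr) : Nat → Nat → Tr :=
  Tr.rec (motive := fun _ => Nat → Nat → Tr) (fun _ _ => Tr.nil)
    (fun s h d kid _ ihk ihs u q => (Nat.rec (motive := fun _ => Tr) Tr.nil (fun a _ =>
      (Nat.rec (motive := fun _ => Tr) Tr.nil (fun b _ => (Bool.rec (motive := fun _ => _) (ihs u q) ((Bool.rec (motive := fun _ => _) ((Nat.rec (motive := fun _ => Tr) Tr.nil (fun u' _ => Tr.node s (nat_lit 0) d (ihk u' a) (ihs u q)) (Nat.succ (Nat.div u (nat_lit 64))))) ((Bool.rec (motive := fun _ => _) ((Nat.rec (motive := fun _ => Tr) Tr.nil (fun u' _ => Tr.node s h d (ihk u' a) (ihs u q)) (Nat.succ (Nat.div u (nat_lit 64))))) (Tr.node s h d kid (ihs u q)) (Nat.ble b (Nat.add hi (nat_lit 1))))) (Nat.ble lo a))) ((Bool.rec (motive := fun _ => Bool) false (Nat.blt lo b) (Nat.ble a hi))))) (Nat.succ (Nat.add a u)))) (Nat.succ (Nat.add q (Nat.mul (Nat.land s (nat_lit 63)) u))))) t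

/-- The check of a part of the trie of context `c`, for the edges selected by `sel`. -/
def chkE (P : Par) (c lo hi sel : Nat) : Bool :=
  chkF tst1 reE P (cutT lo hi (P.TR c) (nat_lit 0x40000000000000000) (nat_lit 0)) c (nat_lit 0) (nat_lit 4098) sel (nat_lit 0)

/-- The path of a word with one letter of mark `s` after the four starting letters. -/
def trS (s : Nat) : Tr :=
  Tr.node s (nat_lit 0) (nat_lit 1) (Tr.node (nat_lit 0) (nat_lit 0) (nat_lit 2) (Tr.node (nat_lit 0) (nat_lit 0) (nat_lit 3) (Tr.node (nat_lit 0) (nat_lit 0) (nat_lit 4) (Tr.node (nat_lit 0) (nat_lit 1) (nat_lit 5) Tr.nil Tr.nil)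
    Tr.nil) Tr.nil) Tr.nil) Tr.nil

/-- The check of the second step, in context `c`, after a first letter of mark `s`, with arrival
in lane `l`. -/
def chkS (P : Par) (c s l : Nat) : Bool := chkF tst0 reS P (trS s) c (nat_lit 0) (nat_lit 4098) (nat_lit 0xffffffffffffffffffffffffffffffffffffffff) l

end

end Pool.Agent.Work.MP_7cb3ca_co.C3
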