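import Pool.Agent.Work.MP_7cb3ca_co.C3.Anc
import Pool.Agent.Work.MP_7cb3ca_co.C3.Gen

/-! Readable equations for the check of one state. -/

namespace Pool.Agent.Work.MP_7cb3ca_co.C3

open P3

/-- The values that the checker gives to the letter `x` on one edge. -/
noncomputable def lv (two : Bool) (D R LM MU : ℕ → ℕ) (m mv hu ts kw bm r1 r2 r3 mk : ℕ) (w : PL)
    (v : QL) (W d T iy x : ℕ) (tr : Tr) (f sh bg t : ℕ) (oc : OL) (n nb rs on mm : ℕ) : ℕ :=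
  match evsM v R mk x with
  | .dead => 0
  | .mk o c =>
    (if x = gt (win (W + x * 2 ^ 24) 0) 3 ∧
        gt (win (W + x * 2 ^ 24) 0) 1 = gt (win (W + x * 2 ^ 24) 0) 4 then valB else valA)
      (val0 two D o c (ancL R LM MU m hu r1 ts (W + x * 2 ^ 24) (d + 1) x d) d m mv kw bm r2 r3 x iy
        (tbx T x) f sh (blk (R (iH mk (win (W + x * 2 ^ 24) 0 % 2 ^ 24))) sh m)
        (bg - (blk (R (5824 + 64 * cls (win (W + x * 2 ^ 24) 0) (d + 1) + t)) sh mv +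
          blk (R (6484 + zt 63 (W + x * 2 ^ 24) 0 (d + 1) r1)) sh m))
        (blk (R (6464 + zt x W 1 d r1)) sh mv) oc n nb rs on) (posM w mm x tr)

lemma letterA_eq (two : Bool) (D R LM MU : ℕ → ℕ) (m mv hu ts kw bm r1 r2 r3 mk : ℕ) (w : PL)
    (d iy x : ℕ) (K : (Tr → ℕ → ℕ → ℕ → ℕ →
      ((OL → ℕ → ℕ → ℕ → ℕ → ℕ → ℕ) → Bool) → Bool) → Bool) (o c : EV) (Y Z e rz rb tb : ℕ) :
    letterA two D R LM MU m mv hu ts kw bm r1 r2 r3 mk w d iy x K o c Y Z e rz rb tb =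
      K fun tr f sh bg t k => k fun oc n nb rs on mm =>
        (if x = gt Z 3 ∧ gt Z 1 = gt Z 4 then valB else valA)
          (val0 two D o c (ancL R LM MU m hu r1 ts Y e x d) d m mv kw bm r2 r3 x iy tb f sh
            (blk (R (iH mk (Z % 2 ^ 24))) sh m)
            (bg - (blk (R (5824 + 64 * cls Z e + t)) sh mv + blk rb sh m)) (blk rz sh mv)
            oc n nb rs on) (posM w mm x tr) := by
  have : letterA two D R LM MU m mv hu ts kw bm r1 r2 r3 mk w d iy x K o c Y Z e rz rb tb =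
      anch (anA R LM MU m hu r1 ts Y e) Y x d fun an =>
        (fun B : ((ℕ → ℕ → ℕ) → Pos → ℕ) → Bool =>
          cnd (bnd (Nat.beq x (gt Z 3)) (Nat.beq (gt Z 1) (gt Z 4))) (B valB) (B valA))
        fun V => K fun tr f sh bg t k => k fun oc n nb rs on mm =>
          V (val0 two D o c an d m mv kw bm r2 r3 x iy tb f sh
            (blk (R (iH mk (Nat.land Z (2 ^ 24 - 1)))) sh m)
            (bg - (blk (R (5824 + 64 * cls Z e + t)) sh mv + blk rb sh m)) (blk rz sh mv)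
            oc n nb rs on) (posM w mm x tr) := by
    unfold letterA edgeV
    dsimp only
    rfl
  rw [this, anch_eq, land_mask]
  simp only [cnd_eq, bnd_iff, Nat.beq_eq]
  split_ifs <;> rfl

lemma letterG_eq (tx : ℕ → ℕ → ℕ) (two : Bool) (D R LM MU : ℕ → ℕ)
    (m mv hu ts kw bm r1 r2 r3 mk : ℕ) (w : PL) (v : QL) (W d T iy x : ℕ)
    (K : (Tr → ℕ → ℕ → ℕ → ℕ → ((OL → ℕ → ℕ → ℕ → ℕ → ℕ → ℕ) → Bool) → Bool) → Bool) :
    letterG tx two D R LM MU m mv hu ts kw bm r1 r2 r3 mk w v W d T iy x K =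
      Evs.rec (motive := fun _ => Bool) (K fun _ _ _ _ _ k => k fun _ _ _ _ _ _ => 0)
        (fun o c => letterA two D R LM MU m mv hu ts kw bm r1 r2 r3 mk w d iy x K o c
          (W + Nat.shiftLeft x 24) (win (W + Nat.shiftLeft x 24) 0) (d + 1)
          (R (6464 + zt x W 1 d r1)) (R (6484 + zt 63 (W + Nat.shiftLeft x 24) 0 (d + 1) r1))
          (tx T x)) (evsM v R mk x) := rfl

lemma letter_eq (two : Bool) (D R LM MU : ℕ → ℕ) (m mv hu ts kw bm r1 r2 r3 mk : ℕ) (w : PL)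
    (v : QL) (W d T iy x : ℕ) (K : (Tr → ℕ → ℕ → ℕ → ℕ →
      ((OL → ℕ → ℕ → ℕ → ℕ → ℕ → ℕ) → Bool) → Bool) → Bool) :
    letter two D R LM MU m mv hu ts kw bm r1 r2 r3 mk w v W d T iy x K =
      K fun tr f sh bg t k =>
        k (lv two D R LM MU m mv hu ts kw bm r1 r2 r3 mk w v W d T iy x tr f sh bg t) := by
  rw [letter_G, letterG_eq]
  unfold lv
  cases evsM v R mk x with
  | dead => rfl
  | mk o c => simp only [letterA_eq, shl]

lemma edges3_cons (TR : ℕ → Tr) (br re gr m kw c : ℕ) (l : List ℕ) :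
    edges3 TR br re gr m kw (c :: l) = if beta br (c % 10) = 0 then edges3 TR br re gr m kw l else
      .cons (cf c) (ck c) (kw * (c % 10)) (beta br (c % 10)) (blk re (kw * (c % 10)) m) gr (TR c)
        (edges3 TR br re gr m kw l) := by
  have : edges3 TR br re gr m kw (c :: l) = cnd (Nat.beq (beta br (c % 10)) 0)
      (edges3 TR br re gr m kw l) (.cons (cf c) (ck c) (kw * (c % 10)) (beta br (c % 10))
        (blk re (kw * (c % 10)) m) gr (TR c) (edges3 TR br re gr m kw l)) := rfl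
  rw [this, cnd_eq]
  simp only [Nat.beq_eq]

lemma edgesE_spec {F : ℕ → ℕ → ℕ → ℕ → ℕ → ℕ → ℕ → Bool} {two : Bool} {VM : ℕ → ℕ}
    {Q : ℕ → ℕ → ℕ → ℕ → ℕ → ℕ} {kw o1 p2 : ℕ} {SN : List ℕ} {n0 y m0 d g : ℕ} {M C : List ℕ}
    {TR : ℕ → Tr} {br re gr m : ℕ} {v1 v2 v3 : Tr → ℕ → ℕ → ℕ → ℕ → OL → ℕ → ℕ → ℕ → ℕ → ℕ → ℕ}
    {l : List ℕ} (h : edgesE F two VM Q kw o1 p2 SN n0 y m0 d g M C (edges3 TR br re gr m kw l)
      (fun tr f sh bg t k => k (v1 tr f sh bg t)) (fun tr f sh bg t k => k (v2 tr f sh bg t))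
      (fun tr f sh bg t k => k (v3 tr f sh bg t)) = true) {c : ℕ} (hc : c ∈ l)
    (hb : beta br (c % 10) ≠ 0) :
    keep (fun m1 => born4 (leafC (fun e => leafB F two (Q (beta br (c % 10)) e)
      kw o1 p2 (v1 (TR c) (cf c) (kw * (c % 10)) gr (min (d - 2 + (cf c - g)) 44))
      (v2 (TR c) (cf c) (kw * (c % 10)) gr (min (d - 2 + (cf c - g)) 44))
      (v3 (TR c) (cf c) (kw * (c % 10)) gr (min (d - 2 + (cf c - g)) 44))) VM
        (blk re (kw * (c % 10)) m) SN n0)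
        y C (ck c) m1 [] n0) M (ck c) m0 = true := by
  have h3 : ∀ T, min T 44 = cnd (Nat.ble T 44) T 44 := by
    intro T; simp only [cnd_eq, Nat.ble_eq]; split_ifs <;> omega
  have e : ∀ f k sh b em bg tr N, edgesE F two VM Q kw o1 p2 SN n0 y m0 d g M C
      (.cons f k sh b em bg tr N)
      (fun tr f sh bg t k => k (v1 tr f sh bg t)) (fun tr f sh bg t k => k (v2 tr f sh bg t))
      (fun tr f sh bg t k => k (v3 tr f sh bg t)) = bnd (keep (fun m1 => born4 (leafC (fun e =>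
        leafB F two (Q b e) kw o1 p2
        (v1 tr f sh bg (cnd (Nat.ble (d - 2 + (f - g)) 44) (d - 2 + (f - g)) 44))
        (v2 tr f sh bg (cnd (Nat.ble (d - 2 + (f - g)) 44) (d - 2 + (f - g)) 44))
        (v3 tr f sh bg (cnd (Nat.ble (d - 2 + (f - g)) 44) (d - 2 + (f - g)) 44))) VM em SN n0)
          y C k m1 [] n0) M k m0) (edgesE F two VM Q kw o1 p2 SN n0 y m0 d g M C N
      (fun tr f sh bg t k => k (v1 tr f sh bg t)) (fun tr f sh bg t k => k (v2 tr f sh bg t))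
      (fun tr f sh bg t k => k (v3 tr f sh bg t))) := fun _ _ _ _ _ _ _ _ => rfl
  induction l with
  | nil => simp at hc
  | cons c' l ih =>
    rw [edges3_cons] at h
    rcases List.mem_cons.1 hc with rfl | hc
    · rw [if_neg hb, e, bnd_iff] at h
      rw [h3]
      exact h.1
    · split_ifs at h
      · exact ih h hc
      · rw [e, bnd_iff] at h
        exact ih h.2 hc

/-- The named letters of a state whose last letter has the name `y`. -/
noncomputable def sn (k y : ℕ) : List ℕ := if y ≤ 5 then l0 k y else l1 k y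

/-- The place of the last letter among the named letters. -/
def sy (k y : ℕ) : ℕ := if y ≤ 5 then y else 3 + k

/-- The number of options of the source. -/
def s0 (k y : ℕ) : ℕ := if y ≤ 5 then 3 + k + 1 else 3 + k + 2

lemma stateA_eq (k y : ℕ) (B : List ℕ → ℕ → ℕ → Bool) :
    stateA (3 + k) (l0 k) (l1 k) y B = B (sn k y) (sy k y) (s0 k y) := by
  have : stateA (3 + k) (l0 k) (l1 k) y B = cnd (Nat.ble y 5) (B (l0 k y) y (3 + k + 1))
    (B (l1 k y) (3 + k) (3 + k + 2)) := rfl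
  rw [this, cnd_eq]
  unfold sn sy s0
  simp only [Nat.ble_eq]
  split_ifs <;> rfl

/-- The mask of 24 bits in all lanes. -/
noncomputable def Par.m (P : Par) : ℕ := rp 32 P.K * 16777215

/-- The mask of 16 bits in the lanes other than the final lane. -/
noncomputable def Par.bm (P : Par) : ℕ := rp 32 P.K * 65535 - 65535 * 2 ^ (32 * P.lf)

/-- The ground value. -/
noncomputable def Par.gr (P : Par) : ℕ := rp 32 P.K * 2 ^ 31 + P.tau % 2 ^ 16 * 2 ^ (32 * P.lf)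

/-- The check of one state in context `c`. -/
noncomputable def stS (F : ℕ → ℕ → ℕ → ℕ → ℕ → ℕ → ℕ → Bool) (P : Par) (c sel l2 re : ℕ) :
    ℕ → ℕ → PL → QL → ℕ → ℕ → List ℕ → Bool :=
  state F P.two P.D (P.RT (dec c)) P.LM P.VM P.MU P.cv (32 * P.la) (32 * P.lq) (32 * l2) P.m
    (rpP P.m (32 * P.K) 10) P.ts (32 * P.K) P.bm (rp 32 P.K) P.r1 (P.RT (dec c) 6473)
    (P.ma &&& P.m) (P.ms &&& P.m) (P.mj &&& P.m) (mM (ck c)) (mM (ck c) + 2 ^ 127) (mS (ck c))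
    (3 + ck c) (l0 (ck c)) (l1 (ck c)) (lM (ck c))
    (edges3 P.TR (P.RB c &&& sel) re P.gr P.m (32 * P.K) (nxt c))

lemma chkFG_eq (ad mu su sl an rq : ℕ → ℕ → ℕ) (rr : ℕ → ℕ → ℕ → ℕ)
    (F : ℕ → ℕ → ℕ → ℕ → ℕ → ℕ → ℕ → Bool) (G : ℕ → ℕ → ℕ → ℕ) (P : Par) (t : Tr)
    (c lo hi sel l2 : ℕ) :
    chkFG ad mu su sl an rq rr F G P t c lo hi sel l2 = chkA salt
      (state F P.two P.D (P.RT (dec c)) P.LM P.VM P.MU P.cv (mu 32 P.la) (mu 32 P.lq) (mu 32 l2)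
        (mu (rq 32 P.K) 16777215) (rr (mu (rq 32 P.K) 16777215) (mu 32 P.K) 10) P.ts (mu 32 P.K)
        (su (mu (rq 32 P.K) 65535) (sl 65535 (mu 32 P.lf))) (rq 32 P.K) P.r1 (P.RT (dec c) 6473)
        (an P.ma (mu (rq 32 P.K) 16777215)) (an P.ms (mu (rq 32 P.K) 16777215))
        (an P.mj (mu (rq 32 P.K) 16777215)) (mM (ck c))
        (ad (mM (ck c)) 170141183460469231731687303715884105728) (mS (ck c)) (ad 3 (ck c))
        (l0 (ck c)) (l1 (ck c)) (lM (ck c)) (edges3 P.TR (an (P.RB c) sel)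
          (G (P.RT (dec c) (ad 6496 c)) (mu 32 l2) (mu 32 P.K)) (ad (sl (rq 32 P.K) 31) (sl (an P.tau 65535) (mu 32 P.lf)))
          (mu (rq 32 P.K) 16777215) (mu 32 P.K) (nxt c))) (mM (ck c)) lo hi t
      ⟨0, 0, .nil, .nil, 0, 9, lC (ck c), su 3 (ck c), 3, 0⟩ := by
  cases P
  rfl

lemma chkF_eq (F : ℕ → ℕ → ℕ → ℕ → ℕ → ℕ → ℕ → Bool) (G : ℕ → ℕ → ℕ → ℕ) (P : Par) (t : Tr)
    (c lo hi sel l2 : ℕ) :
    chkF F G P t c lo hi sel l2 = chkA salt
      (stS F P c sel l2 (G (P.RT (dec c) (6496 + c)) (32 * l2) (32 * P.K))) (mM (ck c)) lo hi t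
      ⟨0, 0, .nil, .nil, 0, 9, lC (ck c), 3 - ck c, 3, 0⟩ := by
  have e : ∀ x : ℕ, Nat.land x 65535 = x % 2 ^ 16 := fun x => land_mask x 16
  have e2 : ∀ x y : ℕ, Nat.land x y = x &&& y := fun _ _ => rfl
  rw [chkF_G, chkFG_eq, e]
  simp only [add_eq, mul_eq, sub_eq, shl, e2]
  unfold stS Par.gr Par.bm Par.m
  rw [show (2 : ℕ) ^ 127 = 170141183460469231731687303715884105728 by norm_num]

/-- The values of the letter `x` on the edge from `c` to `c'`. -/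
noncomputable def Par.lv (P : Par) (c c' d : ℕ) (w : PL) (v : QL) (W g x : ℕ) :
    OL → ℕ → ℕ → ℕ → ℕ → ℕ → ℕ :=
  C3.lv P.two P.D (P.RT (dec c)) P.LM P.MU P.m (P.VM d &&& P.m) (rpP P.m (32 * P.K) 10) P.ts
    (32 * P.K) P.bm P.r1 (P.RT (dec c) 6473) (rowC P.two (P.RT (dec c)) P.r1 (gz W 1) W d)
    (mM (ck c)) w v W d (fpS w W d) (sy (ck c) (gz W 1)) x (P.TR c') (cf c') (32 * P.K * (c' % 10))
    P.gr (min (d - 2 + (cf c' - g)) 44)

/-- The weights of the source for `n` options. -/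
noncomputable def Par.src (P : Par) (c d h : ℕ) (w : PL) (W n : ℕ) : ℕ :=
  C3.src P.two (P.D h) (tbs (fpS w W d) (gz W 1)) (mS (ck c)) (sn (ck c) (gz W 1))
    (s0 (ck c) (gz W 1)) (4 * d + 76) (32 * P.K) P.bm n

/-- The left sides of the inequalities. -/
noncomputable def Par.nd (P : Par) (c d h : ℕ) (w : PL) (W : ℕ) : ℕ → ℕ → ℕ → ℕ → ℕ → ℕ :=
  needB P.two (P.D h) (tbs (fpS w W d) (gz W 1)) (mS (ck c)) (sn (ck c) (gz W 1))
    (s0 (ck c) (gz W 1)) (4 * d + 76) (32 * P.K) P.bm (P.ma &&& P.m) (P.ms &&& P.m) (P.mj &&& P.m)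

lemma stateG_eq (fs : PL → ℕ → ℕ → ℕ) (tx : ℕ → ℕ → ℕ) (F : ℕ → ℕ → ℕ → ℕ → ℕ → ℕ → ℕ → Bool)
    (two : Bool) (D R LM VM MU : ℕ → ℕ) (CV : OL)
    (la lq l2 m hu ts kw bm o1 r1 r2 ma ms mj mk m0 mS k1 : ℕ) (S0 S1 : ℕ → List ℕ) (M : List ℕ)
    (N : EH) (d h : ℕ) (w : PL) (v : QL) (W g : ℕ) (C : List ℕ) :
    stateG fs tx F two D R LM VM MU CV la lq l2 m hu ts kw bm o1 r1 r2 ma ms mj mk m0 mS k1 S0 S1 M
      N d h w v W g C = stateA k1 S0 S1 (gz W 1)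
        (stateB F two VM CV la lq l2 m kw bm o1 ma ms mj m0 mS M N d g C
          (letter two D R LM MU m (VM d &&& m) hu ts kw bm r1 r2 (rowC two R r1 (gz W 1) W d) mk w
            v W d (fs w W d)) (gz W 1) (tx (fs w W d) (gz W 1)) (D h) (4 * d + 76)) := rfl

lemma stateBG_eq (sr : Bool → ℕ → ℕ → ℕ → List ℕ → ℕ → ℕ → ℕ → ℕ → ℕ → ℕ)
    (F : ℕ → ℕ → ℕ → ℕ → ℕ → ℕ → ℕ → Bool) (two : Bool) (VM : ℕ → ℕ) (CV : OL)
    (la lq l2 m kw bm o1 ma ms mj m0 mS : ℕ) (M : List ℕ) (N : EH) (d g : ℕ) (C : List ℕ)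
    (Lt : ℕ → ℕ → ((Tr → ℕ → ℕ → ℕ → ℕ →
      ((OL → ℕ → ℕ → ℕ → ℕ → ℕ → ℕ) → Bool) → Bool) → Bool) → Bool)
    (y tb H d' : ℕ) (SN : List ℕ) (iy n0 : ℕ) :
    stateBG sr F two VM CV la lq l2 m kw bm o1 ma ms mj m0 mS M N d g C Lt y tb H d' SN iy n0 =
      bnd (sideE two CV la lq m kw o1 n0 (sr two H tb mS SN n0 d' kw bm n0))
        (Lt iy 0 fun g1 => Lt iy 1 fun g2 => Lt iy 2 fun g3 =>
          edgesE F two VM (needB two H tb mS SN n0 d' kw bm ma ms mj) kw o1 (kw * iy + l2) SN n0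
            y m0 d g M C N g1 g2 g3) := rfl

theorem stS_spec {F : ℕ → ℕ → ℕ → ℕ → ℕ → ℕ → ℕ → Bool} {P : Par} {c sel l2 re d h : ℕ} {w : PL}
    {v : QL} {W g : ℕ} {C : List ℕ} (H : stS F P c sel l2 re d h w v W g C = true) :
    sideE P.two P.cv (32 * P.la) (32 * P.lq) P.m (32 * P.K) (rp 32 P.K) (s0 (ck c) (gz W 1))
      (P.src c d h w W (s0 (ck c) (gz W 1))) = true ∧
    ∀ c' ∈ nxt c, beta (P.RB c &&& sel) (c' % 10) ≠ 0 →
      keep (fun m1 => born4 (leafC (fun e => leafB F P.two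
        (P.nd c d h w W (beta (P.RB c &&& sel) (c' % 10)) e) (32 * P.K) (rp 32 P.K)
        (32 * P.K * sy (ck c) (gz W 1) + 32 * l2) (P.lv c c' d w v W g 0) (P.lv c c' d w v W g 1)
        (P.lv c c' d w v W g 2)) P.VM (blk re (32 * P.K * (c' % 10)) P.m) (sn (ck c) (gz W 1))
        (s0 (ck c) (gz W 1))) (gz W 1) C (ck c') m1 []
        (s0 (ck c) (gz W 1))) (lM (ck c)) (ck c') (mM (ck c) + 2 ^ 127) = true := by
  unfold stS at H
  rw [state_G, stateG_eq, stateA_eq, stateB_G, stateBG_eq, bnd_iff, letter_eq, letter_eq, letter_eq] at H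
  exact ⟨H.1, fun c' hc hb => edgesE_spec H.2 hc hb⟩

lemma leafA_spec {B : ℕ → ℕ → ℕ → OL → Bool} {SN : List ℕ} {n0 r mm : ℕ} {o : List ℕ} {n : ℕ}
    (h : leafA B SN n0 r mm o n = true) :
    if r = 0 then B mm 99 n (opts mm SN (opts mm (62 :: o) .nil)) = true
    else B mm n0 (n + 1) (opts mm SN (opts mm (62 :: 63 :: o) .nil)) = true := by
  have : leafA B SN n0 r mm o n = cnd (Nat.beq r 0) (B mm 99 n (opts mm SN (opts mm (62 :: o) .nil)))
    (B mm n0 (n + 1) (opts mm SN (opts mm (62 :: 63 :: o) .nil))) := rfl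
  rw [this, cnd_eq] at h
  simp only [Nat.beq_eq] at h
  split_ifs at h ⊢
  exacts [h, h]

lemma leafC_spec {B : ℕ → ℕ → ℕ → ℕ → OL → Bool} {VM : ℕ → ℕ} {em : ℕ} {SN : List ℕ}
    {n0 r mm : ℕ} {o : List ℕ} {n : ℕ} (h : leafC B VM em SN n0 r mm o n = true) :
    vmk VM em o = 0 ∨ leafA (B (vmk VM em o)) SN n0 r mm o n = true := by
  have : leafC B VM em SN n0 r mm o n = cnd (Nat.beq (vmk VM em o) 0) true
    (leafA (B (vmk VM em o)) SN n0 r mm o n) := rfl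
  rw [this, cnd_eq] at h
  simp only [Nat.beq_eq] at h
  split_ifs at h with k
  exacts [Or.inl k, Or.inr h]

lemma vmk_cons (VM : ℕ → ℕ) (em a : ℕ) (o : List ℕ) :
    vmk VM em (a :: o) = VM (a - 6) &&& vmk VM em o := rfl

lemma leafB_eq (F : ℕ → ℕ → ℕ → ℕ → ℕ → ℕ → ℕ → Bool) (two : Bool) (Q : ℕ → ℕ → ℕ → ℕ)
    (kw o1 p2 : ℕ) (v1 v2 v3 : OL → ℕ → ℕ → ℕ → ℕ → ℕ → ℕ) (mm fi n : ℕ) (oc : OL) {nb : ℕ}
    (hnb : nb = if two = true then n * n else n) :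
    leafB F two Q kw o1 p2 v1 v2 v3 mm fi n oc =
      F (Q n nb fi) (rpP o1 kw nb) p2 (if two = true then kw * n else 0)
        (v1 oc n nb (kw * n) (rpP o1 kw nb) mm) (v2 oc n nb (kw * n) (rpP o1 kw nb) mm)
        (v3 oc n nb (kw * n) (rpP o1 kw nb) mm) := by
  subst hnb
  cases two <;> rfl

end Pool.Agent.Work.MP_7cb3ca_co.C3
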