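import Pool.Agent.Work.MP_7cb3ca_co.C3.Defs

/-!
A faster form of the checker for cycles: the table of codes is cut at the depth of the node.
-/

namespace Pool.Agent.Work.MP_7cb3ca_co.C3

open P3

noncomputable section

/-- The digits of `u` in base `1024`, where those above `dt` are made equal. -/
def cutA (a o u dt : Nat) : Nat :=
  Nat.lor u (Nat.mul (Nat.land (Nat.shiftRight
    (Nat.add (Nat.land u a) (Nat.mul (Nat.sub (nat_lit 511) dt) o)) (nat_lit 9)) o) (nat_lit 1023))

/-- The same for the digits from place three on. -/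
def cutG (a o tb dt : Nat) : Nat :=
  (Nat.rec (motive := fun _ => Nat) (nat_lit 0) (fun u _ => Nat.shiftLeft (cutA a o u dt) (nat_lit 30)) (Nat.succ (Nat.shiftRight tb (nat_lit 30))))

/-- The table of codes, without the places beyond `dt`. -/
def cutB : Nat → Nat → Nat := cutG (nat_lit 0x7fdff7fdff7fdff7fdff7fdff7fdff7fdff7fdff7fdff7fdff7fdff7fdff7fdff7fdff7fdff7fdff7fdff7fdff7fdff7fdff7fdff7fdff7fdff7fdff7fdff7fdff7fdff7fdff7fdff7fdff7fdff7fdff) (nat_lit 0x40100401004010040100401004010040100401004010040100401004010040100401004010040100401004010040100401004010040100401004010040100401004010040100401004010040100401)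

/-- The value of an arrival at a node with weight `h` and depth `dt`. -/
def valF (two : Bool) (D : Nat → Nat) (o c an : EV)
    (d m mv kw bm r2 r3 x iy tb f sh cap bg s1 : Nat) (oc : OL)
    (n nb rs on h dt : Nat) : Nat :=
  (Bool.rec (motive := fun _ => _) ((Nat.rec (motive := fun _ => Nat) (nat_lit 0) (fun dt' _ => (Nat.rec (motive := fun _ => Nat) (nat_lit 0) (fun tb' _ =>
      clip (rpP cap kw nb) (cgP cap kw nb on) on
        (Nat.sub (Nat.add (gat two oc tb' dt' (D h) kw bm n rs)
          (bgP two bg s1 r2 r3 sh mv kw x iy n nb)) (chP o c an d dt f sh m kw nb))) (Nat.succ (cutB tb dt')))) (Nat.succ (Nat.add (Nat.mul (nat_lit 4) dt) (nat_lit 76))))) (Nat.add (val1 two cap bg s1 r2 r3 sh mv kw x iy n nb on) (nat_lit 0)) (Nat.beq h (nat_lit 0)))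

/-- The data of a letter without a visible square. -/
def letAF (two : Bool) (D R LM MU : Nat → Nat) (m mv hu ts kw bm r1 r2 r3 mk : Nat) (w : PL)
    (d iy x : Nat)
    (K : (Tr → Nat → Nat → Nat → Nat →
      ((OL → Nat → Nat → Nat → Nat → Nat → Nat) → Bool) → Bool) → Bool)
    (o c : EV) (Y Z e rz rb tb : Nat) : Bool :=
  (Nat.rec (motive := fun _ => Bool) false (fun ir _ =>
  (Nat.rec (motive := fun _ => Bool) false (fun S _ => (Nat.rec (motive := fun _ => Bool) false (fun ic _ => (Nat.rec (motive := fun _ => Bool) false (fun rc _ =>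
    anch (anA R LM MU m hu r1 ts Y e) Y x d fun an =>
      (fun B : ((Nat → Nat → Nat) → Pos → Nat) → Bool =>
        (Bool.rec (motive := fun _ => _) (B valA) (B valB) ((Bool.rec (motive := fun _ => Bool) false (Nat.beq ((Nat.land (Nat.shiftRight Z (Nat.mul (nat_lit 6) (nat_lit 1))) (nat_lit 63))) ((Nat.land (Nat.shiftRight Z (Nat.mul (nat_lit 6) (nat_lit 4))) (nat_lit 63)))) (Nat.beq x ((Nat.land (Nat.shiftRight Z (Nat.mul (nat_lit 6) (nat_lit 3))) (nat_lit 63))))))))
      fun V => K (edgeV V (valF two D o c an d m mv kw bm r2 r3 x iy tb) R m mv rc rz rb ir w x)) (Nat.succ (R ic)))) (Nat.succ (iH mk S)))) (Nat.succ (Nat.land Z (nat_lit 16777215))))) (Nat.succ (Nat.add (nat_lit 5824) (Nat.mul (nat_lit 64) (cls Z e)))))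

/-- The data of the letter `x` after a word of length `d`. -/
def letF (tx : Nat → Nat → Nat) (two : Bool) (D R LM MU : Nat → Nat) (m mv hu ts kw bm r1 r2 r3 mk : Nat) (w : PL)
    (v : QL) (W d T iy x : Nat)
    (K : (Tr → Nat → Nat → Nat → Nat →
      ((OL → Nat → Nat → Nat → Nat → Nat → Nat) → Bool) → Bool) → Bool) : Bool :=
  Evs.rec (motive := fun _ => Bool) (K fun _ _ _ _ _ k => k fun _ _ _ _ _ _ => (nat_lit 0))
    (fun o c => (Nat.rec (motive := fun _ => Bool) false (fun Y _ => (Nat.rec (motive := fun _ => Bool) false (fun Z _ =>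
      (Nat.rec (motive := fun _ => Bool) false (fun e _ => (Nat.rec (motive := fun _ => Bool) false (fun iz _ => (Nat.rec (motive := fun _ => Bool) false (fun rz _ =>
      (Nat.rec (motive := fun _ => Bool) false (fun i0 _ => (Nat.rec (motive := fun _ => Bool) false (fun rb _ => (Nat.rec (motive := fun _ => Bool) false (fun tb _ =>
        letAF two D R LM MU m mv hu ts kw bm r1 r2 r3 mk w d iy x K o c Y Z e rz rb tb) (Nat.succ (tx T x)))) (Nat.succ (R i0)))) (Nat.succ (Nat.add (nat_lit 6484) (zt (nat_lit 63) Y (nat_lit 0) e r1))))) (Nat.succ (R iz)))) (Nat.succ (Nat.add (nat_lit 6464) (zt x W (nat_lit 1) d r1))))) (Nat.succ (Nat.add d (nat_lit 1))))) (Nat.succ (win Y (nat_lit 0))))) (Nat.succ (Nat.add W (Nat.shiftLeft x (nat_lit 24))))))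
    (QL.rec (motive := fun _ => (Nat → Nat) → Nat → Nat → Evs) eNil eCons v R mk x)

/-- The check of one state. -/
def stateF (fs : PL → Nat → Nat → Nat) (ty tx : Nat → Nat → Nat)
     (F : Nat → Nat → Nat → Nat → Nat → Nat → Nat → Bool) (two : Bool)
    (D R LM VM MU : Nat → Nat) (CV : OL)
    (la lq l2 m hu ts kw bm o1 r1 r2 ma ms mj mk m0 mS k1 : Nat)
    (S0 S1 : Nat → List Nat) (M : List Nat) (N : EH) (d h : Nat) (w : PL) (v : QL) (W g : Nat)
    (C : List Nat) : Bool :=
  (Nat.rec (motive := fun _ => Bool) false (fun T _ => (Nat.rec (motive := fun _ => Bool) false (fun y _ => (Nat.rec (motive := fun _ => Bool) false (fun tb _ =>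
  (Nat.rec (motive := fun _ => Bool) false (fun H _ => (Nat.rec (motive := fun _ => Bool) false (fun d' _ => (Nat.rec (motive := fun _ => Bool) false (fun mv _ =>
  (Nat.rec (motive := fun _ => Bool) false (fun r3 _ =>
    stateA k1 S0 S1 y (stateB F two VM CV la lq l2 m kw bm o1 ma ms mj m0 mS M N d g C
      (letF tx two D R LM MU m mv hu ts kw bm r1 r2 r3 mk w v W d T) y tb H d')) (Nat.succ (rowC two R r1 y W d)))) (Nat.succ (Nat.land (VM d) m)))) (Nat.succ (Nat.add (Nat.mul (nat_lit 4) d) (nat_lit 76))))) (Nat.succ (D h)))) (Nat.succ (ty T y)))) (Nat.succ ((Nat.land (Nat.shiftRight W (Nat.add (Nat.mul (nat_lit 6) (nat_lit 1)) (nat_lit 24))) (nat_lit 63)))))) (Nat.succ (fs w W d)))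

/-- The check of a part of the trie `t` in context `c`, for the edges selected by `sel`. -/
def chkQ (ad mu su sl an rq : Nat → Nat → Nat) (rr : Nat → Nat → Nat → Nat)
     (F : Nat → Nat → Nat → Nat → Nat → Nat → Nat → Bool) (G : Nat → Nat → Nat → Nat) (P : Par)
    (t : Tr)
    (c lo hi sel l2 : Nat) : Bool :=
  Par.rec (motive := fun _ => Bool)
    (fun two K r1 tau lf ma ms mj la lq ts cv D RT RB LM VM MU TR =>
    (Nat.rec (motive := fun _ => Bool) false (fun k _ => (Nat.rec (motive := fun _ => Bool) false (fun mk _ => (Nat.rec (motive := fun _ => Bool) false (fun i1 _ => (Nat.rec (motive := fun _ => Bool) false (fun k1 _ =>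
    (Nat.rec (motive := fun _ => Bool) false (fun mS _ => (Nat.rec (motive := fun _ => Bool) false (fun m0 _ => (Nat.rec (motive := fun _ => Bool) false (fun kw _ =>
    (Nat.rec (motive := fun _ => Bool) false (fun o1 _ => (Nat.rec (motive := fun _ => Bool) false (fun m _ => (Nat.rec (motive := fun _ => Bool) false (fun hu _ =>
    (Nat.rec (motive := fun _ => Bool) false (fun bm _ =>
    (Nat.rec (motive := fun _ => Bool) false (fun gr _ => (Nat.rec (motive := fun _ => Bool) false (fun e _ =>
    (Nat.rec (motive := fun _ => Bool) false (fun r2 _ => (Nat.rec (motive := fun _ => Bool) false (fun re _ =>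
    (Nat.rec (motive := fun _ => Bool) false (fun br _ => (Nat.rec (motive := fun _ => Bool) false (fun ma _ => (Nat.rec (motive := fun _ => Bool) false (fun ms _ =>
    (Nat.rec (motive := fun _ => Bool) false (fun mj _ => (Nat.rec (motive := fun _ => Bool) false (fun la _ => (Nat.rec (motive := fun _ => Bool) false (fun lq _ =>
    (Nat.rec (motive := fun _ => Bool) false (fun l2 _ => (Nat.rec (motive := fun _ => Bool) false (fun re _ =>
      chkT salt (stateF fpS tbs tbx F two D (RT e) LM VM MU cv la lq l2 m hu ts kw bm o1 r1 r2 ma ms mj mk m0 mS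
        k1 (l0 k) (l1 k) (lM k) (edges3 TR br re gr m kw (nxt c))) mk lo hi t
        (nat_lit 0) (nat_lit 0) PL.nil QL.nil (nat_lit 0) (nat_lit 9) (lC k) i1 (nat_lit 3) (nat_lit 0)) (Nat.succ (G re l2 kw)))) (Nat.succ (mu (nat_lit 32) l2)))) (Nat.succ (mu (nat_lit 32) lq)))) (Nat.succ (mu (nat_lit 32) la)))) (Nat.succ (an mj m)))) (Nat.succ (an ms m)))) (Nat.succ (an ma m)))) (Nat.succ (an (RB c) sel)))) (Nat.succ (RT e (ad (nat_lit 6496) c))))) (Nat.succ (RT e (nat_lit 6473))))) (Nat.succ (dec c)))) (Nat.succ (ad (sl o1 (nat_lit 31)) (sl (an tau (nat_lit 65535)) (mu (nat_lit 32) lf)))))) (Nat.succ (su (mu o1 (nat_lit 65535)) (sl (nat_lit 65535) (mu (nat_lit 32) lf)))))) (Nat.succ (rr m kw (nat_lit 10))))) (Nat.succ (mu o1 (nat_lit 16777215))))) (Nat.succ (rq (nat_lit 32) K)))) (Nat.succ (mu (nat_lit 32) K)))) (Nat.succ (ad mk (nat_lit 0x80000000000000000000000000000000))))) (Nat.succ (mS k)))) (Nat.succ (ad (nat_lit 3) k)))) (Nat.succ (su (nat_lit 3) k)))) (Nat.succ (mM k)))) (Nat.succ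 (ck c)))) P

/-- The check of the trie `t` in context `c`, for the edges selected by `sel`. -/
def chkR (P : Par) (c : Nat) (t : Tr) (sel : Nat) : Bool :=
  chkQ Nat.add Nat.mul Nat.sub Nat.shiftLeft Nat.land rp rpP tst1 reE P t c (nat_lit 0) (nat_lit 4098) sel (nat_lit 0)

/-- The check of a part of the trie of context `c`, for the edges selected by `sel`. -/
def chkX (P : Par) (c lo hi sel : Nat) : Bool :=
  chkR P c (cutT lo hi (P.TR c) (nat_lit 0x40000000000000000) (nat_lit 0)) sel

end

end Pool.Agent.Work.MP_7cb3ca_co.C3
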