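import Pool.Agent.Work.MP_7cb3ca_co.C3.Vec

/-! The gathering of the blocks of a weight for all options. -/

namespace Pool.Agent.Work.MP_7cb3ca_co.C3

open P3

/-- The length of a list of pairs. -/
def OL.len : OL → ℕ
  | .nil => 0
  | .cons _ _ t => t.len + 1

/-- The position in the header for option `i`. -/
def OL.pos (tb dt : ℕ) : OL → ℕ → ℕ
  | .nil, _ => 0
  | .cons p s _, 0 => if tb / 2 ^ p % 1024 ≤ dt then tb / 2 ^ p % 1024 else s
  | .cons _ _ t, i + 1 => t.pos tb dt i

lemma Gat_add {w X Y : ℕ} (h : ∀ i, dg w X i = 0 ∨ dg w Y i = 0) (i : ℕ) :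
    dg w (X + Y) i = dg w X i + dg w Y i := by
  refine dg_add (fun j => ?_) i
  rcases h j with k | k
  · rw [k, zero_add]
    exact dg_lt _ _
  · rw [k, add_zero]
    exact dg_lt _ _

lemma Gat_blk {w m : ℕ} (X s : ℕ) {i : ℕ} (hi : i < m) :
    dg w X (m * s + i) = dg w (dg (w * m) X s) i := by
  rw [show dg (w * m) X s = X / 2 ^ (w * (m * s)) % 2 ^ (w * m) by rw [← mul_assoc]; rfl,
    dg_mod, if_pos hi, dg_div]

lemma Gat_zero (w i : ℕ) : dg w 0 i = 0 := by simp [dg]

lemma Gat_small {w v : ℕ} (hv : v < 2 ^ w) (i : ℕ) : dg w v i = if i = 0 then v else 0 := by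
  have h := dg_single hv 0 i
  rwa [mul_zero, pow_zero, mul_one] at h

lemma Gat_mask {w m v : ℕ} (hw : 0 < w) (hv : v < 2 ^ w) (r s : ℕ) {i : ℕ} (hi : i < m) :
    dg w (v * rp (w * m) r) (m * s + i) = if i = 0 ∧ s < r then v else 0 := by
  have hm : 0 < w * m := Nat.mul_pos hw (by omega)
  have hv' : v < 2 ^ (w * m) :=
    hv.trans_le (Nat.pow_le_pow_right (by norm_num) (Nat.le_mul_of_pos_right _ (by omega)))
  rw [Gat_blk _ _ hi, dg_mul fun j => ?_, dg_rp hm]
  · by_cases k : s < r
    · simp only [k, if_true, mul_one, and_true]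
      exact Gat_small hv i
    · simp only [k, if_false, mul_zero, and_false]
      exact Gat_zero w i
  · rw [dg_rp hm]
    split_ifs
    · rwa [mul_one]
    · rw [mul_zero]
      positivity

lemma Gat_nil (H rs M a c : ℕ) : rowA [] H rs M a c = 0 := rfl

lemma Gat_cons (w q : ℕ) (l : List ℕ) (H st M a c : ℕ) :
    rowA (w * q :: l) H (w * st) M a (w * c) =
      rowA l H (w * st) M a (w * c) * 2 ^ (w * st) + (H / 2 ^ (w * (a * q + c)) &&& M) := by
  have e : rowA (w * q :: l) H (w * st) M a (w * c) =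
      Nat.shiftLeft (rowA l H (w * st) M a (w * c)) (w * st) +
        blk H (a * (w * q) + w * c) M := rfl
  rw [e, shl, blk_eq, show a * (w * q) + w * c = w * (a * q + c) by ring]

/-- Blocks gathered with stride one. -/
lemma Gat_col {w m r v M H a c : ℕ}
    (hM : ∀ s, ∀ i < m, dg w M (m * s + i) = if i = 0 ∧ s < r then v else 0) (l : List ℕ)
    (hl : l.length ≤ m) (s : ℕ) {i : ℕ} (hi : i < m) :
    dg w (rowA (l.map (w * ·)) H (w * 1) M a (w * c)) (m * s + i) =
      if i < l.length ∧ s < r then dg w H (a * l.getD i 0 + c + m * s) &&& v else 0 := by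
  induction l generalizing s i with
  | nil => simp [Gat_nil, Gat_zero]
  | cons q l ih =>
    have hl' : l.length + 1 ≤ m := hl
    have h1 : ∀ s, dg w (rowA (l.map (w * ·)) H (w * 1) M a (w * c) * 2 ^ (w * 1)) (m * s + 0) =
        0 := by
      intro s
      rw [dg_shl]
      split_ifs with k
      · rcases s with _ | s
        · simp at k
        · rw [show m * (s + 1) + 0 - 1 = m * s + (m - 1) by rw [Nat.mul_succ]; omega,
            ih (by omega) s (by omega), if_neg (by omega)]
      · rfl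
    have h2 : ∀ s, ∀ i < m, dg w (H / 2 ^ (w * (a * q + c)) &&& M) (m * s + i) =
        if i = 0 ∧ s < r then dg w H (a * q + c + m * s) &&& v else 0 := by
      intro s i hi
      rw [dg_and, hM s i hi, dg_div]
      split_ifs with k
      · rw [k.1, add_zero]
      · exact Nat.and_zero _
    rw [List.map_cons, Gat_cons, Gat_add, h2 s i hi]
    · rcases i with _ | i
      · rw [h1, zero_add]
        simp
      · rw [dg_shl, if_pos (by omega), show m * s + (i + 1) - 1 = m * s + i by omega,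
          ih (by omega) s (by omega)]
        simp
    · refine lane_ind (K := m) (by omega) fun s i hi => ?_
      rcases i with _ | i
      · exact Or.inl (h1 s)
      · right
        rw [h2 s _ hi, if_neg (by omega)]

/-- Blocks gathered with stride `n`. -/
lemma Gat_row {w n e H a c : ℕ} (he : e ≤ n) (l : List ℕ) (i : ℕ) {t : ℕ} (ht : t < n) :
    dg w (rowA (l.map (w * ·)) H (w * n) (low (w * e)) a (w * c)) (n * i + t) =
      if i < l.length ∧ t < e then dg w H (a * l.getD i 0 + c + t) else 0 := by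
  have hlow : low (w * e) = 2 ^ (w * e) - 1 := by
    have e1 : low (w * e) = Nat.shiftLeft 1 (w * e) - 1 := rfl
    rw [e1, shl, one_mul]
  induction l generalizing i t with
  | nil => simp [Gat_nil, Gat_zero]
  | cons q l ih =>
    have h2 : ∀ y, dg w (H / 2 ^ (w * (a * q + c)) &&& low (w * e)) y =
        if y < e then dg w H (a * q + c + y) else 0 := by
      intro y
      rw [hlow, Nat.and_two_pow_sub_one_eq_mod, dg_mod, dg_div]
    rw [List.map_cons, Gat_cons, Gat_add, h2, dg_shl]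
    · rcases i with _ | i
      · rw [if_neg (by omega), zero_add]
        simp
      · have k : n * (i + 1) + t = n * i + t + n := by ring
        rw [k, if_pos (by omega), Nat.add_sub_cancel, ih i ht, if_neg (by omega : ¬ _ < e)]
        simp
    · intro y
      by_cases k : n ≤ y
      · right
        rw [h2, if_neg (by omega)]
      · left
        rw [dg_shl, if_neg k]

lemma Gat_pos (tb dt p s : ℕ) : cnd (Nat.ble (blk tb p 1023) dt) (blk tb p 1023) s =
    if tb / 2 ^ p % 1024 ≤ dt then tb / 2 ^ p % 1024 else s := by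
  have e : blk tb p 1023 = tb / 2 ^ p % 1024 := by
    rw [blk_eq]
    exact Nat.and_two_pow_sub_one_eq_mod _ 10
  rw [cnd_eq, e]
  simp only [Nat.ble_eq]

lemma Gat_slots (o : OL) (tb dt hd kw : ℕ) : ∃ L : List ℕ, L.length = o.len ∧
    (∀ i < o.len, L.getD i 0 = hd / 2 ^ o.pos tb dt i % 8) ∧
    slots o tb dt hd kw = L.map (kw * ·) := by
  induction o with
  | nil => exact ⟨[], rfl, fun i hi => absurd hi (Nat.not_lt_zero i), rfl⟩
  | cons p s t ih =>
    obtain ⟨L, h1, h2, h3⟩ := ih
    refine ⟨hd / 2 ^ (OL.cons p s t).pos tb dt 0 % 8 :: L, congrArg (· + 1) h1, ?_, ?_⟩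
    · rintro (_ | i) hi
      · rfl
      · exact h2 i (Nat.lt_of_succ_lt_succ hi)
    · have e : slots (.cons p s t) tb dt hd kw =
          kw * blk hd (cnd (Nat.ble (blk tb p 1023) dt) (blk tb p 1023) s) 7 ::
            slots t tb dt hd kw := rfl
      rw [e, h3, Gat_pos, blk_eq, List.map_cons]
      exact congrArg (fun x => kw * x :: L.map (kw * ·)) (Nat.and_two_pow_sub_one_eq_mod _ 3)

lemma Gat_row1 (o : OL) (tb dt hd H kw bm : ℕ) : ∃ L : List ℕ, L.length = o.len ∧
    (∀ i < o.len, L.getD i 0 = hd / 2 ^ o.pos tb dt i % 16) ∧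
    row1 o tb dt hd H kw bm = rowA (L.map (kw * ·)) H (kw * 1) bm 1 (kw * 0) := by
  induction o with
  | nil => exact ⟨[], rfl, fun i hi => absurd hi (Nat.not_lt_zero i), rfl⟩
  | cons p s t ih =>
    obtain ⟨L, h1, h2, h3⟩ := ih
    refine ⟨hd / 2 ^ (OL.cons p s t).pos tb dt 0 % 16 :: L, congrArg (· + 1) h1, ?_, ?_⟩
    · rintro (_ | i) hi
      · rfl
      · exact h2 i (Nat.lt_of_succ_lt_succ hi)
    · have e : row1 (.cons p s t) tb dt hd H kw bm =
          Nat.shiftLeft (row1 t tb dt hd H kw bm) kw +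
            blk H (kw * blk hd (cnd (Nat.ble (blk tb p 1023) dt) (blk tb p 1023) s) 15) bm := rfl
      have e2 : ∀ x, blk hd x 15 = hd / 2 ^ x % 16 := fun x => by
        rw [blk_eq]
        exact Nat.and_two_pow_sub_one_eq_mod _ 4
      rw [e, h3, Gat_pos, e2, List.map_cons, Gat_cons, shl, blk_eq, mul_one, one_mul, add_zero]
      rfl

/-- The blocks for all pairs of options. -/
lemma Gat_row2 {w v : ℕ} (hw : 0 < w) (hv : v < 2 ^ w) {L : List ℕ} {n : ℕ} (hL : L.length = n)
    (h8 : ∀ i < n, L.getD i 0 < 8) (H i : ℕ) {t : ℕ} (ht : t < n) :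
    dg w (row2 (L.map (w * ·)) H w v n (w * n)) (n * i + t) =
      if i < n then dg w H (1 + 8 * L.getD i 0 + L.getD t 0) &&& v else 0 := by
  have e : row2 (L.map (w * ·)) H w v n (w * n) = cnd (Nat.ble n 8)
      (rowA (L.map (w * ·)) (rowA (L.map (w * ·)) H w (v * rp (8 * w) 8) 1 w) (w * n)
        (low (w * n)) 8 0)
      (rowA (L.map (w * ·)) (rowA (L.map (w * ·)) H (w * n) (low (8 * w)) 8 w) w
        (v * rp (w * n) n) 1 0) := rfl
  rw [e, cnd_eq, mul_comm 8 w]
  simp only [Nat.ble_eq]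
  by_cases k : n ≤ 8
  · have a1 := Gat_row (w := w) (H := rowA (L.map (w * ·)) H w (v * rp (w * 8) 8) 1 w) (a := 8)
      (c := 0) le_rfl L i ht
    have a2 := Gat_col (w := w) (m := 8) (r := 8) (v := v) (M := v * rp (w * 8) 8) (H := H)
      (a := 1) (c := 1) (fun s i hi => Gat_mask hw hv 8 s hi) L (by omega) (L.getD i 0)
      (i := t) (by omega)
    rw [mul_zero, add_zero, hL] at a1
    rw [mul_one, hL] at a2
    rw [if_pos k, a1]
    by_cases hi : i < n
    · rw [if_pos ⟨hi, ht⟩, a2, if_pos ⟨ht, h8 i hi⟩, if_pos hi,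
        show 1 * L.getD t 0 + 1 + 8 * L.getD i 0 = 1 + 8 * L.getD i 0 + L.getD t 0 by ring]
    · rw [if_neg fun h => hi h.1, if_neg hi]
  · have a1 := Gat_col (w := w) (m := n) (r := n) (v := v) (M := v * rp (w * n) n)
      (H := rowA (L.map (w * ·)) H (w * n) (low (w * 8)) 8 w)
      (a := 1) (c := 0) (fun s i hi => Gat_mask hw hv n s hi) L hL.le i ht
    have a2 := Gat_row (w := w) (n := n) (e := 8) (H := H) (a := 8) (c := 1) (by omega) L i
      (t := L.getD t 0) ((h8 t ht).trans (by omega))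
    rw [mul_zero, mul_one, hL, one_mul, add_zero, add_comm (L.getD t 0)] at a1
    rw [mul_one, hL] at a2
    rw [if_neg k, a1]
    by_cases hi : i < n
    · rw [if_pos ⟨ht, hi⟩, a2, if_pos ⟨hi, h8 t ht⟩, if_pos hi,
        show 8 * L.getD i 0 + 1 + L.getD t 0 = 1 + 8 * L.getD i 0 + L.getD t 0 by ring]
    · rw [if_neg fun h => hi h.2, if_neg hi]

lemma Gat_lane {K lf : ℕ} (hl : lf < K) (H x : ℕ) {j : ℕ} (hj : j < K) :
    dg 32 (dg (32 * K) H x &&& (rp 32 K * 65535 - 65535 * 2 ^ (32 * lf))) j =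
      if j ≠ lf ∧ j < K then dg 32 H (K * x + j) % 2 ^ 16 else 0 := by
  rw [dg_and, dg_bm hl, ← dg_blk _ _ hj]
  split_ifs
  · exact Nat.and_two_pow_sub_one_eq_mod _ 16
  · exact Nat.and_zero _

theorem gat_spec {two : Bool} {K lf : ℕ} (hl : lf < K) {o : OL} {n : ℕ} (hn : o.len = n)
    (tb dt H b : ℕ) {j : ℕ} (hj : j < K) :
    dg 32 (gat two o tb dt H (32 * K) (rp 32 K * 65535 - 65535 * 2 ^ (32 * lf)) n (32 * K * n))
      (K * b + j) = if b < (if two = true then n * n else n) then
        wq two K lf H (o.pos tb dt (b % n)) (o.pos tb dt (b / n)) j else 0 := by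
  have hw : 0 < 32 * K := by omega
  have hv : rp 32 K * 65535 - 65535 * 2 ^ (32 * lf) < 2 ^ (32 * K) :=
    lt_of_dg (by norm_num) fun i hi => by rw [dg_bm hl, if_neg (by omega)]
  have e : ∀ v, gat two o tb dt H (32 * K) v n (32 * K * n) = cnd two
      (row2 (slots o tb dt (Nat.land H (2 ^ 164 * 2 ^ 164 - 1)) (32 * K)) H (32 * K) v n
        (32 * K * n))
      (row1 o tb dt (Nat.land H (2 ^ 164 * 2 ^ 164 - 1)) H (32 * K) v) := fun _ => rfl
  rw [e, ← pow_add, show 164 + 164 = 328 from rfl, land_mask, cnd_eq, dg_blk _ _ hj]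
  cases two
  · obtain ⟨L, h1, h2, h3⟩ := Gat_row1 o tb dt (H % 2 ^ 328) H (32 * K)
      (rp 32 K * 65535 - 65535 * 2 ^ (32 * lf))
    have a1 := Gat_col (w := 32 * K) (m := b + n + 1) (r := 1) (H := H) (a := 1) (c := 0)
      (v := rp 32 K * 65535 - 65535 * 2 ^ (32 * lf))
      (M := rp 32 K * 65535 - 65535 * 2 ^ (32 * lf)) (fun s i hi => by
        rw [Gat_small hv]
        refine if_congr ?_ rfl rfl
        rcases s with _ | s
        · simp
        · rw [Nat.mul_succ]
          omega) L (by omega) 0 (i := b) (by omega)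
    rw [mul_zero (b + n + 1), zero_add, add_zero, add_zero, one_mul, h1, hn] at a1
    simp only [Bool.false_eq_true, if_false]
    rw [h3, a1]
    by_cases hb : b < n
    · rw [if_pos ⟨hb, Nat.one_pos⟩, if_pos hb, Gat_lane hl _ _ hj, h2 b (by omega),
        Nat.mod_eq_of_lt hb]
      rfl
    · rw [if_neg fun h => hb h.1, if_neg hb, Gat_zero]
  · obtain ⟨L, h1, h2, h3⟩ := Gat_slots o tb dt (H % 2 ^ 328) (32 * K)
    rw [hn] at h1 h2
    simp only [if_true]
    rw [h3]
    rcases Nat.eq_zero_or_pos n with h0 | h0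
    · subst h0
      rw [List.length_eq_zero_iff.1 h1, if_neg (by omega)]
      exact (congrArg (fun x => dg 32 x j) (Gat_zero _ _)).trans (Gat_zero _ _)
    · have a1 := Gat_row2 hw hv h1 (fun i hi => by rw [h2 i hi]; omega) H (b / n)
        (Nat.mod_lt b h0)
      rw [Nat.div_add_mod] at a1
      rw [a1]
      by_cases hb : b < n * n
      · have hb' : b / n < n := Nat.div_lt_of_lt_mul hb
        rw [if_pos hb', if_pos hb, Gat_lane hl _ _ hj, h2 _ hb', h2 _ (Nat.mod_lt b h0)]
        rfl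
      · rw [if_neg fun h => hb ((Nat.div_lt_iff_lt_mul h0).1 h), if_neg hb, Gat_zero]

end Pool.Agent.Work.MP_7cb3ca_co.C3
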