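import Pool.Agent.Work.MP_7cb3ca_co.C3.Fast
import Pool.Agent.Work.MP_7cb3ca_co.C3.Eq3
import Pool.Agent.Work.MP_7cb3ca_co.C3.Gat
import Pool.Agent.Work.MP_7cb3ca_co.C3.Cov

/-! The faster form of the checker for cycles implies the original one. -/

namespace Pool.Agent.Work.MP_7cb3ca_co.C3

open P3

lemma cutA_spec (u dt i s : ℕ) :
    (if dg 10 (cutA (511 * rp 10 64) (rp 10 64) u dt) i ≤ dt then
      dg 10 (cutA (511 * rp 10 64) (rp 10 64) u dt) i else s) =
      if dg 10 u i ≤ dt then dg 10 u i else s := by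
  have e : ∀ a o, cutA a o u dt =
      u ||| (Nat.shiftRight ((u &&& a) + (511 - dt) * o) 9 &&& o) * 1023 := fun _ _ => rfl
  have ho : ∀ j, dg 10 (rp 10 64) j ≤ 1 := fun j => by
    rw [dg_rp (by norm_num)]
    split_ifs <;> omega
  have hm : ∀ b ≤ 511, ∀ j, dg 10 (b * rp 10 64) j = b * dg 10 (rp 10 64) j := fun b hb =>
    dg_mul fun j => by have := Nat.mul_le_mul hb (ho j); omega
  rw [e, dg_or]
  generalize hX : (u &&& 511 * rp 10 64) + (511 - dt) * rp 10 64 = X
  have h1 : ∀ j, dg 10 (u &&& 511 * rp 10 64) j ≤ min (dg 10 u j) 511 := fun j => by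
    rw [dg_and, hm _ le_rfl]
    have := Nat.mul_le_mul_left 511 (ho j)
    exact le_min Nat.and_le_left (Nat.and_le_right.trans (by omega))
  have h2 : ∀ j, dg 10 ((511 - dt) * rp 10 64) j ≤ 511 - dt := fun j => by
    rw [hm _ (by omega)]
    have := Nat.mul_le_mul_left (511 - dt) (ho j)
    omega
  have h3 : dg 10 X i ≤ min (dg 10 u i) 511 + (511 - dt) := by
    rw [← hX, dg_add fun j => by have := h1 j; have := h2 j; omega]
    exact Nat.add_le_add (h1 i) (h2 i)
  by_cases k2 : dg 10 u i ≤ dt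
  · have h4 : dg 10 (Nat.shiftRight X 9 &&& rp 10 64) i = 0 := by
      rw [dg_and]
      have h5 : dg 10 (Nat.shiftRight X 9) i % 2 = 0 := by
        have e2 : Nat.shiftRight X 9 = X / 2 ^ 9 := Nat.shiftRight_eq_div_pow X 9
        have h6 : dg 10 X i < 512 := by omega
        unfold dg at h6 ⊢
        rw [e2, Nat.div_div_eq_div_mul, mul_comm (2 ^ 9), ← Nat.div_div_eq_div_mul]
        omega
      rcases Nat.le_one_iff_eq_zero_or_eq_one.1 (ho i) with k | k <;> rw [k]
      · exact Nat.and_zero _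
      · rwa [Nat.and_one_is_mod]
    rw [mul_comm _ 1023, dg_mul fun j => ?_, h4, mul_zero, Nat.or_zero]
    rw [dg_and]
    have := Nat.mul_le_mul_left 1023 (Nat.and_le_right.trans (ho j) :
      dg 10 (Nat.shiftRight X 9) j &&& dg 10 (rp 10 64) j ≤ 1)
    omega
  · rw [if_neg k2, if_neg fun k1 => k2 (Nat.left_le_or.trans k1)]

lemma cutB_eq (tb dt : ℕ) :
    cutB tb dt = cutA (511 * rp 10 64) (rp 10 64) (tb / 2 ^ (10 * 3)) dt * 2 ^ (10 * 3) := by
  have e1 : cutB = cutG (511 * rp 10 64) (rp 10 64) := by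
    unfold cutB
    exact congrArg₂ cutG (by decide +kernel) (by decide +kernel)
  have e2 : ∀ a o, cutG a o tb dt = Nat.shiftLeft (cutA a o (Nat.shiftRight tb 30) dt) 30 :=
    fun _ _ => rfl
  have e3 : Nat.shiftRight tb 30 = tb / 2 ^ (10 * 3) := Nat.shiftRight_eq_div_pow tb 30
  rw [e1, e2, e3, shl]

/-- The positions in the table of codes are positions of digits. -/
def OL.Good : OL → Prop
  | .nil => True
  | .cons p _ t => (∃ j, p = 10 * (3 + j)) ∧ t.Good

lemma pos_cutB (tb dt j s : ℕ) :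
    cnd (Nat.ble (blk (cutB tb dt) (10 * (3 + j)) 1023) dt) (blk (cutB tb dt) (10 * (3 + j)) 1023) s =
      cnd (Nat.ble (blk tb (10 * (3 + j)) 1023) dt) (blk tb (10 * (3 + j)) 1023) s := by
  have e : ∀ X, X / 2 ^ (10 * (3 + j)) % 1024 = dg 10 X (3 + j) := fun _ => rfl
  rw [Gat_pos, Gat_pos, e, e, cutB_eq, dg_shl, if_pos (Nat.le_add_right 3 j), Nat.add_sub_cancel_left,
    cutA_spec, dg_div]

lemma gat_cutB {o : OL} (h : o.Good) (two : Bool) (tb dt H kw bm n rs : ℕ) :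
    gat two o (cutB tb dt) dt H kw bm n rs = gat two o tb dt H kw bm n rs := by
  have k := pos_cutB tb dt
  generalize cutB tb dt = T at k
  have h1 : ∀ hd, slots o T dt hd kw = slots o tb dt hd kw := fun hd => by
    induction o with
    | nil => rfl
    | cons p s t ih =>
      obtain ⟨⟨j, rfl⟩, h⟩ := h
      have e : ∀ p tb, slots (.cons p s t) tb dt hd kw =
          kw * blk hd (cnd (Nat.ble (blk tb p 1023) dt) (blk tb p 1023) s) 7 ::
            slots t tb dt hd kw := fun _ _ => rfl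
      rw [e, e, k, ih h]
  have h2 : ∀ hd, row1 o T dt hd H kw bm = row1 o tb dt hd H kw bm := fun hd => by
    clear h1
    induction o with
    | nil => rfl
    | cons p s t ih =>
      obtain ⟨⟨j, rfl⟩, h⟩ := h
      have e : ∀ p tb, row1 (.cons p s t) tb dt hd H kw bm =
          Nat.shiftLeft (row1 t tb dt hd H kw bm) kw +
            blk H (kw * blk hd (cnd (Nat.ble (blk tb p 1023) dt) (blk tb p 1023) s) 15) bm :=
        fun _ _ => rfl
      rw [e, e, k, ih h]
  have e : ∀ tb, gat two o tb dt H kw bm n rs = cnd two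
      (row2 (slots o tb dt (Nat.land H (2 ^ 164 * 2 ^ 164 - 1)) kw) H kw bm n rs)
      (row1 o tb dt (Nat.land H (2 ^ 164 * 2 ^ 164 - 1)) H kw bm) := fun _ => rfl
  rw [e, e, h1, h2]

lemma valF_eq (two : Bool) (D : ℕ → ℕ) (o c an : EV)
    (d m mv kw bm r2 r3 x iy tb f sh cap bg s1 : ℕ) {oc : OL} (h : oc.Good) (n nb rs on : ℕ) :
    valF two D o c an d m mv kw bm r2 r3 x iy tb f sh cap bg s1 oc n nb rs on =
      val0 two D o c an d m mv kw bm r2 r3 x iy tb f sh cap bg s1 oc n nb rs on := by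
  funext h' dt
  have e : valF two D o c an d m mv kw bm r2 r3 x iy tb f sh cap bg s1 oc n nb rs on h' dt =
      cnd (Nat.beq h' 0) (val1 two cap bg s1 r2 r3 sh mv kw x iy n nb on + 0)
        (clip (rpP cap kw nb) (cgP cap kw nb on) on
          (gat two oc (cutB tb (4 * dt + 76)) (4 * dt + 76) (D h') kw bm n rs +
            bgP two bg s1 r2 r3 sh mv kw x iy n nb - chP o c an d dt f sh m kw nb)) := rfl
  rw [e, gat_cutB h]
  rfl

lemma good_opts (m : ℕ) (l : List ℕ) {o : OL} (h : o.Good) : (opts m l o).Good := by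
  induction l with
  | nil => exact h
  | cons a l ih =>
    refine ⟨?_, ih⟩
    have e : optP m a = 10 * a + cnd (Nat.beq (blk m (a + a) 3) 0) 670 30 := rfl
    rw [e]
    cases Nat.beq (blk m (a + a) 3) 0
    · exact ⟨a, by show 10 * a + 30 = _; omega⟩
    · exact ⟨a + 64, by show 10 * a + 670 = _; omega⟩

/-- The values on lists of options that occur are the same. -/
def RV (v v' : OL → ℕ → ℕ → ℕ → ℕ → ℕ → ℕ) : Prop := ∀ oc : OL, oc.Good → v oc = v' oc

lemma letF_eq (tx : ℕ → ℕ → ℕ) (two : Bool) (D R LM MU : ℕ → ℕ)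
    (m mv hu ts kw bm r1 r2 r3 mk : ℕ) (w : PL) (v : QL) (W d T iy x : ℕ) :
    ∃ a b : Tr → ℕ → ℕ → ℕ → ℕ → OL → ℕ → ℕ → ℕ → ℕ → ℕ → ℕ,
      (∀ tr f sh bg t, RV (a tr f sh bg t) (b tr f sh bg t)) ∧
      (∀ K, letF tx two D R LM MU m mv hu ts kw bm r1 r2 r3 mk w v W d T iy x K =
        K fun tr f sh bg t k => k (a tr f sh bg t)) ∧
      ∀ K, letterG tx two D R LM MU m mv hu ts kw bm r1 r2 r3 mk w v W d T iy x K =
        K fun tr f sh bg t k => k (b tr f sh bg t) := by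
  have e : ∀ K, letF tx two D R LM MU m mv hu ts kw bm r1 r2 r3 mk w v W d T iy x K =
      Evs.rec (motive := fun _ => Bool) (K fun _ _ _ _ _ k => k fun _ _ _ _ _ _ => 0)
        (fun o c => letAF two D R LM MU m mv hu ts kw bm r1 r2 r3 mk w d iy x K o c
          (W + Nat.shiftLeft x 24) (win (W + Nat.shiftLeft x 24) 0) (d + 1)
          (R (6464 + zt x W 1 d r1)) (R (6484 + zt 63 (W + Nat.shiftLeft x 24) 0 (d + 1) r1))
          (tx T x)) (evsM v R mk x) := fun _ => rfl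
  simp only [e, letterG_eq]
  cases evsM v R mk x with
  | dead => exact ⟨_, _, fun _ _ _ _ _ _ _ => rfl, fun _ => rfl, fun _ => rfl⟩
  | mk o c =>
    simp only
    generalize W + Nat.shiftLeft x 24 = Y, d + 1 = e
    generalize win Y 0 = Z, R (6464 + zt x W 1 d r1) = rz, R (6484 + zt 63 Y 0 e r1) = rb,
      tx T x = tb
    refine ⟨fun tr f sh bg t oc n nb rs on mm =>
        (if x = gt Z 3 ∧ gt Z 1 = gt Z 4 then valB else valA)
          (valF two D o c (ancL R LM MU m hu r1 ts Y e x d) d m mv kw bm r2 r3 x iy tb f sh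
            (blk (R (iH mk (Z % 2 ^ 24))) sh m)
            (bg - (blk (R (5824 + 64 * cls Z e + t)) sh mv + blk rb sh m)) (blk rz sh mv)
            oc n nb rs on) (posM w mm x tr), _, fun tr f sh bg t oc h => ?_, fun K => ?_,
      fun K => letterA_eq ..⟩
    · funext n nb rs on mm
      simp only [valF_eq (h := h)]
    · have : letAF two D R LM MU m mv hu ts kw bm r1 r2 r3 mk w d iy x K o c Y Z e rz rb tb =
          anch (anA R LM MU m hu r1 ts Y e) Y x d fun an =>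
            (fun B : ((ℕ → ℕ → ℕ) → Pos → ℕ) → Bool =>
              cnd (bnd (Nat.beq x (gt Z 3)) (Nat.beq (gt Z 1) (gt Z 4))) (B valB) (B valA))
            fun V => K fun tr f sh bg t k => k fun oc n nb rs on mm =>
              V (valF two D o c an d m mv kw bm r2 r3 x iy tb f sh
                (blk (R (iH mk (Nat.land Z (2 ^ 24 - 1)))) sh m)
                (bg - (blk (R (5824 + 64 * cls Z e + t)) sh mv + blk rb sh m)) (blk rz sh mv)
                oc n nb rs on) (posM w mm x tr) := by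
        unfold letAF edgeV
        dsimp only
        rfl
      rw [this, anch_eq, land_mask]
      simp only [cnd_eq, bnd_iff, Nat.beq_eq]
      split_ifs <;> rfl

lemma leafC_congr (F : ℕ → ℕ → ℕ → ℕ → ℕ → ℕ → ℕ → Bool) (two : Bool) (Q : ℕ → ℕ → ℕ → ℕ → ℕ)
    (kw o1 p2 : ℕ) {v1 v2 v3 u1 u2 u3 : OL → ℕ → ℕ → ℕ → ℕ → ℕ → ℕ} (h1 : RV v1 u1)
    (h2 : RV v2 u2) (h3 : RV v3 u3) :
    leafC (fun e => leafB F two (Q e) kw o1 p2 v1 v2 v3) =
      leafC fun e => leafB F two (Q e) kw o1 p2 u1 u2 u3 := by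
  funext VM em SN n0 r mm o n
  have e : ∀ B, leafC B VM em SN n0 r mm o n = cnd (Nat.beq (vmk VM em o) 0) true
      (cnd (Nat.beq r 0) (B (vmk VM em o) mm 99 n (opts mm SN (opts mm (62 :: o) .nil)))
        (B (vmk VM em o) mm n0 (n + 1) (opts mm SN (opts mm (62 :: 63 :: o) .nil)))) :=
    fun _ => rfl
  have g : ∀ l, (opts mm SN (opts mm l .nil)).Good := fun l =>
    good_opts _ _ (good_opts _ _ trivial)
  have k : ∀ e fi n l, leafB F two (Q e) kw o1 p2 v1 v2 v3 mm fi n (opts mm SN (opts mm l .nil)) =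
      leafB F two (Q e) kw o1 p2 u1 u2 u3 mm fi n (opts mm SN (opts mm l .nil)) := by
    intro e fi n l
    rw [leafB_eq (hnb := rfl), leafB_eq (hnb := rfl), h1 _ (g _), h2 _ (g _), h3 _ (g _)]
  rw [e, e, k, k]

lemma edgesE_congr (F : ℕ → ℕ → ℕ → ℕ → ℕ → ℕ → ℕ → Bool) (two : Bool) (VM : ℕ → ℕ)
    (Q : ℕ → ℕ → ℕ → ℕ → ℕ → ℕ) (kw o1 p2 : ℕ) (SN : List ℕ) (n0 y m0 d g : ℕ) (M C : List ℕ)
    {v1 v2 v3 u1 u2 u3 : Tr → ℕ → ℕ → ℕ → ℕ → OL → ℕ → ℕ → ℕ → ℕ → ℕ → ℕ}
    (h1 : ∀ tr f sh bg t, RV (v1 tr f sh bg t) (u1 tr f sh bg t))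
    (h2 : ∀ tr f sh bg t, RV (v2 tr f sh bg t) (u2 tr f sh bg t))
    (h3 : ∀ tr f sh bg t, RV (v3 tr f sh bg t) (u3 tr f sh bg t)) (N : EH) :
    edgesE F two VM Q kw o1 p2 SN n0 y m0 d g M C N
      (fun tr f sh bg t k => k (v1 tr f sh bg t)) (fun tr f sh bg t k => k (v2 tr f sh bg t))
      (fun tr f sh bg t k => k (v3 tr f sh bg t)) =
    edgesE F two VM Q kw o1 p2 SN n0 y m0 d g M C N
      (fun tr f sh bg t k => k (u1 tr f sh bg t)) (fun tr f sh bg t k => k (u2 tr f sh bg t))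
      (fun tr f sh bg t k => k (u3 tr f sh bg t)) := by
  induction N with
  | nil => rfl
  | cons f k sh b em bg tr N ih =>
    have e : ∀ v1 v2 v3 : Tr → ℕ → ℕ → ℕ → ℕ → OL → ℕ → ℕ → ℕ → ℕ → ℕ → ℕ,
      edgesE F two VM Q kw o1 p2 SN n0 y m0 d g M C (.cons f k sh b em bg tr N)
      (fun tr f sh bg t k => k (v1 tr f sh bg t)) (fun tr f sh bg t k => k (v2 tr f sh bg t))
      (fun tr f sh bg t k => k (v3 tr f sh bg t)) = bnd (keep (fun m1 => born4 (leafC (fun e =>
        leafB F two (Q b e) kw o1 p2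
        (v1 tr f sh bg (cnd (Nat.ble (d - 2 + (f - g)) 44) (d - 2 + (f - g)) 44))
        (v2 tr f sh bg (cnd (Nat.ble (d - 2 + (f - g)) 44) (d - 2 + (f - g)) 44))
        (v3 tr f sh bg (cnd (Nat.ble (d - 2 + (f - g)) 44) (d - 2 + (f - g)) 44))) VM em SN n0)
          y C k m1 [] n0) M k m0) (edgesE F two VM Q kw o1 p2 SN n0 y m0 d g M C N
      (fun tr f sh bg t k => k (v1 tr f sh bg t)) (fun tr f sh bg t k => k (v2 tr f sh bg t))
      (fun tr f sh bg t k => k (v3 tr f sh bg t))) := fun _ _ _ => rfl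
    rw [e, e, ih, leafC_congr F two (Q b) kw o1 p2 (h1 _ _ _ _ _) (h2 _ _ _ _ _) (h3 _ _ _ _ _)]

lemma stateF_eq : stateF fpS tbs tbx = state := by
  funext F two D R LM VM MU CV la lq l2 m hu ts kw bm o1 r1 r2 ma ms mj mk m0 mS k1 S0 S1 M N d h w
    v W g C
  have e : ∀ fs ty tx, stateF fs ty tx F two D R LM VM MU CV la lq l2 m hu ts kw bm o1 r1 r2 ma ms
      mj mk m0 mS k1 S0 S1 M N d h w v W g C = stateA k1 S0 S1 (gz W 1)
        (stateB F two VM CV la lq l2 m kw bm o1 ma ms mj m0 mS M N d g C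
          (letF tx two D R LM MU m (VM d &&& m) hu ts kw bm r1 r2 (rowC two R r1 (gz W 1) W d) mk w
            v W d (fs w W d)) (gz W 1) (ty (fs w W d) (gz W 1)) (D h) (4 * d + 76)) :=
    fun _ _ _ => rfl
  rw [e, state_G, stateG_eq, letter_G]
  refine congrArg (stateA k1 S0 S1 (gz W 1)) ?_
  funext SN iy n0
  rw [stateB_G, stateBG_eq, stateBG_eq]
  have k := letF_eq tbx two D R LM MU m (VM d &&& m) hu ts kw bm r1 r2
    (rowC two R r1 (gz W 1) W d) mk w v W d (fpS w W d) iy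
  obtain ⟨a0, b0, h0, k0, l0⟩ := k 0
  obtain ⟨a1, b1, h1, k1, l1⟩ := k 1
  obtain ⟨a2, b2, h2, k2, l2⟩ := k 2
  rw [k0, k1, k2, l0, l1, l2, edgesE_congr _ _ _ _ _ _ _ _ _ _ _ _ _ _ _ h0 h1 h2]

lemma chkR_eq (P : Par) (c : ℕ) (t : Tr) (sel : ℕ) :
    chkR P c t sel = chkF tst1 reE P t c 0 4098 sel 0 := by
  have e : chkQ = chkFG := by
    unfold chkQ chkFG
    rw [stateF_eq]
  rw [chkF_G, ← e]
  rfl

/-- The faster check gives the original check. -/
theorem chkX_E {P : Par} {c lo hi sel : ℕ} (h : chkX P c lo hi sel = true) :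
    chkE P c lo hi sel = true := by
  unfold chkX at h
  rwa [chkR_eq] at h

/-- One more part, for all edges. -/
theorem CovA.stepX {P : Par} {c lo hi : ℕ}
    (h : chkX P c lo hi 0xffffffffffffffffffffffffffffffffffffffff = true)
    (H : CovA P c (hi + 1)) : CovA P c lo := CovA.step (chkX_E h) H

end Pool.Agent.Work.MP_7cb3ca_co.C3
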