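import Pool.Agent.Work.MP_7cb3ca_co.C3.Cod
import Pool.Agent.Work.MP_7cb3ca_co.C3.Eq3

/-! Every label is represented by one of the options of the checker. -/

namespace Pool.Agent.Work.MP_7cb3ca_co.C3

open Finset P3

lemma sn_eq {k : ℕ} (hk : k ≤ 3) (y : ℕ) :
    sn k y = List.range (3 + k) ++ if y ≤ 5 then [] else [y] := by
  unfold sn
  interval_cases k <;> split_ifs <;> rfl

lemma sn_len {k : ℕ} (hk : k ≤ 3) (y : ℕ) : (sn k y).length + 1 = s0 k y := by
  rw [sn_eq hk, s0]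
  split_ifs <;> simp

lemma sn_get {k : ℕ} (hk : k ≤ 3) (y : ℕ) (l : List ℕ) {i : ℕ} (hi : i + 1 < s0 k y) :
    (sn k y ++ l)[i]? = some (if i < 3 + k then i else y) := by
  rw [List.getElem?_append_left (by have := sn_len hk y; omega), sn_eq hk]
  unfold s0 at hi
  by_cases h : i < 3 + k
  · rw [List.getElem?_append_left (by simpa using h), if_pos h, List.getElem?_range h]
  · rw [List.getElem?_append_right (by simpa using h), if_neg h]
    split_ifs at hi ⊢
    · omega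
    · simp [show i = 3 + k by omega]

lemma mS_mark {k : ℕ} (hk : k ≤ 3) (a : ℕ) : mark2 (mS k) a =
    if a < 3 - k then 3 else if a < 3 then 1 else if a < 3 + k then 2 else 0 := by
  by_cases ha : a < 6
  · revert k a
    decide +kernel
  · have h1 : ∀ k ≤ 3, mS k < 2 ^ 12 := by decide +kernel
    rw [mark2, Nat.div_eq_of_lt ((h1 k hk).trans_le (Nat.pow_le_pow_right (by omega) (by omega))),
      if_neg (by omega), if_neg (by omega), if_neg (by omega)]

section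

variable {A B : Finset ℕ} {w : List ℕ} {ψ : ℕ → ℕ} {r : ℕ → ℕ → ℕ}

lemma names_mark (N : Names A B w ψ r) (hA : A.card = 3) (g : ℕ) :
    mark2 (mS (A \ B).card) (ψ g) = mk2 A B g ∧ (mk2 A B g ≠ 0 ↔ ψ g < 3 + (A \ B).card) ∧
      (mk2 A B g = 0 ↔ 5 < ψ g) := by
  have hk := sdiff_le hA B
  rw [mS_mark hk]
  have h0 := N.m0 g; have h1 := N.m1 g; have h2 := N.m2 g; have h3 := N.m3 g
  rcases mk2_cases A B g with h | h | h | h <;> refine ⟨?_, by omega, by omega⟩ <;>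
    split_ifs <;> omega

lemma count_lt (N : Names A B w ψ r) {B' : Finset ℕ} (hB : B.card = B'.card) {C : List ℕ}
    (hC : C.Nodup) (h : ∀ c ∈ C, ∃ b ∉ B, ψ b = c) {g : ℕ} (h1 : g ∈ B') (h2 : g ∉ B)
    (h3 : ψ g ∉ C) : (C.filter fun a => decide (a ∈ B'.image ψ)).length < (B \ B').card := by
  rw [← List.toFinset_card_of_nodup (hC.filter _), card_sdiff_comm hB,
    ← card_image_of_injective (B' \ B) N.inj]
  refine card_lt_card ⟨fun x hx => ?_, fun hx => ?_⟩
  · simp only [List.mem_toFinset, List.mem_filter, decide_eq_true_eq, mem_image, mem_sdiff] at hx ⊢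
    obtain ⟨h1, a, h2, rfl⟩ := hx
    obtain ⟨b, h3, h4⟩ := h _ h1
    exact ⟨a, ⟨h2, N.inj h4 ▸ h3⟩, rfl⟩
  · have := hx (mem_image_of_mem ψ (mem_sdiff.2 ⟨h1, h2⟩))
    exact h3 (List.mem_filter.1 (List.mem_toFinset.1 this)).1

end

variable {L : ℕ → Finset ℕ} {w : List ℕ} {ψ : ℕ → ℕ} {r : ℕ → ℕ → ℕ} {d : ℕ} {X : Acc}

/-- The data of the checker represent the first `d` letters of `w`. -/
structure St (L : ℕ → Finset ℕ) (w : List ℕ) (ψ : ℕ → ℕ) (r : ℕ → ℕ → ℕ) (d : ℕ) (X : Acc) :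
    Prop where
  hL : ∀ t, (L t).card = 3
  N : Names (L (tm w)) (L (tm w + 1)) w ψ r
  A : AccInv L w ψ r d X
  hd : d ≤ w.length
  d4 : 4 ≤ d
  d55 : d ≤ 55
  c4 : ∀ c ∈ X.C, 5 < c → ∃ i < d, c = i + 6 ∧ ψ (gd w i) = c

lemma St.lt (S : St L w ψ r d X) {i : ℕ} (hi : i < d) : ψ (gd w i) < 62 := by
  have := S.N.lt S.hL (e := i) (hi.trans_le S.hd)
  have := S.d55
  omega

lemma St.gz (S : St L w ψ r d X) {i : ℕ} (hi : i < d) : gz X.W (1 + i) = ψ (gd w i) := by
  obtain ⟨s, hs, h⟩ := S.A.W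
  have := (gz_pk (f := fun i => ψ (gd w i)) (e := d) (s := s) (x := 0)
    (fun i hi => (S.lt hi).trans (by omega)) (by have := S.d55; omega) (by omega)).2 i hi
  rw [h, add_comm 1]
  simpa only [zero_mul, add_zero] using this

lemma St.y (S : St L w ψ r d X) : P3.gz X.W 1 = ψ (gd w 0) := S.gz (i := 0) (by have := S.d4; omega)

lemma St.ft (S : St L w ψ r d X) : FT (fpS X.w X.W d) (fp ψ w d) :=
  fpS_spec S.N.inj S.A.w' S.hd S.d55 (fun _ hi => (S.lt hi).trans (by omega)) _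

lemma St.k (S : St L w ψ r d X) : ck (ctx L (tm w)) = (L (tm w) \ L (tm w + 1)).card :=
  (ctx_facts S.hL _).2.2.2

lemma St.k3 (S : St L w ψ r d X) : ck (ctx L (tm w)) ≤ 3 := S.k ▸ sdiff_le (S.hL _) _

lemma St.tm (S : St L w ψ r d X) (x : ℕ) : tm (x :: w) = tm w + 1 :=
  tm_cons (S.d4.trans S.hd) x

lemma St.idx0 (S : St L w ψ r d X) : w.idxOf (gd w 0) = 0 :=
  Nat.le_zero.1 (idxOf_gd_le (by have := S.d4; have := S.hd; omega))

/-- The position in the weight of the source, for an option that is the label or has no name. -/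
lemma St.src (S : St L w ψ r d X) {l : List ℕ} {i g : ℕ} (h : l[i]? = some (ψ g) ∧ ψ g < 64 ∨
    l[i]? = some 62 ∧ g ≠ gd w 0 ∧ mk2 (L (P3.tm w)) (L (P3.tm w + 1)) g = 0) :
    (opts (mS (ck (ctx L (P3.tm w)))) l .nil).pos (tbs (fpS X.w X.W d) (P3.gz X.W 1)) (4 * d + 76) i =
      4 * code L w d g + 64 := by
  have h4 := S.d4
  have h0 := S.lt (i := 0) (by omega)
  have hi : i < l.length := by
    rcases h with h | h <;> exact (List.getElem?_eq_some_iff.1 h.1).1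
  have key := fun ha => pos_src S.ft (fp_cases ψ w d) (by omega) S.d55 (y := ψ (gd w 0)) (by omega)
    (by rw [fp_map S.N.inj S.hd, S.idx0, if_pos (by omega)]) (mS (ck (ctx L (P3.tm w)))) hi ha
  rw [S.y]
  rcases h with h | h
  · have e := (List.getElem?_eq_some_iff.1 h.1).2
    rw [key (e ▸ h.2), e, S.k, (names_mark S.N (S.hL _) g).1, fp_map S.N.inj S.hd, code]
    simp only [S.N.inj.eq_iff]
    have := S.d55
    clear key
    split_ifs <;> omega
  · have e := (List.getElem?_eq_some_iff.1 h.1).2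
    rw [key (by omega), e, mS_mark S.k3, code, if_neg h.2.1, if_pos h.2.2]
    have := S.k3
    split_ifs <;> omega

/-- The names of the options. -/
noncomputable def nml (k y q : ℕ) (o : List ℕ) : List ℕ := sn k y ++ 62 :: if q = 0 then o else 63 :: o

/-- Option `i` represents the label `g`. -/
structure Ix (L : ℕ → Finset ℕ) (w : List ℕ) (ψ : ℕ → ℕ) (d : ℕ) (X : Acc) (mm q : ℕ)
    (nm : List ℕ) (g i : ℕ) : Prop where
  lt : i < nm.length
  col : ∀ x ∈ L (tm w), i = ψ x ↔ x = g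
  last : i = sy (ck (ctx L (tm w))) (gz X.W 1) ↔ gd w 0 = g
  tgt : ∀ x ∈ L (tm w), ∀ dt, 1 ≤ dt → dt ≤ d + 1 →
    (opts mm nm .nil).pos (tbx (fpS X.w X.W d) (ψ x)) (4 * dt + 76) i = 4 * code L (x :: w) dt g + 64
  src : (opts (mS (ck (ctx L (tm w)))) (sn (ck (ctx L (tm w))) (gz X.W 1) ++
      List.replicate (nm.length + 1 - s0 (ck (ctx L (tm w))) (gz X.W 1)) 62) .nil).pos
      (tbs (fpS X.w X.W d) (gz X.W 1)) (4 * d + 76) i = 4 * code L w d g + 64
  one : nm[i]? = some (ψ g) ∨ i = s0 (ck (ctx L (tm w))) (gz X.W 1) - 1 ∨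
    i = if q = 0 then 99 else s0 (ck (ctx L (tm w))) (gz X.W 1)

theorem St.ix (S : St L w ψ r d X) {mm : ℕ} (h62 : mark2 mm 62 = 0) (h63 : mark2 mm 63 = 2)
    (hm : ∀ a < 62, mark2 mm a = (if a ∈ lM (ck (ctx L (P3.tm w))) then 1 else 0) +
      2 * if (a ∈ lM (ck (ctx L (P3.tm w))) ∨ a ∈ X.C) ∧
        decide (a ∈ (L (P3.tm w + 1 + 1)).image ψ) = true then 1 else 0) {q : ℕ}
    (hq : q = ck (ctx L (P3.tm w + 1)) -
      (X.C.filter fun a => decide (a ∈ (L (P3.tm w + 1 + 1)).image ψ)).length) {nm : List ℕ}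
    (hnm : nm = nml (ck (ctx L (P3.tm w))) (P3.gz X.W 1) q
      (newl (fun a => decide (a ∈ (L (P3.tm w + 1 + 1)).image ψ)) (P3.gz X.W 1) X.C [])) (g : ℕ) :
    ∃ i, Ix L w ψ d X mm q nm g i := by
  have h4 := S.d4
  have h55 := S.d55
  have hk := S.k3
  have hy := S.lt (i := 0) (by omega)
  have m1 := (names_mark S.N (S.hL _) g).2
  have m2 := (names_mark S.N (S.hL _) (gd w 0)).2
  have hl := sn_len hk (ψ (gd w 0))
  have hx := fun x hx => (S.N.mem (S.hL _) x).1.1 hx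
  have hc := mk2_cases (L (P3.tm w)) (L (P3.tm w + 1)) g
  rw [← S.k] at m1 m2
  rw [S.y] at hnm
  generalize newl _ _ _ _ = o, mem_newl (Q := fun a => decide (a ∈ (L (P3.tm w + 1 + 1)).image ψ))
    (y := ψ (gd w 0)) X.C [] = ho at hnm
  have hlen : s0 (ck (ctx L (P3.tm w))) (ψ (gd w 0)) ≤ nm.length := by
    rw [hnm, nml, List.length_append, List.length_cons]
    omega
  have tg : ∀ i a, nm[i]? = some a → a < 64 → ∀ x ∈ L (P3.tm w), ∀ dt, 1 ≤ dt → dt ≤ d + 1 →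
      (opts mm nm .nil).pos (tbx (fpS X.w X.W d) (ψ x)) (4 * dt + 76) i = 4 * (if a = ψ x then 4
        else if mark2 mm a = 0 then 0 else if fp ψ w d a + 1 < dt then 5 + fp ψ w d a
        else mark2 mm a) + 64 := fun i a h1 h2 x h3 dt h5 h6 => by
    obtain ⟨h7, rfl⟩ := List.getElem?_eq_some_iff.1 h1
    exact pos_tgt S.ft (fp_cases ψ w d) h55 h5 (by omega) (by have := hx x h3; omega) mm h7 h2
  have tg1 : ∀ i, nm[i]? = some (ψ g) → ψ g < 62 → (g ∉ L (P3.tm w + 1) → ψ g ∈ X.C) →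
      ∀ x ∈ L (P3.tm w), ∀ dt, 1 ≤ dt → dt ≤ d + 1 → (opts mm nm .nil).pos
        (tbx (fpS X.w X.W d) (ψ x)) (4 * dt + 76) i = 4 * code L (x :: w) dt g + 64 := by
    intro i h1 h2 h3 x h5 dt h6 h7
    have h8 := (S.N.mem (S.hL _) g).2.1
    rw [← S.k] at h8
    have h9 : mark2 mm (ψ g) = mk2 (L (P3.tm w + 1)) (L (P3.tm w + 1 + 1)) g := by
      have : ψ g ∈ lM (ck (ctx L (P3.tm w))) ∨ ψ g ∈ X.C := by
        by_cases h : g ∈ L (P3.tm w + 1)
        exacts [Or.inl (h8.1 h), Or.inr (h3 h)]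
      rw [hm _ h2]
      simp only [this, mk2, mb, h8, decide_eq_true_eq, S.N.inj.mem_finset_image, true_and]
    rw [tg i _ h1 (by omega) x h5 dt h6 h7, h9, fp_map S.N.inj S.hd, code, S.tm, gd_zero]
    simp only [S.N.inj.eq_iff]
    by_cases h : g = x
    · simp only [if_pos h]
    · rw [List.idxOf_cons_ne _ (Ne.symm h)]
      split_ifs <;> omega
  have big : ∀ i, s0 (ck (ctx L (P3.tm w))) (ψ (gd w 0)) ≤ i + 1 → i < nm.length → g ≠ gd w 0 →
      mk2 (L (P3.tm w)) (L (P3.tm w + 1)) g = 0 → (∀ x ∈ L (P3.tm w), i = ψ x ↔ x = g) ∧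
      (i = sy (ck (ctx L (P3.tm w))) (P3.gz X.W 1) ↔ gd w 0 = g) ∧
      (opts (mS (ck (ctx L (P3.tm w)))) (sn (ck (ctx L (P3.tm w))) (P3.gz X.W 1) ++
        List.replicate (nm.length + 1 - s0 (ck (ctx L (P3.tm w))) (P3.gz X.W 1)) 62) .nil).pos
        (tbs (fpS X.w X.W d) (P3.gz X.W 1)) (4 * d + 76) i = 4 * code L w d g + 64 := by
    intro i h1 h2 h3 h5
    refine ⟨fun x h6 => ⟨fun h7 => ?_, fun h7 => ?_⟩, ⟨fun h7 => ?_, fun h7 => absurd h7.symm h3⟩,
      S.src (Or.inr ⟨?_, h3, h5⟩)⟩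
    · have := hx x h6
      unfold s0 at h1
      split_ifs at h1 <;> omega
    · subst h7
      rcases hc with hc | hc | hc | hc
      exacts [absurd h6 hc.2.1, by omega, by omega, by omega]
    · rw [S.y] at h7
      unfold s0 at h1
      unfold sy at h7
      split_ifs at h1 h7 <;> omega
    · rw [S.y, List.getElem?_append_right (by omega), List.getElem?_replicate, if_pos (by omega)]
  by_cases c1 : ψ g < 3 + ck (ctx L (P3.tm w))
  · have e : ∀ l, (sn (ck (ctx L (P3.tm w))) (ψ (gd w 0)) ++ l)[ψ g]? = some (ψ g) := fun l => by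
      rw [sn_get hk _ _ (by unfold s0; split_ifs <;> omega), if_pos c1]
    have e1 : nm[ψ g]? = some (ψ g) := hnm ▸ e _
    refine ⟨ψ g, (List.getElem?_eq_some_iff.1 e1).1, fun x _ => ?_, ?_, tg1 _ e1 (by omega)
      fun h => S.A.c3 g h (Or.inl ?_), S.src (Or.inl ⟨S.y ▸ e _, by omega⟩), Or.inl e1⟩
    · rw [S.N.inj.eq_iff, eq_comm]
    · rw [S.y, sy, ← S.N.inj.eq_iff (a := gd w 0)]
      split_ifs <;> omega
    · rcases hc with hc | hc | hc | hc
      exacts [by omega, hc.2.1, absurd hc.2.2 h, hc.2.1]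
  have c0 : mk2 (L (P3.tm w)) (L (P3.tm w + 1)) g = 0 := by omega
  have c0' : g ∉ L (P3.tm w + 1) := by
    rcases hc with hc | hc | hc | hc
    exacts [hc.2.2, by omega, by omega, by omega]
  by_cases c2 : g = gd w 0
  · subst c2
    have e : ∀ l, (sn (ck (ctx L (P3.tm w))) (ψ (gd w 0)) ++ l)[3 + ck (ctx L (P3.tm w))]? =
        some (ψ (gd w 0)) := fun l => by
      rw [sn_get hk _ _ (by unfold s0; split_ifs <;> omega), if_neg (lt_irrefl _)]
    have e1 : nm[3 + ck (ctx L (P3.tm w))]? = some (ψ (gd w 0)) := hnm ▸ e _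
    refine ⟨_, (List.getElem?_eq_some_iff.1 e1).1, fun x h => ⟨fun h1 => ?_, fun h1 => ?_⟩, ?_,
      tg1 _ e1 hy fun h => S.A.c3 _ h (Or.inr ⟨0, by omega, rfl⟩),
      S.src (Or.inl ⟨by rw [S.y]; exact e _, by omega⟩), Or.inl e1⟩
    · have := hx x h
      omega
    · have := hx x h
      rw [h1] at this
      omega
    · rw [S.y, sy, if_neg (by omega)]
      simp
  have e62 : nm[s0 (ck (ctx L (P3.tm w))) (ψ (gd w 0)) - 1]? = some 62 := by
    rw [hnm, nml, List.getElem?_append_right (by omega), show s0 _ _ - 1 - _ = 0 by omega]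
    rfl
  by_cases c5 : g ∈ L (P3.tm w + 1 + 1)
  swap
  · have hi := (List.getElem?_eq_some_iff.1 e62).1
    obtain ⟨b1, b2, b3⟩ := big _ (by omega) hi c2 c0
    refine ⟨_, hi, b1, b2, fun x h dt h1 h2 => ?_, b3, Or.inr (Or.inl (by rw [S.y]))⟩
    have := hx x h
    rw [tg _ _ e62 (by omega) x h dt h1 h2, if_neg (by omega), if_pos h62, code, S.tm, gd_zero,
      if_neg fun e => by have := (b1 x h).2 e.symm; unfold s0 at this; split_ifs at this <;> omega,
      if_pos (by simp [mk2, mb, c0', c5])]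
  by_cases c3 : ψ g ∈ X.C
  · have h1 : ψ g ∈ o := (ho _).2 (Or.inr ⟨c3, by simpa using mem_image_of_mem ψ c5, by omega,
      fun e => c2 (S.N.inj e)⟩)
    have h2 : ψ g ∈ (62 :: if q = 0 then o else 63 :: o) := by split_ifs <;> simp [h1]
    obtain ⟨i, h3⟩ := List.getElem?_of_mem h2
    have e1 : nm[(sn (ck (ctx L (P3.tm w))) (ψ (gd w 0))).length + i]? = some (ψ g) := by
      rw [hnm, nml, List.getElem?_append_right (by omega), Nat.add_sub_cancel_left, h3]
    have hi := (List.getElem?_eq_some_iff.1 e1).1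
    obtain ⟨b1, b2, b3⟩ := big _ (by omega) hi c2 c0
    exact ⟨_, hi, b1, b2, tg1 _ e1 (by have := (S.A.c2 _ c3).1; omega) fun _ => c3, b3, Or.inl e1⟩
  have h1 : q ≠ 0 := by
    have := count_lt S.N (B' := L (P3.tm w + 1 + 1)) (by rw [S.hL, S.hL]) S.A.c1
      (fun c hc => (S.A.c2 c hc).2) c5 c0' c3
    rw [← (ctx_facts S.hL _).2.2.2] at this
    omega
  have e63 : nm[s0 (ck (ctx L (P3.tm w))) (ψ (gd w 0))]? = some 63 := by
    rw [hnm, nml, List.getElem?_append_right (by omega), show s0 _ _ - _ = 1 by omega, if_neg h1]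
    rfl
  have hi := (List.getElem?_eq_some_iff.1 e63).1
  obtain ⟨b1, b2, b3⟩ := big _ (by omega) hi c2 c0
  refine ⟨_, hi, b1, b2, fun x h dt h1 h2 => ?_, b3, Or.inr (Or.inr (by rw [S.y, if_neg h1]))⟩
  have := hx x h
  have h3 : g ≠ x := fun e => by
    have := (b1 x h).2 e.symm
    unfold s0 at this
    split_ifs at this <;> omega
  have h5 : mk2 (L (P3.tm w + 1)) (L (P3.tm w + 1 + 1)) g = 2 := by simp [mk2, mb, c0', c5]
  have h6 : d ≤ w.idxOf g := by
    by_contra h7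
    have h8 : g ∈ w := List.idxOf_lt_length_iff.1 (by have := S.hd; omega)
    exact c3 (S.A.c3 g c0' (Or.inr ⟨_, by omega, gd_idxOf h8⟩))
  rw [tg _ _ e63 (by omega) x h dt h1 h2, h63, fp_big S.hd fun i hi => by have := S.lt hi; omega,
    code, S.tm, gd_zero, if_neg h3, h5, List.idxOf_cons_ne _ (Ne.symm h3)]
  split_ifs <;> omega

end Pool.Agent.Work.MP_7cb3ca_co.C3
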