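/-! Long numbers are written in pieces of 1024 bits. -/

namespace Pool.Agent.Work.MP_7cb3ca_co

/-- The number with low part `b` (1024 bits) and high part `a`. -/
noncomputable def jn (a b : Nat) : Nat := Nat.add (Nat.shiftLeft a (nat_lit 1024)) b

end Pool.Agent.Work.MP_7cb3ca_co
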