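import Pool.Agent.Work.MP_7cb3ca_co.C3.Tab

/-! The costs of events are bounded by the entries of the tables that the checker looks up. -/

namespace Pool.Agent.Work.MP_7cb3ca_co.C3

open Finset P3

variable {tv : ℕ → ℕ → ℕ} {bb : ℕ → ℕ} {L : ℕ → Finset ℕ} {N : ℕ} {ψ R : ℕ → ℕ}
  {cap : List ℕ → ℝ}

/-- The cap of the words that start with the letters `a` is given by the tables `tv`. -/
def CapOK (tv : ℕ → ℕ → ℕ) (L : ℕ → Finset ℕ) (cap : List ℕ → ℝ) (a : ℕ → ℕ) : Prop :=
  ∀ w : List ℕ, (∀ i < 4, a i = gd w i) → cap w ≤ hk tv L a (tm w)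

lemma pc_le_jc (hT : STab tv bb L N) (hL : ∀ t, (L t).card = 3) {a : ℕ → ℕ} {cl n p : ℕ}
    (hn : 4 ≤ n) (ha : Exact a) (hc : ClsOK a cl n) (hcap : CapOK tv L cap a) (j : ℕ) :
    ∀ u : List ℕ, 5 ≤ u.length → Valid L u → j ≤ p →
    (∀ i < n, a i = if i < j then gd u (p - j + i) else gd u (i - j)) →
    pc (cut L N) (bet bb) cap j u p ≤ jc tv bb L N a cl j (tm u) := by
  induction j with
  | zero =>
    intro u hu hv _ hag
    simp only [Nat.not_lt_zero, if_false, tsub_zero] at hag
    rw [pc, jc, if_pos (okend_of hL hu hv hn ha hc hag)]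
    exact hcap u fun i hi => hag i (by omega)
  | succ j ih =>
    intro u hu hv hj hag
    have hβ := bet_pos hT (tm u)
    have h0 := jc_nonneg (a := a) (cl := cl) hT (j + 1) (tm u)
    rw [pc]
    split_ifs with h
    · obtain ⟨h2, h3⟩ := mem_cut.1 h.1
      rw [jc, if_pos, ← tm_cons (by omega) (gd u (p - 1))]
      · refine div_le_div_of_nonneg_right (ih _ (by simp; omega) (hv.cons h3) (by omega) ?_) hβ.le
        intro i hi
        rw [hag i hi]
        rcases lt_trichotomy i j with h1 | rfl | h1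
        · rw [if_pos (by omega), if_pos h1, gd_cons (by omega)]; congr 1; omega
        · rw [if_pos (by omega), if_neg (by omega), tsub_self, gd_zero]; congr 1; omega
        · rw [if_neg (by omega), if_neg (by omega), gd_cons (by omega)]; congr 1
      · refine ⟨h2, fun h1 => ?_⟩
        rw [hag j (by omega), if_pos (by omega), show p - (j + 1) + j = p - 1 by omega]
        exact h3
    · exact h0

lemma pc_le_jc' (hT : STab tv bb L N) (hL : ∀ t, (L t).card = 3) {u : List ℕ} (hu : 5 ≤ u.length)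
    (hv : Valid L u) {cl n p l : ℕ} (hn : 4 ≤ n) (hnp : n ≤ p) (hl : l ≤ p)
    (hm : ∀ i < l, gd u i = gd u (p + i)) (ha : Exact fun i => gd u (l + i))
    (hc : ClsOK (fun i => gd u (l + i)) cl n) (hcap : CapOK tv L cap fun i => gd u (l + i)) :
    pc (cut L N) (bet bb) cap (p - l) u p ≤
      jc tv bb L N (fun i => gd u (l + i)) cl (p - l) (tm u) := by
  refine pc_le_jc hT hL hn ha hc hcap _ u hu hv (by omega) fun i hi => ?_
  split_ifs with h
  · congr 1; omega
  · rw [hm (i - (p - l)) (by omega)]; congr 1; omega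

theorem job_one (hT : STab tv bb L N) (hL : ∀ t, (L t).card = 3) (hψ : Function.Injective ψ)
    {u : List ℕ} (hv : Valid L u) {mk Z g0 p l sh : ℕ} (hR : ∀ i, dig (R i) sh = tv i (tm u))
    (hcap : CapOK tv L cap fun i => gd u (l + i)) (hmk : ∀ b, bit mk (ψ b) = mb (L (tm u)) b)
    (hu : p + l ≤ u.length) (hZ : ∀ i < p + l, gz Z i = ψ (gd u i)) (hp : 4 ≤ p) (h5 : 5 ≤ p + l)
    (hl : l < p) (hm : ∀ i < l, gd u i = gd u (p + i)) (hg : GF L u g0 p) :
    pc (cut L N) (bet bb) cap (p - l) u p ≤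
      ((if eg Z g0 p l ≤ cf (ctx L (tm u)) then 0 else dig (erow R mk Z p l) sh : ℕ) : ℝ) := by
  by_cases hf : Free u
  swap
  · rw [pc_not_free hf (by omega)]; positivity
  by_cases h1 : eg Z g0 p l ≤ cf (ctx L (tm u))
  · rw [if_pos h1, Nat.cast_zero]
    refine le_of_eq ?_
    rw [(ctx_facts hL _).2.2.1, eg_eq] at h1
    have h2 := fr_le (L := L) 7 (tm u)
    split_ifs at h1 with h3 h4
    · rw [bad0_eq, gt_shift Z (m := 0) (by omega) (by omega),
        gt_shift Z (m := 1) (by omega) (by omega), gt_shift Z (m := 2) (by omega) (by omega),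
        gt_shift Z (m := 3) (by omega) (by omega), gt_shift Z (m := 4) (by omega) (by omega),
        hZ 0 (by omega), hZ 1 (by omega), hZ 2 (by omega), hZ 3 (by omega), hZ 4 (by omega)] at h3
      refine pc_bad hψ _ u 4 _ (by omega) (by omega) (by omega) (fun s hs => ?_) h3
      rw [gt_shift Z (m := p - 1 - s) (by omega) (by omega), hZ _ (by omega)]
    · obtain ⟨k1, k2, k3⟩ := hg.resolve_left (by omega)
      refine pc_void _ u (by omega) (by omega) (g0 - 1) (by omega) fun h => ?_
      have h6 := (mem_cut.1 h).2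
      rw [fr_spec (L := L) 7 (tm u) (g0 - 1) (by omega),
        show p - 1 - (g0 - 1) = p - g0 by omega] at h6
      exact k3 h6
    · omega
  · have ha := hf.exact (l := l) (by omega)
    have hw : ∀ i < p, i < 9 → gt (win Z l) i = ψ (gd u (l + i)) := fun i h2 h3 => by
      rw [gt_win Z l h3, hZ _ (by omega)]
    have hc := cls_ok (a := fun i => gd u (l + i)) hψ hp hw
    rw [if_neg h1, erow_eq, am_ok (a := fun i => gd u (l + i)) hmk
      fun i hi => hw i (by omega) (by omega), hR]
    exact (pc_le_jc' hT hL (by omega) hv hp le_rfl hl.le hm ha hc hcap).trans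
      (tab_one hT hL ha hc.1 hc.2.1 (by omega) _)

theorem job_blind (hT : STab tv bb L N) (hL : ∀ t, (L t).card = 3) (hψ : Function.Injective ψ)
    {u : List ℕ} (hv : Valid L u) {Z g d : ℕ} (hcap : CapOK tv L cap (gd u)) (hd : 4 ≤ d)
    (hu : d + 1 ≤ u.length) (hZ : ∀ i ≤ d, gz Z i = ψ (gd u i)) (hg : GF L u g (d + 1))
    (S : Finset ℕ) (hS : ∀ p ∈ S, d + 2 ≤ p) :
    ∑ p ∈ S, pc (cut L N) (bet bb) cap p u p ≤ tv (5824 + 64 * cls (win Z 0) (d + 1) +
      min (d - 2 + (cf (ctx L (tm u)) - g)) 44) (tm u) := by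
  by_cases hf : Free u
  swap
  · rw [sum_eq_zero fun p hp => pc_not_free hf (by have := hS p hp; omega) _]; positivity
  have ha := hf.exact (l := 0) (by omega)
  have hw : ∀ i < d + 1, i < 9 → gt (win Z 0) i = ψ (gd u (0 + i)) := fun i h2 h3 => by
    rw [gt_win Z 0 h3, hZ _ (by omega)]
  have hc := cls_ok (a := fun i => gd u (0 + i)) hψ (by omega) hw
  have h1 := tab_all hT hL ha hc.1 hc.2.1 (d - 2 + (cf (ctx L (tm u)) - g)) (tm u)
    (S.filter fun p => 4 + (d - 2 + (cf (ctx L (tm u)) - g)) ≤ p) fun j hj => (mem_filter.1 hj).2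
  rw [iW_eq, show 5184 + 64 * (10 * 1 + cls (win Z 0) (d + 1)) = 5824 + 64 * cls (win Z 0) (d + 1)
    by omega, sum_filter] at h1
  refine le_trans (sum_le_sum fun p hp => ?_) h1
  have h2 := hS p hp
  split_ifs with h3
  · exact pc_le_jc' (l := 0) hT hL (by omega) hv (by omega) (by omega) (by omega) (by omega) ha hc
      (by simpa only [zero_add] using hcap)
  · rw [(ctx_facts hL _).2.2.1] at h3
    have h4 := fr_le (L := L) 7 (tm u)
    obtain ⟨k1, k2, k3⟩ := hg.resolve_left (by omega)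
    refine le_of_eq (pc_void _ u (by omega) le_rfl (p - d - 2 + g) (by omega) fun h => ?_)
    have h6 := (mem_cut.1 h).2
    rw [fr_spec (L := L) 7 (tm u) (p - d - 2 + g) (by omega),
      show p - 1 - (p - d - 2 + g) = d + 1 - g by omega] at h6
    exact k3 h6

end Pool.Agent.Work.MP_7cb3ca_co.C3
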