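import Mathlib.Tactic
import Mathlib.Data.Nat.Bitwise

/-! Numbers as vectors of digits: sums, differences, multiples and masks act on each digit. -/

namespace Pool.Agent.Work.MP_7cb3ca_co.C3

/-- Digit `i` of `X` in base `2 ^ w`. -/
def dg (w X i : ℕ) : ℕ := X / 2 ^ (w * i) % 2 ^ w

variable {w : ℕ}

lemma dg_zero (X : ℕ) : dg w X 0 = X % 2 ^ w := by simp [dg]

lemma dg_succ (X i : ℕ) : dg w X (i + 1) = dg w (X / 2 ^ w) i := by
  unfold dg; rw [Nat.div_div_eq_div_mul, ← pow_add, mul_add, mul_one, add_comm]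

lemma dg_lt (X i : ℕ) : dg w X i < 2 ^ w := Nat.mod_lt _ (by positivity)

lemma dg_split {a b : ℕ} (hb : b < 2 ^ w) :
    (2 ^ w * a + b) % 2 ^ w = b ∧ (2 ^ w * a + b) / 2 ^ w = a := by
  rw [Nat.mul_add_mod, Nat.mod_eq_of_lt hb, Nat.mul_add_div (by positivity), Nat.div_eq_of_lt hb]
  simp

lemma dg_add {X Y : ℕ} (h : ∀ i, dg w X i + dg w Y i < 2 ^ w) (i : ℕ) :
    dg w (X + Y) i = dg w X i + dg w Y i := by
  induction i generalizing X Y with
  | zero =>
    have h0 := h 0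
    simp only [dg_zero] at h0 ⊢
    rw [Nat.add_mod, Nat.mod_eq_of_lt h0]
  | succ i ih =>
    have h0 := h 0
    simp only [dg_zero] at h0
    have e : X + Y = 2 ^ w * (X / 2 ^ w + Y / 2 ^ w) + (X % 2 ^ w + Y % 2 ^ w) := by
      have := Nat.div_add_mod X (2 ^ w); have := Nat.div_add_mod Y (2 ^ w); rw [mul_add]; omega
    rw [dg_succ, e, (dg_split h0).2, ih fun j => by simpa only [dg_succ] using h (j + 1), dg_succ,
      dg_succ]

lemma dg_mul {b X : ℕ} (h : ∀ i, b * dg w X i < 2 ^ w) (i : ℕ) : dg w (b * X) i = b * dg w X i := by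
  induction i generalizing X with
  | zero =>
    have h0 := h 0
    simp only [dg_zero] at h0 ⊢
    rw [← Nat.mul_mod_mod, Nat.mod_eq_of_lt h0]
  | succ i ih =>
    have h0 := h 0
    simp only [dg_zero] at h0
    have e : b * X = 2 ^ w * (b * (X / 2 ^ w)) + b * (X % 2 ^ w) := by
      conv_lhs => rw [← Nat.div_add_mod X (2 ^ w)]
      ring
    rw [dg_succ, e, (dg_split h0).2, ih fun j => by simpa only [dg_succ] using h (j + 1), dg_succ]

lemma mod_le_of_dg {X Y : ℕ} (n : ℕ) (h : ∀ i, dg w Y i ≤ dg w X i) :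
    Y % 2 ^ (w * n) ≤ X % 2 ^ (w * n) := by
  induction n with
  | zero => simp [Nat.mod_one]
  | succ n ih =>
    rw [mul_add, mul_one, pow_add, Nat.mod_mul, Nat.mod_mul]
    exact add_le_add ih (Nat.mul_le_mul_left _ (h n))

lemma le_of_dg (hw : 0 < w) {X Y : ℕ} (h : ∀ i, dg w Y i ≤ dg w X i) : Y ≤ X := by
  have h1 := mod_le_of_dg Y h
  have h2 : Y < 2 ^ (w * Y) :=
    Nat.lt_two_pow_self.trans_le (Nat.pow_le_pow_right (by omega) (Nat.le_mul_of_pos_left _ hw))
  rw [Nat.mod_eq_of_lt h2] at h1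
  exact h1.trans (Nat.mod_le _ _)

lemma dg_sub (hw : 0 < w) {X Y : ℕ} (h : ∀ i, dg w Y i ≤ dg w X i) (i : ℕ) :
    dg w (X - Y) i = dg w X i - dg w Y i := by
  induction i generalizing X Y with
  | zero =>
    have h0 := h 0
    have h1 : Y / 2 ^ w ≤ X / 2 ^ w := le_of_dg hw fun j => by simpa only [dg_succ] using h (j + 1)
    simp only [dg_zero] at h0 ⊢
    have e : X - Y = 2 ^ w * (X / 2 ^ w - Y / 2 ^ w) + (X % 2 ^ w - Y % 2 ^ w) := by
      have := Nat.div_add_mod X (2 ^ w); have := Nat.div_add_mod Y (2 ^ w)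
      have := Nat.mul_le_mul_left (2 ^ w) h1
      rw [Nat.mul_sub]; omega
    have h2 : X % 2 ^ w < 2 ^ w := Nat.mod_lt _ (by positivity)
    rw [e, (dg_split (by omega)).1]
  | succ i ih =>
    have h0 := h 0
    have h1 : Y / 2 ^ w ≤ X / 2 ^ w := le_of_dg hw fun j => by simpa only [dg_succ] using h (j + 1)
    simp only [dg_zero] at h0
    have e : X - Y = 2 ^ w * (X / 2 ^ w - Y / 2 ^ w) + (X % 2 ^ w - Y % 2 ^ w) := by
      have := Nat.div_add_mod X (2 ^ w); have := Nat.div_add_mod Y (2 ^ w)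
      have := Nat.mul_le_mul_left (2 ^ w) h1
      rw [Nat.mul_sub]; omega
    have h2 : X % 2 ^ w < 2 ^ w := Nat.mod_lt _ (by positivity)
    rw [dg_succ, e, (dg_split (by omega)).2, ih fun j => by simpa only [dg_succ] using h (j + 1),
      dg_succ, dg_succ]

lemma dg_and (X Y i : ℕ) : dg w (X &&& Y) i = dg w X i &&& dg w Y i := by
  refine Nat.eq_of_testBit_eq fun j => ?_
  simp only [dg, Nat.testBit_mod_two_pow, Nat.testBit_div_two_pow, Nat.testBit_and]
  cases decide (j < w) <;> simp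

lemma dg_or (X Y i : ℕ) : dg w (X ||| Y) i = dg w X i ||| dg w Y i := by
  refine Nat.eq_of_testBit_eq fun j => ?_
  simp only [dg, Nat.testBit_mod_two_pow, Nat.testBit_div_two_pow, Nat.testBit_or]
  cases decide (j < w) <;> simp

lemma dg_big {X n i : ℕ} (h : X < 2 ^ (w * n)) (hi : n ≤ i) : dg w X i = 0 := by
  unfold dg
  rw [Nat.div_eq_of_lt (h.trans_le (Nat.pow_le_pow_right (by omega) (Nat.mul_le_mul_left _ hi)))]
  rfl

lemma dg_div (X n i : ℕ) : dg w (X / 2 ^ (w * n)) i = dg w X (n + i) := by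
  unfold dg; rw [Nat.div_div_eq_div_mul, ← pow_add, mul_add]

lemma dg_shl (X n i : ℕ) : dg w (X * 2 ^ (w * n)) i = if n ≤ i then dg w X (i - n) else 0 := by
  refine Nat.eq_of_testBit_eq fun j => ?_
  split_ifs with h
  · obtain ⟨k, rfl⟩ := Nat.exists_eq_add_of_le h
    simp only [dg, Nat.testBit_mod_two_pow, Nat.testBit_div_two_pow, Nat.testBit_mul_two_pow,
      add_tsub_cancel_left]
    rw [decide_eq_true (show w * n ≤ j + w * (n + k) by rw [mul_add]; omega),
      show j + w * (n + k) - w * n = j + w * k by rw [mul_add]; omega]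
    simp
  · simp only [dg, Nat.testBit_mod_two_pow, Nat.testBit_div_two_pow, Nat.testBit_mul_two_pow]
    by_cases h1 : j < w
    · have : w * (i + 1) ≤ w * n := Nat.mul_le_mul_left _ (by omega)
      rw [decide_eq_false (show ¬ w * n ≤ j + w * i by rw [mul_add] at this; omega)]
      simp
    · simp [h1]

lemma dg_mod (X n i : ℕ) : dg w (X % 2 ^ (w * n)) i = if i < n then dg w X i else 0 := by
  split_ifs with h
  · refine Nat.eq_of_testBit_eq fun j => ?_
    simp only [dg, Nat.testBit_mod_two_pow, Nat.testBit_div_two_pow]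
    by_cases h1 : j < w
    · have : w * (i + 1) ≤ w * n := Nat.mul_le_mul_left _ (by omega)
      rw [decide_eq_true (show j + w * i < w * n by rw [mul_add] at this; omega)]
      simp
    · simp [h1]
  · exact dg_big (Nat.mod_lt _ (by positivity)) (by omega)

lemma dg_single {v : ℕ} (hv : v < 2 ^ w) (n i : ℕ) :
    dg w (v * 2 ^ (w * n)) i = if i = n then v else 0 := by
  rw [dg_shl]
  by_cases h : i = n
  · simp [h, dg_zero, Nat.mod_eq_of_lt hv]
  · rw [if_neg h]
    split_ifs with h1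
    · exact dg_big (n := 1) (by simpa using hv) (by omega)
    · rfl

/-- The first `K` digits of `X` are `v`, the other digits are zero. -/
def Rep (K v X : ℕ) : Prop := ∀ i, dg 32 X i = if i < K then v else 0

lemma rep_of {K v X : ℕ} (h1 : X < 2 ^ (32 * K)) (h2 : ∀ i < K, dg 32 X i = v) : Rep K v X := by
  intro i
  split_ifs with h
  exacts [h2 i h, dg_big h1 (by omega)]

lemma dg_top (t i : ℕ) : dg 32 (t / 2 ^ 31) i &&& 1 = dg 32 t i / 2 ^ 31 := by
  rw [Nat.and_one_is_mod]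
  unfold dg
  rw [Nat.div_div_eq_div_mul, mul_comm (2 ^ 31), ← Nat.div_div_eq_div_mul]
  omega

variable {K : ℕ}

lemma dg_sat {one : ℕ} (h1 : Rep K 1 one) (t i : ℕ) :
    dg 32 (t &&& (t / 2 ^ 31 &&& one) * 16777215) i =
      if i < K ∧ 2 ^ 31 ≤ dg 32 t i then dg 32 t i % 2 ^ 24 else 0 := by
  have h2 : ∀ i, dg 32 (t / 2 ^ 31 &&& one) i = if i < K then dg 32 t i / 2 ^ 31 else 0 := by
    intro i
    rw [dg_and, h1]
    split_ifs
    exacts [dg_top t i, Nat.and_zero _]
  have h3 := dg_lt (w := 32) t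
  rw [dg_and, mul_comm, dg_mul fun j => by rw [h2]; have := h3 j; split_ifs <;> omega, h2]
  by_cases h : i < K ∧ 2 ^ 31 ≤ dg 32 t i
  · have := h3 i
    rw [if_pos h, if_pos h.1, show dg 32 t i / 2 ^ 31 = 1 by omega]
    exact Nat.and_two_pow_sub_one_eq_mod _ 24
  · rw [if_neg h]
    split_ifs with h4
    · rw [show dg 32 t i / 2 ^ 31 = 0 by omega]; simp
    · simp

lemma dg_cmp {G G1 s e : ℕ} (hG : Rep K (2 ^ 31) G)
    (hG1 : ∀ i, 1 ≤ i → i < K → dg 32 G1 i = 2 ^ 31) (hs : ∀ i, dg 32 s i < 2 ^ 31)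
    (he : ∀ i, dg 32 e i ≤ if i < K then 2 ^ 31 else 0) (h : (s + G - e) &&& G1 = G1) {i : ℕ}
    (h1 : 1 ≤ i) (h2 : i < K) : dg 32 e i ≤ dg 32 s i := by
  have h3 : ∀ i, dg 32 (s + G) i = dg 32 s i + if i < K then 2 ^ 31 else 0 := fun i => by
    rw [dg_add fun j => by rw [hG]; have := hs j; split_ifs <;> omega, hG]
  have h4 := congrArg (fun X => (dg 32 X i).testBit 31) h
  simp only [dg_and, hG1 i h1 h2, Nat.testBit_and, Nat.testBit_two_pow_self, Bool.and_true] at h4
  rw [dg_sub (by omega) fun j => by rw [h3]; have := he j; omega, h3, if_pos h2] at h4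
  have := Nat.ge_two_pow_of_testBit h4
  have := he i
  rw [if_pos h2] at this
  omega

end Pool.Agent.Work.MP_7cb3ca_co.C3
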