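import Pool.Agent.Work.MP_7cb3ca_co.C3.Pth

/-! The test for the edge and the options that the lists realise. -/

namespace Pool.Agent.Work.MP_7cb3ca_co.C3

open Finset P3

variable {P : Par} {L : ℕ → Finset ℕ} {w : List ℕ} {ψ : ℕ → ℕ} {r : ℕ → ℕ → ℕ} {d : ℕ} {X : Acc}

/-- The marks `mm` and the options `nm` are those that the lists realise. -/
structure Lf (L : ℕ → Finset ℕ) (w : List ℕ) (ψ : ℕ → ℕ) (d : ℕ) (X : Acc) (mm q : ℕ)
    (nm : List ℕ) : Prop where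
  ix : ∀ g, ∃ i, Ix L w ψ d X mm q nm g i
  mrk : ∀ b, (b ∈ L (tm w) ∨ ∃ i < d, gd w i = b) →
    mark2 mm (ψ b) = mk2 (L (tm w + 1)) (L (tm w + 1 + 1)) b
  len : s0 (ck (ctx L (tm w))) (gz X.W 1) ≤ nm.length

/-- The values of the letter with name `y` on the edge that the lists realise. -/
noncomputable def Par.lw (P : Par) (L : ℕ → Finset ℕ) (w : List ℕ) (d : ℕ) (X : Acc) (mm : ℕ)
    (nm : List ℕ) (y : ℕ) : ℕ :=
  P.lv (ctx L (tm w)) (ctx L (tm w + 1)) d X.w X.v X.W X.g y (opts mm nm .nil) nm.length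
    (nbk P.two nm.length) (32 * P.K * nm.length)
    (rpP (rp 32 P.K) (32 * P.K) (nbk P.two nm.length)) mm

/-- The left sides of the inequalities on the edge that the lists realise. -/
noncomputable def Par.nw (P : Par) (L : ℕ → Finset ℕ) (w : List ℕ) (d : ℕ) (X : Acc)
    (h em q m : ℕ) : ℕ :=
  P.nd (ctx L (tm w)) d h X.w X.W (P.bt (ctx L (tm w)) (ctx L (tm w + 1))) em
    m (nbk P.two m) (if q = 0 then 99 else s0 (ck (ctx L (tm w))) (gz X.W 1))

lemma Lf_beta (x : ℕ) {sel r : ℕ} (h : dg 16 sel r = 65535) : beta (x &&& sel) r = beta x r := by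
  have e : ∀ y, beta y r = dg 16 y r % 2 ^ 14 := fun y => by
    rw [dg, Nat.mod_mod_of_dvd _ (by norm_num), ← land_mask, ← shr]
    rfl
  rw [e, e, dg_and, h, show 65535 = 2 ^ 16 - 1 from rfl, Nat.and_two_pow_sub_one_eq_mod,
    Nat.mod_eq_of_lt (dg_lt x r)]

lemma Lf_vmk {VM : ℕ → ℕ} {K em j : ℕ} (h1 : Sm K em) (h2 : dg 32 em j = 2 ^ 24 - 1)
    (o : List ℕ) (h : ∀ a ∈ o, Full (VM (a - 6)) j) :
    Sm K (vmk VM em o) ∧ dg 32 (vmk VM em o) j = 2 ^ 24 - 1 := by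
  induction o with
  | nil => exact ⟨h1, h2⟩
  | cons a o ih =>
    obtain ⟨k1, k2⟩ := ih fun b hb => h b (List.mem_cons_of_mem _ hb)
    rw [vmk_cons, dg_and, k2, Nat.and_two_pow_sub_one_eq_mod, ← dig_dg]
    exact ⟨sm_and _ k1, h a List.mem_cons_self⟩

lemma Lf_src (hl : P.lf < P.K) {c : ℕ} (hc : ck c ≤ 3) (d h : ℕ) (v : PL) (W : ℕ) {m : ℕ}
    (hm : s0 (ck c) (gz W 1) ≤ m) (i : ℕ) : dg 32 (P.src c d h v W m) i < 2 ^ 16 := by
  refine lane_ind (K := P.K) (by omega) (p := fun i => dg 32 (P.src c d h v W m) i < 2 ^ 16)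
    (fun b j hj => ?_) i
  rw [src_spec hl hc d h v W hm b hj rfl]
  exact ite_lt (wq_lt ..)

lemma Lf_nd (P : Par) (c d h : ℕ) (v : PL) (W b em m nb fi : ℕ) : P.nd c d h v W b em m nb fi =
    b * (aln (P.src c d h v W m) (P.ma &&& rp 32 P.K * 16777215) (P.ms &&& rp 32 P.K * 16777215)
      (P.mj &&& rp 32 P.K * 16777215) (32 * P.K) nb &&& em * if P.two = true then
        keepV (32 * P.K) (s0 (ck c) (gz W 1) - 1) fi m nb else rp (32 * P.K) nb) := by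
  unfold Par.nd Par.src
  cases P.two <;> rfl

/-- The lanes of the left sides. -/
lemma Lf_dg (hl : P.lf < P.K) {c : ℕ} (hc : ck c ≤ 3) (d h : ℕ) (v : PL) (W : ℕ) {b m : ℕ}
    (hb : b < 2 ^ 14) (hm : s0 (ck c) (gz W 1) ≤ m) (em nb fi i : ℕ) : ∃ x y,
      x < (if i < P.K * nb then 2 ^ 16 else 1) ∧ x = dg 32 (aln (P.src c d h v W m)
        (P.ma &&& rp 32 P.K * 16777215) (P.ms &&& rp 32 P.K * 16777215)
        (P.mj &&& rp 32 P.K * 16777215) (32 * P.K) nb) i ∧ y = dg 32 (em * if P.two = true then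
          keepV (32 * P.K) (s0 (ck c) (gz W 1) - 1) fi m nb else rp (32 * P.K) nb) i ∧
      dg 32 (P.nd c d h v W b em m nb fi) i = b * (x &&& y) := by
  have h1 := aln_lt (by omega : 0 < P.K) P.ma P.ms P.mj nb (Lf_src hl hc d h v W hm)
  refine ⟨_, _, h1 i, rfl, rfl, ?_⟩
  rw [Lf_nd, dg_mul, dg_and]
  intro j
  rw [dg_and]
  have h2 : (if j < P.K * nb then 2 ^ 16 else 1) ≤ 2 ^ 16 := by split_ifs <;> norm_num
  exact (Nat.mul_lt_mul'' hb (Nat.and_le_left.trans_lt ((h1 j).trans_le h2))).trans (by norm_num)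

lemma Lf_le (hl : P.lf < P.K) {c : ℕ} (hc : ck c ≤ 3) (d h : ℕ) (v : PL) (W : ℕ) {b m : ℕ}
    (hb : b < 2 ^ 14) (hm : s0 (ck c) (gz W 1) ≤ m) (em nb fi i : ℕ) :
    dg 32 (P.nd c d h v W b em m nb fi) i ≤ if i < P.K * nb then 2 ^ 31 else 0 := by
  obtain ⟨x, y, h1, -, -, h2⟩ := Lf_dg hl hc d h v W hb hm em nb fi i
  have h3 : x &&& y ≤ x := Nat.and_le_left
  rw [h2]
  split_ifs at h1 ⊢
  · exact (Nat.mul_lt_mul'' hb (h3.trans_lt h1)).le.trans (by norm_num)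
  · rw [show x &&& y = 0 by omega, mul_zero]

/-- The left side in a lane of the mask `em`. -/
lemma St.nd (S : St L w ψ r d X) (hl : P.lf < P.K) {mm q : ℕ} {nm : List ℕ}
    (E : Lf L w ψ d X mm q nm) {g1 g2 i1 i2 : ℕ} (I1 : Ix L w ψ d X mm q nm g1 i1)
    (I2 : Ix L w ψ d X mm q nm g2 i2) (hg : P.two = true → g1 ≠ g2) {j i b em : ℕ}
    (hp : P.Pred j i) (hb : b < 2 ^ 14) (h1 : em < 2 ^ (32 * P.K)) (h2 : dg 32 em j = 2 ^ 24 - 1) :
    dg 32 (P.nd (ctx L (P3.tm w)) d (walk (P.TR (ctx L (P3.tm w))) (symL L w) d).h X.w X.W b em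
      nm.length (nbk P.two nm.length)
      (if q = 0 then 99 else s0 (ck (ctx L (P3.tm w))) (P3.gz X.W 1)))
      (P.K * bk P.two nm.length i1 i2 + j) = b * P.wt L w d g1 g2 i := by
  have hk := bk_lt P.two I1.lt I2.lt
  have hs := Lf_src hl S.k3 d (walk (P.TR (ctx L (P3.tm w))) (symL L w) d).h X.w X.W E.len
  obtain ⟨x, y, -, a1, a2, a3⟩ := Lf_dg hl S.k3 d (walk (P.TR (ctx L (P3.tm w))) (symL L w) d).h
    X.w X.W hb E.len em (nbk P.two nm.length)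
    (if q = 0 then 99 else s0 (ck (ctx L (P3.tm w))) (P3.gz X.W 1))
    (P.K * bk P.two nm.length i1 i2 + j)
  rw [aln_pred hp hk fun i => (hs i).trans (by norm_num)] at a1
  have a4 : y = 2 ^ 24 - 1 := by
    rw [a2, ← h2]
    by_cases t : P.two = true
    · rw [if_pos t, dg_keepV h1 _ _ _ _ _ hp.1, if_pos]
      refine ⟨hk, fun e => ?_⟩
      rw [bk_div t i2 I1.lt, bk_mod _ i2 I1.lt] at e
      rw [bk_mod _ i2 I1.lt]
      subst e
      rcases I1.one with k | k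
      · refine I2.one.resolve_left fun k' => hg t (S.N.inj (Option.some.inj (k.symm.trans k')))
      · exact k
    · rw [if_neg t]
      exact (dg_rpP h1 _ _ hp.1).trans (if_pos hk)
  rw [a3, a4, Nat.and_two_pow_sub_one_eq_mod, a1, Nat.mod_eq_of_lt ((hs _).trans (by norm_num)),
    src_spec hl S.k3 _ _ _ _ E.len _ hp.2.1 rfl, if_pos hk, wq_bk _ _ _ _ _ i2 I1.lt, I1.src, I2.src]
  rfl

theorem St.leaf (S : St L w ψ r d X) {F : ℕ → ℕ → ℕ → ℕ → ℕ → ℕ → ℕ → Bool} {sel l re h : ℕ}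
    (hS : stS F P (ctx L (P3.tm w)) sel l re d h X.w X.v X.W X.g X.C = true)
    (hsel : dg 16 sel (ctx L (P3.tm w + 1) % 10) = 65535)
    (hb : 1 ≤ P.bt (ctx L (P3.tm w)) (ctx L (P3.tm w + 1)))
    (hV : ∀ i, P3.tm w ≤ i → i < w.length → gd w i ∉ L (P3.tm w + 1 + 1)) {j : ℕ} (hj : j < P.K)
    (hM : ∀ i, 1 ≤ i → i ≤ 55 → i < P3.tm w → Full (P.VM i) j)
    (hre : dig re (32 * P.K * (ctx L (P3.tm w + 1) % 10) + 32 * j) = 2 ^ 24 - 1) :
    ∃ mm q nm em, Lf L w ψ d X mm q nm ∧ Sm P.K em ∧ dg 32 em j = 2 ^ 24 - 1 ∧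
      F (P.nw L w d X h em q nm.length)
      (rpP (rp 32 P.K) (32 * P.K) (nbk P.two nm.length))
      (32 * P.K * sy (ck (ctx L (P3.tm w))) (P3.gz X.W 1) + 32 * l)
      (if P.two = true then 32 * P.K * nm.length else 0)
      (P.lw L w d X mm nm 0) (P.lw L w d X mm nm 1) (P.lw L w d X mm nm 2) = true := by
  have h1 := (stS_spec hS).2 _ (ctx_next S.hL _) (by rw [Lf_beta _ hsel]; exact Nat.ne_of_gt hb)
  rw [Lf_beta _ hsel] at h1
  have c4 := (ctx_facts S.hL (P3.tm w + 1)).2.2.2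
  obtain ⟨mm, k1, k2, k3, k4⟩ := opt4_sound
    (Q := fun a => decide (a ∈ (L (P3.tm w + 1 + 1)).image ψ)) S.k3 h1
    (by rw [S.k, c4]; exact S.N.count_M (S.hL _) (S.hL _) _)
    (by rw [c4]; exact S.N.count_C (by rw [S.hL, S.hL]) S.A.c1 fun c hc => (S.A.c2 c hc).2)
    fun a ha => by have := (S.A.c2 a ha).1; have := S.d55; omega
  have hi := S.ix k2 k3 k4 rfl rfl
  obtain ⟨m1, m2⟩ := Lf_vmk (VM := P.VM) (j := j)
    (sm_blk re (32 * P.K * (ctx L (P3.tm w + 1) % 10)) (Y := P.m) sm_m)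
    (by rw [mul_assoc, Par.m, dg_blk24, if_pos hj, ← mul_assoc, hre])
    (newl (fun a => decide (a ∈ (L (P3.tm w + 1 + 1)).image ψ)) (P3.gz X.W 1) X.C [])
    fun a ha => by
      obtain ⟨a1, a2, a3, a4⟩ := ((mem_newl ..).1 ha).resolve_left List.not_mem_nil
      obtain ⟨i, b1, b2, b3⟩ := S.c4 a a1 a3
      have := S.d55
      have := S.hd
      rw [← b3, decide_eq_true_eq, S.N.inj.mem_finset_image] at a2
      rw [show a - 6 = i by omega]
      refine hM i (Nat.pos_of_ne_zero fun e => a4 ?_) (by omega)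
        (not_le.1 fun e => hV i e (by omega) a2)
      rw [S.y, ← b3, e]
  have k5 := leafA_spec ((leafC_spec k1).resolve_left fun e => by
    rw [e, Gat_zero] at m2
    omega)
  have hl := sn_len S.k3 (P3.gz X.W 1)
  generalize ck (ctx L (P3.tm w + 1)) - _ = q at hi k5
  generalize vmk _ _ _ = em at m1 m2 k5
  generalize newl _ _ _ _ = o at hi k5
  have hn : (nml (ck (ctx L (P3.tm w))) (P3.gz X.W 1) q o).length =
      s0 (ck (ctx L (P3.tm w))) (P3.gz X.W 1) + o.length + if q = 0 then 0 else 1 := by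
    rw [nml, List.length_append, List.length_cons]
    split_ifs
    · omega
    · rw [List.length_cons]
      omega
  refine ⟨mm, q, _, em, ⟨hi, fun b hb => ?_, by omega⟩, m1, m2, ?_⟩
  · have h2 := (S.N.mem (S.hL _) b).2.1
    rw [← S.k] at h2
    have h3 : ψ b ∈ lM (ck (ctx L (P3.tm w))) ∨ ψ b ∈ X.C := by
      by_cases h : b ∈ L (P3.tm w + 1)
      exacts [Or.inl (h2.1 h), Or.inr (S.A.c3 b h hb)]
    have h4 : ψ b < 62 := by
      rcases hb with k | ⟨i, k, rfl⟩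
      · have := (S.N.mem (S.hL _) b).1.1 k
        omega
      · exact S.lt k
    rw [k4 _ h4]
    simp only [h3, mk2, mb, h2, decide_eq_true_eq, S.N.inj.mem_finset_image, true_and]
  · unfold Par.nw Par.lw
    rw [hn]
    unfold nml
    split_ifs at k5 ⊢ with k a a
    all_goals
      rw [opts_append, leafB_eq _ _ _ _ _ _ _ _ _ _ _ _ _ (nb := nbk P.two _) rfl] at k5
      simp only [a, if_true, if_false, Bool.false_eq_true] at k5
      simp only [a]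
      exact k5

theorem St.nw_le (S : St L w ψ r d X) (hl : P.lf < P.K) (h : ℕ) {em : ℕ} (hem : Sm P.K em) (q : ℕ) {m : ℕ}
    (hm : s0 (ck (ctx L (P3.tm w))) (P3.gz X.W 1) ≤ m) (i : ℕ) :
    dg 32 (P.nw L w d X h em q m) i ≤ if i < P.K * nbk P.two m then 2 ^ 31 else 0 :=
  Lf_le hl S.k3 d h X.w X.W (bt_lt P _ _) hm _ _ _ i

theorem St.nw (S : St L w ψ r d X) (hl : P.lf < P.K) {mm q : ℕ} {nm : List ℕ}
    (E : Lf L w ψ d X mm q nm) {g1 g2 i1 i2 : ℕ} (I1 : Ix L w ψ d X mm q nm g1 i1)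
    (I2 : Ix L w ψ d X mm q nm g2 i2) (hg : P.two = true → g1 ≠ g2) {j i : ℕ} (hp : P.Pred j i)
    {em : ℕ} (hem : Sm P.K em) (he : dg 32 em j = 2 ^ 24 - 1) :
    dg 32 (P.nw L w d X (walk (P.TR (ctx L (P3.tm w))) (symL L w) d).h em q nm.length)
      (P.K * bk P.two nm.length i1 i2 + j) =
      P.bt (ctx L (P3.tm w)) (ctx L (P3.tm w + 1)) * P.wt L w d g1 g2 i :=
  S.nd hl E I1 I2 hg hp (bt_lt P _ _) hem.lt he

end Pool.Agent.Work.MP_7cb3ca_co.C3
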