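import Pool.Agent.Work.MP_7cb3ca_co.C3.Lf
import Pool.Agent.Work.MP_7cb3ca_co.C3.Chg

/-! The value that the checker gives to a letter is justified. -/

namespace Pool.Agent.Work.MP_7cb3ca_co.C3

open Finset P3

variable {P : Par} {L : ℕ → Finset ℕ} {w : List ℕ} {ψ : ℕ → ℕ} {r : ℕ → ℕ → ℕ} {d : ℕ} {X : Acc}

lemma valA_eq (V : ℕ → ℕ → ℕ) (Q : Pos) : valA V Q = V Q.h Q.d := by
  cases Q
  rfl

lemma valB_eq (V : ℕ → ℕ → ℕ) (Q : Pos) : valB V Q = if 5 ≤ Q.d then V Q.h Q.d else V 0 0 := by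
  cases Q with
  | mk h dt kid =>
    have : valB V (.mk h dt kid) = cnd (Nat.ble 5 dt) (V h dt) (V 0 0) := rfl
    rw [this, cnd_eq]
    simp only [Nat.ble_eq]
    rfl

lemma dg_gr (hl : P.lf < P.K) (j : ℕ) : dg 32 P.gr j =
    if j < P.K then 2 ^ 31 + if j = P.lf then P.tau % 2 ^ 16 else 0 else 0 := by
  have h1 : Rep P.K (2 ^ 31) (rp 32 P.K * 2 ^ 31) := Rep.mul (dg_rp (by omega) _) (by omega)
  have h0 : P.tau % 2 ^ 16 < 2 ^ 16 := Nat.mod_lt _ (by positivity)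
  have h2 := dg_single (w := 32) (v := P.tau % 2 ^ 16) (h0.trans (by norm_num)) P.lf
  rw [Par.gr, dg_add fun i => ?_, h1, h2]
  · split_ifs <;> omega
  · rw [h1, h2]
    generalize P.tau % 2 ^ 16 = t at h0
    split_ifs <;> omega

lemma bg_a {a b g : ℕ} (ha : a < 2 ^ 24) (hb : b < 2 ^ 24) (hg : g < 2 ^ 16) :
    a + b ≤ 2 ^ 31 + g ∧ 126 * 2 ^ 24 ≤ 2 ^ 31 + g - (a + b) ∧
      2 ^ 31 + g - (a + b) < 2 ^ 31 + 2 ^ 16 := by omega

lemma bg_spec {K A B G : ℕ} {g : ℕ → ℕ} (hA : Sm K A) (hB : Sm K B) (hg : ∀ j, g j < 2 ^ 16)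
    (hG : ∀ j, dg 32 G j = if j < K then 2 ^ 31 + g j else 0) (j : ℕ) :
    dg 32 (G - (A + B)) j = if j < K then 2 ^ 31 + g j - (dg 32 A j + dg 32 B j) else 0 := by
  have h1 := dg_add (w := 32) (X := A) (Y := B) fun i =>
    (add_lt_add (hA.dg_lt i) (hB.dg_lt i)).trans (by norm_num)
  rw [dg_sub (by omega) fun i => ?_, h1, hG]
  · split_ifs
    exacts [rfl, Nat.zero_sub _]
  · rw [h1, hG]
    split_ifs with h
    · exact (bg_a (hA.dg_lt i) (hB.dg_lt i) (hg i)).1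
    · rw [dg_big hA.lt (by omega), dg_big hB.lt (by omega)]

lemma ch_a {a b d : ℕ} (ha : a ≤ 57 * (2 ^ 24 - 1)) (hb : b ≤ d * (2 ^ 24 - 1)) (hd : d ≤ 56) :
    a + b ≤ 113 * 2 ^ 24 := by omega

lemma lv_num {K lf : ℕ} (hl : lf < K) {two : Bool} {D R LM MU : ℕ → ℕ}
    {mv hu ts r1 r2 r3 mk : ℕ} {w : PL} {v : QL} {W d T iy x : ℕ} {tr : Tr} {f sh s G t : ℕ}
    {oc : OL} {n nb mm : ℕ} {o c : EV} (h0 : evsM v R mk x = .mk o c) (h1 : evl o + evl c ≤ 57)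
    (hd : d ≤ 56) (hn : oc.len = n) (hnb : nb = if two = true then n * n else n) (hx : x < n)
    (hiy : iy < n) (hv : Sm K mv) {g : ℕ → ℕ} (hg : ∀ j, g j < 2 ^ 16)
    (hG : ∀ j, dg 32 G j = if j < K then 2 ^ 31 + g j else 0) (hs : sh = 32 * s) {Y : ℕ}
    (hY : Y = W + x * 2 ^ 24) {Q : Pos} (hQ : Q = posM w mm x tr) :
    ∃ h, (h = 0 ∨ h = Q.h ∧ (x = gt (win Y 0) 3 ∧ gt (win Y 0) 1 = gt (win Y 0) 4 → 5 ≤ Q.d)) ∧
      ∀ b, ∀ j < K, dg 32 (lv two D R LM MU (rp 32 K * 16777215) mv hu ts (32 * K)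
        (rp 32 K * 65535 - 65535 * 2 ^ (32 * lf)) r1 r2 r3 mk w v W d T iy x tr f sh G t oc n nb
        (32 * K * n) (rpP (rp 32 K) (32 * K) nb) mm) (K * b + j) =
      if b < nb then min (dig (R (iH mk (win Y 0 % 2 ^ 24))) (sh + 32 * j))
        ((if h = 0 then 0 else wq two K lf (D h) (oc.pos (tbx T x) (4 * Q.d + 76) (b % n))
          (oc.pos (tbx T x) (4 * Q.d + 76) (b / n)) j) +
        (2 ^ 31 + g j - (dg 32 (blk (R (5824 + 64 * cls (win Y 0) (d + 1) + t)) sh mv) j +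
          dig (R (6484 + zt 63 Y 0 (d + 1) r1)) (sh + 32 * j))) -
        (lab two (blk (R (6464 + zt x W 1 d r1)) sh mv) (blk r2 sh mv) (blk r3 sh mv) x iy n b j +
          if h = 0 then 0 else chg o c d Q.d f (sh + 32 * j) +
            dg 32 (chA (ancL R LM MU (rp 32 K * 16777215) hu r1 ts Y (d + 1) x d) Q.d sh) j) -
        2 ^ 31) else 0 := by
  subst hs
  have k1 := sm_blk (R (5824 + 64 * cls (win Y 0) (d + 1) + t)) (32 * s) hv
  have k2 := sm_blk (R (6484 + zt 63 Y 0 (d + 1) r1)) (32 * s) (sm_m (K := K))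
  have k3 := bg_spec k1 k2 hg hG
  have k4 := fun dt => dg_add (w := 32) (X := chV o c d dt f (32 * s) (rp 32 K * 16777215))
    (Y := chA (ancL R LM MU (rp 32 K * 16777215) hu r1 ts Y (d + 1) x d) dt (32 * s)) fun i => by
      rw [chV_spec h1]
      refine (ch_a ((chg_ite_le _ _).trans ((chg_le ..).trans (Nat.mul_le_mul_right _ h1)))
        ((chA_le _ _ _ _ _ _ _ _ _ _ _ _ hd i).trans (chg_ite_le _ _)) hd).trans_lt (by norm_num)
  have key := fun h dt b j hj => val0_spec (D := D) (d := d) (r2 := r2) (r3 := r3) (tb := tbx T x)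
    (f := f) (sh := 32 * s) hl hn hnb hx hiy
    (sm_blk (R (iH mk (win Y 0 % 2 ^ 24))) (32 * s) (sm_m (K := K)))
    (sm_blk (R (6464 + zt x W 1 d r1)) (32 * s) hv) hv
    (lt_of_dg (by omega) fun i hi => by rw [k3, if_neg (by omega)])
    (fun j hj => by
      rw [k3, if_pos hj]
      exact (bg_a (k1.dg_lt j) (k2.dg_lt j) (hg j)).2) h dt rfl
    (lt_of_dg (by omega) fun i hi => by
      rw [k4, chV_spec h1, if_neg (by omega), dg_big (chA_lt _ _ _ _ _ _ _ _ _ _ _ _ hd) hi])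
    (fun j hj => by
      rw [k4, chV_spec h1, if_pos hj]
      exact ch_a ((chg_le ..).trans (Nat.mul_le_mul_right _ h1))
        ((chA_le _ _ _ _ _ _ _ _ _ _ _ _ hd j).trans (chg_ite_le _ _)) hd) b (j := j) hj
  unfold lv
  rw [h0]
  simp only [← hY, ← hQ]
  by_cases k5 : (x = gt (win Y 0) 3 ∧ gt (win Y 0) 1 = gt (win Y 0) 4) ∧ ¬ 5 ≤ Q.d
  · refine ⟨0, Or.inl rfl, fun b j hj => ?_⟩
    rw [if_pos k5.1, valB_eq, if_neg k5.2, key _ _ _ _ hj, k3, if_pos hj, dg_blk24, dg_blk24,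
      if_pos hj, if_pos hj]
    simp only [if_true]
  · refine ⟨Q.h, Or.inr ⟨rfl, fun h => by_contra fun k => k5 ⟨h, k⟩⟩, fun b j hj => ?_⟩
    have : ∀ V, (if x = gt (win Y 0) 3 ∧ gt (win Y 0) 1 = gt (win Y 0) 4 then valB else valA) V Q =
        V Q.h Q.d := fun V => by
      split_ifs with h
      · rw [valB_eq, if_pos (by_contra fun k => k5 ⟨h, k⟩)]
      · exact valA_eq _ _
    rw [this, key _ _ _ _ hj, k3, if_pos hj, dg_blk24, dg_blk24, if_pos hj, if_pos hj, k4,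
      chV_spec h1, if_pos hj]

lemma s0_ge (k y : ℕ) : 4 ≤ s0 k y ∧ (y < 3 + k ∨ 5 < y → sy k y < s0 k y) := by
  unfold s0 sy
  split_ifs <;> omega

lemma St.sy_lt (S : St L w ψ r d X) :
    sy (ck (ctx L (P3.tm w))) (P3.gz X.W 1) < s0 (ck (ctx L (P3.tm w))) (P3.gz X.W 1) := by
  have := (names_mark S.N (S.hL _) (gd w 0)).2
  rw [S.y, S.k]
  exact (s0_ge _ _).2 (by omega)

lemma St.dead (P : Par) (mm : ℕ) (nm : List ℕ) {y : ℕ}
    (h : evsM X.v (P.RT (dec (ctx L (P3.tm w)))) (mM (ck (ctx L (P3.tm w)))) y = .dead) :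
    P.lw L w d X mm nm y = 0 := by
  unfold Par.lw Par.lv lv
  rw [h]

lemma St.num (S : St L w ψ r d X) (hl : P.lf < P.K) {mm q : ℕ} {nm : List ℕ}
    (E : Lf L w ψ d X mm q nm) {x : ℕ} (hx : ψ x < 3) {R : ℕ → ℕ}
    (hR : R = P.RT (dec (ctx L (P3.tm w)))) {o c : EV}
    (h0 : evsM X.v R (mM (ck (ctx L (P3.tm w)))) (ψ x) = .mk o c) {sh : ℕ}
    (hs : sh = 32 * P.K * (ctx L (P3.tm w + 1) % 10)) {Y : ℕ} (hY : Y = X.W + ψ x * 2 ^ 24) {Q : Pos}
    (hQ : Q = posM X.w mm (ψ x) (P.TR (ctx L (P3.tm w + 1)))) :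
    ∃ h, (h = 0 ∨ h = Q.h ∧ (ψ x = gt (win Y 0) 3 ∧ gt (win Y 0) 1 = gt (win Y 0) 4 → 5 ≤ Q.d)) ∧
      ∀ b, ∀ j < P.K, dg 32 (P.lw L w d X mm nm (ψ x)) (P.K * b + j) =
      if b < nbk P.two nm.length then
        min (dig (R (iH (mM (ck (ctx L (P3.tm w)))) (win Y 0 % 2 ^ 24))) (sh + 32 * j))
        ((if h = 0 then 0 else wq P.two P.K P.lf (P.D h)
          ((opts mm nm .nil).pos (tbx (fpS X.w X.W d) (ψ x)) (4 * Q.d + 76) (b % nm.length))
          ((opts mm nm .nil).pos (tbx (fpS X.w X.W d) (ψ x)) (4 * Q.d + 76) (b / nm.length)) j) +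
        (2 ^ 31 + (if j = P.lf then P.tau % 2 ^ 16 else 0) -
          (dg 32 (blk (R (5824 + 64 * cls (win Y 0) (d + 1) +
            min (d - 2 + (cf (ctx L (P3.tm w + 1)) - X.g)) 44)) sh (P.VM d &&& P.m)) j +
          dig (R (6484 + zt 63 Y 0 (d + 1) P.r1)) (sh + 32 * j))) -
        (lab P.two (blk (R (6464 + zt (ψ x) X.W 1 d P.r1)) sh (P.VM d &&& P.m))
          (blk (R 6473) sh (P.VM d &&& P.m))
          (blk (rowC P.two R P.r1 (P3.gz X.W 1) X.W d) sh (P.VM d &&& P.m)) (ψ x)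
          (sy (ck (ctx L (P3.tm w))) (P3.gz X.W 1)) nm.length b j +
          if h = 0 then 0 else chg o c d Q.d (cf (ctx L (P3.tm w + 1))) (sh + 32 * j) +
            dg 32 (chA (ancL R P.LM P.MU P.m (rpP P.m (32 * P.K) 10) P.r1 P.ts Y (d + 1) (ψ x) d)
              Q.d sh) j) - 2 ^ 31) else 0 := by
  have h1 := evsM_len (S.A.v x (by omega)) _ _ _ h0
  have h2 := S.d55
  have h3 := E.len
  have h4 := S.sy_lt
  have h5 := (s0_ge (ck (ctx L (P3.tm w))) (P3.gz X.W 1)).1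
  subst hR hs
  exact lv_num hl h0 (by omega) (by omega) (opts_len _ _) rfl (by omega) (by omega)
    (sm_and _ sm_m) (g := fun j => if j = P.lf then P.tau % 2 ^ 16 else 0)
    (fun j => ite_lt (Nat.mod_lt _ (by positivity))) (dg_gr hl) (mul_assoc _ _ _) hY hQ

lemma lw_a {c a g u v : ℕ} (ha : a < 2 ^ 16) (hg : g < 2 ^ 16) :
    min c (a + (2 ^ 31 + g - u) - v - 2 ^ 31) < 2 ^ 17 := by omega

theorem St.lw_lt (S : St L w ψ r d X) (hl : P.lf < P.K) {mm q : ℕ} {nm : List ℕ}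
    (E : Lf L w ψ d X mm q nm) {y : ℕ} (hy : y < 3) (i : ℕ) :
    dg 32 (P.lw L w d X mm nm y) i < if i < P.K * nbk P.two nm.length then 2 ^ 17 else 1 := by
  obtain ⟨x, -, rfl⟩ := mem_image.1 ((S.N.image_A (S.hL _)).symm ▸ mem_range.2 hy)
  cases h0 : evsM X.v (P.RT (dec (ctx L (P3.tm w)))) (mM (ck (ctx L (P3.tm w)))) (ψ x) with
  | dead =>
    rw [St.dead P mm nm h0, anc_dg0]
    split_ifs <;> norm_num
  | mk o c =>
    obtain ⟨h, -, h1⟩ := S.num hl E hy rfl h0 rfl rfl rfl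
    induction i using lane_ind (K := P.K) (by omega) with
    | h b j hj =>
      rw [h1 b j hj]
      simp only [lane_lt_iff hj]
      by_cases k : b < nbk P.two nm.length
      · rw [if_pos k, if_pos k]
        refine lw_a ?_ (ite_lt (Nat.mod_lt _ (by positivity)))
        split_ifs
        exacts [by positivity, wq_lt ..]
      · rw [if_neg k, if_neg k]
        exact Nat.one_pos

lemma fresh_le {tv : ℕ → ℕ → ℕ} {bb : ℕ → ℕ} {N : ℕ} {cap : List ℕ → ℝ} (hT : STab tv bb L N)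
    (hL : ∀ t, (L t).card = 3) (hψ : Function.Injective ψ) {u : List ℕ} (hv : Valid L u)
    {R : ℕ → ℕ} {mk sh : ℕ} {v : QL} {o c : EV} (hR : ∀ i, dig (R i) sh = tv i (tm u))
    (hcap : ∀ f, CapOK tv L cap f) (hmk : ∀ b, bit mk (ψ b) = mb (L (tm u)) b)
    (hu : d + 1 ≤ u.length) (hq : RepQ ψ u (GF L u) v d)
    (h0 : evsM v R mk (ψ (gd u 0)) = .mk o c) {bl : ℝ} (hb : ∀ S : Finset ℕ,
      (∀ p ∈ S, d + 2 ≤ p ∧ p ≤ u.length) → ∑ p ∈ S, pc (cut L N) (bet bb) cap p u p ≤ bl) :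
    (∀ p, Sq u p → d + 1 < 2 * p) ∧ ∀ dt, 4 ≤ dt → (gd u 0 = gd u 3 ∧ gd u 1 = gd u 4 → 5 ≤ dt) →
      ∑ p ∈ fresh u d dt, cost (cut L N) (bet bb) cap u p ≤
        bl + chg o c d dt (cf (ctx L (tm u))) sh := by
  obtain ⟨e1, e2⟩ := evs_charge (f := cf (ctx L (tm u))) (sh := sh)
    (B := fun p l => if 4 ≤ p ∧ 5 ≤ p + l then pc (cut L N) (bet bb) cap (p - l) u p else 0) hψ
    (fun Z g0 p l h1 h2 h3 h4 h5 => by
      simp only
      split_ifs with h6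
      · exact job_one hT hL hψ hv hR (hcap _) hmk h1 h2 h6.1 h6.2 h3
          (fun i hi => lm_match u p i (by omega)) h5
      · exact ch_nonneg _ _ _ _)
    (Or.inl le_rfl) (by simp) hq hu h0
  refine ⟨fun p hp => ?_, fun dt h3 h1 => ?_⟩
  · by_contra h3
    have := e1 p hp.1 (by omega)
    have := le_lm hp.1 (by have := hp.2.1; omega) hp.2.2
    omega
  · have h4 := e2 dt ((fresh u d dt).filter fun p => p + lm u p ≤ d + 1) fun p hp => by
      simp only [fresh, mem_filter, mem_Icc] at hp; omega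
    have h5 := hb ((fresh u d dt).filter fun p => ¬ p + lm u p ≤ d + 1) fun p hp => by
      simp only [fresh, mem_filter, mem_Icc] at hp; omega
    rw [sum_congr rfl (g := fun p => cost (cut L N) (bet bb) cap u p) fun p hp => by
      simp only [fresh, mem_filter, mem_Icc] at hp
      refine if_pos ⟨?_, by omega⟩
      by_contra h6
      have h7 : lm u p < p := by
        by_cases h8 : 2 * p ≤ d + 1
        exacts [e1 p hp.1.1.1 h8, by omega]
      obtain rfl : p = 3 := by omega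
      have := h1 ⟨lm_match u 3 0 (by omega), lm_match u 3 1 (by omega)⟩
      omega] at h4
    rw [sum_congr rfl (g := fun p => cost (cut L N) (bet bb) cap u p) fun p hp => by
      simp only [fresh, mem_filter, mem_Icc] at hp
      unfold cost
      rw [show lm u p = 0 by omega, tsub_zero]] at h5
    rw [← sum_filter_add_sum_filter_not _ fun p => p + lm u p ≤ d + 1]
    linarith

lemma zt_lane (H : TCert P) {c j : ℕ} (hc : c < 90) (hj : j < P.K) {z z' : ℕ} (h1 : z ≤ P.r1)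
    (h2 : z' = z ∨ z' = P.r1) : P.lane (6464 + z) c j ≤ P.lane (6464 + z') c j ∧
      P.lane (6474 + z) c j ≤ P.lane (6474 + z') c j ∧
      P.lane (6484 + z) c j ≤ P.lane (6484 + z') c j := by
  rcases h2 with rfl | rfl
  exacts [⟨le_rfl, le_rfl, le_rfl⟩, H.basic.2.2.2.2 c hc j hj z h1]

lemma St.lab (S : St L w ψ r d X) (H : TCert P) {j : ℕ} (hK : j < P.K) (hM : Full (P.VM d) j)
    {mm q : ℕ} {nm : List ℕ} {g1 g2 i1 i2 : ℕ} (I1 : Ix L w ψ d X mm q nm g1 i1)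
    (I2 : Ix L w ψ d X mm q nm g2 i2) {x : ℕ} (hx : x ∈ L (P3.tm w)) {R : ℕ → ℕ} {c : ℕ}
    (hc : c < 90) (hR : ∀ i, dig (R i) (32 * P.K * (c % 10) + 32 * j) = P.lane i c j) :
    P.ex1 c j w g1 g2 x ≤
      C3.lab P.two (blk (R (6464 + zt (ψ x) X.W 1 d P.r1)) (32 * P.K * (c % 10)) (P.VM d &&& P.m))
        (blk (R 6473) (32 * P.K * (c % 10)) (P.VM d &&& P.m))
        (blk (rowC P.two R P.r1 (P3.gz X.W 1) X.W d) (32 * P.K * (c % 10)) (P.VM d &&& P.m)) (ψ x)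
        (sy (ck (ctx L (P3.tm w))) (P3.gz X.W 1)) nm.length (bk P.two nm.length i1 i2) j := by
  have e := fun row => anc_blk hK hM row (c % 10)
  have h4 := S.d4
  unfold Par.ex1 C3.lab Par.m
  rw [e, e, e, hR, hR, bk_mod _ _ I1.lt]
  refine add_le_add ?_ ?_
  · simp only [I1.col x hx]
    split_ifs
    · exact (zt_lane H hc hK (zeta_le x w _) ((zt_spec S.N.inj (fun i hi => S.gz hi)
        (fun i _ => S.N.inj.eq_iff) _).imp id And.left)).1
    · exact le_rfl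
  · by_cases h : P.two = true ∧ x = g2
    swap
    · rw [if_neg h]
      exact Nat.zero_le _
    have h1 := (I2.col x hx).2 h.2
    rw [if_pos h, if_pos h.1, bk_div h.1 _ I1.lt, if_pos h1]
    refine add_le_add le_rfl ?_
    by_cases k : gd w 0 = g1
    swap
    · rw [if_neg k]
      exact Nat.zero_le _
    rw [if_pos k, if_pos (by rw [bk, if_pos h.1, h1, I1.last.2 k, mul_comm]), h.1,
      show ∀ y, rowC true R P.r1 y X.W d = R (6474 + zt y X.W 2 (d - 1) P.r1) from fun _ => rfl, hR,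
      S.y, k]
    refine (zt_lane H hc hK (zeta_le g1 w.tail _) ((zt_spec S.N.inj (fun i hi => ?_)
      (fun i _ => S.N.inj.eq_iff) _).imp id And.left)).2.1
    rw [show 2 + i = 1 + (i + 1) by omega, S.gz (by omega)]
    cases w <;> rfl

lemma fin_a {V c a g u v : ℕ} (h : V = min c (a + (2 ^ 31 + g - u) - v - 2 ^ 31)) (h0 : 0 < V)
    (hu : u ≤ 2 ^ 31) : V + u + v ≤ a + g := by omega

theorem St.val (S : St L w ψ r d X) (H : CertE P) {n s0 : ℕ} {a : ℕ → ℕ}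
    (HT : STab (P.tv L s0 a) (P.bb L) L n) (hv : Valid L w) (hV : Virt L n w)
    (h0 : s0 ≤ P3.tm w + 1) {j : ℕ} (hj : a (P3.tm w + 1) = j) (hK : j < P.K)
    (hM : Full (P.VM d) j ∨ P3.tm w ≤ d) {mm q : ℕ} {nm : List ℕ} (E : Lf L w ψ d X mm q nm)
    {g1 g2 i1 i2 : ℕ} (I1 : Ix L w ψ d X mm q nm g1 i1) (I2 : Ix L w ψ d X mm q nm g2 i2) {x : ℕ}
    (hx : x ∈ L (P3.tm w)) {V : ℕ}
    (hE : V = dg 32 (P.lw L w d X mm nm (ψ x)) (P.K * bk P.two nm.length i1 i2 + j)) :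
    (V : ℝ) ≤ P.cap L s0 a (x :: w) ∧ (0 < V → (∀ p, Sq (x :: w) p → d + 1 < 2 * p) ∧
      (j = P.lf → V + P.extra (ctx L (P3.tm w + 1)) j w d g1 g2 x ≤ P.tau % 65536) ∧
      (j ≠ P.lf → ∃ d' ≤ d + 1, Found (P.TR (ctx L (P3.tm w + 1))) (symL L (x :: w)) d' ∧
        (V : ℝ) ≤ P.wt L (x :: w) d' g1 g2 j - P.extra (ctx L (P3.tm w + 1)) j w d g1 g2 x -
          P.extra' (ctx L (P3.tm w + 1)) j (x :: w) d d' - ∑ p ∈ fresh (x :: w) d d',
            cost (cut L n) (bet (P.bb L)) (P.cap L s0 a) (x :: w) p ∧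
        (P3.tm w ≤ d → Full (P.LM (P3.tm w + 1)) j →
          ∀ p ∈ anc (x :: w), lm (x :: w) p ≤ P.mu (x :: w) p))) := by
  have hl := H.tab.basic.2.1
  have h4 := S.d4
  have h55 := S.d55
  have hd := S.hd
  have hL := S.hL
  have hx3 := (S.N.mem (hL _) x).1.1 hx
  have htm := S.tm x
  have hc := (ctx_facts hL (P3.tm w + 1)).1
  obtain ⟨R, hR⟩ : ∃ R, R = P.RT (dec (ctx L (P3.tm w))) := ⟨_, rfl⟩
  have hR1 : ∀ i, dig (R i) (32 * P.K * (ctx L (P3.tm w + 1) % 10) + 32 * j) =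
      P.lane i (ctx L (P3.tm w + 1)) j := fun i => by
    rw [hR, Par.lane, nxt_dec (ctx_facts hL _).1 (ctx_next hL _)]
  have hR2 : ∀ i, P.lane i (ctx L (P3.tm w + 1)) j = P.tv L s0 a i (P3.tm (x :: w)) := fun i => by
    rw [htm, Par.tv, if_pos h0, hj]
  have hcap : ∀ f, CapOK (P.tv L s0 a) L (P.cap L s0 a) f := fun f u hu => by
    unfold Par.cap hk pat4 amk
    rw [hu 0 (by omega), hu 1 (by omega), hu 2 (by omega), hu 3 (by omega)]
  have hmk : ∀ b, bit (mM (ck (ctx L (P3.tm w)))) (ψ b) = mb (L (P3.tm (x :: w))) b := fun b => by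
    rw [htm, names_mk hL S.N]
  cases k0 : evsM X.v R (mM (ck (ctx L (P3.tm w)))) (ψ x) with
  | dead =>
    rw [St.dead P mm nm (hR ▸ k0), anc_dg0] at hE
    subst hE
    exact ⟨by simpa using cap_nonneg P L s0 a _, fun h => absurd h (lt_irrefl _)⟩
  | mk o c =>
  obtain ⟨Y, hY⟩ : ∃ Y, Y = X.W + ψ x * 2 ^ 24 := ⟨_, rfl⟩
  have hZ : ∀ i ≤ d, P3.gz Y i = ψ (gd (x :: w) i) :=
    hY ▸ AccInv.gz hL S.N hd (by omega) (by omega) S.A.W
  obtain ⟨Q, hQ⟩ : ∃ Q, Q = walk (P.TR (ctx L (P3.tm w + 1))) (symL L (x :: w)) (d + 1) := ⟨_, rfl⟩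
  obtain ⟨h, k1, k2⟩ := S.num hl E hx3 hR k0 rfl hY (Q := Q) (by
    rw [hQ, symL, htm]
    exact (posM_walk S.N.inj _ (E.mrk x (Or.inl hx)) S.A.w' fun i hi =>
      E.mrk _ (Or.inr ⟨i, hi, rfl⟩)).symm)
  have hw : ∀ i < 5, gt (win Y 0) i = ψ (gd (x :: w) i) := fun i hi => by
    rw [gt_win Y 0 (by omega), zero_add, hZ i (by omega)]
  have hw' : ∀ i < 4, gt (win Y 0 % 2 ^ 24) i = ψ (gd (x :: w) i) := fun i hi => by
    rw [← hw i (by omega), gt_eq, gt_eq, mod_div_mod _ (by omega)]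
  rw [k2 _ j hK, if_pos (bk_lt _ I1.lt I2.lt), iH_eq, am_ok hmk hw', hw' 0 (by omega),
    hw' 1 (by omega), hw' 2 (by omega), hw' 3 (by omega), pat_map S.N.inj, hR1, hR1, hR2] at hE
  rw [hw 1 (by omega), hw 3 (by omega), hw 4 (by omega), S.N.inj.eq_iff, S.N.inj.eq_iff] at k1
  clear k2
  refine ⟨Nat.cast_le.2 (hE.trans_le (min_le_left _ _)), fun hV0 => ?_⟩
  have k3 := (sm_blk (R (5824 + 64 * cls (win Y 0) (d + 1) +
    min (d - 2 + (cf (ctx L (P3.tm w + 1)) - X.g)) 44)) (32 * P.K * (ctx L (P3.tm w + 1) % 10))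
    (sm_and (P.VM d) (sm_m (K := P.K)))).dg_lt j
  have k4 := fin_a hE hV0 ((add_lt_add k3 (lane_lt ..)).le.trans (by norm_num))
  clear hE
  obtain ⟨f1, f2⟩ := fresh_le (u := x :: w) HT hL S.N.inj (hv.cons hx) (fun i => (hR1 i).trans (hR2 i))
    hcap hmk (by simp; omega) (S.A.v x (by omega)) k0
    (bl := (dg 32 (blk (R (5824 + 64 * cls (win Y 0) (d + 1) +
      min (d - 2 + (cf (ctx L (P3.tm w + 1)) - X.g)) 44)) (32 * P.K * (ctx L (P3.tm w + 1) % 10))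
      (P.VM d &&& P.m)) j : ℕ)) fun T hT => by
    rcases hM with hM | hM
    · rw [Par.m, anc_blk hK hM, hR1, hR2, ← htm]
      exact job_blind HT hL S.N.inj (hv.cons hx) (hcap _) h4 (by simp; omega) hZ
        (GF.of (by omega) x S.A.g) T fun p hp => (hT p hp).1
    · rw [sum_eq_zero fun p hp => ?_]
      · positivity
      have h1 := hT p hp
      rw [List.length_cons] at h1
      refine pc_void _ _ (by simp; omega) le_rfl 0 (by omega) fun h2 => ?_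
      rw [tsub_zero, gd_cons (by omega), mem_cut] at h2
      exact hV _ (by omega) (by omega) _ (by omega) h2.2
  have k5 : P.extra (ctx L (P3.tm w + 1)) j w d g1 g2 x ≤
      P.lane (6484 + zt 63 Y 0 (d + 1) P.r1) (ctx L (P3.tm w + 1)) j + _ := add_le_add
    (zt_lane H.tab hc hK (zeta0_le (x :: w) _) (zt0_spec S.N.inj
      (fun i hi => by rw [zero_add, hZ i (by omega)]) (fun i hi => by
        cases i with
        | zero => rw [gd_zero]; omega
        | succ i => have := S.lt (i := i) (by omega); rw [gd_succ]; omega) _)).2.2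
    (by
      split_ifs with h1
      exacts [S.lab H.tab hK h1 I1 I2 hx hc hR1, Nat.zero_le _])
  refine ⟨f1, fun h1 => ?_, fun h1 => ?_⟩
  · rw [wq, if_neg fun h : j ≠ P.lf ∧ _ => h.1 h1, ite_self, if_pos h1] at k4
    omega
  rw [if_neg h1] at k4
  have k6 : h ≠ 0 := fun h2 => by
    rw [if_pos h2, if_pos h2] at k4
    omega
  obtain ⟨rfl, k7⟩ := k1.resolve_left k6
  rw [if_neg k6, if_neg k6] at k4
  obtain ⟨d', m1, m2, m3, m4, -⟩ := walk_found (P.TR (ctx L (P3.tm w + 1))) (symL L (x :: w)) (d + 1)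
  rw [← hQ] at m3 m4
  obtain ⟨m5, m6, m7, -⟩ := H.path (w := x :: w) hL (htm ▸ m2) (by rw [htm, ← m3]; exact k6)
    (r := 0) (by omega)
  rw [htm, ← m4] at m5
  rw [m5] at k4 k7
  rw [wq_bk _ _ _ _ (fun i => (opts mm nm .nil).pos (tbx (fpS X.w X.W d) (ψ x)) (4 * d' + 76) i) _
    I1.lt, I1.tgt x hx d' (by omega) m1, I2.tgt x hx d' (by omega) m1, m3, ← htm] at k4
  change _ ≤ P.wt L (x :: w) d' g1 g2 j + 0 at k4
  have k8 := wq_lt P.two P.K P.lf (P.D (walk (P.TR (ctx L (P3.tm (x :: w)))) (symL L (x :: w)) d').h)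
    (4 * code L (x :: w) d' g1 + 64) (4 * code L (x :: w) d' g2 + 64) j
  change P.wt L (x :: w) d' g1 g2 j < _ at k8
  have k9 := fun ht hF => chA_ge (P := P) S.N.inj R (u := x :: w) (dt := d')
    (r := ctx L (P3.tm (x :: w)) % 10) (by simp; omega) h55 hZ ht hK hF (Nat.mod_lt _ (by omega))
    (by omega) rfl
  have f3 := f2 d' m6 k7
  rw [← htm] at k5 hR1 f3 ⊢
  rw [gd_zero, ← Par.m] at k9
  generalize dg 32 (chA _ _ _) j = A at k4 k9
  have k10 : P3.tm (x :: w) ≤ d + 1 → Full (P.LM (P3.tm (x :: w))) j →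
      ∀ p ∈ anc (x :: w), lm (x :: w) p ≤ P.mu (x :: w) p := fun ht hF p hp => by
    by_contra h2
    have := (k9 ht hF).1 ⟨p, hp, by omega⟩
    omega
  have k11 : P.extra' (ctx L (P3.tm (x :: w))) j (x :: w) d d' ≤ A := by
    unfold Par.extra'
    split_ifs with h2
    · have := (k9 h2.1 h2.2.1).2 (k10 h2.1 h2.2.1) h2.2.2
      simpa only [hR1, Par.ex2] using this
    · exact Nat.zero_le _
  refine ⟨d', m1, htm ▸ m2, ?_, fun h2 => k10 (by omega)⟩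
  generalize dg 32 (blk _ _ _) j = B at k4 f3
  generalize chg _ _ _ _ _ _ = C at k4 f3
  have k12 : (V : ℝ) + P.extra (ctx L (P3.tm (x :: w))) j w d g1 g2 x +
      P.extra' (ctx L (P3.tm (x :: w))) j (x :: w) d d' + (B + C) ≤ P.wt L (x :: w) d' g1 g2 j := by
    exact_mod_cast (by omega)
  linarith

end Pool.Agent.Work.MP_7cb3ca_co.C3
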