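import Pool.Agent.Work.MP_7cb3ca_co.C3.Vec

/-! The checks of the tables give the inequalities along the lanes of a list assignment. -/

namespace Pool.Agent.Work.MP_7cb3ca_co.C3

open P3

variable {P : Par}

lemma nxt_dec {c c' : ℕ} (hc : c < 90) (h : c' ∈ nxt c) : c' / 10 = dec c := by
  have : ∀ c < 90, ∀ c' ∈ nxt c, c' / 10 = dec c := by decide +kernel
  exact this _ hc _ h

lemma lane_lt (P : Par) (row c j : ℕ) : P.lane row c j < 2 ^ 24 := by
  unfold Par.lane
  rw [dig_eq]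
  exact Nat.mod_lt _ (by positivity)

lemma beta_lt (br r : ℕ) : beta br r < 2 ^ 14 :=
  (Nat.and_le_right (n := Nat.shiftRight br (16 * r)) (m := 16383)).trans_lt (by omega)

lemma bt_lt (P : Par) (c c' : ℕ) : P.bt c c' < 2 ^ 14 := by
  exact beta_lt _ _

lemma lane_eq (P : Par) (row c j : ℕ) :
    P.lane row c j = dg 32 (P.RT (c / 10) row) (P.K * (c % 10) + j) % 2 ^ 24 := by
  rw [← dig_dg, mul_add, ← mul_assoc]
  rfl

lemma cst_one (v K : ℕ) : cst v K 1 = rp 32 K * v := by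
  have : rp (32 * K) 1 = 1 := by
    unfold rp
    rw [vec_succ]
    rfl
  change rp 32 K * rp (32 * K) 1 * v = _
  rw [this, mul_one]

lemma dg_cut {K : ℕ} (hK : 0 < K) (X i : ℕ) :
    dg 32 (X &&& cst 16777215 K 10) i = if i < K * 10 then dg 32 X i % 2 ^ 24 else 0 := by
  rw [dg_and, rep_cst hK (by omega)]
  split_ifs
  exacts [Nat.and_two_pow_sub_one_eq_mod _ 24, Nat.and_zero _]

lemma cut_le {K : ℕ} (hK : 0 < K) (X i : ℕ) :
    dg 32 (X &&& cst 16777215 K 10) i ≤ if i < K * 10 then 2 ^ 31 else 0 := by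
  rw [dg_cut hK]
  split_ifs
  exacts [(Nat.mod_lt _ (by positivity)).le.trans (by norm_num), le_rfl]

lemma cut_lt {K : ℕ} (hK : 0 < K) (X i : ℕ) : dg 32 (X &&& cst 16777215 K 10) i < 2 ^ 24 := by
  rw [dg_cut hK]
  split_ifs
  exacts [Nat.mod_lt _ (by positivity), by positivity]

lemma lane_idx {K j : ℕ} (hj : j < K) (c : ℕ) : K * (c % 10) + j < K * 10 :=
  (lane_lt_iff hj).2 (Nat.mod_lt _ (by omega))

lemma em_eq (P : Par) (c : ℕ) :
    emask P c = P.RT (dec c) (6496 + c) &&& cst 16777215 P.K 10 := rfl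

lemma em_big {c l : ℕ} (X : ℕ) (hl : P.K * 10 ≤ l) : dg 32 (X &&& emask P c) l = 0 := by
  rcases Nat.eq_zero_or_pos P.K with h | h
  · have : cst 16777215 P.K 10 = 0 := by rw [h]; rfl
    rw [em_eq, this, Nat.and_zero, Nat.and_zero]
    simp [dg]
  · rw [dg_and, em_eq, dg_cut h, if_neg (by omega), Nat.and_zero]

lemma em_lt (hK : 0 < P.K) (X c l : ℕ) : dg 32 (X &&& emask P c) l < 2 ^ 24 := by
  rw [dg_and]
  exact Nat.and_le_right.trans_lt (cut_lt hK _ _)

lemma em_dg {c c' j : ℕ} (hc : c' / 10 = dec c) (hj : j < P.K) :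
    dg 32 (emask P c) (P.K * (c' % 10) + j) = P.lane (6496 + c) c' j := by
  rw [em_eq, dg_cut (by omega), if_pos (lane_idx hj _), lane_eq, hc]

lemma em_lane (i : ℕ) {c c' j : ℕ} (hc : c' / 10 = dec c) (hj : j < P.K)
    (he : P.lane (6496 + c) c' j = 2 ^ 24 - 1) :
    dg 32 (P.RT (dec c) i &&& emask P c) (P.K * (c' % 10) + j) = P.lane i c' j := by
  rw [dg_and, em_dg hc hj, he, Nat.and_two_pow_sub_one_eq_mod, lane_eq, hc]

lemma em_ne {c c' j : ℕ} (hc : c' / 10 = dec c) (hj : j < P.K)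
    (he : P.lane (6496 + c) c' j = 2 ^ 24 - 1) : Nat.beq (emask P c) 0 ≠ true := by
  intro h
  have := em_dg (P := P) hc hj
  rw [Nat.eq_of_beq_eq_true h, he] at this
  simp [dg] at this

lemma dg_mul_vec' {K v n : ℕ} (hv : ∀ i, dg 32 v i < if i < K then 2 ^ 17 else 1) {f : ℕ → ℕ}
    (hf : ∀ b, f b < 2 ^ 14) (b : ℕ) {j : ℕ} (hj : j < K) :
    dg 32 (v * vec (32 * K) f n) (K * b + j) = if b < n then f b * dg 32 v j else 0 := by
  have h0 : ∀ i, dg 32 v i < 2 ^ 17 := fun i => (hv i).trans_le (by split_ifs <;> norm_num)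
  have h1 := dg_vec (w := 32 * K) (n := n) (f := f) fun i _ =>
    (hf i).trans_le (Nat.pow_le_pow_right (by omega) (by omega))
  have h2 := fun i => dg_mul (w := 32) (b := f i) (X := v) fun l =>
    (Nat.mul_lt_mul'' (hf i) (h0 l)).trans (by norm_num)
  rw [dg_blk _ _ hj, dg_mul fun i => ?_, h1]
  · split_ifs with h
    · rw [mul_comm, h2]
    · simp [dg]
  · rw [h1]
    split_ifs with h
    · refine lt_of_dg (by omega) fun l hl => ?_
      have := hv l
      rw [if_neg (by omega)] at this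
      rw [mul_comm, h2, Nat.lt_one_iff.1 this, mul_zero]
    · simp

lemma top_mask {a : ℕ} (h : a < 2 ^ 32) (h' : a &&& 4294705152 = 0) : a < 2 ^ 18 := by
  have h1 := congrArg (· / 2 ^ 18) h'
  simp only [Nat.and_div_two_pow] at h1
  have h2 : a / 2 ^ 18 &&& 4294705152 / 2 ^ 18 = a / 2 ^ 18 % 2 ^ 14 :=
    Nat.and_two_pow_sub_one_eq_mod _ 14
  omega

lemma stepV_spec {K x y : ℕ} (hK : 0 < K) (hx : ∀ i, K * 10 ≤ i → dg 32 x i = 0)
    (hy : ∀ i, dg 32 y i < 2 ^ 31) (h : stepV K x y = true) {i : ℕ} (hi : i < K * 10) :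
    4096 * dg 32 x i ≤ dg 32 y i := by
  have e : stepV K x y = bnd (Nat.beq (x &&& cst 4294705152 K 10) 0)
    (cmp y (Nat.shiftLeft x 12) (cst 2147483648 K 10)) := rfl
  rw [e, bnd_iff, shl, mul_comm] at h
  have h1 : ∀ i, dg 32 x i < if i < K * 10 then 2 ^ 18 else 1 := fun i => by
    split_ifs with k
    · refine top_mask (dg_lt _ _) ?_
      have := dg_and (w := 32) x (cst 4294705152 K 10) i
      rw [Nat.eq_of_beq_eq_true h.1, rep_cst hK (by omega), if_pos k] at this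
      rw [← this]
      simp [dg]
    · rw [hx i (by omega)]
      omega
  have h2 := dg_mul (w := 32) (b := 2 ^ 12) (X := x) fun i => by
    have := (h1 i).trans_le (show _ ≤ 2 ^ 18 by split_ifs <;> norm_num)
    generalize dg 32 x i = y at this
    omega
  have := cmp_spec (rep_cst hK (v := 2 ^ 31) (by omega) 10) hy (fun i => by
    have := h1 i
    rw [h2]
    generalize dg 32 x i = y at this
    split_ifs at this ⊢ <;> omega) h.2 hi
  rwa [h2] at this

lemma step_lane {i c j q x : ℕ} (hp : P.Pred j q) (hx : ∀ i, P.K * 10 ≤ i → dg 32 x i = 0)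
    (h : stepV P.K x (rhs P i c) = true) (c' : ℕ) :
    4096 * dg 32 x (P.K * (c' % 10) + j) ≤ P.bt c c' * P.lane i c q := by
  have hK : 0 < P.K := by have := hp.1; omega
  obtain ⟨Y, hY⟩ : ∃ Y, Y = blk (P.RT (c / 10) i) (32 * P.K * (c % 10)) (cst 131071 P.K 1) :=
    ⟨_, rfl⟩
  have e : rhs P i c = aln Y (P.ma &&& cst 16777215 P.K 1) (P.ms &&& cst 16777215 P.K 1)
    (P.mj &&& cst 16777215 P.K 1) (32 * P.K) 1 * vec (32 * P.K) (beta (P.RB c)) 10 := by
    rw [hY]
    rfl
  rw [cst_one] at e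
  have h1 : ∀ l, dg 32 Y l = if l < P.K * 1 then
      dg 32 (P.RT (c / 10) i) (P.K * (c % 10) + l) % 2 ^ 17 else 0 := fun l => by
    rw [hY, blk_eq, dg_and, rep_cst hK (by omega), mul_assoc, dg_div]
    split_ifs
    exacts [Nat.and_two_pow_sub_one_eq_mod _ 17, Nat.and_zero _]
  have h2 : ∀ l, dg 32 Y l < 2 ^ 17 := fun l => by
    rw [h1]
    split_ifs
    exacts [Nat.mod_lt _ (by positivity), by positivity]
  have h3 := aln_lt hK P.ma P.ms P.mj 1 h2
  rw [mul_one] at h3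
  have h4 := fun b j hj => dg_mul_vec' (n := 10) h3 (beta_lt (P.RB c)) b (j := j) hj
  have h5 := aln_pred (b := 0) (n := 1) hp (by omega) fun l => (h2 l).trans (by norm_num)
  have h6 := stepV_spec hK hx (lane_ind hK fun b j hj => by
    rw [e, h4 b j hj]
    split_ifs
    · have := h3 j
      rw [if_pos hj] at this
      exact (Nat.mul_lt_mul'' (beta_lt _ _) this).trans_le (by norm_num)
    · positivity) h (lane_idx hp.1 c')
  rw [mul_zero, zero_add, zero_add, h1, if_pos (by have := hp.2.1; omega)] at h5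
  rw [e, h4 _ _ hp.1, if_pos (Nat.mod_lt _ (by omega)), h5] at h6
  refine h6.trans (Nat.mul_le_mul_left _ ?_)
  rw [lane_eq, ← Nat.mod_mod_of_dvd _ (show 2 ^ 17 ∣ 2 ^ 24 by norm_num)]
  exact Nat.mod_le _ _

theorem stepR_spec {i' i c c' j q : ℕ} (h : stepR P i' i c = true) (hc : c' / 10 = dec c)
    (hp : P.Pred j q) (he : P.lane (6496 + c) c' j = 2 ^ 24 - 1) :
    4096 * P.lane i' c' j ≤ P.bt c c' * P.lane i c q := by
  have e : stepR P i' i c = stepV P.K (P.RT (dec c) i' &&& emask P c) (rhs P i c) := rfl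
  have := step_lane hp (fun l hl => em_big _ hl) (e ▸ h) c'
  rwa [em_lane i' hc hp.1 he] at this

theorem domR_spec {i i' c j : ℕ} (h : domR P (c / 10) i i' = true) (hj : j < P.K) :
    P.lane i c j ≤ P.lane i' c j := by
  have hK : 0 < P.K := by omega
  have := cmp_spec (rep_cst hK (v := 2 ^ 31) (by omega) 10)
    (fun l => (cut_lt hK _ l).trans (by norm_num)) (cut_le hK _) h (lane_idx hj c)
  rwa [dg_cut hK, dg_cut hK, if_pos (lane_idx hj c), if_pos (lane_idx hj c), ← lane_eq,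
    ← lane_eq] at this

/-- The check `convR` with another comparison. -/
noncomputable def convG (cm : ℕ → ℕ → ℕ → Bool) (P : Par) (e i : ℕ) : Bool :=
  (Nat.rec (motive := fun _ => Bool) false (fun X _ => (Bool.rec (motive := fun _ => Bool) (OL.rec (motive := fun _ => Bool) true (fun s M _ ih =>
      (Bool.rec (motive := fun _ => Bool) false ih (cm ((Nat.land (Nat.shiftRight X (Nat.land s (nat_lit 65535))) (cst (nat_lit 16777215) P.K (nat_lit 10))))
        ((Nat.land (Nat.shiftRight X (Nat.shiftRight s (nat_lit 16))) (rpP (Nat.land M (cst (nat_lit 16777215) P.K (nat_lit 1))) (Nat.mul (nat_lit 32) P.K) (nat_lit 10))))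
        (cst (nat_lit 2147483648) P.K (nat_lit 10))))) P.cv) true (Nat.beq X (nat_lit 0)))) (Nat.succ (P.RT e i)))

lemma convG_eq (cm : ℕ → ℕ → ℕ → Bool) (P : Par) (e i : ℕ) : convG cm P e i =
    bor (Nat.beq (P.RT e i) 0) (allO (fun s M =>
      cm (blk (P.RT e i) (Nat.land s 65535) (cst 16777215 P.K 10))
        (blk (P.RT e i) (Nat.shiftRight s 16) (rpP (M &&& cst 16777215 P.K 1) (32 * P.K) 10))
        (cst 2147483648 P.K 10)) P.cv) := rfl

theorem convR_spec {i c a q : ℕ} (h : convR P (c / 10) i = true) (hc : P.Conv a q) :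
    P.lane i c q ≤ P.lane i c a := by
  obtain ⟨a1, a2, l, M, a3, a4, a5, a6, a7⟩ := hc
  have hK : 0 < P.K := by omega
  have hl : l < P.K := by omega
  rw [show convR P (c / 10) i = convG cmp P (c / 10) i from rfl, convG_eq, bor_eq, cst_one] at h
  rw [lane_eq, lane_eq]
  split_ifs at h with h0
  · rw [Nat.eq_of_beq_eq_true h0]
    simp [dg]
  have a8 := allO_spec h a6
  simp only [(cv_split (q - l) a5).1, (cv_split (q - l) a5).2, blk_eq] at a8
  have := cmp_spec (rep_cst hK (v := 2 ^ 31) (by omega) 10)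
    (fun l => (cut_lt hK _ l).trans (by norm_num)) (lane_ind hK fun b j hj => by
      rw [dg_and, dg_rp24 _ _ _ hj]
      simp only [lane_lt_iff hj]
      refine Nat.and_le_right.trans ?_
      split_ifs
      · rw [dig_eq]; omega
      · rfl) a8 (lane_idx hl c)
  rwa [dg_and, dg_rp24 _ _ _ hl, if_pos (Nat.mod_lt _ (by omega)), a7, dg_cut hK,
    if_pos (lane_idx hl c), dg_div, dg_div, Nat.and_two_pow_sub_one_eq_mod,
    show a - l + (P.K * (c % 10) + l) = P.K * (c % 10) + a by omega,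
    show q - l + (P.K * (c % 10) + l) = P.K * (c % 10) + q by omega] at this

/-- The check `chkS3` with another comparison. -/
noncomputable def chkG (dm : Par → ℕ → ℕ → ℕ → Bool) (P : Par) : Bool :=
  (Bool.rec (motive := fun _ => Bool) false (allN (fun e => allN (fun z => (Bool.rec (motive := fun _ => Bool) false ((Bool.rec (motive := fun _ => Bool) false (dm P e (Nat.add (nat_lit 6484) z) (Nat.add (nat_lit 6484) P.r1)) (dm P e (Nat.add (nat_lit 6474) z) (Nat.add (nat_lit 6474) P.r1)))) (dm P e (Nat.add (nat_lit 6464) z) (Nat.add (nat_lit 6464) P.r1)))) P.r1) (nat_lit 9)) ((Bool.rec (motive := fun _ => Bool) false ((Bool.rec (motive := fun _ => Bool) false ((Bool.rec (motive := fun _ => Bool) false (Nat.blt P.lq P.K) (Nat.blt P.la P.K))) (Nat.blt P.lf P.K))) (Nat.beq (P.D (nat_lit 0)) (nat_lit 0)))))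

lemma chkG_eq (dm : Par → ℕ → ℕ → ℕ → Bool) (P : Par) : chkG dm P =
    bnd (bnd (Nat.beq (P.D 0) 0) (bnd (Nat.blt P.lf P.K)
      (bnd (Nat.blt P.la P.K) (Nat.blt P.lq P.K)))) (allN (fun e => allN (fun z =>
        bnd (dm P e (6464 + z) (6464 + P.r1)) (bnd (dm P e (6474 + z) (6474 + P.r1))
          (dm P e (6484 + z) (6484 + P.r1)))) P.r1) 9) := rfl

theorem TCert.basic (H : TCert P) : P.D 0 = 0 ∧ P.lf < P.K ∧ P.la < P.K ∧ P.lq < P.K ∧
    ∀ c < 90, ∀ j < P.K, ∀ z ≤ P.r1, P.lane (6464 + z) c j ≤ P.lane (6464 + P.r1) c j ∧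
      P.lane (6474 + z) c j ≤ P.lane (6474 + P.r1) c j ∧
      P.lane (6484 + z) c j ≤ P.lane (6484 + P.r1) c j := by
  have h := H.s
  rw [show chkS3 P = chkG domR P from rfl, chkG_eq] at h
  simp only [bnd_iff, allN_iff, Nat.beq_eq, Nat.blt_eq] at h
  refine ⟨h.1.1, h.1.2.1, h.1.2.2.1, h.1.2.2.2, fun c hc j hj z hz => ?_⟩
  rcases hz.eq_or_lt with rfl | hz
  · exact ⟨le_rfl, le_rfl, le_rfl⟩
  · have := h.2 (c / 10) (by omega) z hz
    exact ⟨domR_spec this.1 hj, domR_spec this.2.1 hj, domR_spec this.2.2 hj⟩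

lemma bor_iff (a b : Bool) : bor a b = true ↔ a = true ∨ b = true := by
  cases a <;> simp [bor]

lemma chkP3_spec {z cl A m : ℕ} (h : chkPs3 P z cl = true) (hA : A < 16)
    (hf : feas (cl / 3) A = true) (hm : m ∈ msk z) {c B c' j q : ℕ} (hc : c < 90) (hB : B < 16)
    (hk : compat (cl / 3) (ck c) A B = true) (hd : c' / 10 = dec c) (hp : P.Pred j q)
    (he : P.lane (6496 + c) c' j = 2 ^ 24 - 1) :
    4096 * (P.lane (iP z cl B (2 * ((m &&& rv4 A) % 8) + z)) c' j +
      if 8 ≤ m &&& rv4 A ∧ (cl % 3 = 0 ∨ c / 10 + 2 ≤ 3 * (cl % 3) + 3)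
        then P.lane (16 * (cl / 3) + B) c' j else 0) ≤ P.bt c c' * P.lane (iP z cl A m) c q := by
  have hK : 0 < P.K := by have := hp.1; omega
  have e0 : chkPs3 P z cl = allN (fun A => cnd (feas (cl / 3) A) (allL (chkP3 P z cl A)
    (cnd (Nat.beq z 0) [0, 1, 2, 4, 8] [1, 3, 5, 7, 9, 11, 13, 15])) true) 16 := rfl
  rw [e0, allN_iff] at h
  have h1 := h A hA
  simp only [cnd, brec, hf, Nat.beq_eq, allL_iff] at h1
  have h2 := h1 m hm
  have e : chkP3 P z cl A m = allN (fun c => bor (Nat.beq (emask P c) 0)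
      (allN (fun B => cnd (compat (cl / 3) (ck c) A B)
        (cnd (bnd (Nat.ble 8 (m &&& rv4 A)) (bor (Nat.beq (cl % 3) 0)
          (Nat.ble (c / 10 + 2) (3 * (cl % 3) + 3))))
        (stepV P.K ((P.RT (dec c) (iP z cl B (2 * ((m &&& rv4 A) % 8) + z)) &&& emask P c) +
          (P.RT (dec c) (16 * (cl / 3) + B) &&& emask P c)) (rhs P (iP z cl A m) c))
        (stepV P.K (P.RT (dec c) (iP z cl B (2 * ((m &&& rv4 A) % 8) + z)) &&& emask P c)
          (rhs P (iP z cl A m) c))) true) 16)) 90 := rfl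
  rw [e, allN_iff] at h2
  have h3 := (allN_iff _ _).1 (((bor_iff _ _).1 (h2 c hc)).resolve_left (em_ne hd hp.1 he)) B hB
  rw [cnd_eq, if_pos hk, cnd_eq] at h3
  simp only [bnd_iff, bor_iff, Nat.ble_eq, Nat.beq_eq] at h3
  split_ifs at h3 ⊢
  · have h4 := fun X Y => dg_add (w := 32) (X := X &&& emask P c) (Y := Y &&& emask P c) fun i =>
      (add_lt_add (em_lt hK X c i) (em_lt hK Y c i)).trans (by norm_num)
    have := step_lane hp (fun l hl => by rw [h4, em_big _ hl, em_big _ hl]) h3 c'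
    rwa [h4, em_lane _ hd hp.1 he, em_lane _ hd hp.1 he] at this
  · have := step_lane hp (fun l hl => em_big _ hl) h3 c'
    rwa [em_lane _ hd hp.1 he] at this

lemma chkW3_spec {z cl : ℕ} (h : chkW3 P z cl = true) :
    (∀ A < 16, feas (cl / 3) A = true → ∀ e < 9, domR P e (iP z cl A 1) (iW z cl 0) = true) ∧
    ∀ T < 45, ∀ c < 90, Nat.beq (emask P c) 0 = true ∨
      stepR P (iW z cl T) (iW z cl (T + 1)) c = true := by
  have e : chkW3 P z cl = bnd (allN (fun A => cnd (feas (cl / 3) A)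
      (allN (fun e => domR P e (iP z cl A 1) (iW z cl 0)) 9) true) 16)
      (allN (fun T => allN (fun c => bor (Nat.beq (emask P c) 0)
        (stepR P (iW z cl T) (iW z cl (T + 1)) c)) 90) 45) := rfl
  rw [e, bnd_iff] at h
  simp only [allN_iff, bor_iff] at h
  refine ⟨fun A hA hf => ?_, h.2⟩
  have := h.1 A hA
  rwa [cnd_eq, if_pos hf, allN_iff] at this

lemma TCert.conv (H : TCert P) {i c a q : ℕ} (hc : c < 90) (h1 : 64 ≤ i) (h2 : i < 6464)
    (k : P.Conv a q) : P.lane i c q ≤ P.lane i c a := by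
  have h : convR P (c / 10) (i - 64 + 64) = true :=
    (allN_iff _ _).1 (H.d (c / 10) (by omega)) (i - 64)
      (show i - 64 < 6400 by omega)
  rw [Nat.sub_add_cancel h1] at h
  exact convR_spec h k

theorem TCert.stab (H : TCert P) {L : ℕ → Finset ℕ} (hL : ∀ t, (L t).card = 3) {n s0 : ℕ}
    {a q : ℕ → ℕ} (HL : Lanes P L n s0 a q) : STab (P.tv L s0 a) (P.bb L) L n := by
  have hb : ∀ s, 1 ≤ P.bb L s := fun s => le_max_left _ _
  have early : ∀ s < s0, ∀ i i' i'' (c : Prop) [Decidable c],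
      4096 * (P.tv L s0 a i' (s + 1) + if c then P.tv L s0 a i'' (s + 1) else 0) ≤
        P.bb L s * P.tv L s0 a i s := fun s hs i i' i'' c _ => by
    have h1 : ∀ i, P.tv L s0 a i (s + 1) ≤ 2 ^ 24 * 8192 ^ (s0 - (s + 1)) := fun i => by
      unfold Par.tv
      split_ifs
      · exact (lane_lt P _ _ _).le.trans (Nat.le_mul_of_pos_right _ (by positivity))
      · rfl
    have h2 : P.tv L s0 a i s = 8192 * (2 ^ 24 * 8192 ^ (s0 - (s + 1))) := by
      unfold Par.tv
      rw [if_neg (by omega), show s0 - s = s0 - (s + 1) + 1 by omega, pow_succ]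
      ring
    refine le_trans ?_ (Nat.le_mul_of_pos_left _ (hb s))
    have h3 := h1 i'
    have h4 := h1 i''
    rw [h2]
    generalize 2 ^ 24 * 8192 ^ (s0 - (s + 1)) = y at h3 h4
    split_ifs <;> omega
  have late : ∀ s, s0 ≤ s → s < n → ∀ i, 64 ≤ i ∧ i < 6464 →
      P.bt (ctx L s) (ctx L (s + 1)) * P.lane i (ctx L s) (q s) ≤ P.bb L s * P.tv L s0 a i s := by
    intro s h1 h2 i hi
    refine Nat.mul_le_mul (le_max_right _ _) ?_
    unfold Par.tv
    rw [if_pos h1]
    rcases HL.conv s h1 h2 with k | k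
    · rw [k]
    · exact H.conv (ctx_facts hL s).1 hi.1 hi.2 k
  have tv' : ∀ s, s0 ≤ s → ∀ i, P.tv L s0 a i (s + 1) = P.lane i (ctx L (s + 1)) (a (s + 1)) :=
    fun s hs i => if_pos (by omega)
  have hd := fun s => nxt_dec (ctx_facts hL s).1 (ctx_next hL s)
  refine ⟨hb, fun s hs z hz cl hc A hA hf m hm B hB hk => ?_, fun s z hz cl hc A hA hf => ?_,
    fun s hs z hz cl hc T hT => ?_⟩
  · rcases Nat.lt_or_ge s s0 with h1 | h1
    · exact early s h1 _ _ _ _
    · rw [tv' s h1, tv' s h1]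
      refine (chkP3_spec (H.p z hz cl hc) hA hf hm (ctx_facts hL s).1 hB hk (hd s)
        (HL.pred s h1 hs) (HL.edge s h1 hs).2).trans (late s h1 hs _ ?_)
      have : m < 16 := by
        unfold msk at hm
        split_ifs at hm <;> simp at hm <;> omega
      rw [iP_eq]
      omega
  · unfold Par.tv
    split_ifs
    · exact domR_spec ((chkW3_spec (H.w z hz cl hc)).1 A hA hf _
        (by have := (ctx_facts hL s).1; omega)) (HL.lt s)
    · rfl
  · rcases Nat.lt_or_ge s s0 with h1 | h1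
    · simpa using early s h1 (iW z cl (T + 1)) (iW z cl T) 0 False
    · rw [tv' s h1]
      refine (stepR_spec (((chkW3_spec (H.w z hz cl hc)).2 T hT _ (ctx_facts hL s).1).resolve_left
        (em_ne (hd s) (HL.lt _) (HL.edge s h1 hs).2)) (hd s) (HL.pred s h1 hs)
        (HL.edge s h1 hs).2).trans (late s h1 hs _ ?_)
      rw [iW_eq]
      omega

end Pool.Agent.Work.MP_7cb3ca_co.C3
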