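import Pool.Agent.Work.MP_7cb3ca_co.C3.Gat

/-! The value of an arrival, lane by lane. -/

namespace Pool.Agent.Work.MP_7cb3ca_co.C3

open P3

variable {K : ℕ}

/-- A block with lanes of 24 bits. -/
def Sm (K X : ℕ) : Prop := ∀ i, dg 32 X i < if i < K then 2 ^ 24 else 1

lemma Sm.lt {X : ℕ} (h : Sm K X) : X < 2 ^ (32 * K) := lt_of_dg (by omega) fun i hi => by
  have := h i
  rwa [if_neg (by omega), Nat.lt_one_iff] at this

lemma Sm.dg_lt {X : ℕ} (h : Sm K X) (i : ℕ) : dg 32 X i < 2 ^ 24 :=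
  (h i).trans_le (by split_ifs <;> norm_num)

lemma sm_and (X : ℕ) {Y : ℕ} (h : Sm K Y) : Sm K (X &&& Y) := fun i => by
  rw [dg_and]
  exact Nat.and_le_right.trans_lt (h i)

lemma sm_m : Sm K (rp 32 K * 16777215) := fun i => by
  rw [rep24]
  split_ifs <;> norm_num

lemma sm_blk (X s : ℕ) {Y : ℕ} (h : Sm K Y) : Sm K (blk X s Y) := by
  rw [blk_eq]
  exact sm_and _ h

lemma dg_blkM (X s M : ℕ) {j : ℕ} (hj : j < K) :
    dg 32 (blk X (32 * s) (M &&& rp 32 K * 16777215)) j =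
      dig X (32 * s + 32 * j) &&& dig M (32 * j) := by
  have h : ∀ x : ℕ, x &&& 16777215 = x % 2 ^ 24 := fun x => Nat.and_two_pow_sub_one_eq_mod x 24
  rw [blk_eq, dg_and, dg_and, dg_div, rep24, if_pos hj, ← mul_add, dig_dg, dig_dg, ← h, ← h,
    Nat.and_assoc, Nat.and_comm 16777215, Nat.and_assoc, Nat.and_self]

lemma dg_put {v : ℕ} (hv : v < 2 ^ (32 * K)) (q b : ℕ) {j : ℕ} (hj : j < K) :
    dg 32 (v * 2 ^ (32 * K * q)) (K * b + j) = if b = q then dg 32 v j else 0 := by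
  rw [dg_blk _ _ hj, dg_single hv]
  split_ifs
  · rfl
  · simp [dg]

lemma dg_colV {v : ℕ} (hv : v < 2 ^ (32 * K)) (x n nb b : ℕ) {j : ℕ} (hj : j < K) :
    dg 32 (v * colV (32 * K) x n nb) (K * b + j) =
      if b < nb ∧ b % n = x then dg 32 v j else 0 := by
  have := dg_mul_vec (n := nb) hv (f := fun b => cnd (Nat.beq (b % n) x) 1 0)
    (fun b _ => by rw [cnd_eq]; split_ifs <;> omega) b hj
  refine this.trans ?_
  simp only [cnd_eq, Nat.beq_eq]
  by_cases h1 : b < nb <;> by_cases h2 : b % n = x <;> simp [h1, h2]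

lemma dg_linV {v : ℕ} (hv : v < 2 ^ (32 * K)) (x n nb b : ℕ) {j : ℕ} (hj : j < K) :
    dg 32 (v * linV (32 * K) x n nb) (K * b + j) =
      if b < nb ∧ b / n = x then dg 32 v j else 0 := by
  have := dg_mul_vec (n := nb) hv (f := fun b => cnd (Nat.beq (b / n) x) 1 0)
    (fun b _ => by rw [cnd_eq]; split_ifs <;> omega) b hj
  refine this.trans ?_
  simp only [cnd_eq, Nat.beq_eq]
  by_cases h1 : b < nb <;> by_cases h2 : b / n = x <;> simp [h1, h2]

lemma dg_keepV {v : ℕ} (hv : v < 2 ^ (32 * K)) (x y n nb b : ℕ) {j : ℕ} (hj : j < K) :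
    dg 32 (v * keepV (32 * K) x y n nb) (K * b + j) =
      if b < nb ∧ (b / n = b % n → b % n = x ∨ b % n = y) then dg 32 v j else 0 := by
  have := dg_mul_vec (n := nb) hv (f := fun b => cnd (Nat.beq (b / n) (b % n))
    (cnd (bor (Nat.beq (b % n) x) (Nat.beq (b % n) y)) 1 0) 1)
    (fun b _ => by simp only [cnd_eq]; split_ifs <;> omega) b hj
  refine this.trans ?_
  have e : ∀ p q : Bool, bor p q = true ↔ p = true ∨ q = true := by
    intro p q; cases p <;> simp [bor]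
  simp only [cnd_eq, e, Nat.beq_eq]
  by_cases h1 : b < nb <;> by_cases h2 : b / n = b % n <;> by_cases h3 : b % n = x ∨ b % n = y <;>
    simp [h1, h2, h3]

/-- The charges that depend on the labels, in block `b` and lane `j`. -/
def lab (two : Bool) (s1 s2 s3 x iy n b j : ℕ) : ℕ :=
  (if b % n = x then dg 32 s1 j else 0) + if two = true then
    (if b / n = x then dg 32 s2 j else 0) + (if b = x * n + iy then dg 32 s3 j else 0) else 0

lemma ite_lt {c : Prop} [Decidable c] {a e : ℕ} (h : a < 2 ^ e) : (if c then a else 0) < 2 ^ e := by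
  split_ifs
  exacts [h, by positivity]

lemma lab_lt {two : Bool} {s1 s2 s3 : ℕ} (h1 : Sm K s1) (h2 : Sm K s2) (h3 : Sm K s3)
    (x iy n b j : ℕ) : lab two s1 s2 s3 x iy n b j < 3 * 2 ^ 24 := by
  have a1 := ite_lt (c := b % n = x) (h1.dg_lt j)
  have a2 := ite_lt (c := b / n = x) (h2.dg_lt j)
  have a3 := ite_lt (c := b = x * n + iy) (h3.dg_lt j)
  unfold lab
  generalize (if b % n = x then dg 32 s1 j else 0) = y1 at a1 ⊢
  generalize (if b / n = x then dg 32 s2 j else 0) = y2 at a2 ⊢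
  generalize (if b = x * n + iy then dg 32 s3 j else 0) = y3 at a3 ⊢
  split_ifs <;> omega

lemma bgP_spec (hK : 0 < K) {two : Bool} {bg s1 r2 r3 sh mv x iy n nb : ℕ}
    (hnb : nb = if two = true then n * n else n) (hx : x < n) (hiy : iy < n) (hs : Sm K s1)
    (hv : Sm K mv) (h1 : bg < 2 ^ (32 * K)) (h2 : ∀ j < K, 3 * 2 ^ 24 ≤ dg 32 bg j) (b : ℕ) {j : ℕ}
    (hj : j < K) : dg 32 (bgP two bg s1 r2 r3 sh mv (32 * K) x iy n nb) (K * b + j) =
      if b < nb then dg 32 bg j - lab two s1 (blk r2 sh mv) (blk r3 sh mv) x iy n b j else 0 := by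
  have k2 := sm_blk r2 sh hv
  have k3 := sm_blk r3 sh hv
  obtain ⟨Y, hY, hY'⟩ : ∃ Y, bgP two bg s1 r2 r3 sh mv (32 * K) x iy n nb =
      rpP bg (32 * K) nb - Y ∧ ∀ b, ∀ j < K, dg 32 Y (K * b + j) =
        if b < nb then lab two s1 (blk r2 sh mv) (blk r3 sh mv) x iy n b j else 0 := by
    cases two with
    | false =>
      refine ⟨s1 * colV (32 * K) x n nb + 0, rfl, fun b j hj => ?_⟩
      rw [add_zero, dg_colV hs.lt _ _ _ _ hj, lab]
      by_cases a1 : b < nb <;> simp [a1]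
    | true =>
      refine ⟨s1 * colV (32 * K) x n nb + (blk r2 sh mv * linV (32 * K) x n nb +
        Nat.shiftLeft (blk r3 sh mv) (32 * K * (x * n + iy))), rfl, ?_⟩
      have a0 : x * n + iy < nb := by
        have := Nat.mul_le_mul_right n (Nat.succ_le_of_lt hx)
        rw [Nat.succ_mul] at this
        rw [hnb, if_pos rfl]
        omega
      have a1 := dg_add (w := 32) (X := blk r2 sh mv * linV (32 * K) x n nb)
        (Y := blk r3 sh mv * 2 ^ (32 * K * (x * n + iy))) (lane_ind hK fun b j hj => by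
          rw [dg_linV k2.lt _ _ _ _ hj, dg_put k3.lt _ _ hj]
          exact (add_lt_add (ite_lt (k2.dg_lt j)) (ite_lt (k3.dg_lt j))).trans (by norm_num))
      intro b j hj
      rw [shl, dg_add (lane_ind hK fun b j hj => by
        rw [a1, dg_colV hs.lt _ _ _ _ hj, dg_linV k2.lt _ _ _ _ hj, dg_put k3.lt _ _ hj]
        exact (add_lt_add (ite_lt (hs.dg_lt j)) (add_lt_add (ite_lt (k2.dg_lt j))
          (ite_lt (k3.dg_lt j)))).trans (by norm_num)), a1, dg_colV hs.lt _ _ _ _ hj,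
        dg_linV k2.lt _ _ _ _ hj, dg_put k3.lt _ _ hj, lab]
      by_cases a2 : b < nb
      · simp [a2]
      · simp [a2, show b ≠ x * n + iy by omega]
  rw [hY, dg_sub (by omega) (lane_ind hK fun b j hj => ?_), dg_rpP h1 _ _ hj, hY' b j hj]
  · split_ifs <;> rfl
  · rw [dg_rpP h1 _ _ hj, hY' b j hj]
    split_ifs
    exacts [(lab_lt hs k2 k3 ..).le.trans (h2 j hj), le_rfl]

lemma clipP_spec (hK : 0 < K) {cap t nb : ℕ} (hc : Sm K cap)
    (ht : ∀ b < nb, ∀ j < K, dg 32 t (K * b + j) < 2 ^ 31 + 2 ^ 24) (b : ℕ) {j : ℕ} (hj : j < K) :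
    dg 32 (clip (rpP cap (32 * K) nb) (cgP cap (32 * K) nb (rpP (rp 32 K) (32 * K) nb))
      (rpP (rp 32 K) (32 * K) nb) t) (K * b + j) =
      if b < nb then min (dg 32 cap j) (dg 32 t (K * b + j) - 2 ^ 31) else 0 := by
  have e : cgP cap (32 * K) nb (rpP (rp 32 K) (32 * K) nb) =
      rpP cap (32 * K) nb + rpP (rp 32 K) (32 * K) nb * 2 ^ 31 := by
    rw [← shl]
    rfl
  rw [e, clip_spec (rep_on hK nb) (lane_ind hK fun b j hj => ?_) (lane_ind hK fun b j hj h =>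
    ht b ((lane_lt_iff hj).1 h) j hj), dg_rpP hc.lt _ _ hj]
  · simp only [lane_lt_iff hj]
    split_ifs <;> rfl
  · rw [dg_rpP hc.lt _ _ hj]
    simp only [lane_lt_iff hj]
    split_ifs
    exacts [hc.dg_lt j, Nat.one_pos]

lemma wq_lt (two : Bool) (K lf H q1 q2 j : ℕ) : wq two K lf H q1 q2 j < 2 ^ 16 :=
  ite_lt (Nat.mod_lt _ (by positivity))

lemma val_a {g x l c : ℕ} (h1 : g < 2 ^ 16) (h2 : x < 2 ^ 31 + 2 ^ 16) :
    g + (x - l) - c < 2 ^ 31 + 2 ^ 24 := by omega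

lemma val_b {g x l : ℕ} (h1 : g < 2 ^ 16) (h2 : x < 2 ^ 31 + 2 ^ 16) : g + (x - l) < 2 ^ 32 := by
  omega

lemma val_c {g x l c : ℕ} (h1 : 126 * 2 ^ 24 ≤ x) (h2 : l < 3 * 2 ^ 24) (h3 : c ≤ 113 * 2 ^ 24) :
    c ≤ g + (x - l) := by omega

lemma val_d {g x l c : ℕ} (h1 : 126 * 2 ^ 24 ≤ x) (h2 : l < 3 * 2 ^ 24) :
    g + (x - l) - c = g + x - (l + c) := by omega

theorem val0_spec {lf : ℕ} (hl : lf < K) {two : Bool} {D : ℕ → ℕ} {o c an : EV}
    {d m mv r2 r3 x iy tb f sh cap bg s1 n nb : ℕ} {oc : OL} (hn : oc.len = n)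
    (hnb : nb = if two = true then n * n else n) (hx : x < n) (hiy : iy < n) (hc : Sm K cap)
    (hs : Sm K s1) (hv : Sm K mv) (h1 : bg < 2 ^ (32 * K))
    (h2 : ∀ j < K, 126 * 2 ^ 24 ≤ dg 32 bg j ∧ dg 32 bg j < 2 ^ 31 + 2 ^ 16) (h dt : ℕ) {CH : ℕ}
    (h3 : CH = chV o c d dt f sh m + chA an dt sh) (h4 : CH < 2 ^ (32 * K))
    (h5 : ∀ j < K, dg 32 CH j ≤ 113 * 2 ^ 24) (b : ℕ) {j : ℕ} (hj : j < K) :
    dg 32 (val0 two D o c an d m mv (32 * K) (rp 32 K * 65535 - 65535 * 2 ^ (32 * lf)) r2 r3 x iy tb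
      f sh cap bg s1 oc n nb (32 * K * n) (rpP (rp 32 K) (32 * K) nb) h dt) (K * b + j) =
      if b < nb then min (dg 32 cap j) ((if h = 0 then 0 else wq two K lf (D h)
        (oc.pos tb (4 * dt + 76) (b % n)) (oc.pos tb (4 * dt + 76) (b / n)) j) + dg 32 bg j -
        (lab two s1 (blk r2 sh mv) (blk r3 sh mv) x iy n b j + if h = 0 then 0 else dg 32 CH j) -
        2 ^ 31) else 0 := by
  have hK : 0 < K := by omega
  have e : ∀ bm rs on, val0 two D o c an d m mv (32 * K) bm r2 r3 x iy tb f sh cap bg s1 oc n nb rs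
      on h dt = cnd (Nat.beq h 0) (clip (rpP cap (32 * K) nb) (cgP cap (32 * K) nb on) on
        (bgP two bg s1 r2 r3 sh mv (32 * K) x iy n nb) + 0)
      (clip (rpP cap (32 * K) nb) (cgP cap (32 * K) nb on) on
        (gat two oc tb (4 * dt + 76) (D h) (32 * K) bm n rs +
          bgP two bg s1 r2 r3 sh mv (32 * K) x iy n nb -
          rpP (chV o c d dt f sh m + chA an dt sh) (32 * K) nb)) := fun _ _ _ => rfl
  have k1 := fun b j hj => bgP_spec (r2 := r2) (r3 := r3) (sh := sh) hK hnb hx hiy hs hv h1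
    (fun j hj => le_trans (by norm_num) (h2 j hj).1) b (j := j) hj
  have k0 := lab_lt (two := two) hs (sm_blk r2 sh hv) (sm_blk r3 sh hv) x iy n
  rw [e, cnd_eq, ← h3]
  simp only [Nat.beq_eq]
  by_cases h0 : h = 0
  · simp only [if_pos h0, add_zero, zero_add]
    rw [clipP_spec hK hc (fun b hb j hj => ?_) b hj, k1 b j hj]
    · split_ifs <;> rfl
    · rw [k1 b j hj, if_pos hb]
      exact (Nat.sub_le _ _).trans_lt ((h2 j hj).2.trans (by norm_num))
  simp only [if_neg h0]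
  have k2 := fun b j hj => gat_spec (two := two) hl hn tb (4 * dt + 76) (D h) b (j := j) hj
  rw [← hnb] at k2
  have k3 := dg_add (w := 32) (X := gat two oc tb (4 * dt + 76) (D h) (32 * K)
    (rp 32 K * 65535 - 65535 * 2 ^ (32 * lf)) n (32 * K * n))
    (Y := bgP two bg s1 r2 r3 sh mv (32 * K) x iy n nb) (lane_ind hK fun b j hj => by
      rw [k1 b j hj, k2 b j hj]
      split_ifs
      exacts [val_b (wq_lt ..) (h2 j hj).2, by norm_num])
  have k4 := dg_sub (w := 32) (by omega) (X := gat two oc tb (4 * dt + 76) (D h) (32 * K)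
    (rp 32 K * 65535 - 65535 * 2 ^ (32 * lf)) n (32 * K * n) +
    bgP two bg s1 r2 r3 sh mv (32 * K) x iy n nb) (Y := rpP CH (32 * K) nb)
    (lane_ind hK fun b j hj => by
      rw [k3, k1 b j hj, k2 b j hj, dg_rpP h4 _ _ hj]
      split_ifs
      exacts [val_c (h2 j hj).1 (k0 b j) (h5 j hj), le_rfl])
  rw [clipP_spec hK hc (fun b hb j hj => ?_) b hj, k4, k3, k1 b j hj, k2 b j hj, dg_rpP h4 _ _ hj]
  · split_ifs
    exacts [by rw [val_d (h2 j hj).1 (k0 b j)], rfl]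
  · rw [k4, k3, k1 b j hj, k2 b j hj, if_pos hb, if_pos hb]
    exact val_a (wq_lt ..) (h2 j hj).2

end Pool.Agent.Work.MP_7cb3ca_co.C3
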