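import Pool.Agent.Work.MP_7cb3ca_co.C3.Idx
import Pool.Agent.Work.MP_7cb3ca_co.C3.Val
import Pool.Agent.Work.MP_7cb3ca_co.C3.TabS
import Pool.Agent.Work.MP_7cb3ca_co.C3.Cut

/-! The check of the state that represents a word. -/

namespace Pool.Agent.Work.MP_7cb3ca_co.C3

open Finset P3

variable {P : Par} {L : ℕ → Finset ℕ} {n s0 : ℕ} {a : ℕ → ℕ} {w : List ℕ} {d i g1 g2 : ℕ} {e : ℝ}

/-- The data of the check after the first `d` letters of `w`. -/
noncomputable def accL (L : ℕ → Finset ℕ) (w : List ℕ) (d : ℕ) : Acc :=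
  accs salt (mM (ck (ctx L (tm w))))
    ⟨0, 0, .nil, .nil, 0, 9, lC (ck (ctx L (tm w))), 3 - ck (ctx L (tm w)), 3, 0⟩ (symL L w) d

lemma names_mk {ψ : ℕ → ℕ} {r : ℕ → ℕ → ℕ} (hL : ∀ t, (L t).card = 3)
    (N : Names (L (tm w)) (L (tm w + 1)) w ψ r) (b : ℕ) :
    bit (mM (ck (ctx L (tm w)))) (ψ b) = mb (L (tm w + 1)) b := by
  have c2 := (ctx_facts hL (tm w)).2.2.2
  rw [bit_mM (c2 ▸ sdiff_le (hL _) _), c2, mb]
  exact if_congr (N.mem (hL _) b).2.1.symm rfl rfl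

lemma accL_C {ψ : ℕ → ℕ} {r : ℕ → ℕ → ℕ} (hL : ∀ t, (L t).card = 3)
    (N : Names (L (tm w)) (L (tm w + 1)) w ψ r) (e : ℕ) (he : e ≤ w.length) :
    ∀ c ∈ (accL L w e).C, 5 < c → ∃ i < e, c = i + 6 ∧ ψ (gd w i) = c := by
  induction e with
  | zero =>
    intro c hc h
    have := ((lM_facts ((ctx_facts hL (tm w)).2.2.2 ▸ sdiff_le (hL _) _)).2.2.2.2 c).1 hc
    omega
  | succ e ih =>
    intro c hc h
    have h1 : (accL L w (e + 1)).C = if symL L w e = 0 then
      (accL L w e).a (symL L w e) :: (accL L w e).C else (accL L w e).C := rfl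
    have h2 : c ∈ (accL L w e).C → ∃ i < e + 1, c = i + 6 ∧ ψ (gd w i) = c := fun k => by
      obtain ⟨i, k1, k2⟩ := ih (by omega) c k h
      exact ⟨i, by omega, k2⟩
    rw [h1] at hc
    split_ifs at hc with k
    · refine (List.mem_cons.1 hc).elim (fun k1 => ?_) h2
      have h3 : (accL L w e).d = e := accs_d rfl _ e
      rw [k, Acc.a, if_neg (by omega), if_pos rfl, h3] at k1
      unfold symL sym at k
      split_ifs at k with k2
      · omega
      · exact ⟨e, by omega, k1, by rw [(N.new e he k2).1, if_pos k, k1]⟩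
    · exact h2 hc

lemma exists_st (hL : ∀ t, (L t).card = 3) (hd : d ≤ w.length) (d4 : 4 ≤ d) (d55 : d ≤ 55) :
    ∃ ψ r, St L w ψ r d (accL L w d) := by
  obtain ⟨ψ, r, N⟩ := exists_names (hL (tm w)) (hL (tm w + 1)) w
  exact ⟨ψ, r, hL, N, accs_inv hL N (d4.trans hd) (ctx_facts hL _).2.2.2 (names_mk hL N) d hd d55,
    hd, d4, d55, accL_C hL N d hd⟩

/-- The state at the end of a path in a trie has been checked. -/
lemma CertE.path (H : CertE P) (hL : ∀ t, (L t).card = 3)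
    (hf : Found (P.TR (ctx L (tm w))) (symL L w) d)
    (h : (walk (P.TR (ctx L (tm w))) (symL L w) d).h ≠ 0) {r : ℕ} (hr : r < 10) :
    (walk (P.TR (ctx L (tm w))) (symL L w) d).d = d ∧ 4 ≤ d ∧ d ≤ 55 ∧
      ∃ sel, dg 16 sel r = 65535 ∧ stS tst1 P (ctx L (tm w)) sel 0
        (P.RT (dec (ctx L (tm w))) (6496 + ctx L (tm w))) d
        (walk (P.TR (ctx L (tm w))) (symL L w) d).h (accL L w d).w (accL L w d).v (accL L w d).W
        (accL L w d).g (accL L w d).C = true := by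
  obtain ⟨a, b, sel, h1, h2, h3, h4⟩ := H.cov _ (ctx_facts hL (tm w)).1 r hr (key (symL L w) d)
    (Nat.zero_le _) (key_bd _ d)
  have h5 : chkF tst1 reE P (cutT a b (P.TR (ctx L (tm w))) 73786976294838206464 0) (ctx L (tm w))
    0 4098 sel 0 = true := h4
  obtain ⟨m1, m2, m3⟩ := walk_cut hf h1 h2
  rw [chkF_eq] at h5
  have h6 := path_spec h5 rfl m1 ⟨Nat.zero_le _, Nat.le_of_lt_succ (accs_q_lt rfl _ d)⟩
  rw [m2, m3] at h6
  obtain ⟨k1, k2, k3, k4⟩ := h6.resolve_left h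
  exact ⟨k1, k2, k3, sel, h3, k4⟩

lemma bb_pos (P : Par) (L : ℕ → Finset ℕ) (t : ℕ) : 0 < bet (P.bb L) t := by
  have : (1 : ℝ) ≤ P.bb L t := by exact_mod_cast le_max_left _ _
  unfold bet
  positivity

lemma cap_nonneg (P : Par) (L : ℕ → Finset ℕ) (s0 : ℕ) (a : ℕ → ℕ) (w : List ℕ) :
    0 ≤ P.cap L s0 a w := hk_nonneg _

lemma InvE.wt (I : InvE P L n s0 a w d i g1 g2 e) : e < P.wt L w d g1 g2 i := by
  have h := I.2.2.2.2.2.2
  have : 0 ≤ ∑ p ∈ pend w d, cost (cut L n) (bet (P.bb L)) (P.cap L s0 a) w p :=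
    sum_nonneg fun p _ => cost_nonneg (bb_pos P L) (cap_nonneg P L s0 a) w p
  unfold pot at h
  linarith

lemma InvE.pos (H : CertE P) (I : InvE P L n s0 a w d i g1 g2 e) :
    (walk (P.TR (ctx L (tm w))) (symL L w) d).h ≠ 0 := by
  intro h
  have h1 := I.wt
  have h2 := I.2.2.2.2.2.1
  rw [Par.wt, h, H.tab.basic.1, wq, Gat_zero, Nat.zero_mod, ite_self, Nat.cast_zero] at h1
  linarith

/-- The number of blocks for `n` options. -/
def nbk (two : Bool) (n : ℕ) : ℕ := if two = true then n * n else n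

/-- The number of the block for the options `i1` and `i2`. -/
def bk (two : Bool) (n i1 i2 : ℕ) : ℕ := if two = true then n * i2 + i1 else i1

lemma bk_lt (two : Bool) {n i1 i2 : ℕ} (h1 : i1 < n) (h2 : i2 < n) : bk two n i1 i2 < nbk two n := by
  unfold bk nbk
  split_ifs
  · have := Nat.mul_le_mul_left n (Nat.succ_le_of_lt h2)
    rw [Nat.mul_succ] at this
    omega
  · exact h1

lemma bk_mod (two : Bool) {n i1 : ℕ} (i2 : ℕ) (h1 : i1 < n) : bk two n i1 i2 % n = i1 := by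
  unfold bk
  split_ifs
  · rw [Nat.mul_add_mod, Nat.mod_eq_of_lt h1]
  · exact Nat.mod_eq_of_lt h1

lemma bk_div {two : Bool} (h : two = true) {n i1 : ℕ} (i2 : ℕ) (h1 : i1 < n) :
    bk two n i1 i2 / n = i2 := by
  rw [bk, if_pos h, Nat.mul_add_div (by omega), Nat.div_eq_of_lt h1, add_zero]

lemma wq_bk (two : Bool) (K lf H : ℕ) (f : ℕ → ℕ) {n i1 : ℕ} (i2 : ℕ) (h1 : i1 < n) (j : ℕ) :
    wq two K lf H (f (bk two n i1 i2 % n)) (f (bk two n i1 i2 / n)) j =
      wq two K lf H (f i1) (f i2) j := by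
  rw [bk_mod two i2 h1]
  cases two
  · rfl
  · rw [bk_div rfl i2 h1]

/-- The weights of the source, lane by lane. -/
lemma src_spec (hl : P.lf < P.K) {c : ℕ} (hc : ck c ≤ 3) (d h : ℕ) (v : PL) (W : ℕ) {m : ℕ}
    (hm : C3.s0 (ck c) (gz W 1) ≤ m) (b : ℕ) {j : ℕ} (hj : j < P.K) {o : OL}
    (ho : o = opts (mS (ck c)) (sn (ck c) (gz W 1) ++
      List.replicate (m + 1 - C3.s0 (ck c) (gz W 1)) 62) .nil) :
    dg 32 (P.src c d h v W m) (P.K * b + j) = if b < nbk P.two m then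
      wq P.two P.K P.lf (P.D h) (o.pos (tbs (fpS v W d) (gz W 1)) (4 * d + 76) (b % m))
        (o.pos (tbs (fpS v W d) (gz W 1)) (4 * d + 76) (b / m)) j else 0 := by
  have e : P.src c d h v W m = gat P.two o (tbs (fpS v W d) (gz W 1)) (4 * d + 76) (P.D h)
      (32 * P.K) P.bm m (32 * P.K * m) := by
    rw [ho, ← opts_append, ← pad_eq]
    rfl
  have hn : o.len = m := by
    have := sn_len hc (gz W 1)
    rw [ho, opts_len, List.length_append, List.length_replicate]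
    omega
  rw [e]
  exact gat_spec hl hn _ _ _ b hj

end Pool.Agent.Work.MP_7cb3ca_co.C3
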