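import Pool.Agent.Work.MP_7cb3ca_co.C3.Lw

/-! The steps of the construction that do not write a letter, and the start. -/

namespace Pool.Agent.Work.MP_7cb3ca_co.C3

open Finset P3

variable {P : Par} {L : ℕ → Finset ℕ} {n s0 : ℕ} {a q : ℕ → ℕ} {w : List ℕ} {d i g1 g2 : ℕ} {e : ℝ}

theorem InvE.bound (I : InvE P L n s0 a w d i g1 g2 e) : e < 65535 := by
  have h1 := I.wt
  have h2 : P.wt L w d g1 g2 i ≤ 65535 := Nat.le_of_lt_succ (wq_lt ..)
  have h3 : (P.wt L w d g1 g2 i : ℝ) ≤ 65535 := by exact_mod_cast h2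
  linarith

/-- The depth of a state. -/
theorem InvE.depth (H : CertE P) (hL : ∀ t, (L t).card = 3) (I : InvE P L n s0 a w d i g1 g2 e) :
    4 ≤ d ∧ d ≤ 55 := by
  obtain ⟨-, h1, h2, -⟩ := H.path hL I.2.2.2.2.1 (I.pos H) (r := 0) (by omega)
  exact ⟨h1, h2⟩

lemma sideE_eq (two : Bool) (CV : OL) (la lq m kw o1 n0 X : ℕ) :
    sideE two CV la lq m kw o1 n0 X =
      side CV la lq m kw (nbk two n0) (rpP o1 kw (nbk two n0) * 2 ^ 31) X := by
  rw [← shl]
  cases two <;> rfl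

/-- Every label has a place among the options of the source. -/
lemma St.place {ψ : ℕ → ℕ} {r : ℕ → ℕ → ℕ} {X : Acc} (S : St L w ψ r d X) (g : ℕ) :
    ∃ j < C3.s0 (ck (ctx L (P3.tm w))) (P3.gz X.W 1),
      (opts (mS (ck (ctx L (P3.tm w)))) (sn (ck (ctx L (P3.tm w))) (P3.gz X.W 1) ++
        List.replicate (C3.s0 (ck (ctx L (P3.tm w))) (P3.gz X.W 1) + 1 -
          C3.s0 (ck (ctx L (P3.tm w))) (P3.gz X.W 1)) 62) .nil).pos
        (tbs (fpS X.w X.W d) (P3.gz X.W 1)) (4 * d + 76) j = 4 * code L w d g + 64 := by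
  have h4 := S.d4
  have hk := S.k3
  have hy := S.lt (i := 0) (by omega)
  have m1 := (names_mark S.N (S.hL _) g).2
  have hl := sn_len hk (P3.gz X.W 1)
  rw [← S.k] at m1
  by_cases c1 : ψ g < 3 + ck (ctx L (P3.tm w))
  · have k : ψ g + 1 < C3.s0 (ck (ctx L (P3.tm w))) (P3.gz X.W 1) := by
      unfold C3.s0
      split_ifs <;> omega
    exact ⟨ψ g, by omega, S.src (Or.inl ⟨by rw [sn_get hk _ _ k, if_pos c1], by omega⟩)⟩
  by_cases c2 : g = gd w 0
  · subst c2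
    have k : 3 + ck (ctx L (P3.tm w)) + 1 < C3.s0 (ck (ctx L (P3.tm w))) (P3.gz X.W 1) := by
      rw [S.y, C3.s0, if_neg (by omega)]
      omega
    exact ⟨_, Nat.lt_of_succ_lt k, S.src (Or.inl ⟨by
      rw [sn_get hk _ _ k, if_neg (lt_irrefl _), S.y], by omega⟩)⟩
  · refine ⟨C3.s0 (ck (ctx L (P3.tm w))) (P3.gz X.W 1) - 1, by omega,
      S.src (Or.inr ⟨?_, c2, by omega⟩)⟩
    rw [List.getElem?_append_right (by omega), List.getElem?_replicate, if_pos (by omega)]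

/-- The conditions between the lanes of the weight of a state. -/
lemma InvE.side (H : CertE P) (hL : ∀ t, (L t).card = 3) (I : InvE P L n s0 a w d i g1 g2 e) :
    (∀ j j', P.Conv j j' → P.wt L w d g1 g2 j ≤ P.wt L w d g1 g2 j') ∧
      ∀ g1' g2', P.wt L w d g1 g2 P.la ≤ P.wt L w d g1' g2' P.lq := by
  obtain ⟨-, d4, d55, sel, -, hS⟩ := H.path hL I.2.2.2.2.1 (I.pos H) (r := 0) (by omega)
  obtain ⟨ψ, r, S⟩ := exists_st hL I.2.2.2.1 d4 d55
  obtain ⟨-, hl, hla, hlq, -⟩ := H.tab.basic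
  have h1 := (stS_spec hS).1
  generalize accL L w d = X at S h1
  rw [sideE_eq] at h1
  have h2 := fun b j hj => src_spec hl S.k3 d (walk (P.TR (ctx L (tm w))) (symL L w) d).h X.w X.W
    le_rfl b (j := j) hj rfl
  have h3 := side_spec hla hlq (lane_ind (K := P.K) (by omega) fun b j hj => by
    rw [h2 b j hj]
    exact ite_lt (wq_lt ..)) h1
  choose f f1 f2 using S.place
  have h4 : ∀ g g', ∀ j < P.K, P.wt L w d g g' j = dg 32 (P.src (ctx L (tm w)) d
      (walk (P.TR (ctx L (tm w))) (symL L w) d).h X.w X.W (C3.s0 (ck (ctx L (tm w))) (gz X.W 1)))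
      (P.K * bk P.two (C3.s0 (ck (ctx L (tm w))) (gz X.W 1)) (f g) (f g') + j) := by
    intro g g' j hj
    rw [h2 _ j hj, if_pos (bk_lt _ (f1 g) (f1 g')), wq_bk _ _ _ _ _ _ (f1 g), f2, f2]
    rfl
  refine ⟨fun j j' h => ?_, fun g1' g2' => ?_⟩
  · rw [h4 _ _ j h.1, h4 _ _ j' h.2.1]
    exact h3.1 j j' h _ (bk_lt _ (f1 _) (f1 _))
  · rw [h4 _ _ _ hla, h4 _ _ _ hlq]
    exact h3.2 _ (bk_lt _ (f1 _) (f1 _)) _ (bk_lt _ (f1 _) (f1 _))

lemma InvE.of_le (I : InvE P L n s0 a w d i g1 g2 e) {i' g1' g2' : ℕ}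
    (h : P.wt L w d g1 g2 i ≤ P.wt L w d g1' g2' i') : InvE P L n s0 a w d i' g1' g2' e := by
  refine ⟨I.1, I.2.1, I.2.2.1, I.2.2.2.1, I.2.2.2.2.1, I.2.2.2.2.2.1,
    I.2.2.2.2.2.2.trans_le (sub_le_sub_right ?_ _)⟩
  exact_mod_cast h

/-- Conversion of lanes. -/
theorem InvE.conv (H : CertE P) (hL : ∀ t, (L t).card = 3) {i' : ℕ}
    (I : InvE P L n s0 a w d i g1 g2 e) (h : P.Conv i i') : InvE P L n s0 a w d i' g1 g2 e :=
  I.of_le ((I.side H hL).1 i i' h)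

/-- Change of the labels. -/
theorem InvE.relabel (H : CertE P) (hL : ∀ t, (L t).card = 3)
    (I : InvE P L n s0 a w d P.la g1 g2 e) (g1' g2' : ℕ) :
    InvE P L n s0 a w d P.lq g1' g2' e :=
  I.of_le ((I.side H hL).2 g1' g2')

lemma tst0_spec {x y p s : ℕ} {v : ℕ → ℕ} (h : tst0 x y p s (v 0) (v 1) (v 2) = true) :
    ∃ k < 3, 1 ≤ dig (v k) (p + k * s) := by
  have e : tst0 x y p s (v 0) (v 1) (v 2) = bor (Nat.ble 1 (dig (v 0) p))
      (bor (Nat.ble 1 (dig (v 1) (p + s))) (Nat.ble 1 (dig (v 2) (p + (s + s))))) := rfl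
  rw [e, bor_iff, bor_iff] at h
  simp only [Nat.ble_eq] at h
  rcases h with h | h | h
  · exact ⟨0, by omega, by rwa [zero_mul, add_zero]⟩
  · exact ⟨1, by omega, by rwa [one_mul]⟩
  · exact ⟨2, by omega, by rwa [two_mul]⟩

lemma trS_walk {s : ℕ} {σ : ℕ → ℕ} (h0 : σ 0 = s) (h : ∀ i < 4, σ (i + 1) = 0) :
    Found (trS s) σ 5 ∧ (walk (trS s) σ 5).h = 1 := by
  have h1 := h 0 (by omega)
  have h2 := h 1 (by omega)
  have h3 := h 2 (by omega)
  have h4 := h 3 (by omega)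
  simp only [zero_add, Nat.reduceAdd] at h1 h2 h3 h4
  refine ⟨fun i hi => ?_, ?_⟩
  · interval_cases i <;>
      simp [walk, trS, Pos.step, find, Pos.kid, Pos.h, Pos.d, Tr.has, h0, h1, h2, h3, h4]
  · simp [walk, trS, Pos.step, find, Pos.kid, Pos.h, Pos.d, h0, h1, h2, h3, h4]

lemma sel_all {r : ℕ} (hr : r < 10) : dg 16 (nat_lit 0xffffffffffffffffffffffffffffffffffffffff) r =
    65535 := by
  revert r
  decide +kernel

lemma reS_spec (x : ℕ) {K l r : ℕ} (hl : l < K) (hr : r < 10) :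
    dig (reS x (32 * l) (32 * K)) (32 * K * r + 32 * l) = 2 ^ 24 - 1 := by
  have e : reS x (32 * l) (32 * K) = rpP 16777215 (32 * K) 10 * 2 ^ (32 * l) := by
    rw [rpP, mul_eq, mul_right_comm, ← shl 16777215]
    rfl
  rw [e, mul_assoc, ← mul_add, dig_dg, dg_col (by norm_num) hl _ _ hl, if_pos ⟨hr, rfl⟩]
  norm_num

/-- The second letter. -/
theorem InvE.start (H : CertE P) (hL : ∀ t, (L t).card = 3) (HL : Lanes P L n 2 a q) (hn : 2 ≤ n)
    {d0 : ℕ} (hd : d0 ∈ L 0) (hS : chkS P (ctx L 1) (mk2 (L 1) (L 2) d0) (a 2) = true)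
    (hb : 1 ≤ P.bt (ctx L 1) (ctx L 2)) (hf : a 2 ≠ P.lf) :
    ∃ v : List ℕ, v.length = 4 ∧ ∃ x ∈ L 1, Arr P L n 2 a (d0 :: v) 5 (a 2) d0 x x 0 := by
  obtain ⟨b, hb0⟩ : ∃ b, ∀ s < n + 2, ∀ y ∈ L s, y < b :=
    ⟨((range (n + 2)).biUnion L).sup id + 1, fun s hs y hy => Nat.lt_succ_of_le
      (le_sup (f := id) (mem_biUnion.2 ⟨s, mem_range.2 hs, hy⟩))⟩
  have h0 := hb0 0 (by omega) d0 hd
  have h1 : ∀ i, mk2 (L 1) (L 2) (b + i) = 0 := fun i => by
    have k1 : b + i ∉ L 1 := fun h => by have := hb0 1 (by omega) _ h; omega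
    have k2 : b + i ∉ L 2 := fun h => by have := hb0 2 (by omega) _ h; omega
    simp [mk2, mb, k1, k2]
  refine ⟨[b, b + 1, b + 2, b + 3], rfl, ?_⟩
  generalize hw : [d0, b, b + 1, b + 2, b + 3] = w
  have w5 : w.length = 5 := hw ▸ rfl
  have wt : tm w = 1 := by rw [tm, w5]
  have w0 : gd w 0 = d0 := hw ▸ rfl
  have wi : ∀ i < 4, gd w (i + 1) = b + i := fun i hi => by
    subst hw
    interval_cases i <;> rfl
  have wx : ∀ i < 4, w.idxOf (b + i) = i + 1 := fun i hi => by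
    have k : ∀ j, d0 ≠ b + j := fun j => by omega
    have k0 : d0 ≠ b := k 0
    subst hw
    interval_cases i <;> simp [k, k0]
  have hfree : Free w := fun s p hp hl hm => by
    have k := hm 0 hp
    have k1 := wi (s + p - 1) (by omega)
    rw [show s + p - 1 + 1 = s + p + 0 by omega, ← k] at k1
    rcases s with _ | s
    · rw [w0] at k1
      omega
    · rw [add_zero, wi s (by omega)] at k1
      omega
  have hv : Valid L w := fun i hi => by
    obtain rfl : i = 0 := by omega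
    rwa [w0, w5]
  have hV : ∀ u : List ℕ, ∀ k, u.length = k + 5 → (∀ i < 4, gd u (k + 1 + i) = b + i) →
      Virt L n u := fun u k h1 h2 i h3 h4 s hs h5 => by
    rw [tm] at h3
    rw [show i = k + 1 + (i - (k + 1)) by omega, h2 _ (by omega)] at h5
    have := hb0 s hs _ h5
    omega
  obtain ⟨k1, k2⟩ := trS_walk (σ := symL L w) (s := mk2 (L 1) (L 2) d0)
    (by rw [symL, sym, if_neg (Nat.not_lt_zero _), wt, w0])
    (fun i hi => by rw [symL, sym, wi i hi, wx i hi, if_neg (lt_irrefl _), wt, h1])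
  have k3 : chkF tst0 reS P (trS (mk2 (L 1) (L 2) d0)) (ctx L (tm w)) 0 4098
      (nat_lit 0xffffffffffffffffffffffffffffffffffffffff) (a 2) = true := by
    rw [wt]
    exact hS
  rw [chkF_eq] at k3
  obtain ⟨-, -, -, k4⟩ := (path_spec k3 rfl k1
    ⟨Nat.zero_le _, Nat.le_of_lt_succ (accs_q_lt rfl _ 5)⟩).resolve_left (by omega)
  obtain ⟨ψ, r, S⟩ := exists_st (w := w) (d := 5) hL w5.ge (by omega) (by omega)
  change stS tst0 P _ _ _ _ 5 _ (accL L w 5).w (accL L w 5).v (accL L w 5).W (accL L w 5).g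
    (accL L w 5).C = true at k4
  generalize accL L w 5 = X at S k4
  have hW := hV w 0 w5 fun i hi => by rw [zero_add, add_comm, wi i hi]
  obtain ⟨mm, q', nm, em, E, -, -, k5⟩ := S.leaf k4 (sel_all (Nat.mod_lt _ (by omega)))
    (by rwa [wt]) (fun i h1 h2 => hW i h1 h2 _ (by omega)) (HL.lt 2) (fun i _ _ _ => by omega)
    (reS_spec _ (HL.lt 2) (Nat.mod_lt _ (by omega)))
  obtain ⟨y, y3, k6⟩ := tst0_spec (v := P.lw L w 5 X mm nm) k5
  obtain ⟨x, hx, rfl⟩ := mem_image.1 (S.N.image_A (hL _) ▸ mem_range.2 y3)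
  obtain ⟨i1, I1⟩ := E.ix d0
  obtain ⟨i2, I2⟩ := E.ix x
  have e1 := I1.last.2 w0
  have e2 := (I2.col x hx).2 rfl
  have k7 : 0 < dg 32 (P.lw L w 5 X mm nm (ψ x)) (P.K * bk P.two nm.length i1 i2 + a 2) := by
    rw [← e1, show 32 * P.K * i1 + 32 * a 2 + ψ x * (if P.two = true then 32 * P.K * nm.length
      else 0) = 32 * (P.K * bk P.two nm.length i1 i2 + a 2) by
        rw [e2, bk]; split_ifs <;> ring, dig_dg] at k6
    exact k6.trans (Nat.mod_le _ _)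
  obtain ⟨-, k8⟩ := S.val H (H.tab.stab hL HL) hv hW (by omega) (j := a 2) (by rw [wt])
    (HL.lt 2) (Or.inr (by omega)) E I1 I2 hx rfl
  obtain ⟨k9, -, k10⟩ := k8 k7
  obtain ⟨d', m1, m2, m3, m4⟩ := k10 hf
  have m5 : pend (x :: w) d' = fresh (x :: w) 5 d' := filter_congr fun p hp => by
    have := lm_le _ (mem_Icc.1 hp).2
    rw [List.length_cons, w5] at this
    exact ⟨fun h => ⟨h, Or.inl this⟩, fun h => h.1⟩
  have m6 : (0 : ℝ) < dg 32 (P.lw L w 5 X mm nm (ψ x)) (P.K * bk P.two nm.length i1 i2 + a 2) := by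
    exact_mod_cast k7
  refine ⟨x, wt ▸ hx, d', m1, ⟨free_cons hfree fun p hp => ?_, hv.cons hx,
    hV _ 1 (by rw [List.length_cons, w5]) fun i hi => ?_, by rwa [List.length_cons, w5],
    S.tm x ▸ m2, by positivity, ?_⟩, m4⟩
  · have := k9 p hp
    have := hp.2.1
    rw [List.length_cons, w5] at this
    omega
  · rw [show 1 + 1 + i = i + 1 + 1 by omega, gd_succ, wi i hi]
  · rw [pot, m5]
    linarith

end Pool.Agent.Work.MP_7cb3ca_co.C3
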