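import Pool.Agent.Work.MP_7cb3ca_co.C3.TDefs
import Pool.Agent.Work.MP_7cb3ca_co.C3.Lane
import Pool.Agent.Work.MP_7cb3ca_co.C3.Job
import Pool.Agent.Work.MP_7cb3ca_co.P3.Let

/-! The meaning of a certificate for cycles. -/

namespace Pool.Agent.Work.MP_7cb3ca_co.C3

open Finset P3

/-- The entry of row `row` of the tables for context `c` and lane `j`. -/
noncomputable def Par.lane (P : Par) (row c j : ℕ) : ℕ :=
  dig (P.RT (c / 10) row) (32 * P.K * (c % 10) + 32 * j)

/-- The growth factor of an edge, times 4096. -/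
noncomputable def Par.bt (P : Par) (c c' : ℕ) : ℕ := beta (P.RB c) (c' % 10)

/-- Lane `i` is the predecessor of lane `j`. -/
def Par.Pred (P : Par) (j i : ℕ) : Prop := j < P.K ∧ i < P.K ∧
  ((dig P.ma (32 * j) = 2 ^ 24 - 1 ∧ dig P.ms (32 * j) = 0 ∧ dig P.mj (32 * j) = 0 ∧ i = j + 1) ∨
   (dig P.ma (32 * j) = 0 ∧ dig P.ms (32 * j) = 2 ^ 24 - 1 ∧ dig P.mj (32 * j) = 0 ∧ i = j) ∨
   (dig P.ma (32 * j) = 0 ∧ dig P.ms (32 * j) = 0 ∧ dig P.mj (32 * j) = 2 ^ 24 - 1 ∧ i + 1 = j))

/-- A pair occurs in a list of pairs. -/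
def OL.mem (p s : ℕ) : OL → Prop
  | .nil => False
  | .cons p' s' t => (p = p' ∧ s = s') ∨ t.mem p s

/-- Lane `a` may be converted to lane `q`. -/
def Par.Conv (P : Par) (a q : ℕ) : Prop :=
  a < P.K ∧ q < P.K ∧ ∃ i M, i ≤ a ∧ i ≤ q ∧ a - i < 2048 ∧
    P.cv.mem (32 * (a - i) + 65536 * (32 * (q - i))) M ∧ dig M (32 * i) = 2 ^ 24 - 1

/-- The edge from `c` to `c'` is allowed and is checked in lane `j`. -/
def Par.Edge (P : Par) (c c' j : ℕ) : Prop :=
  1 ≤ P.bt c c' ∧ P.lane (6496 + c) c' j = 2 ^ 24 - 1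

/-- The lanes `a s` of arrival at time `s` and `q s` of departure, from time `s0` to time `n`. -/
structure Lanes (P : Par) (L : ℕ → Finset ℕ) (n s0 : ℕ) (a q : ℕ → ℕ) : Prop where
  lt : ∀ s, a s < P.K
  pred : ∀ s, s0 ≤ s → s < n → P.Pred (a (s + 1)) (q s)
  edge : ∀ s, s0 ≤ s → s < n → P.Edge (ctx L s) (ctx L (s + 1)) (a (s + 1))
  conv : ∀ s, s0 ≤ s → s < n → a s = q s ∨ P.Conv (a s) (q s)

/-- The tables at time `s`. -/
noncomputable def Par.tv (P : Par) (L : ℕ → Finset ℕ) (s0 : ℕ) (a : ℕ → ℕ) (row s : ℕ) : ℕ :=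
  if s0 ≤ s then P.lane row (ctx L s) (a s) else 2 ^ 24 * 8192 ^ (s0 - s)

/-- The growth factor at time `s`, times 4096. -/
noncomputable def Par.bb (P : Par) (L : ℕ → Finset ℕ) (s : ℕ) : ℕ :=
  max 1 (P.bt (ctx L s) (ctx L (s + 1)))

/-- The cap of a word. -/
noncomputable def Par.cap (P : Par) (L : ℕ → Finset ℕ) (s0 : ℕ) (a : ℕ → ℕ) (w : List ℕ) : ℝ :=
  hk (P.tv L s0 a) L (gd w) (tm w)

/-- The checks of the tables. -/
structure TCert (P : Par) : Prop where
  p : ∀ z < 2, ∀ cl < 10, chkPs3 P z cl = true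
  w : ∀ z < 2, ∀ cl < 10, chkW3 P z cl = true
  d : ∀ e < 9, chkD3 P e = true
  s : chkS3 P = true

/-- The checked parts of the trie of context `c` cover all keys from `lo` on, for the edge to the
context with last digit `r`. -/
def CovE (P : Par) (c r lo : ℕ) : Prop :=
  ∀ q, lo ≤ q → q < 4722366482869645213696 →
    ∃ a b sel, a ≤ q ∧ q ≤ b ∧ dg 16 sel r = 65535 ∧ chkE P c a b sel = true

/-- All checks of the main part of a certificate. -/
structure CertE (P : Par) : Prop where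
  tab : TCert P
  cov : ∀ c < 90, ∀ r < 10, CovE P c r 0

/-- The code of the letter `g` at a node of depth `d` on the path of the word `w`. -/
def code (L : ℕ → Finset ℕ) (w : List ℕ) (d g : ℕ) : ℕ :=
  if g = gd w 0 then 4 else if mk2 (L (tm w)) (L (tm w + 1)) g = 0 then 0 else
    if w.idxOf g < d then 4 + w.idxOf g else mk2 (L (tm w)) (L (tm w + 1)) g

/-- The number of the block for the positions `q1` and `q2` in the header of the weight `H`. -/
def bix (two : Bool) (H q1 q2 : ℕ) : ℕ :=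
  if two = true then 1 + 8 * (H % 2 ^ 328 / 2 ^ q2 % 8) + H % 2 ^ 328 / 2 ^ q1 % 8
  else H % 2 ^ 328 / 2 ^ q1 % 16

/-- Lane `j` of the block for the positions `q1` and `q2` in the header of the weight `H`. -/
def wq (two : Bool) (K lf H q1 q2 j : ℕ) : ℕ :=
  if j ≠ lf ∧ j < K then dg 32 H (K * bix two H q1 q2 + j) % 2 ^ 16 else 0

/-- The weight of the word `w` with depth `d` and labels `g1`, `g2` in lane `j`. -/
noncomputable def Par.wt (P : Par) (L : ℕ → Finset ℕ) (w : List ℕ) (d g1 g2 j : ℕ) : ℕ :=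
  wq P.two P.K P.lf (P.D (walk (P.TR (ctx L (tm w))) (symL L w) d).h) (4 * code L w d g1 + 64)
    (4 * code L w d g2 + 64) j

/-- The first `z` letters of `w` differ from `x` and have at most three colours. -/
def Zok (x : ℕ) (w : List ℕ) (z : ℕ) : Prop :=
  (∀ i < z, gd w i ≠ x) ∧ ((range z).image (gd w)).card ≤ 3

instance (x : ℕ) (w : List ℕ) : DecidablePred (Zok x w) := fun _ => by unfold Zok; infer_instance

/-- The largest `z ≤ r` with `Zok x w z`. -/
def zeta (x : ℕ) (w : List ℕ) (r : ℕ) : ℕ := Nat.findGreatest (Zok x w) r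

/-- The largest `z ≤ r` such that the first `z` letters of `w` have at most three colours. -/
def zeta0 (w : List ℕ) (r : ℕ) : ℕ :=
  Nat.findGreatest (fun z => ((range z).image (gd w)).card ≤ 3) r

/-- Lane `j` of the mask `M` is full. -/
def Full (M j : ℕ) : Prop := dig M (32 * j) = 2 ^ 24 - 1

instance (M j : ℕ) : Decidable (Full M j) := by unfold Full; infer_instance

/-- The charge for the word `u` that does not depend on the labels, in context `c` and lane `j`. -/
noncomputable def Par.ex0 (P : Par) (c j : ℕ) (u : List ℕ) : ℕ := P.lane (6484 + zeta0 u P.r1) c j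

/-- The charge for the letter `x` after the word `w` that depends on the labels. -/
noncomputable def Par.ex1 (P : Par) (c j : ℕ) (w : List ℕ) (g1 g2 x : ℕ) : ℕ :=
  (if x = g1 then P.lane (6464 + zeta x w P.r1) c j else 0) +
    if P.two = true ∧ x = g2 then P.lane 6473 c j +
      (if gd w 0 = g1 then P.lane (6474 + zeta g1 w.tail P.r1) c j else 0) else 0

/-- The periods whose match ends at the first letter after the four starting letters. -/
def anc (u : List ℕ) : Finset ℕ := (Icc 1 (tm u)).filter fun p => 1 ≤ lm u p ∧ p + lm u p = tm u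

/-- The bound for the length of the match of period `p`. -/
def Par.mu (P : Par) (u : List ℕ) (p : ℕ) : ℕ :=
  dg 8 (P.MU p) (zeta (gd u (lm u p - 1)) (u.drop (lm u p)) P.r1)

/-- The charge for the matches that end at the first letter. -/
noncomputable def Par.ex2 (P : Par) (c j : ℕ) (u : List ℕ) : ℕ :=
  ∑ p ∈ anc u, P.lane (6601 + P.mu u p - lm u p) c j

/-- The charge for the letter `x` after the word `w` of depth `d`, without the matches. -/
noncomputable def Par.extra (P : Par) (c j : ℕ) (w : List ℕ) (d g1 g2 x : ℕ) : ℕ :=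
  P.ex0 c j (x :: w) + if Full (P.VM d) j then P.ex1 c j w g1 g2 x else 0

/-- The charge for the matches, when the depth goes from `d` to `d'`. -/
noncomputable def Par.extra' (P : Par) (c j : ℕ) (u : List ℕ) (d d' : ℕ) : ℕ :=
  if tm u ≤ d + 1 ∧ Full (P.LM (tm u)) j ∧ (d' < tm u ∨ P.ts ≤ tm u) then P.ex2 c j u else 0

/-- The four oldest letters are in no list before time `n + 2`. -/
def Virt (L : ℕ → Finset ℕ) (n : ℕ) (w : List ℕ) : Prop :=
  ∀ i, tm w ≤ i → i < w.length → ∀ s < n + 2, gd w i ∉ L s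

/-- The invariant: the potential in lane `i`, with labels `g1` and `g2`, exceeds `e`. -/
def InvE (P : Par) (L : ℕ → Finset ℕ) (n s0 : ℕ) (a : ℕ → ℕ) (w : List ℕ) (d i g1 g2 : ℕ)
    (e : ℝ) : Prop :=
  Free w ∧ Valid L w ∧ Virt L n w ∧ d ≤ w.length ∧ Found (P.TR (ctx L (tm w))) (symL L w) d ∧
    0 ≤ e ∧ e < pot (cut L n) (bet (P.bb L)) (P.cap L s0 a) w d (P.wt L w d g1 g2 i)

/-- The state after the letter `x`, in lane `j`, when the word `w` had depth `d`. -/
def Arr (P : Par) (L : ℕ → Finset ℕ) (n s0 : ℕ) (a : ℕ → ℕ) (w : List ℕ) (d j g1 g2 x : ℕ)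
    (e : ℝ) : Prop :=
  ∃ d' ≤ d + 1, InvE P L n s0 a (x :: w) d' j g1 g2 (e + P.extra (ctx L (tm w + 1)) j w d g1 g2 x +
      P.extra' (ctx L (tm w + 1)) j (x :: w) d d') ∧
    (tm w ≤ d → Full (P.LM (tm w + 1)) j → ∀ p ∈ anc (x :: w), lm (x :: w) p ≤ P.mu (x :: w) p)

end Pool.Agent.Work.MP_7cb3ca_co.C3
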