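import Pool.Agent.Work.MP_7cb3ca_co.C3.Side

/-! The steps of the construction that a certificate for cycles justifies. -/

namespace Pool.Agent.Work.MP_7cb3ca_co.C3

open Finset P3

variable {P : Par} {L : ℕ → Finset ℕ} {n s0 : ℕ} {a q : ℕ → ℕ} {w : List ℕ} {d i g1 g2 : ℕ} {e : ℝ}

theorem InvE.mono (I : InvE P L n s0 a w d i g1 g2 e) {e' : ℝ} (h0 : 0 ≤ e') (h : e' ≤ e) :
    InvE P L n s0 a w d i g1 g2 e' :=
  ⟨I.1, I.2.1, I.2.2.1, I.2.2.2.1, I.2.2.2.2.1, h0, h.trans_lt I.2.2.2.2.2.2⟩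

lemma tst1_spec {K nb nd p s v1 v2 v3 : ℕ} (hK : 0 < K) (h1 : ∀ i, dg 32 v1 i < 2 ^ 17)
    (h2 : ∀ i, dg 32 v2 i < 2 ^ 17) (h3 : ∀ i, dg 32 v3 i < 2 ^ 17)
    (he : ∀ i, dg 32 nd i ≤ if i < K * nb then 2 ^ 31 else 0)
    (h : tst1 nd (rpP (rp 32 K) (32 * K) nb) p s v1 v2 v3 = true) {i : ℕ} (hi : i < K * nb) :
    dg 32 nd i ≤ 4096 * (dg 32 v1 i + dg 32 v2 i + dg 32 v3 i) := by
  have e : ∀ on, tst1 nd on p s v1 v2 v3 =
    cmp (Nat.shiftLeft (v1 + v2 + v3) 12) nd (Nat.shiftLeft on 31) := fun _ => rfl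
  have k1 := dg_add (w := 32) (X := v1) (Y := v2) fun i =>
    (add_lt_add (h1 i) (h2 i)).trans (by norm_num)
  have k2 := dg_add (w := 32) (X := v1 + v2) (Y := v3) fun i => by
    rw [k1]
    exact (add_lt_add (add_lt_add (h1 i) (h2 i)) (h3 i)).trans (by norm_num)
  have k3 : ∀ i, 4096 * (dg 32 v1 i + dg 32 v2 i + dg 32 v3 i) < 2 ^ 31 := fun i => by
    have := add_lt_add (add_lt_add (h1 i) (h2 i)) (h3 i)
    omega
  have k4 := dg_mul (w := 32) (b := 4096) (X := v1 + v2 + v3) fun i => by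
    rw [k2, k1]
    exact (k3 i).trans (by norm_num)
  rw [e, shl, shl, mul_comm _ (2 ^ 12)] at h
  have := cmp_spec ((rep_on hK nb).mul (by omega)) (fun i => by
    rw [show 2 ^ 12 = 4096 by norm_num, k4, k2, k1]
    exact k3 i) he h hi
  rwa [show 2 ^ 12 = 4096 by norm_num, k4, k2, k1] at this

lemma Virt.cons (h : Virt L n w) (hw : 4 ≤ w.length) (x : ℕ) : Virt L n (x :: w) := by
  intro i h1 h2
  rw [tm_cons hw] at h1
  rw [gd_cons (by omega)]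
  exact h _ (by omega) (by rw [List.length_cons] at h2; omega)

/-- One more letter. -/
theorem InvE.step (H : CertE P) (hL : ∀ t, (L t).card = 3) (HL : Lanes P L n s0 a q)
    (I : InvE P L n s0 a w d (q (tm w)) g1 g2 e) (h0 : s0 ≤ tm w) (hn : tm w < n)
    (hg : P.two = true → g1 ≠ g2) (hv : ∀ i ≤ 55, i < tm w → Full (P.VM i) (a (tm w + 1)))
    (eo : ℕ → ℝ)
    (he0 : ∀ x, 0 ≤ eo x) (he : ∑ x ∈ L (tm w), eo x ≤ bet (P.bb L) (tm w) * e) :
    ∃ x ∈ L (tm w), Free (x :: w) ∧ eo x < P.cap L s0 a (x :: w) ∧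
      (a (tm w + 1) = P.lf →
        eo x + P.extra (ctx L (tm w + 1)) P.lf w d g1 g2 x < (P.tau % 65536 : ℕ)) ∧
      (a (tm w + 1) ≠ P.lf → Arr P L n s0 a w d (a (tm w + 1)) g1 g2 x (eo x)) := by
  have hh := I.pos H
  obtain ⟨hf, hval, hV, hd, hF, -, hΦ⟩ := I
  have hl := H.tab.basic.2.1
  obtain ⟨-, d4, d55, sel, hsel, hS⟩ := H.path hL hF hh (r := ctx L (tm w + 1) % 10)
    (Nat.mod_lt _ (by omega))
  obtain ⟨ψ, r, S⟩ := exists_st hL hd d4 d55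
  generalize accL L w d = X at hS S
  have hE := HL.edge _ h0 hn
  have hK := HL.lt (tm w + 1)
  obtain ⟨mm, q', nm, em, E, m1, m2, hT⟩ := S.leaf hS hsel hE.1
    (fun i h1 h2 => hV i h1 h2 _ (by omega)) hK (fun i _ => hv i)
    (by rw [← nxt_dec (ctx_facts hL _).1 (ctx_next hL _)]; exact hE.2)
  obtain ⟨i1, I1⟩ := E.ix g1
  obtain ⟨i2, I2⟩ := E.ix g2
  have key := fun x hx => S.val H (H.tab.stab hL HL) hval hV (by omega) rfl hK
    ((lt_or_ge d (tm w)).imp_left (hv d d55)) E I1 I2 (x := x) hx rfl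
  have k0 : ∀ y < 3, ∀ i, dg 32 (P.lw L w d X mm nm y) i < 2 ^ 17 := fun y hy i =>
    (S.lw_lt hl E hy i).trans_le (by split_ifs <;> norm_num)
  have k1 := tst1_spec (by omega) (k0 0 (by omega)) (k0 1 (by omega)) (k0 2 (by omega))
    (S.nw_le hl _ m1 _ E.len) hT ((lane_lt_iff hK).2 (bk_lt _ I1.lt I2.lt))
  rw [S.nw hl E I1 I2 hg (HL.pred _ h0 hn) m1 m2, ← S.N.sum_A (hL _) fun y =>
    dg 32 (P.lw L w d X mm nm y) (P.K * bk P.two nm.length i1 i2 + a (tm w + 1))] at k1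
  obtain ⟨V, hV'⟩ : ∃ V : ℕ → ℕ, ∀ x, dg 32 (P.lw L w d X mm nm (ψ x))
    (P.K * bk P.two nm.length i1 i2 + a (tm w + 1)) = V x := ⟨_, fun _ => rfl⟩
  simp only [hV'] at key k1
  have hc : cut L n (tm w) = L (tm w) := if_pos hn
  have k2 : ∀ x, ∃ d' : ℕ, ∃ h' : ℝ, x ∈ L (tm w) → 0 < V x - eo x →
      ((∀ p, Sq (x :: w) p → d + 1 < 2 * p) ∧ V x - eo x ≤ h' - ∑ p ∈ fresh (x :: w) d d',
        cost (cut L n) (bet (P.bb L)) (P.cap L s0 a) (x :: w) p) ∧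
      (a (tm w + 1) = P.lf →
        eo x + P.extra (ctx L (tm w + 1)) P.lf w d g1 g2 x < (P.tau % 65536 : ℕ)) ∧
      (0 < pot (cut L n) (bet (P.bb L)) (P.cap L s0 a) (x :: w) d' h' → Free (x :: w) →
        a (tm w + 1) ≠ P.lf → Arr P L n s0 a w d (a (tm w + 1)) g1 g2 x (eo x)) := fun x => by
    by_cases h : x ∈ L (tm w) ∧ 0 < V x - eo x
    swap
    · exact ⟨0, 0, fun h1 h2 => absurd ⟨h1, h2⟩ h⟩
    have h1 := he0 x
    obtain ⟨h2, h3, h4⟩ := (key x h.1).2 (by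
      have : (0 : ℝ) < V x := by linarith [h.2]
      exact_mod_cast this)
    by_cases k : a (tm w + 1) = P.lf
    · refine ⟨0, _, fun _ _ => ⟨⟨h2, (add_sub_cancel_right _ _).ge⟩, fun _ => ?_,
        fun _ _ h5 => absurd k h5⟩⟩
      have h5 : (V x : ℝ) + P.extra (ctx L (tm w + 1)) (a (tm w + 1)) w d g1 g2 x ≤
        (P.tau % 65536 : ℕ) := by exact_mod_cast h3 k
      rw [k] at h5
      linarith [h.2]
    · obtain ⟨d', h5, h6, h7, h8⟩ := h4 k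
      refine ⟨d', _, fun _ _ => ⟨⟨h2, (sub_le_sub_right h7 _).trans_eq (sub_right_comm _ _ _)⟩,
        fun h9 => absurd h9 k, fun h9 h10 _ => ⟨d', h5, ⟨h10, hval.cons h.1, hV.cons (by omega) x,
          by rw [List.length_cons]; omega, by rwa [S.tm], by positivity, ?_⟩, h8⟩⟩⟩
      unfold pot at h9 ⊢
      linarith
  choose d' h' k2 using k2
  obtain ⟨x, hx, h1, h2, h3⟩ := pot_step (L := cut L n) (bb_pos P L) (cap_nonneg P L s0 a) hf
    (h := P.wt L w d g1 g2 (q (tm w)) - e) (by unfold pot at hΦ ⊢; linarith)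
    (fun x => V x - eo x) d' h' (fun x hx => by linarith [(key x (hc ▸ hx)).1, he0 x])
    (fun x hx h => (k2 x (hc ▸ hx) h).1) (by
      have h1 : bet (P.bb L) (tm w) * P.wt L w d g1 g2 (q (tm w)) ≤ ∑ x ∈ L (tm w), (V x : ℝ) := by
        rw [bet, Par.bb, max_eq_right hE.1, div_mul_eq_mul_div, div_le_iff₀ (by norm_num),
          mul_comm _ (4096 : ℝ)]
        exact_mod_cast k1
      rw [hc, sum_sub_distrib, mul_sub]
      linarith)
  rw [hc] at hx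
  exact ⟨x, hx, h2, by linarith [(key x hx).1], (k2 x hx h1).2.1, (k2 x hx h1).2.2 h3 h2⟩

end Pool.Agent.Work.MP_7cb3ca_co.C3
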