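import Pool.Agent.Work.MP_7cb3ca_co.C3.Defs

/-!
The checks of the tables of the certificate for cycles.
-/

namespace Pool.Agent.Work.MP_7cb3ca_co.C3

open P3

noncomputable section

/-- Ones in all lanes of `n` blocks. -/
def ones (K n : Nat) : Nat := Nat.mul (rp (nat_lit 32) K) (rp (Nat.mul (nat_lit 32) K) n)

/-- The digit `v` in all lanes of `n` blocks. -/
def cst (v K n : Nat) : Nat := Nat.mul (ones K n) v

/-- The growth factors of the edges from one context, one in each block. -/
def bvec (br K : Nat) : Nat := vec (Nat.mul (nat_lit 32) K) (beta br) (nat_lit 10)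

/-- The block of context `c` in row `i`, cut to 17 bits and aligned, times the growth factors. -/
def rhs (P : Par) (i c : Nat) : Nat :=
  (Nat.rec (motive := fun _ => Nat) (nat_lit 0) (fun kw _ =>
    (Nat.rec (motive := fun _ => Nat) (nat_lit 0) (fun Y _ =>
      Nat.mul (aln Y (Nat.land P.ma (cst (nat_lit 16777215) P.K (nat_lit 1))) (Nat.land P.ms (cst (nat_lit 16777215) P.K (nat_lit 1)))
        (Nat.land P.mj (cst (nat_lit 16777215) P.K (nat_lit 1))) kw (nat_lit 1)) (bvec (P.RB c) P.K)) (Nat.succ ((Nat.land (Nat.shiftRight (P.RT (Nat.div c (nat_lit 10)) i) (Nat.mul kw (Nat.mod c (nat_lit 10)))) (cst (nat_lit 131071) P.K (nat_lit 1))))))) (Nat.succ (Nat.mul (nat_lit 32) P.K)))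

/-- The mask of the lanes that are checked on the edges from context `c`. -/
def emask (P : Par) (c : Nat) : Nat :=
  Nat.land (P.RT (dec c) (Nat.add (nat_lit 6496) c)) (cst (nat_lit 16777215) P.K (nat_lit 10))

/-- `4096 * x ≤ y` in each lane of ten blocks. -/
def stepV (K x y : Nat) : Bool :=
  (Bool.rec (motive := fun _ => Bool) false (cmp y (Nat.shiftLeft x (nat_lit 12)) (cst (nat_lit 2147483648) K (nat_lit 10))) (Nat.beq (Nat.land x (cst (nat_lit 4294705152) K (nat_lit 10))) (nat_lit 0)))

/-- Row `i'` after an edge from context `c` is bounded by row `i`. -/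
def stepR (P : Par) (i' i c : Nat) : Bool :=
  (Nat.rec (motive := fun _ => Bool) false (fun e _ => (Nat.rec (motive := fun _ => Bool) false (fun x _ => stepV P.K x (rhs P i c)) (Nat.succ (Nat.land (P.RT e i') (emask P c))))) (Nat.succ (dec c)))

/-- Row `i` is at most row `i'` in the contexts with first digit `e`. -/
def domR (P : Par) (e i i' : Nat) : Bool :=
  cmp (Nat.land (P.RT e i') (cst (nat_lit 16777215) P.K (nat_lit 10))) (Nat.land (P.RT e i) (cst (nat_lit 16777215) P.K (nat_lit 10)))
    (cst (nat_lit 2147483648) P.K (nat_lit 10))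

/-- Row `i` does not grow when a lane is converted, in the contexts with first digit `e`. -/
def convR (P : Par) (e i : Nat) : Bool :=
  (Nat.rec (motive := fun _ => Bool) false (fun X _ => (Bool.rec (motive := fun _ => Bool) (OL.rec (motive := fun _ => Bool) true (fun s M _ ih =>
      (Bool.rec (motive := fun _ => Bool) false ih (cmp ((Nat.land (Nat.shiftRight X (Nat.land s (nat_lit 65535))) (cst (nat_lit 16777215) P.K (nat_lit 10))))
        ((Nat.land (Nat.shiftRight X (Nat.shiftRight s (nat_lit 16))) (rpP (Nat.land M (cst (nat_lit 16777215) P.K (nat_lit 1))) (Nat.mul (nat_lit 32) P.K) (nat_lit 10))))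
        (cst (nat_lit 2147483648) P.K (nat_lit 10))))) P.cv) true (Nat.beq X (nat_lit 0)))) (Nat.succ (P.RT e i)))

/-- The check of one row of the table of final costs. -/
def chkP3 (P : Par) (z cl A m : Nat) : Bool :=
  (Nat.rec (motive := fun _ => Bool) false (fun p _ => (Nat.rec (motive := fun _ => Bool) false (fun tc _ =>
  (Nat.rec (motive := fun _ => Bool) false (fun al _ => (Nat.rec (motive := fun _ => Bool) false (fun m' _ =>
  (Nat.rec (motive := fun _ => Bool) false (fun i _ =>
    allN (fun c => (Bool.rec (motive := fun _ => Bool) ((Nat.rec (motive := fun _ => Bool) false (fun k _ => (Nat.rec (motive := fun _ => Bool) false (fun e _ =>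
      (Nat.rec (motive := fun _ => Bool) false (fun em _ => (Nat.rec (motive := fun _ => Bool) false (fun y _ =>
      allN (fun B => (Bool.rec (motive := fun _ => _) true ((Nat.rec (motive := fun _ => Bool) false (fun i' _ => (Nat.rec (motive := fun _ => Bool) false (fun x _ =>
          (Bool.rec (motive := fun _ => _) (stepV P.K x y) ((Nat.rec (motive := fun _ => Bool) false (fun ih _ =>
              (Nat.rec (motive := fun _ => Bool) false (fun x' _ => stepV P.K x' y) (Nat.succ (Nat.add x (Nat.land (P.RT e ih) em))))) (Nat.succ (Nat.add (Nat.mul (nat_lit 16) p) B)))) ((Bool.rec (motive := fun _ => Bool) false ((Bool.rec (motive := fun _ => Bool) (Nat.ble (Nat.add (Nat.div c (nat_lit 10)) (nat_lit 2)) (Nat.add (Nat.mul (nat_lit 3) tc) (nat_lit 3))) true (Nat.beq tc (nat_lit 0)))) (Nat.ble (nat_lit 8) al))))) (Nat.succ (Nat.land (P.RT e i') em)))) (Nat.succ (iP z cl B m')))) (compat p k A B))) (nat_lit 16)) (Nat.succ (rhs P i c)))) (Nat.succ (emask P c)))) (Nat.succ (dec c)))) (Nat.succ (ck c)))) true (Nat.beq (emask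 P c) (nat_lit 0)))) (nat_lit 90)) (Nat.succ (iP z cl A m)))) (Nat.succ (Nat.add (Nat.mul (nat_lit 2) (Nat.mod al (nat_lit 8))) z)))) (Nat.succ (Nat.land m (rv4 A))))) (Nat.succ (Nat.mod cl (nat_lit 3))))) (Nat.succ (Nat.div cl (nat_lit 3))))

/-- The check of the table of final costs for one class. -/
def chkPs3 (P : Par) (z cl : Nat) : Bool :=
  allN (fun A => (Bool.rec (motive := fun _ => _) true (allL (chkP3 P z cl A) ((Bool.rec (motive := fun _ => _) [(nat_lit 1), (nat_lit 3), (nat_lit 5), (nat_lit 7), (nat_lit 9), (nat_lit 11), (nat_lit 13), (nat_lit 15)] [(nat_lit 0), (nat_lit 1), (nat_lit 2), (nat_lit 4), (nat_lit 8)] (Nat.beq z (nat_lit 0))))) (feas (Nat.div cl (nat_lit 3)) A))) (nat_lit 16)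

/-- The check of the table of waiting costs for one class. -/
def chkW3 (P : Par) (z cl : Nat) : Bool :=
  (Bool.rec (motive := fun _ => Bool) false (allN (fun T => (Nat.rec (motive := fun _ => Bool) false (fun i' _ => (Nat.rec (motive := fun _ => Bool) false (fun i _ =>
      allN (fun c => (Bool.rec (motive := fun _ => Bool) (stepR P i' i c) true (Nat.beq (emask P c) (nat_lit 0)))) (nat_lit 90)) (Nat.succ (iW z cl (Nat.add T (nat_lit 1)))))) (Nat.succ (iW z cl T)))) (nat_lit 45)) ((Nat.rec (motive := fun _ => Bool) false (fun i' _ => allN (fun A => (Bool.rec (motive := fun _ => _) true ((Nat.rec (motive := fun _ => Bool) false (fun i _ => allN (fun e => domR P e i i') (nat_lit 9)) (Nat.succ (iP z cl A (nat_lit 1))))) (feas (Nat.div cl (nat_lit 3)) A))) (nat_lit 16)) (Nat.succ (iW z cl (nat_lit 0))))))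

/-- The rows of costs do not grow when a lane is converted. -/
def chkD3 (P : Par) (e : Nat) : Bool := allN (fun i => (Nat.rec (motive := fun _ => Bool) false (fun m_ _ => (convR P e) m_) (Nat.succ (Nat.add i (nat_lit 64))))) (nat_lit 6400)

/-- The remaining checks of the parameters. -/
def chkS3 (P : Par) : Bool :=
  (Bool.rec (motive := fun _ => Bool) false (allN (fun e => allN (fun z => (Bool.rec (motive := fun _ => Bool) false ((Bool.rec (motive := fun _ => Bool) false (domR P e (Nat.add (nat_lit 6484) z) (Nat.add (nat_lit 6484) P.r1)) (domR P e (Nat.add (nat_lit 6474) z) (Nat.add (nat_lit 6474) P.r1)))) (domR P e (Nat.add (nat_lit 6464) z) (Nat.add (nat_lit 6464) P.r1)))) P.r1) (nat_lit 9)) ((Bool.rec (motive := fun _ => Bool) false ((Bool.rec (motive := fun _ => Bool) false ((Bool.rec (motive := fun _ => Bool) false (Nat.blt P.lq P.K) (Nat.blt P.la P.K))) (Nat.blt P.lf P.K))) (Nat.beq (P.D (nat_lit 0)) (nat_lit 0)))))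

end

end Pool.Agent.Work.MP_7cb3ca_co.C3
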