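import Pool.Agent.Work.MP_7cb3ca_co.P3.Job

/-! Tables whose entries depend on the time bound the costs of the completion of squares before
the time `n`. -/

namespace Pool.Agent.Work.MP_7cb3ca_co.C3

open Finset P3

/-- The lists before time `n`, and empty lists later. -/
def cut (L : ℕ → Finset ℕ) (n s : ℕ) : Finset ℕ := if s < n then L s else ∅

/-- The growth factor at time `t`. -/
noncomputable def bet (bb : ℕ → ℕ) (t : ℕ) : ℝ := (bb t : ℝ) / 4096

/-- The cap for the letters `a` at time `s`. -/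
noncomputable def hk (tv : ℕ → ℕ → ℕ) (L : ℕ → Finset ℕ) (a : ℕ → ℕ) (s : ℕ) : ℝ :=
  (tv (16 * pat4 a + amk (L s) a) s : ℕ)

open Classical in
/-- The cost of writing the letters `a` at the end of `j` steps from time `s`. -/
noncomputable def jc (tv : ℕ → ℕ → ℕ) (bb : ℕ → ℕ) (L : ℕ → Finset ℕ) (n : ℕ) (a : ℕ → ℕ)
    (cl : ℕ) : ℕ → ℕ → ℝ
  | 0, s => if okend cl (ctx L (s - 1)) then hk tv L a s else 0
  | j + 1, s => if s < n ∧ (j < 4 → a j ∈ L s) then jc tv bb L n a cl j (s + 1) / bet bb s else 0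

/-- The inequalities between the entries of the tables along the contexts of `L`. -/
structure STab (tv : ℕ → ℕ → ℕ) (bb : ℕ → ℕ) (L : ℕ → Finset ℕ) (n : ℕ) : Prop where
  b : ∀ s, 1 ≤ bb s
  p : ∀ s < n, ∀ z < 2, ∀ cl < 10, ∀ A < 16, feas (cl / 3) A = true → ∀ m ∈ msk z, ∀ B < 16,
    compat (cl / 3) (ck (ctx L s)) A B = true →
    4096 * (tv (iP z cl B (2 * ((m &&& rv4 A) % 8) + z)) (s + 1) +
      if 8 ≤ m &&& rv4 A ∧ (cl % 3 = 0 ∨ ctx L s / 10 + 2 ≤ 3 * (cl % 3) + 3)
        then tv (16 * (cl / 3) + B) (s + 1) else 0) ≤ bb s * tv (iP z cl A m) s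
  w0 : ∀ s, ∀ z < 2, ∀ cl < 10, ∀ A < 16, feas (cl / 3) A = true →
    tv (iP z cl A 1) s ≤ tv (iW z cl 0) s
  w : ∀ s < n, ∀ z < 2, ∀ cl < 10, ∀ T < 45,
    4096 * tv (iW z cl T) (s + 1) ≤ bb s * tv (iW z cl (T + 1)) s

lemma mem_cut {L : ℕ → Finset ℕ} {n s x : ℕ} : x ∈ cut L n s ↔ s < n ∧ x ∈ L s := by
  unfold cut; split_ifs <;> simp [*]

section

variable {tv : ℕ → ℕ → ℕ} {bb : ℕ → ℕ} {L : ℕ → Finset ℕ} {N : ℕ} {a : ℕ → ℕ} {cl : ℕ}

lemma bet_pos (hT : STab tv bb L N) (t : ℕ) : 0 < bet bb t := by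
  have : (1 : ℝ) ≤ bb t := by exact_mod_cast hT.b t
  unfold bet
  positivity

lemma hk_nonneg (s : ℕ) : 0 ≤ hk tv L a s := Nat.cast_nonneg _

lemma jc_nonneg (hT : STab tv bb L N) (j s : ℕ) : 0 ≤ jc tv bb L N a cl j s := by
  induction j generalizing s with
  | zero => simp only [jc]; split_ifs; exacts [hk_nonneg _, le_rfl]
  | succ j ih =>
    simp only [jc]; split_ifs; exacts [div_nonneg (ih _) (bet_pos hT _).le, le_rfl]

lemma div_bet (hT : STab tv bb L N) {s x y : ℕ} {u : ℝ} (hu : u ≤ x)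
    (h : 4096 * x ≤ bb s * y) : u / bet bb s ≤ y := by
  rw [div_le_iff₀ (bet_pos hT s)]
  have : (4096 : ℝ) * x ≤ bb s * y := by exact_mod_cast h
  unfold bet
  nlinarith

theorem tab_P (hT : STab tv bb L N) (hL : ∀ t, (L t).card = 3) (ha : Exact a) (hc : cl < 10)
    (hp : cl / 3 = pat4 a) {z : ℕ} (hz : z < 2) (n : ℕ) : ∀ s, ∀ m ∈ msk z,
    ∑ j ∈ range n, (if sel z m j then jc tv bb L N a cl (j + 1) s else 0) ≤
      tv (iP z cl (amk (L s) a) m) s := by
  induction n with
  | zero => intro s m _; simp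
  | succ n ih =>
    intro s m hm
    have hβ := bet_pos hT s
    obtain ⟨f1, f2, f3⟩ := msk_facts z hz _ (amk_lt (L s) a) m hm
    by_cases hs : s < N
    swap
    · rw [sum_eq_zero fun j _ => by rw [jc, if_neg (fun h : s < N ∧ _ => hs h.1), ite_self]]
      positivity
    have hP := hT.p s hs z hz cl hc _ (amk_lt (L s) a) (hp ▸ feas_amk ha (hL s)) m hm _
      (amk_lt (L (s + 1)) a)
      (by rw [hp, (ctx_facts hL s).2.2.2]; exact compat_amk ha (hL s) (hL (s + 1)))
    refine le_trans ?_ (div_bet hT (u := _) le_rfl hP)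
    rw [sum_range_succ', Nat.cast_add, add_div]
    refine add_le_add (le_trans ?_ (div_le_div_of_nonneg_right (ih (s + 1) _ f1) hβ.le)) ?_
    · rw [sum_div]
      refine sum_le_sum fun j _ => ?_
      have h0 := div_nonneg (jc_nonneg (a := a) (cl := cl) hT (j + 1) (s + 1)) hβ.le
      rw [jc]
      by_cases h1 : sel z m (j + 1) ∧ (j + 1 < 4 → a (j + 1) ∈ L s)
      · rw [if_pos h1.1, if_pos ⟨hs, h1.2⟩, if_pos]
        rcases h1.1 with h2 | h2
        · left
          refine ⟨by omega, f3 j (by omega) ?_ ?_⟩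
          · rw [← h2.2, show 3 - (j + 1) = 2 - j by omega]
          · rw [bt_amk _ _ (by omega), mb_eq_one]; exact h1.2 (by omega)
        · by_cases h3 : j = 3
          · left; subst h3; omega
          · right; omega
      · refine le_trans (le_of_eq (b := 0) ?_) ?_
        · split_ifs <;> tauto
        · split_ifs; exacts [h0, by simp]
    · rw [jc, jc, add_tsub_cancel_right]
      by_cases h1 : sel z m 0 ∧ (0 < 4 → a 0 ∈ L s) ∧ okend cl (ctx L s)
      · rw [if_pos h1.1, if_pos ⟨hs, h1.2.1⟩, if_pos h1.2.2, if_pos, hp]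
        · rfl
        · refine ⟨f2 ?_ ?_, h1.2.2⟩
          · have := h1.1; unfold sel at this; omega
          · rw [bt_amk _ _ (by omega), mb_eq_one]; exact h1.2.1 (by omega)
      · refine le_trans (le_of_eq (b := 0) ?_) (by positivity)
        split_ifs <;> first | tauto | simp

theorem tab_W (hT : STab tv bb L N) (hL : ∀ t, (L t).card = 3) (ha : Exact a) (hc : cl < 10)
    (hp : cl / 3 = pat4 a) {z : ℕ} (hz : z < 2) (T : ℕ) : ∀ n s,
    ∑ j ∈ range n, (if j = 3 + T ∨ (3 + T < j ∧ z = 1) then jc tv bb L N a cl (j + 1) s else 0) ≤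
      tv (iW z cl T) s := by
  induction T with
  | zero =>
    intro n s
    have h1 := tab_P hT hL ha hc hp hz n s 1 (by unfold msk; split_ifs <;> simp)
    have h2 := hT.w0 s z hz cl hc _ (amk_lt (L s) a) (hp ▸ feas_amk ha (hL s))
    refine le_trans (le_of_eq (sum_congr rfl fun j _ => if_congr ?_ rfl rfl))
      (h1.trans (by exact_mod_cast h2))
    unfold sel
    by_cases h3 : j ≤ 3
    · interval_cases j <;> simp
    · omega
  | succ T ih =>
    intro n s
    have hβ := bet_pos hT s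
    cases n with
    | zero => simp
    | succ n =>
      by_cases hs : s < N
      swap
      · rw [sum_eq_zero fun j _ => by rw [jc, if_neg (fun h : s < N ∧ _ => hs h.1), ite_self]]
        positivity
      have h1 := hT.w s hs z hz cl hc (min T 44) (by omega)
      rw [show iW z cl (min T 44) = iW z cl T by simp only [iW_eq]; omega,
        show iW z cl (min T 44 + 1) = iW z cl (T + 1) by simp only [iW_eq]; omega] at h1
      refine le_trans (le_of_eq ?_) (div_bet hT (ih n (s + 1)) h1)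
      rw [sum_range_succ', if_neg (by omega), add_zero, sum_div]
      refine sum_congr rfl fun j _ => ?_
      rw [jc]
      by_cases h2 : j = 3 + T ∨ (3 + T < j ∧ z = 1)
      · rw [if_pos h2, if_pos (by omega), if_pos ⟨hs, by omega⟩]
      · rw [if_neg h2, if_neg (by omega), zero_div]

theorem tab_one (hT : STab tv bb L N) (hL : ∀ t, (L t).card = 3) (ha : Exact a) (hc : cl < 10)
    (hp : cl / 3 = pat4 a) {j : ℕ} (hj : 1 ≤ j) (s : ℕ) : jc tv bb L N a cl j s ≤
      tv (if 4 ≤ j then iW 0 cl (j - 4) else iP 0 cl (amk (L s) a) (2 ^ (4 - j))) s := by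
  obtain ⟨j, rfl⟩ : ∃ i, j = i + 1 := ⟨j - 1, by omega⟩
  have h0 := jc_nonneg (a := a) (cl := cl) hT
  split_ifs with h
  · refine le_trans ?_ (tab_W hT hL ha hc hp (z := 0) (by omega) (j + 1 - 4) (j + 1) s)
    rw [sum_range_succ, if_pos (by omega)]
    exact le_add_of_nonneg_left (sum_nonneg fun i _ => ite_nonneg (h0 _ _) le_rfl)
  · have hj3 : j < 3 := by omega
    refine le_trans ?_ (tab_P hT hL ha hc hp (z := 0) (by omega) (j + 1) s _
      (by interval_cases j <;> simp [msk]))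
    rw [sum_range_succ, if_pos (by interval_cases j <;> simp [sel])]
    exact le_add_of_nonneg_left (sum_nonneg fun i _ => ite_nonneg (h0 _ _) le_rfl)

theorem tab_all (hT : STab tv bb L N) (hL : ∀ t, (L t).card = 3) (ha : Exact a) (hc : cl < 10)
    (hp : cl / 3 = pat4 a) (T s : ℕ) (S : Finset ℕ) (hS : ∀ j ∈ S, 4 + T ≤ j) :
    ∑ j ∈ S, jc tv bb L N a cl j s ≤ tv (iW 1 cl T) s := by
  have h0 := jc_nonneg (a := a) (cl := cl) hT
  refine le_trans ?_ (tab_W hT hL ha hc hp (z := 1) (by omega) T (S.sup id) s)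
  rw [← sum_filter, ← sum_image (s := filter _ (range _)) (g := fun j => j + 1)
    (f := fun j => jc tv bb L N a cl j s) (by intro x _ y _ h; simpa using h)]
  refine sum_le_sum_of_subset_of_nonneg ?_ fun j _ _ => h0 _ _
  intro j hj
  have h1 := hS j hj
  have h2 : j ≤ S.sup id := le_sup (f := id) hj
  simp only [mem_image, mem_filter, mem_range]
  exact ⟨j - 1, ⟨by omega, by simp only [and_true]; omega⟩, by omega⟩

end

end Pool.Agent.Work.MP_7cb3ca_co.C3
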