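import Pool.Agent.Work.MP_7cb3ca_co.C3.Spec

/-! Vectors of lanes: the basic operations of the checker act lane by lane. -/

namespace Pool.Agent.Work.MP_7cb3ca_co.C3

open P3

variable {K : ℕ}

lemma blk_eq (X s m : ℕ) : blk X s m = X / 2 ^ s &&& m := by
  unfold blk
  rw [shr]
  rfl

lemma dig_dg (X i : ℕ) : dig X (32 * i) = dg 32 X i % 2 ^ 24 := by
  rw [dig_eq, dg, Nat.mod_mod_of_dvd _ (by norm_num)]

lemma vec_succ (w n : ℕ) (f : ℕ → ℕ) : vec w f (n + 1) = vec w f n + f n * 2 ^ (w * n) := by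
  rw [← shl]
  rfl

lemma dg_vec {w n : ℕ} {f : ℕ → ℕ} (h : ∀ i < n, f i < 2 ^ w) (i : ℕ) :
    dg w (vec w f n) i = if i < n then f i else 0 := by
  induction n generalizing i with
  | zero => simp [show vec w f 0 = 0 from rfl, dg]
  | succ n ih =>
    have h1 := ih fun i hi => h i (by omega)
    have h2 := dg_single (h n (by omega)) n
    rw [vec_succ, dg_add fun j => ?_, h1, h2]
    · by_cases k : i = n
      · simp [k]
      · simp only [k, if_false, add_zero]
        exact if_congr (by omega) rfl rfl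
    · rw [h1, h2]
      have := h j
      have : 0 < 2 ^ w := by positivity
      split_ifs <;> first | omega | exact (zero_add (f n)).symm ▸ h n (by omega)

lemma dg_rp {w : ℕ} (hw : 0 < w) (n i : ℕ) : dg w (rp w n) i = if i < n then 1 else 0 := by
  exact dg_vec (f := fun _ => 1) (fun _ _ => Nat.one_lt_two_pow hw.ne') i

/-- A number whose digits from place `n` on vanish is small. -/
lemma lt_of_dg {w X n : ℕ} (hw : 0 < w) (h : ∀ i, n ≤ i → dg w X i = 0) : X < 2 ^ (w * n) := by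
  have h1 : X / 2 ^ (w * n) ≤ 0 := le_of_dg hw fun i => by rw [dg_div, h _ (by omega)]; omega
  exact (Nat.div_eq_zero_iff_lt (by positivity)).1 (Nat.le_zero.1 h1)

lemma dg_blk (X b : ℕ) {j : ℕ} (hj : j < K) :
    dg 32 X (K * b + j) = dg 32 (dg (32 * K) X b) j := by
  rw [show dg (32 * K) X b = X / 2 ^ (32 * (K * b)) % 2 ^ (32 * K) by rw [← mul_assoc]; rfl,
    dg_mod, if_pos hj, dg_div]

/-- Every lane number is `K * b + j` with `j < K`. -/
lemma lane_ind (hK : 0 < K) {p : ℕ → Prop} (h : ∀ b, ∀ j < K, p (K * b + j)) (i : ℕ) : p i := by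
  have := h (i / K) (i % K) (Nat.mod_lt _ hK)
  rwa [Nat.div_add_mod] at this

lemma lane_lt_iff {b n j : ℕ} (hj : j < K) : K * b + j < K * n ↔ b < n := by
  constructor
  · intro h
    by_contra k
    have := Nat.mul_le_mul_left K (not_lt.1 k)
    omega
  · intro h
    have := Nat.mul_le_mul_left K (Nat.succ_le_of_lt h)
    rw [Nat.mul_succ] at this
    omega

/-- A block times a vector of zeros and ones. -/
lemma dg_mul_vec {v n : ℕ} (hv : v < 2 ^ (32 * K)) {f : ℕ → ℕ} (hf : ∀ b < n, f b ≤ 1) (b : ℕ) {j : ℕ}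
    (hj : j < K) : dg 32 (v * vec (32 * K) f n) (K * b + j) =
      if b < n then f b * dg 32 v j else 0 := by
  have h1 := dg_vec (w := 32 * K) (n := n) (f := f) fun i hi =>
    (hf i hi).trans_lt (Nat.one_lt_two_pow (by omega))
  rw [dg_blk _ _ hj, dg_mul fun i => ?_, h1]
  · split_ifs with h
    · have := hf b h
      interval_cases f b <;> simp [dg]
    · simp [dg]
  · rw [h1]
    split_ifs with h
    · exact (Nat.mul_le_mul_left v (hf i h)).trans_lt (by simpa using hv)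
    · simp

lemma dg_rpP {v : ℕ} (hv : v < 2 ^ (32 * K)) (n b : ℕ) {j : ℕ} (hj : j < K) :
    dg 32 (rpP v (32 * K) n) (K * b + j) = if b < n then dg 32 v j else 0 := by
  have := dg_mul_vec (n := n) hv (f := fun _ => 1) (fun _ _ => le_rfl) b hj
  rw [one_mul] at this
  exact this

lemma Rep.lt {N X v : ℕ} (h : Rep N v X) : X < 2 ^ (32 * N) :=
  lt_of_dg (by omega) fun i hi => by rw [h, if_neg (by omega)]

lemma rep_on (hK : 0 < K) (n : ℕ) : Rep (K * n) 1 (rpP (rp 32 K) (32 * K) n) := by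
  refine lane_ind hK fun b j hj => ?_
  rw [dg_rpP (Rep.lt (dg_rp (by omega) K)) _ _ hj, dg_rp (by omega), if_pos hj]
  exact if_congr (lane_lt_iff hj).symm rfl rfl

lemma Rep.mul {N X v : ℕ} (h : Rep N 1 X) (hv : v < 2 ^ 32) : Rep N v (X * v) := by
  intro i
  rw [mul_comm, dg_mul fun j => by rw [h]; split_ifs <;> omega, h]
  split_ifs <;> omega

lemma rep_cst (hK : 0 < K) {v : ℕ} (hv : v < 2 ^ 32) (n : ℕ) : Rep (K * n) v (cst v K n) := by
  exact (rep_on hK n).mul hv

lemma rep24 : Rep K 16777215 (rp 32 K * 16777215) := Rep.mul (dg_rp (by omega) K) (by omega)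

/-- The mask of 24 bits in each of `K` lanes. -/
lemma dg_blk24 (X s i : ℕ) : dg 32 (blk X (32 * s) (rp 32 K * 16777215)) i =
    if i < K then dig X (32 * s + 32 * i) else 0 := by
  rw [blk_eq, dg_and, dg_div, rep24, ← mul_add, dig_dg]
  split_ifs
  exacts [Nat.and_two_pow_sub_one_eq_mod _ 24, Nat.and_zero _]

lemma blk24_lt (X s : ℕ) : blk X s (rp 32 K * 16777215) < 2 ^ (32 * K) := by
  rw [blk_eq]
  exact Nat.and_le_right.trans_lt rep24.lt

/-- The mask of 16 bits in the lanes other than `l`. -/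
lemma dg_bm {l : ℕ} (hl : l < K) (i : ℕ) :
    dg 32 (rp 32 K * 65535 - 65535 * 2 ^ (32 * l)) i = if i ≠ l ∧ i < K then 65535 else 0 := by
  have h1 : Rep K 65535 (rp 32 K * 65535) := Rep.mul (dg_rp (by omega) K) (by omega)
  have h2 := dg_single (w := 32) (v := 65535) (by omega) l
  rw [dg_sub (by omega) fun j => by rw [h1, h2]; split_ifs <;> omega, h1, h2]
  split_ifs <;> omega

lemma cmp_spec {N s e g : ℕ} (hg : Rep N (2 ^ 31) g) (hs : ∀ i, dg 32 s i < 2 ^ 31)
    (he : ∀ i, dg 32 e i ≤ if i < N then 2 ^ 31 else 0) (h : cmp s e g = true) {i : ℕ} (hi : i < N) :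
    dg 32 e i ≤ dg 32 s i := by
  have h' : (s + g - e) &&& g = g := Nat.eq_of_beq_eq_true h
  have h3 : ∀ i, dg 32 (s + g) i = dg 32 s i + if i < N then 2 ^ 31 else 0 := fun i => by
    rw [dg_add fun j => by rw [hg]; have := hs j; split_ifs <;> omega, hg]
  have h4 := congrArg (fun X => (dg 32 X i).testBit 31) h'
  simp only [dg_and, hg i, if_pos hi, Nat.testBit_and, Nat.testBit_two_pow_self,
    Bool.and_true] at h4
  rw [dg_sub (by omega) fun j => by rw [h3]; have := he j; omega, h3, if_pos hi] at h4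
  have := Nat.ge_two_pow_of_testBit h4
  have := he i
  rw [if_pos hi] at this
  omega

lemma clip_eq (cap cg on t : ℕ) : clip cap cg on t = cap - sat (cg - sat t on) on := by
  unfold clip clp sat
  rfl

lemma clip_a {c : ℕ} (h : c < 2 ^ 24) : c + 2 ^ 31 < 2 ^ 32 := by omega

lemma clip_b {c t : ℕ} (h : t < 2 ^ 31 + 2 ^ 24) : t - 2 ^ 31 ≤ c + 2 ^ 31 := by omega

lemma clip_c {c t : ℕ} (h : c < 2 ^ 24) : c + 2 ^ 31 - t < 2 ^ 31 + 2 ^ 24 := by omega

lemma clip_d {c t : ℕ} (h : t < 2 ^ 31 + 2 ^ 24) :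
    c - (c + 2 ^ 31 - (t - 2 ^ 31) - 2 ^ 31) = min c (t - 2 ^ 31) := by omega

lemma clip_e {c t : ℕ} : c + 2 ^ 31 - t - 2 ^ 31 ≤ c := by omega

lemma sat_eq (t on : ℕ) : sat t on = t &&& (t / 2 ^ 31 &&& on) * 16777215 := by
  unfold sat
  rw [shr]
  rfl

lemma sat_spec {N on t : ℕ} (hon : Rep N 1 on) (ht : ∀ i < N, dg 32 t i < 2 ^ 31 + 2 ^ 24)
    (i : ℕ) : dg 32 (sat t on) i = if i < N then dg 32 t i - 2 ^ 31 else 0 := by
  have a1 : ∀ x : ℕ, 2 ^ 31 ≤ x → x < 2 ^ 31 + 2 ^ 24 → x % 2 ^ 24 = x - 2 ^ 31 := by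
    intro x _ _
    omega
  rw [sat_eq, dg_sat hon]
  have := ht i
  generalize dg 32 t i = x at this ⊢
  by_cases h : i < N
  · by_cases k : 2 ^ 31 ≤ x
    · rw [if_pos ⟨h, k⟩, if_pos h, a1 x k (this h)]
    · rw [if_neg fun e => k e.2, if_pos h, Nat.sub_eq_zero_of_le (not_le.1 k).le]
  · rw [if_neg fun e => h e.1, if_neg h]

lemma clip_spec {N cap on t : ℕ} (hon : Rep N 1 on)
    (hc : ∀ i, dg 32 cap i < if i < N then 2 ^ 24 else 1)
    (ht : ∀ i < N, dg 32 t i < 2 ^ 31 + 2 ^ 24) (i : ℕ) :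
    dg 32 (clip cap (cap + on * 2 ^ 31) on t) i =
      if i < N then min (dg 32 cap i) (dg 32 t i - 2 ^ 31) else 0 := by
  have h1 := sat_spec hon ht
  have h2 := hon.mul (v := 2 ^ 31) (by omega)
  have h0 : ∀ i, ¬ i < N → dg 32 cap i = 0 := fun i hi => by
    have := hc i
    rw [if_neg hi] at this
    omega
  have h0' : ∀ i < N, dg 32 cap i < 2 ^ 24 := fun i hi => by
    have := hc i
    rwa [if_pos hi] at this
  have h3 : ∀ i, dg 32 (cap + on * 2 ^ 31) i = dg 32 cap i + if i < N then 2 ^ 31 else 0 := by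
    intro i
    rw [dg_add fun j => ?_, h2]
    rw [h2]
    by_cases k : j < N
    · rw [if_pos k]
      exact clip_a (h0' j k)
    · rw [if_neg k, h0 j k]
      omega
  have h4 : ∀ i, dg 32 (cap + on * 2 ^ 31 - sat t on) i =
      if i < N then dg 32 cap i + 2 ^ 31 - (dg 32 t i - 2 ^ 31) else 0 := fun i => by
    rw [dg_sub (by omega) fun j => ?_, h1, h3]
    · by_cases k : i < N
      · simp only [if_pos k]
      · simp only [if_neg k, h0 i k]
    · rw [h1, h3]
      by_cases k : j < N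
      · simp only [if_pos k]
        exact clip_b (ht j k)
      · simp only [if_neg k]
        exact Nat.zero_le _
  have h5 := sat_spec hon (t := cap + on * 2 ^ 31 - sat t on) fun i hi => by
    rw [h4, if_pos hi]
    exact clip_c (h0' i hi)
  rw [clip_eq, dg_sub (by omega) fun j => ?_, h5, h4]
  · by_cases k : i < N
    · simp only [if_pos k]
      exact clip_d (ht i k)
    · simp only [if_neg k, h0 i k]
  · rw [h5, h4]
    by_cases k : j < N
    · simp only [if_pos k]
      exact clip_e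
    · simp only [if_neg k]
      exact Nat.zero_le _

lemma dg_rp24 (M n b : ℕ) {j : ℕ} (hj : j < K) :
    dg 32 (rpP (M &&& rp 32 K * 16777215) (32 * K) n) (K * b + j) =
      if b < n then dig M (32 * j) else 0 := by
  rw [dg_rpP (Nat.and_le_right.trans_lt rep24.lt) _ _ hj, dg_and, rep24, if_pos hj, dig_dg]
  exact if_congr Iff.rfl (Nat.and_two_pow_sub_one_eq_mod _ 24) rfl

/-- Lanes of the aligned vector; the masks have been cut to 24 bits in `K` lanes. -/
lemma dg_aln (Y ma ms mj n b : ℕ) {j : ℕ} (hj : j < K) :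
    dg 32 (aln Y (ma &&& rp 32 K * 16777215) (ms &&& rp 32 K * 16777215)
      (mj &&& rp 32 K * 16777215) (32 * K) n) (K * b + j) =
      if b < n then (dg 32 Y (K * b + j + 1) &&& dig ma (32 * j)) |||
        ((dg 32 Y (K * b + j) &&& dig ms (32 * j)) |||
          ((if 1 ≤ K * b + j then dg 32 Y (K * b + j - 1) else 0) &&& dig mj (32 * j))) else 0 := by
  have e : ∀ ma ms mj, aln Y ma ms mj (32 * K) n = (Y / 2 ^ (32 * 1) &&& rpP ma (32 * K) n) |||
      ((Y &&& rpP ms (32 * K) n) ||| (Y * 2 ^ (32 * 1) &&& rpP mj (32 * K) n)) := by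
    intro ma ms mj
    rw [← shr, ← shl]
    rfl
  rw [e]
  simp only [dg_or, dg_and, dg_rp24 _ _ _ hj, dg_div, dg_shl, add_comm 1]
  split_ifs <;> simp

/-- On a lane with a predecessor the aligned vector is the lane of the predecessor. -/
lemma aln_pred {P : Par} {Y n b j i : ℕ} (h : P.Pred j i) (hb : b < n)
    (hY : ∀ i, dg 32 Y i < 2 ^ 24) :
    dg 32 (aln Y (P.ma &&& rp 32 P.K * 16777215) (P.ms &&& rp 32 P.K * 16777215)
      (P.mj &&& rp 32 P.K * 16777215) (32 * P.K) n) (P.K * b + j) = dg 32 Y (P.K * b + i) := by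
  obtain ⟨h1, -, h2⟩ := h
  have h3 : ∀ i, dg 32 Y i &&& (2 ^ 24 - 1) = dg 32 Y i := fun i => by
    rw [Nat.and_two_pow_sub_one_eq_mod, Nat.mod_eq_of_lt (hY i)]
  rw [dg_aln _ _ _ _ _ _ h1, if_pos hb]
  rcases h2 with ⟨a1, a2, a3, rfl⟩ | ⟨a1, a2, a3, rfl⟩ | ⟨a1, a2, a3, rfl⟩
  · simp only [a1, a2, a3, h3, Nat.and_zero, Nat.or_zero, add_assoc]
  · simp only [a1, a2, a3, h3, Nat.and_zero, Nat.or_zero, Nat.zero_or]
  · rw [if_pos (by omega)]
    simp only [a1, a2, a3, h3, Nat.and_zero, Nat.zero_or]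
    rfl

lemma aln_lt (hK : 0 < K) {Y e : ℕ} (ma ms mj n : ℕ) (hY : ∀ i, dg 32 Y i < 2 ^ e) (i : ℕ) :
    dg 32 (aln Y (ma &&& rp 32 K * 16777215) (ms &&& rp 32 K * 16777215)
      (mj &&& rp 32 K * 16777215) (32 * K) n) i < if i < K * n then 2 ^ e else 1 := by
  induction i using lane_ind hK with
  | h b j hj =>
    rw [dg_aln _ _ _ _ _ _ hj]
    simp only [lane_lt_iff hj]
    split_ifs
    · exact Nat.or_lt_two_pow (Nat.and_le_left.trans_lt (hY _)) (Nat.or_lt_two_pow
        (Nat.and_le_left.trans_lt (hY _)) (Nat.and_le_left.trans_lt (hY _)))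
    · exact Nat.or_lt_two_pow (Nat.and_le_left.trans_lt (hY _)) (Nat.or_lt_two_pow
        (Nat.and_le_left.trans_lt (hY _)) (Nat.and_le_left.trans_lt (by positivity)))
    · omega

lemma bnd_iff (a b : Bool) : bnd a b = true ↔ a = true ∧ b = true := by
  cases a <;> simp [bnd]

/-- A test holds for all pairs of a list. -/
noncomputable def allO (f : ℕ → ℕ → Bool) (l : OL) : Bool :=
  OL.rec (motive := fun _ => Bool) true (fun s M _ ih => bnd (f s M) ih) l

lemma allO_spec {f : ℕ → ℕ → Bool} {l : OL} (h : allO f l = true) {s M : ℕ} (hm : l.mem s M) :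
    f s M = true := by
  induction l with
  | nil => exact hm.elim
  | cons p s' t ih =>
    have h1 := (bnd_iff (f p s') (allO f t)).1 h
    rcases hm with ⟨rfl, rfl⟩ | hm
    exacts [h1.1, ih h1.2 hm]

lemma cv_split {a : ℕ} (q : ℕ) (h : a < 2048) :
    Nat.land (32 * a + 65536 * (32 * q)) 65535 = 32 * a ∧
      Nat.shiftRight (32 * a + 65536 * (32 * q)) 16 = 32 * q := by
  rw [shr, show Nat.land (32 * a + 65536 * (32 * q)) 65535 = _ from land_mask _ 16]
  omega

/-- One digit in lane `l` of every block. -/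
lemma dg_col {v l : ℕ} (hv : v < 2 ^ 32) (hl : l < K) (n b : ℕ) {j : ℕ} (hj : j < K) :
    dg 32 (rpP v (32 * K) n * 2 ^ (32 * l)) (K * b + j) = if b < n ∧ j = l then v else 0 := by
  have e : rpP v (32 * K) n * 2 ^ (32 * l) = rpP (v * 2 ^ (32 * l)) (32 * K) n :=
    mul_right_comm v _ _
  rw [e, dg_rpP (lt_of_dg (by omega) fun i hi => by rw [dg_single hv, if_neg (by omega)]) _ _ hj,
    dg_single hv]
  by_cases h : b < n <;> simp [h]

lemma side_aux {P : Par} (hla : P.la < P.K) (hlq : P.lq < P.K) {n X g : ℕ}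
    (hX : ∀ i, dg 32 X i < 2 ^ 16) (hg : Rep (P.K * n) (2 ^ 31) g)
    (h : side P.cv (32 * P.la) (32 * P.lq) (rp 32 P.K * 16777215) (32 * P.K) n g X = true) :
    (∀ a q, P.Conv a q → ∀ b < n, dg 32 X (P.K * b + a) ≤ dg 32 X (P.K * b + q)) ∧
      ∀ b < n, ∀ b' < n, dg 32 X (P.K * b + P.la) ≤ dg 32 X (P.K * b' + P.lq) := by
  have hK : 0 < P.K := by omega
  have hX' : ∀ i, dg 32 X i < 2 ^ 31 := fun i => (hX i).trans (by omega)
  have e : side P.cv (32 * P.la) (32 * P.lq) (rp 32 P.K * 16777215) (32 * P.K) n g X =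
      bnd (allO (fun s M => cmp (Nat.shiftRight X (Nat.shiftRight s 16))
        (blk X (Nat.land s 65535) (rpP (M &&& rp 32 P.K * 16777215) (32 * P.K) n)) g) P.cv)
        (bnd (cmp X (Nat.shiftLeft (rpP (blk X (32 * P.la) 65535) (32 * P.K) n) (32 * P.lq)) g)
          (cmp (Nat.shiftLeft (rpP (blk X (32 * P.la) 65535) (32 * P.K) n) (32 * P.la))
            (X &&& Nat.shiftLeft (rpP 65535 (32 * P.K) n) (32 * P.la)) g)) := rfl
  rw [e, bnd_iff, bnd_iff, shl, shl, shl] at h
  obtain ⟨h1, h2, h3⟩ := h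
  have h4 : blk X (32 * P.la) 65535 < 2 ^ 16 := by
    rw [blk_eq]
    exact Nat.and_le_right.trans_lt (by omega)
  refine ⟨fun a q ⟨a1, a2, i, M, a3, a4, a5, a6, a7⟩ b hb => ?_, fun b hb b' hb' => ?_⟩
  · have a8 := allO_spec h1 a6
    simp only [(cv_split (q - i) a5).1, (cv_split (q - i) a5).2, shr] at a8
    have := cmp_spec hg (fun i => by rw [dg_div]; exact hX' _) (lane_ind hK fun b j hj => by
      rw [blk_eq, dg_and, dg_rp24 _ _ _ hj]
      simp only [lane_lt_iff hj]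
      refine Nat.and_le_right.trans ?_
      split_ifs
      · rw [dig_eq]; omega
      · rfl) a8 ((lane_lt_iff (show i < P.K by omega)).2 hb)
    rwa [blk_eq, dg_and, dg_rp24 _ _ _ (by omega), if_pos hb, a7, dg_div, dg_div,
      Nat.and_two_pow_sub_one_eq_mod, Nat.mod_eq_of_lt ((hX _).trans (by omega)),
      show a - i + (P.K * b + i) = P.K * b + a by omega,
      show q - i + (P.K * b + i) = P.K * b + q by omega] at this
  · have h5 := cmp_spec hg hX' (lane_ind hK fun b j hj => by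
      rw [dg_col (by omega) hlq _ _ hj]
      simp only [lane_lt_iff hj]
      split_ifs <;> omega) h2 ((lane_lt_iff hlq).2 hb')
    have h6 := cmp_spec hg (lane_ind hK fun b j hj => by
      rw [dg_col (by omega) hla _ _ hj]
      split_ifs <;> omega) (lane_ind hK fun b j hj => by
      rw [dg_and, dg_col (by omega) hla _ _ hj]
      simp only [lane_lt_iff hj]
      refine Nat.and_le_right.trans ?_
      split_ifs <;> omega) h3 ((lane_lt_iff hla).2 hb)
    have h7 : ∀ x : ℕ, x &&& 65535 = x % 2 ^ 16 := fun x => Nat.and_two_pow_sub_one_eq_mod x 16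
    rw [dg_col (by omega) hlq _ _ hlq, if_pos ⟨hb', rfl⟩] at h5
    rw [dg_and, dg_col (by omega) hla _ _ hla, dg_col (by omega) hla _ _ hla, if_pos ⟨hb, rfl⟩,
      if_pos ⟨hb, rfl⟩, h7, Nat.mod_eq_of_lt (hX _)] at h6
    exact h6.trans h5

/-- The conditions between the lanes of one weight. -/
lemma side_spec {P : Par} (hla : P.la < P.K) (hlq : P.lq < P.K) {n X : ℕ}
    (hX : ∀ i, dg 32 X i < 2 ^ 16)
    (h : side P.cv (32 * P.la) (32 * P.lq) (rp 32 P.K * 16777215) (32 * P.K) n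
      (rpP (rp 32 P.K) (32 * P.K) n * 2 ^ 31) X = true) :
    (∀ a q, P.Conv a q → ∀ b < n, dg 32 X (P.K * b + a) ≤ dg 32 X (P.K * b + q)) ∧
      ∀ b < n, ∀ b' < n, dg 32 X (P.K * b + P.la) ≤ dg 32 X (P.K * b' + P.lq) := by
  exact side_aux hla hlq hX ((rep_on (by omega) n).mul (by omega)) h

end Pool.Agent.Work.MP_7cb3ca_co.C3
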